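import Pool.Agent.H.MP_ad013a_pr.h63.K

/-!
# The checker for the upper bound

An entry is a number of 160 bits. It holds two sides as before; for a pair of states the position
`p` (from the far end) of the site at which they differ, `e` (the corner is in the region) and
`R` (the side which holds the far end of the region); the type `D` (state or pair), the kind
`k` (`0`: a letter is read, `1`: the far hole of the first side is split off, `2`: passage from
a pair to a state, `3`: a particle is turned into a hole), a rank, the value `W`, and two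
indices with two flags each.
-/

namespace Pool.Agent.ad013a

/-- entry number `s` in the number `n` -/
noncomputable def uent (n s : Nat) : Nat :=
  Nat.land (Nat.shiftRight n (Nat.mul 160 s)) 1461501637330902918203684832716283019655932542975

/-- field -/
noncomputable def up (e : Nat) : Nat := Nat.pow 2 (Nat.land (Nat.shiftRight e 64) 15)
/-- field -/
noncomputable def ue (e : Nat) : Nat := Nat.land (Nat.shiftRight e 68) 1
/-- field -/
noncomputable def uR (e : Nat) : Nat := Nat.land (Nat.shiftRight e 69) 1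
/-- field -/
noncomputable def uD (e : Nat) : Nat := Nat.land (Nat.shiftRight e 70) 1
/-- field -/
noncomputable def uk (e : Nat) : Nat := Nat.land (Nat.shiftRight e 71) 3
/-- field -/
noncomputable def ur (e : Nat) : Nat := Nat.land (Nat.shiftRight e 73) 31
/-- field -/
noncomputable def uW (e : Nat) : Nat := Nat.land (Nat.shiftRight e 78) 274877906943
/-- field -/
noncomputable def up0 (e : Nat) : Nat := Nat.land (Nat.shiftRight e 116) 1048575
/-- field -/
noncomputable def uf0 (e : Nat) : Nat := Nat.land (Nat.shiftRight e 136) 3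
/-- field -/
noncomputable def up1 (e : Nat) : Nat := Nat.land (Nat.shiftRight e 138) 1048575
/-- field -/
noncomputable def uf1 (e : Nat) : Nat := Nat.land (Nat.shiftRight e 158) 3

/-- choice -/
noncomputable def rb (x y : Bool) (c : Bool) : Bool := Bool.rec (motive := fun _ => Bool) x y c

/-- mask of the holes of the second state: `b` says whether the site is on this side -/
noncomputable def mk2 (b : Bool) (h e p : Nat) : Nat :=
  Bool.rec (motive := fun _ => Nat) h
    (Bool.rec (motive := fun _ => Nat) (Nat.add h p) (Nat.sub h p) (Nat.beq e 0)) b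

/-- mask of the holes of the second state, first side -/
noncomputable def uA (t : Nat) : Nat := mk2 (Nat.beq (uR t) (ue t)) (fhx t) (ue t) (up t)
/-- mask of the holes of the second state, second side -/
noncomputable def uB (t : Nat) : Nat :=
  mk2 (Nat.beq (uR t) (Nat.sub 1 (ue t))) (fhy t) (ue t) (up t)

/-- far particles may be dropped -/
noncomputable def cmpT (h l n h' l' n' : Nat) : Bool :=
  rb false ((fun d => rb false (Nat.beq (Nat.shiftRight l d) l')
    (Nat.beq (Nat.shiftLeft h' d) h)) (Nat.sub n n')) (Nat.ble n' n)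

/-- far particles may be dropped, in both states -/
noncomputable def cmpR (h k l n h' k' l' n' : Nat) : Bool :=
  rb false ((fun d => rb false (rb false (Nat.beq (Nat.shiftRight l d) l')
    (Nat.beq (Nat.shiftLeft h' d) h)) (Nat.beq (Nat.shiftLeft k' d) k)) (Nat.sub n n'))
    (Nat.ble n' n)

/-- far sites may be dropped -/
noncomputable def cmpF (h k l n h' k' l' n' : Nat) : Bool :=
  rb false ((fun d => rb false (rb false (Nat.beq (Nat.shiftRight l d) l')
    (Nat.beq (Nat.shiftRight h d) h')) (Nat.beq (Nat.shiftRight k d) k')) (Nat.sub n n'))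
    (Nat.ble n' n)

/-- complement of the letters if `c`; `n` is the length -/
noncomputable def cpn (c : Bool) (l n : Nat) : Nat :=
  Bool.rec (motive := fun _ => Nat) l (Nat.sub (Nat.sub (Nat.pow 2 n) 1) l) c

/-- pointer from a state; `f` are the flags and `t` is the entry pointed to -/
noncomputable def ptP (f hA lA nA hB lB nB t : Nat) : Bool :=
  (fun a b =>
    rb false (rb
      (rb false (cmpT hB b nB (fhy t) (fly t) (fny t)) (cmpT hA a nA (fhx t) (flx t) (fnx t)))
      (rb false (cmpT hA a nA (fhy t) (fly t) (fny t)) (cmpT hB b nB (fhx t) (flx t) (fnx t)))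
      (Nat.beq (Nat.land f 1) 1)) (Nat.beq (uD t) 0))
  (cpn (Nat.ble 2 f) lA nA) (cpn (Nat.ble 2 f) lB nB)

/-- pointer from a pair, no exchange -/
noncomputable def ptD0 (R hA kA a nA hB kB b nB t : Nat) : Bool :=
  rb
    (rb false (cmpR hB kB b nB (fhy t) (uB t) (fly t) (fny t))
      (cmpF hA kA a nA (fhx t) (uA t) (flx t) (fnx t)))
    (rb false (cmpF hB kB b nB (fhy t) (uB t) (fly t) (fny t))
      (cmpR hA kA a nA (fhx t) (uA t) (flx t) (fnx t)))
    (Nat.beq R 0)

/-- pointer from a pair; `f` are the flags and `t` is the entry pointed to -/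
noncomputable def ptD (f R e hA kA lA nA hB kB lB nB t : Nat) : Bool :=
  (fun a b =>
    rb false (rb false (rb
      (rb false (ptD0 R hA kA a nA hB kB b nB t) (Nat.beq (uR t) R))
      (rb false (ptD0 (Nat.sub 1 R) hB kB b nB hA kA a nA t) (Nat.beq (uR t) (Nat.sub 1 R)))
      (Nat.beq (Nat.land f 1) 1)) (Nat.beq (ue t) e)) (Nat.beq (uD t) 1))
  (cpn (Nat.ble 2 f) lA nA) (cpn (Nat.ble 2 f) lB nB)

/-- a letter is read, state; `b` is `2 ^ nA` for the letter `1` and `0` for the letter `0` -/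
noncomputable def rdP (f b hA lA nA lB nB w r t : Nat) : Bool :=
  ptP f (Nat.add hA (Nat.mul (Nat.pow 2 nA) (Nat.sub 1 r))) (Nat.add lA b) (Nat.succ nA)
    (Nat.sub w (Nat.mul (Nat.pow 2 nB) r)) lB nB t

/-- a letter is read, pair -/
noncomputable def rdD (f R e b hA kA lA nA lB nB w w' r r' t : Nat) : Bool :=
  ptD f R (Nat.sub (Nat.add e r) r') (Nat.add hA (Nat.mul (Nat.pow 2 nA) (Nat.sub 1 r)))
    (Nat.add kA (Nat.mul (Nat.pow 2 nA) (Nat.sub 1 r'))) (Nat.add lA b) (Nat.succ nA)
    (Nat.sub w (Nat.mul (Nat.pow 2 nB) r)) (Nat.sub w' (Nat.mul (Nat.pow 2 nB) r')) lB nB t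

/-- the inequality for a letter -/
noncomputable def iq (zn zd Ld G W r0 r1 W0 W1 : Nat) : Bool :=
  Nat.ble (Nat.mul Ld (Nat.add (Nat.mul (Nat.add zd (Nat.mul r0 (Nat.sub zn zd))) W0)
    (Nat.mul (Nat.add zd (Nat.mul r1 (Nat.sub zn zd))) W1))) (Nat.mul G W)

/-- kind 0, state -/
noncomputable def k0P (zn zd Ld G : Nat) (g : Nat → Nat) (e : Nat) : Bool :=
  (fun t0 t1 nA nB lB w0 w1 =>
    (fun r0 r1 =>
      rb false (rb false (iq zn zd Ld G (uW e) r0 r1 (uW t0) (uW t1))
        (rdP (uf1 e) (Nat.pow 2 nA) (fhx e) (flx e) nA lB nB w1 r1 t1))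
        (rdP (uf0 e) 0 (fhx e) (flx e) nA lB nB w0 r0 t0))
    (Nat.shiftRight w0 nB) (Nat.shiftRight w1 nB))
  (g (up0 e)) (g (up1 e)) (fnx e) (fny e) (fly e)
  (car (fhy e) (Nat.sub (Nat.sub (Nat.pow 2 (fny e)) 1) (fly e))) (car (fhy e) (fly e))

/-- kind 0, pair -/
noncomputable def k0D (zn zd Ld G : Nat) (g : Nat → Nat) (e : Nat) : Bool :=
  (fun t0 t1 nA nB lB w0 w1 v0 v1 =>
    (fun r0 r1 s0 s1 =>
      rb false (rb false (iq zn zd Ld G (uW e) r0 r1 (uW t0) (uW t1))
        (rdD (uf1 e) (uR e) (ue e) (Nat.pow 2 nA) (fhx e) (uA e) (flx e) nA lB nB w1 v1 r1 s1 t1))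
        (rdD (uf0 e) (uR e) (ue e) 0 (fhx e) (uA e) (flx e) nA lB nB w0 v0 r0 s0 t0))
    (Nat.shiftRight w0 nB) (Nat.shiftRight w1 nB) (Nat.shiftRight v0 nB) (Nat.shiftRight v1 nB))
  (g (up0 e)) (g (up1 e)) (fnx e) (fny e) (fly e)
  (car (fhy e) (Nat.sub (Nat.sub (Nat.pow 2 (fny e)) 1) (fly e))) (car (fhy e) (fly e))
  (car (uB e) (Nat.sub (Nat.sub (Nat.pow 2 (fny e)) 1) (fly e))) (car (uB e) (fly e))

/-- the pair for a far hole of the first side -/
noncomputable def spw (e t : Nat) : Bool :=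
  ptD (uf1 e) 0 0 (fhx e) (Nat.sub (fhx e) 1) (flx e) (fnx e) (fhy e) (fhy e) (fly e) (fny e) t

/-- kind 1, state -/
noncomputable def k1P (g : Nat → Nat) (e : Nat) : Bool :=
  (fun t0 t1 =>
    rb false (rb false (rb false (rb false (rb false (rb false
      (spw e t1)
      (ptP (uf0 e) (Nat.shiftRight (fhx e) 1) (Nat.shiftRight (flx e) 1) (Nat.sub (fnx e) 1)
        (fhy e) (fly e) (fny e) t0))
      (Nat.beq (Nat.land (fhx e) 1) 1))
      (Nat.ble 1 (fnx e)))
      (Nat.ble (Nat.succ (ur t0)) (ur e)))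
      (Nat.ble (Nat.succ (ur t1)) (ur e)))
      (Nat.ble (Nat.add (uW t0) (uW t1)) (uW e)))
  (g (up0 e)) (g (up1 e))

/-- kind 1, pair -/
noncomputable def k1D (g : Nat → Nat) (e : Nat) : Bool :=
  (fun t0 t1 =>
    rb false (rb false (rb false (rb false (rb false (rb false (rb false (rb false
      (spw e t1)
      (ptD (uf0 e) 0 (ue e) (Nat.shiftRight (fhx e) 1) (Nat.shiftRight (uA e) 1)
        (Nat.shiftRight (flx e) 1) (Nat.sub (fnx e) 1) (fhy e) (uB e) (fly e) (fny e) t0))
      (Nat.beq (Nat.land (fhx e) 1) 1))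
      (Nat.beq (Nat.land (uA e) 1) 1))
      (Nat.beq (uR e) 0))
      (Nat.ble 1 (fnx e)))
      (Nat.ble (Nat.succ (ur t0)) (ur e)))
      (Nat.ble (Nat.succ (ur t1)) (ur e)))
      (Nat.ble (Nat.add (uW t0) (uW t1)) (uW e)))
  (g (up0 e)) (g (up1 e))

/-- kind 2, pair -/
noncomputable def k2D (zn zd : Nat) (g : Nat → Nat) (e : Nat) : Bool :=
  (fun t0 =>
    rb false (rb false (rb false
      (ptP (uf0 e) (fhx e) (flx e) (fnx e) (fhy e) (fly e) (fny e) t0)
      (Nat.beq (ue e) 1))
      (Nat.ble (Nat.succ (ur t0)) (ur e)))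
      (Nat.ble (Nat.mul (Nat.sub zn zd) (uW t0)) (Nat.mul zn (uW e))))
  (g (up0 e))

/-- kind 3, pair -/
noncomputable def k3D (zn zd : Nat) (g : Nat → Nat) (e : Nat) : Bool :=
  (fun t0 q =>
    rb false (rb false (rb false (rb false (rb false (rb false (rb false (rb false
      (ptD (uf0 e) 0 0 (Nat.add (fhx e) q) (Nat.sub (Nat.add (fhx e) q) 1) (flx e) (fnx e)
        (fhy e) (fhy e) (fly e) (fny e) t0)
      (Nat.beq (Nat.land (fhx e) 1) 1))
      (Nat.beq (Nat.land (fhx e) q) 0))
      (Nat.ble (Nat.succ (up1 e)) (fnx e)))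
      (Nat.beq (uR e) 0))
      (Nat.beq (ue e) 0))
      (Nat.beq (up e) 1))
      (Nat.ble (Nat.succ (ur t0)) (ur e)))
      (Nat.ble (Nat.mul zd (uW t0)) (Nat.mul zn (uW e))))
  (g (up0 e)) (Nat.pow 2 (up1 e))

/-- check of an entry -/
noncomputable def chkU (zn zd Ld G : Nat) (g : Nat → Nat) (e : Nat) : Bool :=
  rb false (rb
    (rb (rb (rb (k3D zn zd g e) (k2D zn zd g e) (Nat.beq (uk e) 2)) (k1D g e) (Nat.beq (uk e) 1))
      (k0D zn zd Ld G g e) (Nat.beq (uk e) 0))
    (rb (rb false (k1P g e) (Nat.beq (uk e) 1))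
      (k0P zn zd Ld G g e) (Nat.beq (uk e) 0))
    (Nat.beq (uD e) 0)) (Nat.ble 1 (uW e))

end Pool.Agent.ad013a
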