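import Pool.Agent.H.MP_ad013a_pr.h63u.Prof

/-!
# Pairs of states which differ at one site
-/

namespace Pool.Agent.ad013a

/-- number of particles -/
def cnt : List Site → ℤ
  | [] => 0
  | s :: t => (s.1.toNat : ℤ) + cnt t

/-- the word ahead of the far end of a side -/
def ahead : List Site → List Bool → List Bool
  | [], A => A
  | s :: t, A => ahead t (s.2 :: A)

theorem FX_append (t u : List Site) (A Y : List Bool) :
    FX (t ++ u) A Y = max (FX t A Y) (FX u (ahead t A) Y - cnt t) := by
  induction t generalizing A with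
  | nil =>
    have := FX_ge_LCS u A Y
    simp [FX, cnt, ahead, this]
  | cons s t ih =>
    rw [List.cons_append, FX, ih, FX, cnt, ahead]
    omega

/-- a side of particles only -/
theorem FX_particles (u : List Site) (hu : ∀ s ∈ u, s.1 = true) (A Y : List Bool) :
    FX u A Y = LCS A Y := by
  induction u generalizing A with
  | nil => rfl
  | cons s u ih =>
    have hs : s.1 = true := hu s (by simp)
    rw [FX, ih (fun r hr => hu r (by simp [hr])), hs]
    have : (LCS (s.2 :: A) Y : ℤ) ≤ LCS A Y + 1 := by exact_mod_cast LCS_cons_left_le s.2 A Y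
    simp only [Bool.toNat_true, Nat.cast_one]
    omega

theorem FX_far (t : List Site) (A Y : List Bool) :
    (LCS (ahead t A) Y : ℤ) - cnt t ≤ FX t A Y := by
  induction t generalizing A with
  | nil => simp [FX, ahead, cnt]
  | cons s t ih =>
    have := ih (s.2 :: A)
    rw [FX, ahead, cnt]
    omega

/-- far particles are of no use -/
theorem FX_trim (t u : List Site) (hu : ∀ s ∈ u, s.1 = true) (A Y : List Bool) :
    FX (t ++ u) A Y = FX t A Y := by
  rw [FX_append, FX_particles u hu]
  exact max_eq_left (FX_far t A Y)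

theorem FX_take_le (t u : List Site) (A Y : List Bool) : FX t A Y ≤ FX (t ++ u) A Y := by
  rw [FX_append]; exact le_max_left _ _

/-- `Rel1 s s'`: `s'` arises from `s` by turning one hole into a particle -/
inductive Rel1 : List Site → List Site → Prop
  | here (c : Bool) (t : List Site) : Rel1 ((false, c) :: t) ((true, c) :: t)
  | there (r : Site) {t t' : List Site} (h : Rel1 t t') : Rel1 (r :: t) (r :: t')

theorem Rel1.ahead_eq {s s' : List Site} (h : Rel1 s s') (A : List Bool) :
    ahead s' A = ahead s A := by
  induction h generalizing A with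
  | here c t => rfl
  | there r _ ih => exact ih _

theorem Rel1.cnt_eq {s s' : List Site} (h : Rel1 s s') : cnt s' = cnt s + 1 := by
  induction h with
  | here c t => simp [cnt]; ring
  | there r _ ih => rw [cnt, cnt, ih]; ring

theorem Rel1.length_eq {s s' : List Site} (h : Rel1 s s') : s'.length = s.length := by
  induction h with
  | here c t => rfl
  | there r _ ih => rw [List.length_cons, List.length_cons, ih]

theorem Rel1.FX_le {s s' : List Site} (h : Rel1 s s') (A Y : List Bool) :
    FX s' A Y ≤ FX s A Y ∧ FX s A Y ≤ FX s' A Y + 1 := by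
  induction h generalizing A with
  | here c t => simp [FX]; omega
  | there r _ ih =>
    have := ih (r.2 :: A)
    rw [FX, FX]
    omega

/-- the carriers in two sides which differ at one site -/
theorem Rel1.pass {s s' : List Site} (h : Rel1 s s') (a : Bool) :
    ((Pool.Agent.ad013a.pass a s).2 = (Pool.Agent.ad013a.pass a s').2 ∧
      Rel1 (Pool.Agent.ad013a.pass a s).1 (Pool.Agent.ad013a.pass a s').1) ∨
    ((Pool.Agent.ad013a.pass a s).2 = true ∧ (Pool.Agent.ad013a.pass a s').2 = false ∧
      (Pool.Agent.ad013a.pass a s).1 = (Pool.Agent.ad013a.pass a s').1) := by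
  induction h with
  | here c t =>
    simp only [Pool.Agent.ad013a.pass]
    rcases Pool.Agent.ad013a.pass a t with ⟨t', v⟩
    cases v
    · by_cases hc : c = a
      · right; simp [stp, hc]
      · left; simp [stp, hc]; exact Rel1.here c t'
    · right; simp [stp]
  | there r h ih =>
    rename_i t t'
    simp only [Pool.Agent.ad013a.pass]
    rcases hp : Pool.Agent.ad013a.pass a t with ⟨u, v⟩
    rcases hp' : Pool.Agent.ad013a.pass a t' with ⟨u', v'⟩
    rw [hp, hp'] at ih
    simp only at ih
    rcases ih with ⟨h1, h2⟩ | ⟨h1, h2, h3⟩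
    · subst h1
      left
      exact ⟨rfl, Rel1.there _ h2⟩
    · subst h1 h2 h3
      obtain ⟨p, c⟩ := r
      cases p
      · by_cases hc : c = a
        · left; simp [stp, hc]; exact Rel1.here a u
        · right; simp [stp, hc]
      · left; simp [stp]; exact Rel1.here c u

theorem Rel1.flp {s s' : List Site} (h : Rel1 s s') :
    Rel1 (Pool.Agent.ad013a.flp s) (Pool.Agent.ad013a.flp s') := by
  induction h with
  | here c t => exact Rel1.here _ _
  | there r _ ih => exact Rel1.there _ ih

/-- appending at the far end -/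
theorem Rel1.append {s s' : List Site} (h : Rel1 s s') (u : List Site) :
    Rel1 (s ++ u) (s' ++ u) := by
  induction h with
  | here c t => exact Rel1.here c (t ++ u)
  | there r _ ih => exact Rel1.there r ih

theorem Rel1.far (t : List Site) (c : Bool) : Rel1 (t ++ [(false, c)]) (t ++ [(true, c)]) := by
  induction t with
  | nil => exact Rel1.here c []
  | cons r t ih => exact Rel1.there r ih

/-- a pair of states: `R` says which side holds the far end of the region, `e` whether the
corner belongs to the region -/
def Dp (R e : Bool) (x y x' y' : List Site) : Prop :=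
  match R, e with
  | false, false => Rel1 x x' ∧ y = y'
  | false, true => x = x' ∧ Rel1 y' y
  | true, false => x = x' ∧ Rel1 y y'
  | true, true => Rel1 x' x ∧ y = y'

theorem Dp_swap {R e : Bool} {x y x' y' : List Site} (h : Dp R e x y x' y') :
    Dp (!R) e y x y' x' := by
  cases R <;> cases e <;> exact ⟨h.2, h.1⟩

theorem Dp_flp {R e : Bool} {x y x' y' : List Site} (h : Dp R e x y x' y') :
    Dp R e (flp x) (flp y) (flp x') (flp y') := by
  cases R <;> cases e
  · exact ⟨h.1.flp, congrArg flp h.2⟩
  · exact ⟨congrArg flp h.1, h.2.flp⟩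
  · exact ⟨congrArg flp h.1, h.2.flp⟩
  · exact ⟨h.1.flp, congrArg flp h.2⟩

/-- reading a letter in the first word -/
theorem Dp_step {R e : Bool} {x y x' y' : List Site} (h : Dp R e x y x' y') (a : Bool) :
    ∃ e' : Bool, Dp R e' (nx a x y) (ny a y) (nx a x' y') (ny a y') ∧
      (e'.toNat : ℤ) = e.toNat + (pass a y).2.toNat - (pass a y').2.toNat := by
  unfold nx ny
  cases R <;> cases e
  · obtain ⟨h1, rfl⟩ := h
    exact ⟨false, ⟨Rel1.there _ h1, rfl⟩, by simp⟩
  · obtain ⟨rfl, h2⟩ := h
    rcases h2.pass a with ⟨h3, h4⟩ | ⟨h3, h4, h5⟩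
    · refine ⟨true, ⟨by rw [h3], h4⟩, by rw [h3]; simp⟩
    · refine ⟨false, ⟨?_, h5.symm⟩, by rw [h3, h4]; simp⟩
      rw [h3, h4]
      exact Rel1.here a x
  · obtain ⟨rfl, h2⟩ := h
    rcases h2.pass a with ⟨h3, h4⟩ | ⟨h3, h4, h5⟩
    · refine ⟨false, ⟨by rw [h3], h4⟩, by rw [h3]; simp⟩
    · refine ⟨true, ⟨?_, h5⟩, by rw [h3, h4]; simp⟩
      rw [h3, h4]
      exact Rel1.here a x
  · obtain ⟨h1, rfl⟩ := h
    exact ⟨true, ⟨Rel1.there _ h1, rfl⟩, by simp⟩

end Pool.Agent.ad013a
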