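import Pool.Agent.H.MP_ad013a_pr.h63.Adapt

/-!
# The exact evolution of a profile

`FX s A Y` is the largest value, over the points of a side `s` (near end first) whose corner has
the words `A` and `Y` ahead, of minus the number of particles passed plus the length of a longest
common subsequence from there on.
-/

namespace Pool.Agent.ad013a

theorem LCS_le_of {x y : List Bool} {n : ℕ}
    (h : ∀ w : List Bool, w.Sublist x → w.Sublist y → w.length ≤ n) : LCS x y ≤ n := by
  obtain ⟨w, h1, h2, h3⟩ := LCS_spec x y
  rw [← h3]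
  exact h w h1 h2

theorem LCS_cons_left_le (c : Bool) (A Y : List Bool) : LCS (c :: A) Y ≤ LCS A Y + 1 := by
  refine LCS_le_of (fun w h1 h2 => ?_)
  cases w with
  | nil => simp
  | cons b w =>
    rw [List.length_cons]
    have h3 : w.Sublist A := by
      have := h1.tail
      simpa using this
    have h4 : w.Sublist Y := (List.sublist_cons_self b w).trans h2
    have := le_LCS h3 h4
    omega

theorem LCS_cons_right_le (c : Bool) (A Y : List Bool) : LCS A (c :: Y) ≤ LCS A Y + 1 := by
  rw [LCS_comm A, LCS_comm A]
  exact LCS_cons_left_le c Y A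

theorem LCS_cons_same (a : Bool) (A Y : List Bool) : LCS (a :: A) (a :: Y) = LCS A Y + 1 := by
  apply le_antisymm
  · refine LCS_le_of (fun w h1 h2 => ?_)
    cases w with
    | nil => simp
    | cons b w =>
      rw [List.length_cons]
      have h3 : w.Sublist A := by simpa using h1.tail
      have h4 : w.Sublist Y := by simpa using h2.tail
      have := le_LCS h3 h4
      omega
  · exact LCS_cons a A Y

theorem LCS_cons_ne {c a : Bool} (h : c ≠ a) (A Y : List Bool) :
    LCS (c :: A) (a :: Y) = max (LCS A (a :: Y)) (LCS (c :: A) Y) := by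
  apply le_antisymm
  · refine LCS_le_of (fun w h1 h2 => ?_)
    cases w with
    | nil => simp
    | cons b w =>
      by_cases hb : b = c
      · subst hb
        have h3 : (b :: w).Sublist Y := by
          rcases List.sublist_cons_iff.1 h2 with h3 | ⟨r, hr, -⟩
          · exact h3
          · exact absurd (List.cons.inj hr).1 h
        exact (le_LCS h1 h3).trans (le_max_right _ _)
      · have h3 : (b :: w).Sublist A := by
          rcases List.sublist_cons_iff.1 h1 with h3 | ⟨r, hr, -⟩
          · exact h3
          · exact absurd (List.cons.inj hr).1 hb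
        exact (le_LCS h3 h2).trans (le_max_left _ _)
  · exact max_le (LCS_mono (List.sublist_cons_self c A) (List.Sublist.refl _))
      (LCS_mono (List.Sublist.refl _) (List.sublist_cons_self a Y))

/-- largest value over the points of a side -/
noncomputable def FX : List Site → List Bool → List Bool → ℤ
  | [], A, Y => (LCS A Y : ℤ)
  | s :: t, A, Y => max (LCS A Y : ℤ) (FX t (s.2 :: A) Y - (s.1.toNat : ℤ))

theorem FX_ge_LCS (s : List Site) (A Y : List Bool) : (LCS A Y : ℤ) ≤ FX s A Y := by
  cases s with
  | nil => exact le_rfl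
  | cons s t => exact le_max_left _ _

/-- the evolution of a side -/
theorem FX_pass (a : Bool) (s : List Site) (A Y : List Bool) :
    FX s A (a :: Y) = max (LCS A (a :: Y) : ℤ) (((pass a s).2.toNat : ℤ) + FX (pass a s).1 A Y) := by
  induction s generalizing A with
  | nil =>
    have : (LCS A Y : ℤ) ≤ LCS A (a :: Y) := LCS_cons_right_ge a A Y
    simp [FX, pass, this]
  | cons s t ih =>
    obtain ⟨p, c⟩ := s
    rw [FX, ih (c :: A), pass]
    rcases hpt : pass a t with ⟨t', v⟩
    have g1 : (LCS A Y : ℤ) ≤ LCS A (a :: Y) := LCS_cons_right_ge a A Y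
    have g2 : (LCS (c :: A) Y : ℤ) ≤ FX t' (c :: A) Y := FX_ge_LCS t' (c :: A) Y
    have g3 : (LCS A Y : ℤ) ≤ LCS (c :: A) Y := LCS_cons_left_ge c A Y
    have g4 : (LCS (c :: A) (a :: Y) : ℤ) ≤ LCS A (a :: Y) + 1 := by
      exact_mod_cast LCS_cons_left_le c A (a :: Y)
    have g5 : c = a → (LCS (c :: A) (a :: Y) : ℤ) = LCS A Y + 1 := by
      intro h
      subst h
      exact_mod_cast LCS_cons_same c A Y
    have g6 : c ≠ a → (LCS (c :: A) (a :: Y) : ℤ) = max (LCS A (a :: Y) : ℤ) (LCS (c :: A) Y) := by
      intro h
      exact_mod_cast LCS_cons_ne h A Y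
    by_cases hc : c = a
    · have := g5 hc
      cases v <;> cases p <;> simp [stp, FX, hc] at * <;> omega
    · have := g6 hc
      cases v <;> cases p <;> simp [stp, FX, hc] at * <;> omega

/-- the value of a state: both sides -/
noncomputable def FF (x y : List Site) (X Y : List Bool) : ℤ := max (FX x X Y) (FX y Y X)

theorem FF_comm (x y : List Site) (X Y : List Bool) : FF x y X Y = FF y x Y X := max_comm _ _

/-- reading a letter in the first word -/
theorem FF_step (a : Bool) (x y : List Site) (X Y : List Bool) :
    FF x y (a :: X) Y = ((pass a y).2.toNat : ℤ) + FF (nx a x y) (ny a y) X Y := by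
  have h1 := FX_pass a y Y X
  have g1 : (LCS Y (a :: X) : ℤ) ≤ FX x (a :: X) Y := by
    rw [LCS_comm]; exact FX_ge_LCS x (a :: X) Y
  have g2 : (LCS X Y : ℤ) ≤ FX (ny a y) Y X := by
    rw [LCS_comm]; exact FX_ge_LCS (ny a y) Y X
  rw [FF, FF, nx, FX, h1]
  simp only [ny] at g2 ⊢
  omega

end Pool.Agent.ad013a
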