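import Pool.Agent.H.MP_ad013a_pr.h63u.USound

/-!
# From the checks to the upper bound
-/

namespace Pool.Agent.ad013a

open Filter Topology

/-- the table -/
def UT (g : ℕ → ℕ) (i : ℕ) (s : US) (W : ℝ) : Prop :=
  ∃ j, ur (g j) = i ∧ EncU (g j) s ∧ W = (uW (g j) : ℝ)

theorem iq_real {zn zd Ld Ln G W r0 r1 W0 W1 : ℕ} (hzd : 0 < zd) (hz : zd ≤ zn) (hLd : 0 < Ld)
    (hG : G = 2 * Ln * zd) {b0 b1 : Bool} (h0 : r0 = b0.toNat) (h1 : r1 = b1.toNat)
    (H : iq zn zd Ld G W r0 r1 W0 W1 = true) :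
    1 / 2 * (((zn : ℝ) / zd) ^ b0.toNat * W0) + 1 / 2 * (((zn : ℝ) / zd) ^ b1.toNat * W1) ≤
      ((Ln : ℝ) / Ld) * W := by
  unfold iq at H
  rw [Nat_ble_eq] at H
  change Ld * ((zd + r0 * (zn - zd)) * W0 + (zd + r1 * (zn - zd)) * W1) ≤ G * W at H
  have H' := (Nat.cast_le (α := ℝ)).2 H
  rw [hG] at H'
  push_cast [Nat.cast_sub hz] at H'
  have hzd' : (0 : ℝ) < zd := by exact_mod_cast hzd
  have hLd' : (0 : ℝ) < Ld := by exact_mod_cast hLd
  have e0 : ((zn : ℝ) / zd) ^ b0.toNat = (zd + r0 * (zn - zd)) / zd := by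
    rw [h0]; cases b0
    · simp; field_simp
    · simp
  have e1 : ((zn : ℝ) / zd) ^ b1.toNat = (zd + r1 * (zn - zd)) / zd := by
    rw [h1]; cases b1
    · simp; field_simp
    · simp
  rw [e0, e1]
  have e2 : 1 / 2 * (((zd : ℝ) + r0 * (zn - zd)) / zd * W0) +
      1 / 2 * (((zd : ℝ) + r1 * (zn - zd)) / zd * W1) =
      (Ld * ((zd + r0 * (zn - zd)) * W0 + (zd + r1 * (zn - zd)) * W1)) / (2 * zd * Ld) := by
    field_simp
  have e3 : ((Ln : ℝ) / Ld) * W = (2 * Ln * zd * W) / (2 * zd * Ld) := by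
    field_simp
  rw [e2, e3]
  exact div_le_div_of_nonneg_right H' (by positivity)

/-- a far hole -/
theorem far_hole {x : List Site} (h : Nat.land (eh x.reverse) 1 = 1) :
    ∃ t c, x = t ++ [(false, c)] := by
  rcases List.eq_nil_or_concat x with rfl | ⟨t, ⟨p, c⟩, rfl⟩
  · exact absurd h (by decide)
  · refine ⟨t, c, ?_⟩
    rw [List.concat_eq_append, List.reverse_append, List.reverse_singleton] at h
    change Nat.land (Nat.bit (!p) (eh t.reverse)) 1 = 1 at h
    have h' : (Nat.bit (!p) (eh t.reverse)) % 2 = 1 := by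
      rw [← Nat.and_one_is_mod]; exact h
    rw [Nat.bit_val] at h'
    cases p
    · simp
    · exfalso
      simp at h'

theorem eh_snoc (t : List Site) (p c : Bool) :
    eh (t ++ [(p, c)]).reverse = 2 * eh t.reverse + (!p).toNat := by
  rw [List.reverse_append, List.reverse_singleton]
  change Nat.bit (!p) (eh t.reverse) = _
  rw [Nat.bit_val]

theorem el_snoc (t : List Site) (p c : Bool) :
    el (t ++ [(p, c)]).reverse = 2 * el t.reverse + c.toNat := by
  rw [List.reverse_append, List.reverse_singleton]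
  change Nat.bit c (el t.reverse) = _
  rw [Nat.bit_val]

theorem half_bit (n : ℕ) (b : Bool) : Nat.shiftRight (2 * n + b.toNat) 1 = n := by
  change (2 * n + b.toNat) >>> 1 = n
  rw [Nat.shiftRight_eq_div_pow]
  have := Bool.toNat_le b
  omega

/-- a particle may be turned into a hole -/
theorem flat_ex (f : List Site) (j : ℕ) (hj : j < f.length) (h : eh f &&& 2 ^ j = 0) :
    ∃ g, Rel1 g.reverse f.reverse ∧ eh g = eh f + 2 ^ j ∧ el g = el f ∧
      g.length = f.length := by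
  induction f generalizing j with
  | nil => simp at hj
  | cons x f ih =>
    obtain ⟨p, c⟩ := x
    cases j with
    | zero =>
      have hp : p = true := by
        cases p
        · exfalso
          rw [eh, pow_zero, Nat.and_one_is_mod, Nat.bit_val] at h
          simp at h
        · rfl
      subst hp
      refine ⟨(false, c) :: f, ?_, ?_, rfl, rfl⟩
      · rw [List.reverse_cons, List.reverse_cons]
        exact Rel1.far _ _
      · rw [eh, eh, Nat.bit_val, Nat.bit_val]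
        simp
    | succ j =>
      have h' : eh f &&& 2 ^ j = 0 := by
        have e : 2 ^ (j + 1) = Nat.bit false (2 ^ j) := by rw [Nat.bit_val, pow_succ]; simp; ring
        rw [eh, e, Nat.land_bit, Nat.bit_val] at h
        omega
      obtain ⟨g, h1, h2, h3, h4⟩ := ih j (by simpa using hj) h'
      refine ⟨(p, c) :: g, ?_, ?_, ?_, by simp [h4]⟩
      · rw [List.reverse_cons, List.reverse_cons]
        exact h1.append _
      · rw [eh, eh, h2, Nat.bit_val, Nat.bit_val, pow_succ]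
        ring
      · rw [el, el, h3]

theorem spw_sound {z : ℝ} (hz : 1 ≤ z) {t y : List Site} {c : Bool} {e t1 : ℕ}
    (hE : Enc e (t ++ [(false, c)]) y) (H : spw e t1 = true) :
    ∃ s' : US, EncU t1 s' ∧ s'.good ∧ ∀ n k, US.Bd z s' n k →
      US.Bd z (US.dif false false (t ++ [(false, c)]) y (t ++ [(true, c)]) y) n k := by
  obtain ⟨⟨h1, h2, h3⟩, ⟨h4, h5, h6⟩⟩ := hE
  unfold spw at H
  have e1 : Nat.sub (fhx e) 1 = eh (t ++ [(true, c)]).reverse := by
    change fhx e - 1 = _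
    rw [h1, eh_snoc, eh_snoc]
    simp
  rw [e1, h1, h2, h3, h4, h5, h6] at H
  exact ptD_sound (R := false) (e := false) hz ⟨Rel1.far t c, rfl⟩ H

/-- what `Cert` says for an entry -/
def Alt (z Λ : ℝ) (T : ℕ → US → ℝ → Prop) (i : ℕ) (s : US) (W : ℝ) : Prop :=
  (∃ s0 s1 W0 W1, US.Stp false s s0 ∧ US.Stp true s s1 ∧ US.Pt z T (fun _ => True) s0 W0 ∧
      US.Pt z T (fun _ => True) s1 W1 ∧
      1 / 2 * (z ^ (pass false s.sec).2.toNat * W0) +
        1 / 2 * (z ^ (pass true s.sec).2.toNat * W1) ≤ Λ * W) ∨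
   (∃ c1 c2 s1 s2 W1 W2, 0 ≤ c1 ∧ 0 ≤ c2 ∧
      (∀ X Y, s.val z X Y ≤ c1 * s1.val z X Y + c2 * s2.val z X Y) ∧
      US.Pt z T (fun j => j < i) s1 W1 ∧ US.Pt z T (fun j => j < i) s2 W2 ∧
      c1 * W1 + c2 * W2 ≤ W)

theorem mkPt {z : ℝ} {g : ℕ → ℕ} {P : ℕ → Prop} {j : ℕ} {s : US} (hP : P (ur (g j)))
    (h : ∃ s' : US, EncU (g j) s' ∧ s'.good ∧ ∀ n c, US.Bd z s' n c → US.Bd z s n c) :
    US.Pt z (UT g) P s (uW (g j)) := by
  obtain ⟨s', h1, h2, h3⟩ := h
  exact ⟨ur (g j), s', hP, ⟨j, rfl, h1, rfl⟩, h2, h3⟩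

section

variable {zn zd Ld Ln G : ℕ} {g : ℕ → ℕ} {e : ℕ} {x y : List Site}

theorem car_false {y y' : List Site} (hy : y'.length = y.length)
    (hl : el y'.reverse = el y.reverse) {h l n : ℕ} (h1 : h = eh y'.reverse)
    (h2 : l = el y.reverse) (h3 : n = y.length) :
    car h (Nat.sub (Nat.sub (Nat.pow 2 n) 1) l) = car (eh y'.reverse) (em false y'.reverse) := by
  rw [em_false, List.length_reverse, h1, h2, h3, hy, hl]; rfl

theorem car_true {y y' : List Site} (hl : el y'.reverse = el y.reverse) {h l : ℕ}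
    (h1 : h = eh y'.reverse) (h2 : l = el y.reverse) :
    car h l = car (eh y'.reverse) (em true y'.reverse) := by
  rw [em_true, h1, h2, hl]

theorem k0P_sound (hzd : 0 < zd) (hz : zd ≤ zn) (hLd : 0 < Ld) (hG : G = 2 * Ln * zd)
    (hE : Enc e x y) (H : k0P zn zd Ld G g e = true) (i : ℕ) :
    Alt ((zn : ℝ) / zd) ((Ln : ℝ) / Ld) (UT g) i (US.psi x y) (uW e) := by
  obtain ⟨⟨h1, h2, h3⟩, ⟨h4, h5, h6⟩⟩ := hE
  have w0 := car_false (y := y) rfl rfl h4 h5 h6
  have w1 := car_true (y := y) rfl h4 h5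
  have r0 : Nat.shiftRight (car (fhy e) (Nat.sub (Nat.sub (Nat.pow 2 (fny e)) 1) (fly e))) (fny e)
      = (pass false y).2.toNat := by
    rw [w0, h6, car_div]
  have r1 : Nat.shiftRight (car (fhy e) (fly e)) (fny e) = (pass true y).2.toNat := by
    rw [w1, h6, car_div]
  unfold k0P at H
  simp only at H
  rw [rb_and, rb_and] at H
  obtain ⟨H0, H1, HI⟩ := H
  have I := iq_real hzd hz hLd hG r0 r1 HI
  rw [h1, h2, h3, h5, h6] at H0 H1
  rw [h4, h5, h6] at w0
  rw [h4, h5] at w1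
  rw [h4, h5, h6] at r0
  rw [h4, h5, h6] at r1
  rw [h4] at H0 H1
  have K0 := rdP_sound ((zn : ℝ) / zd) (a := false) (x := x) (y := y) (by simp) w0 r0 H0
  have K1 := rdP_sound ((zn : ℝ) / zd) (a := true) (x := x) (y := y)
    (by simp) w1 r1 H1
  exact Or.inl ⟨_, _, _, _, rfl, rfl, mkPt trivial K0, mkPt trivial K1, I⟩

theorem k0D_sound (hzd : 0 < zd) (hz : zd ≤ zn) (hLd : 0 < Ld) (hG : G = 2 * Ln * zd)
    {R ee : Bool} {x' y' : List Site} (hE : EncU e (US.dif R ee x y x' y'))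
    (hgood : Dp R ee x y x' y') (H : k0D zn zd Ld G g e = true) (i : ℕ) :
    Alt ((zn : ℝ) / zd) ((Ln : ℝ) / Ld) (UT g) i (US.dif R ee x y x' y') (uW e) := by
  have hz1 : 1 ≤ (zn : ℝ) / zd := by
    rw [one_le_div (by exact_mod_cast hzd)]
    exact_mod_cast hz
  obtain ⟨-, hR, hee, ⟨⟨h1, h2, h3⟩, ⟨h4, h5, h6⟩⟩, hA, hB⟩ := hE
  obtain ⟨lx, ly⟩ := Dp_length hgood
  obtain ⟨ex, ey⟩ := Dp_el hgood
  have w0 := car_false (y := y) rfl rfl h4 h5 h6
  have w1 := car_true (y := y) rfl h4 h5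
  have v0 := car_false ly ey hB h5 h6
  have v1 := car_true ey hB h5
  have r0 : Nat.shiftRight (car (fhy e) (Nat.sub (Nat.sub (Nat.pow 2 (fny e)) 1) (fly e))) (fny e)
      = (pass false y).2.toNat := by
    rw [w0, h6, car_div]
  have r1 : Nat.shiftRight (car (fhy e) (fly e)) (fny e) = (pass true y).2.toNat := by
    rw [w1, h6, car_div]
  have s0 : Nat.shiftRight (car (uB e) (Nat.sub (Nat.sub (Nat.pow 2 (fny e)) 1) (fly e))) (fny e)
      = (pass false y').2.toNat := by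
    rw [v0, h6, ← ly, car_div]
  have s1 : Nat.shiftRight (car (uB e) (fly e)) (fny e) = (pass true y').2.toNat := by
    rw [v1, h6, ← ly, car_div]
  unfold k0D at H
  simp only at H
  rw [rb_and, rb_and] at H
  obtain ⟨H0, H1, HI⟩ := H
  have I := iq_real hzd hz hLd hG r0 r1 HI
  rw [hR, hee, h1, h2, h3, h4, h5, h6, hA, hB] at H0 H1
  rw [h4, h5, h6] at w0 r0
  rw [h4, h5] at w1
  rw [h4, h5, h6] at r1
  rw [hB, h5, h6] at v0 s0
  rw [hB, h5] at v1
  rw [hB, h5, h6] at s1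
  obtain ⟨e0, D0, he0⟩ := Dp_step hgood false
  obtain ⟨e1, D1, he1⟩ := Dp_step hgood true
  have K0 := rdD_sound hz1 (a := false) D0 he0 lx ly (by simp) w0 r0 v0 s0 H0
  have K1 := rdD_sound hz1 (a := true) D1 he1 lx ly (by simp) w1 r1 v1 s1 H1
  exact Or.inl ⟨_, _, _, _, ⟨e0, rfl, he0⟩, ⟨e1, rfl, he1⟩, mkPt trivial K0, mkPt trivial K1, I⟩

theorem k1P_sound {z Λ : ℝ} (hz : 1 ≤ z)
    (hE : Enc e x y) (H : k1P g e = true) :
    Alt z Λ (UT g) (ur e) (US.psi x y) (uW e) := by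
  unfold k1P at H
  simp only at H
  rw [rb_and, rb_and, rb_and, rb_and, rb_and, rb_and] at H
  obtain ⟨HW, H1, H0, Hn, Hh, HP, HS⟩ := H
  rw [Nat_ble_eq] at HW H1 H0 Hn
  rw [Nat_beq_eq] at Hh
  obtain ⟨⟨h1, h2, h3⟩, ⟨h4, h5, h6⟩⟩ := id hE
  rw [h1] at Hh
  obtain ⟨t, c, rfl⟩ := far_hole Hh
  have K1 := spw_sound hz hE HS
  rw [h1, h2, h3, h4, h5, h6, eh_snoc, el_snoc, half_bit, half_bit] at HP
  have e1 : Nat.sub (t ++ [(false, c)]).length 1 = t.length := by
    simp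
  rw [e1] at HP
  have K0 := ptP_sound z HP
  refine Or.inr ⟨1, 1, US.psi t y, _, _, _, by norm_num, by norm_num, ?_,
    mkPt (P := fun j => j < ur e) H0 K0, mkPt (P := fun j => j < ur e) H1 K1, ?_⟩
  · intro X Y
    rw [one_mul, one_mul]
    exact le_of_eq (psi_split z t c y X Y)
  · rw [one_mul, one_mul]
    exact_mod_cast HW

theorem k1D_sound {z Λ : ℝ} (hz : 1 ≤ z) {R ee : Bool} {x' y' : List Site}
    (hE : EncU e (US.dif R ee x y x' y')) (hgood : Dp R ee x y x' y') (H : k1D g e = true) :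
    Alt z Λ (UT g) (ur e) (US.dif R ee x y x' y') (uW e) := by
  unfold k1D at H
  simp only at H
  rw [rb_and, rb_and, rb_and, rb_and, rb_and, rb_and, rb_and, rb_and] at H
  obtain ⟨HW, H1, H0, Hn, HR, Hk, Hh, HP, HS⟩ := H
  rw [Nat_ble_eq] at HW H1 H0 Hn
  rw [Nat_beq_eq] at Hh Hk HR
  obtain ⟨-, hR, hee, hE', hA, hB⟩ := hE
  have hRf : R = false := by
    rw [hR] at HR
    cases R
    · rfl
    · simp at HR
  subst hRf
  obtain ⟨⟨h1, h2, h3⟩, ⟨h4, h5, h6⟩⟩ := id hE'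
  obtain ⟨lx, ly⟩ := Dp_length hgood
  obtain ⟨ex, ey⟩ := Dp_el hgood
  rw [h1] at Hh
  rw [hA] at Hk
  obtain ⟨t, c, rfl⟩ := far_hole Hh
  obtain ⟨t', c', rfl⟩ := far_hole Hk
  have hc : c' = c ∧ el t'.reverse = el t.reverse := by
    rw [el_snoc, el_snoc] at ex
    cases c <;> cases c' <;> simp at ex ⊢ <;> omega
  obtain ⟨rfl, et⟩ := hc
  have lt : t'.length = t.length := by simpa using lx
  have hD : Dp false ee t y t' y' := by
    cases ee
    · obtain ⟨k1, rfl⟩ := hgood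
      rcases Rel1.split lt.symm k1 with ⟨k2, -⟩ | ⟨-, k2⟩
      · exact ⟨k2, rfl⟩
      · exfalso
        have := k2.cnt_eq
        simp [cnt] at this
    · obtain ⟨k1, k2⟩ := hgood
      exact ⟨(List.append_inj k1 lt.symm).1, k2⟩
  have K1 := spw_sound hz hE' HS
  rw [hee, h1, h2, h3, h4, h5, h6, hA, hB, eh_snoc, eh_snoc, el_snoc, half_bit, half_bit,
    half_bit] at HP
  have e1 : Nat.sub (t ++ [(false, c')]).length 1 = t.length := by
    simp
  rw [e1] at HP
  have K0 := ptD_sound (R := false) hz hD HP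
  refine Or.inr ⟨1, 1, US.dif false ee t y t' y', _, _, _, by norm_num, by norm_num, ?_,
    mkPt (P := fun j => j < ur e) H0 K0, mkPt (P := fun j => j < ur e) H1 K1, ?_⟩
  · intro X Y
    rw [one_mul, one_mul]
    exact dif_split hz ee t t' c' y y' X Y
  · rw [one_mul, one_mul]
    exact_mod_cast HW

theorem k2D_sound {Λ : ℝ} (hzd : 0 < zd) (hz : zd ≤ zn) {R ee : Bool} {x' y' : List Site}
    (hE : EncU e (US.dif R ee x y x' y')) (hgood : Dp R ee x y x' y')
    (H : k2D zn zd g e = true) :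
    Alt ((zn : ℝ) / zd) Λ (UT g) (ur e) (US.dif R ee x y x' y') (uW e) := by
  have hz1 : 1 ≤ (zn : ℝ) / zd := by
    rw [one_le_div (by exact_mod_cast hzd)]
    exact_mod_cast hz
  unfold k2D at H
  simp only at H
  rw [rb_and, rb_and, rb_and] at H
  obtain ⟨HW, H0, He, HP⟩ := H
  rw [Nat_ble_eq] at HW H0
  rw [Nat_beq_eq] at He
  obtain ⟨-, hR, hee, ⟨⟨h1, h2, h3⟩, ⟨h4, h5, h6⟩⟩, hA, hB⟩ := hE
  have het : ee = true := by
    rw [hee] at He
    cases ee
    · simp at He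
    · rfl
  subst het
  rw [h1, h2, h3, h4, h5, h6] at HP
  have K0 := ptP_sound ((zn : ℝ) / zd) HP
  have hzd' : (0 : ℝ) < zd := by exact_mod_cast hzd
  have hzn' : (0 : ℝ) < zn := by exact_mod_cast lt_of_lt_of_le hzd hz
  have hc : 0 ≤ 1 - 1 / ((zn : ℝ) / zd) := by
    rw [sub_nonneg, div_le_one (by linarith)]
    exact hz1
  have HW' : ((zn : ℝ) - zd) * uW (g (up0 e)) ≤ zn * uW e := by
    have := (Nat.cast_le (α := ℝ)).2 HW
    change (((zn - zd) * uW (g (up0 e)) : ℕ) : ℝ) ≤ ((zn * uW e : ℕ) : ℝ) at this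
    push_cast [Nat.cast_sub hz] at this
    exact this
  refine Or.inr ⟨1 - 1 / ((zn : ℝ) / zd), 0, US.psi x y, US.psi x y, _, _, hc, le_rfl, ?_,
    mkPt (P := fun j => j < ur e) H0 K0, mkPt (P := fun j => j < ur e) H0 K0, ?_⟩
  · intro X Y
    rw [zero_mul, add_zero]
    exact dif_psi hz1 hgood X Y
  · rw [zero_mul, add_zero]
    have e1 : (1 - 1 / ((zn : ℝ) / zd)) * (uW (g (up0 e)) : ℝ) =
        (((zn : ℝ) - zd) * uW (g (up0 e))) / zn := by
      field_simp
    rw [e1, div_le_iff₀ hzn']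
    linarith

theorem k3D_sound {Λ : ℝ} (hzd : 0 < zd) (hz : zd ≤ zn) {R ee : Bool} {x' y' : List Site}
    (hE : EncU e (US.dif R ee x y x' y')) (hgood : Dp R ee x y x' y')
    (H : k3D zn zd g e = true) :
    Alt ((zn : ℝ) / zd) Λ (UT g) (ur e) (US.dif R ee x y x' y') (uW e) := by
  have hz1 : 1 ≤ (zn : ℝ) / zd := by
    rw [one_le_div (by exact_mod_cast hzd)]
    exact_mod_cast hz
  unfold k3D at H
  simp only at H
  rw [rb_and, rb_and, rb_and, rb_and, rb_and, rb_and, rb_and, rb_and] at H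
  obtain ⟨HW, H0, Hp, He, HR, Hl, Hq, Hh, HP⟩ := H
  rw [Nat_ble_eq] at HW H0 Hl
  rw [Nat_beq_eq] at He Hp HR Hq Hh
  obtain ⟨-, hR, hee, ⟨⟨h1, h2, h3⟩, ⟨h4, h5, h6⟩⟩, hA, hB⟩ := hE
  have hRf : R = false := by
    rw [hR] at HR
    cases R
    · rfl
    · simp at HR
  have hef : ee = false := by
    rw [hee] at He
    cases ee
    · rfl
    · simp at He
  subst hRf hef
  rw [h1] at Hh Hq
  obtain ⟨t, c, rfl⟩ := far_hole Hh
  obtain ⟨k1, rfl⟩ := hgood
  -- the second state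
  have hA' : eh x'.reverse = 2 * eh t.reverse := by
    rw [← hA]
    unfold uA mk2
    rw [hR, hee, Hp, h1, eh_snoc]
    change (2 * eh t.reverse + 1) - 1 = _
    omega
  have hx' : x' = t ++ [(true, c)] := by
    rcases List.eq_nil_or_concat x' with rfl | ⟨t', ⟨p', c'⟩, rfl⟩
    · have := k1.length_eq
      simp at this
    · rw [List.concat_eq_append] at k1 hA' ⊢
      have hl := k1.length_eq
      simp only [List.length_append, List.length_singleton, add_left_inj] at hl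
      rcases Rel1.split hl.symm k1 with ⟨-, k2⟩ | ⟨k2, k3⟩
      · exfalso
        rw [List.cons.injEq] at k2
        obtain ⟨k2, -⟩ := k2
        rw [← k2, eh_snoc] at hA'
        simp at hA'
        omega
      · rw [k2]
        cases k3 with
        | here c t => rfl
        | there r h => cases h
  subst hx'
  -- the flattened state
  have hlt : up1 e < (t ++ [(false, c)]).length := by
    rw [← h3]
    exact Hl
  obtain ⟨gg, g1, g2, g3, g4⟩ := flat_ex (t ++ [(false, c)]).reverse (up1 e)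
    (by rw [List.length_reverse]; exact hlt) Hq
  rw [List.reverse_reverse] at g1
  obtain ⟨T, hT⟩ : ∃ T, gg.reverse = T ++ [(false, c)] ∧ Rel1 T t := by
    have gl : gg.reverse.length = (t ++ [(false, c)]).length := by
      rw [List.length_reverse, g4, List.length_reverse]
    rcases List.eq_nil_or_concat gg.reverse with h0 | ⟨T, b, h0⟩
    · rw [h0] at gl
      simp at gl
    · rw [List.concat_eq_append] at h0
      rw [h0] at g1 gl
      simp only [List.length_append, List.length_singleton, add_left_inj] at gl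
      rcases Rel1.split gl g1 with ⟨k2, k3⟩ | ⟨-, k3⟩
      · rw [k3] at h0
        exact ⟨T, h0, k2⟩
      · cases k3 with
        | there r h => cases h
  obtain ⟨hT, hTt⟩ := hT
  have hgg : gg = (T ++ [(false, c)]).reverse := by rw [← hT, List.reverse_reverse]
  rw [hgg] at g2 g3
  have lT : (T ++ [(false, c)]).length = (t ++ [(false, c)]).length := by
    rw [List.length_append, List.length_append, hTt.length_eq]
  have e1 : Nat.add (fhx e) (Nat.pow 2 (up1 e)) = eh (T ++ [(false, c)]).reverse := by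
    rw [g2, h1]; rfl
  have e2 : Nat.sub (eh (T ++ [(false, c)]).reverse) 1 = eh (T ++ [(true, c)]).reverse := by
    change _ - 1 = _
    rw [eh_snoc, eh_snoc]
    simp
  rw [e1, e2, h2, h3, h4, h5, h6, ← g3, ← lT] at HP
  have K0 := ptD_sound (R := false) (e := false) hz1 ⟨Rel1.far T c, rfl⟩ HP
  have hzd' : (0 : ℝ) < zd := by exact_mod_cast hzd
  have hzn' : (0 : ℝ) < zn := by exact_mod_cast lt_of_lt_of_le hzd hz
  have HW' : (zd : ℝ) * uW (g (up0 e)) ≤ zn * uW e := by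
    have := (Nat.cast_le (α := ℝ)).2 HW
    change ((zd * uW (g (up0 e)) : ℕ) : ℝ) ≤ ((zn * uW e : ℕ) : ℝ) at this
    push_cast at this
    exact this
  refine Or.inr ⟨1 / ((zn : ℝ) / zd), 0,
    US.dif false false (T ++ [(false, c)]) y (T ++ [(true, c)]) y,
    US.dif false false (T ++ [(false, c)]) y (T ++ [(true, c)]) y, _, _,
    by positivity, le_rfl, ?_, mkPt (P := fun j => j < ur e) H0 K0,
    mkPt (P := fun j => j < ur e) H0 K0, ?_⟩
  · intro X Y
    rw [zero_mul, add_zero]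
    exact dif_flat hz1 hTt c y X Y
  · rw [zero_mul, add_zero]
    have e1 : 1 / ((zn : ℝ) / zd) * (uW (g (up0 e)) : ℝ) = (zd * uW (g (up0 e))) / zn := by
      field_simp
    rw [e1, div_le_iff₀ hzn']
    linarith

end

theorem fnx_le (e : ℕ) : fnx e ≤ 15 := Nat.and_le_right

theorem cert_of_chk {zn zd Ld Ln G : ℕ} {g : ℕ → ℕ} (hzd : 0 < zd) (hz : zd ≤ zn)
    (hLd : 0 < Ld) (hG : G = 2 * Ln * zd) (hchk : ∀ i, chkU zn zd Ld G g (g i) = true) :
    US.Cert ((zn : ℝ) / zd) ((Ln : ℝ) / Ld) 1 (UT g) := by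
  have hz1 : 1 ≤ (zn : ℝ) / zd := by
    rw [one_le_div (by exact_mod_cast hzd)]
    exact_mod_cast hz
  rintro i s W ⟨j, rfl, hE, rfl⟩ hgood
  have H := hchk j
  unfold chkU at H
  rw [rb_and, Nat_ble_eq] at H
  obtain ⟨HW, H⟩ := H
  refine ⟨by exact_mod_cast HW, ?_, ?_⟩
  · have := fnx_le (g j)
    cases s with
    | psi x y => rw [hE.2.1.2.2] at this; exact this
    | dif R e x y x' y' => rw [hE.2.2.2.1.1.2.2] at this; exact this
  · change Alt _ _ _ _ _ _
    rcases rb_or.1 H with ⟨hD, H⟩ | ⟨hD, H⟩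
    · cases s with
      | psi x y =>
        rw [hE.1] at hD
        simp at hD
      | dif R ee x y x' y' =>
        rcases rb_or.1 H with ⟨-, H⟩ | ⟨-, H⟩
        · rcases rb_or.1 H with ⟨-, H⟩ | ⟨-, H⟩
          · rcases rb_or.1 H with ⟨-, H⟩ | ⟨-, H⟩
            · exact k3D_sound hzd hz hE hgood H
            · exact k2D_sound hzd hz hE hgood H
          · exact k1D_sound hz1 hE hgood H
        · exact k0D_sound hzd hz hLd hG hE hgood H _
    · rw [Nat_beq_eq] at hD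
      cases s with
      | dif R ee x y x' y' =>
        rw [hE.1] at hD
        simp at hD
      | psi x y =>
        rcases rb_or.1 H with ⟨-, H⟩ | ⟨-, H⟩
        · rw [rb_and] at H
          exact k1P_sound hz1 hE.2 H.2
        · exact k0P_sound hzd hz hLd hG hE.2 H _

theorem lim_le_of_chk {zn zd Ld Ln G : ℕ} {g : ℕ → ℕ} (hzd : 0 < zd) (hz : zd < zn)
    (hLd : 0 < Ld) (hL : Ld ≤ Ln) (hG : G = 2 * Ln * zd)
    (hchk : ∀ i, chkU zn zd Ld G g (g i) = true)
    (h0 : uD (g 0) = 0 ∧ fhx (g 0) = 0 ∧ flx (g 0) = 0 ∧ fnx (g 0) = 0 ∧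
      fhy (g 0) = 0 ∧ fly (g 0) = 0 ∧ fny (g 0) = 0) {C : ℝ}
    (hC : Tendsto (fun n : ℕ => EL (1 / 2) n / n) atTop (𝓝 C)) :
    C ≤ 2 * Real.log ((Ln : ℝ) / Ld) / Real.log ((zn : ℝ) / zd) := by
  have hzd' : (0 : ℝ) < zd := by exact_mod_cast hzd
  have hLd' : (0 : ℝ) < Ld := by exact_mod_cast hLd
  obtain ⟨q0, q1, q2, q3, q4, q5, q6⟩ := h0
  refine upper_lim (W0 := uW (g 0)) (i0 := ur (g 0)) ?_ ?_ one_pos
    (cert_of_chk hzd hz.le hLd hG hchk) ⟨0, rfl, ⟨q0, ⟨q1, q2, q3⟩, ⟨q4, q5, q6⟩⟩, rfl⟩ hC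
  · rw [one_lt_div hzd']
    exact_mod_cast hz
  · rw [one_le_div hLd']
    exact_mod_cast hL

end Pool.Agent.ad013a
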