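import Pool.Agent.H.MP_ad013a_pr.h63u.UK

/-!
# The checker for the upper bound with its auxiliary functions written out

The kernel evaluates this form faster.
-/

namespace Pool.Agent.ad013a

/-- `k0P`, written out -/
noncomputable def f0P (zn zd Ld G : Nat) (g : Nat → Nat) (e : Nat) : Bool :=
  (Bool.rec (motive := fun _ => Bool) false (Bool.rec (motive := fun _ => Bool) false (Nat.ble
  (Nat.mul Ld (Nat.add (Nat.mul (Nat.add zd (Nat.mul (Nat.shiftRight (Nat.lor (Nat.add (Nat.land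
  (Nat.shiftRight e 32) 16383) (Nat.land (Nat.land (Nat.shiftRight e 32) 16383) (Nat.sub (Nat.sub
  (Nat.pow 2 (Nat.land (Nat.shiftRight e 60) 15)) 1) (Nat.land (Nat.shiftRight e 46) 16383))))
  (Nat.sub (Nat.land (Nat.shiftRight e 32) 16383) (Nat.land (Nat.land (Nat.shiftRight e 32) 16383)
  (Nat.sub (Nat.sub (Nat.pow 2 (Nat.land (Nat.shiftRight e 60) 15)) 1) (Nat.land (Nat.shiftRight e
  46) 16383))))) (Nat.land (Nat.shiftRight e 60) 15)) (Nat.sub zn zd))) (Nat.land (Nat.shiftRight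
  (g (Nat.land (Nat.shiftRight e 116) 1048575)) 78) 274877906943)) (Nat.mul (Nat.add zd (Nat.mul
  (Nat.shiftRight (Nat.lor (Nat.add (Nat.land (Nat.shiftRight e 32) 16383) (Nat.land (Nat.land
  (Nat.shiftRight e 32) 16383) (Nat.land (Nat.shiftRight e 46) 16383))) (Nat.sub (Nat.land
  (Nat.shiftRight e 32) 16383) (Nat.land (Nat.land (Nat.shiftRight e 32) 16383) (Nat.land
  (Nat.shiftRight e 46) 16383)))) (Nat.land (Nat.shiftRight e 60) 15)) (Nat.sub zn zd))) (Nat.land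
  (Nat.shiftRight (g (Nat.land (Nat.shiftRight e 138) 1048575)) 78) 274877906943)))) (Nat.mul G
  (Nat.land (Nat.shiftRight e 78) 274877906943))) (Bool.rec (motive := fun _ => Bool) false
  (Bool.rec (motive := fun _ => Bool) (Bool.rec (motive := fun _ => Bool) false (Bool.rec (motive
  := fun _ => Bool) false (Bool.rec (motive := fun _ => Bool) false (Nat.beq (Nat.shiftRight
  (Bool.rec (motive := fun _ => Nat) (Nat.land (Nat.shiftRight e 46) 16383) (Nat.sub (Nat.sub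
  (Nat.pow 2 (Nat.land (Nat.shiftRight e 60) 15)) 1) (Nat.land (Nat.shiftRight e 46) 16383))
  (Nat.ble 2 (Nat.land (Nat.shiftRight e 158) 3))) (Nat.sub (Nat.land (Nat.shiftRight e 60) 15)
  (Nat.land (Nat.shiftRight (g (Nat.land (Nat.shiftRight e 138) 1048575)) 60) 15))) (Nat.land
  (Nat.shiftRight (g (Nat.land (Nat.shiftRight e 138) 1048575)) 46) 16383)) (Nat.beq
  (Nat.shiftLeft (Nat.land (Nat.shiftRight (g (Nat.land (Nat.shiftRight e 138) 1048575)) 32)
  16383) (Nat.sub (Nat.land (Nat.shiftRight e 60) 15) (Nat.land (Nat.shiftRight (g (Nat.land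
  (Nat.shiftRight e 138) 1048575)) 60) 15))) (Nat.sub (Nat.lor (Nat.add (Nat.land (Nat.shiftRight
  e 32) 16383) (Nat.land (Nat.land (Nat.shiftRight e 32) 16383) (Nat.land (Nat.shiftRight e 46)
  16383))) (Nat.sub (Nat.land (Nat.shiftRight e 32) 16383) (Nat.land (Nat.land (Nat.shiftRight e
  32) 16383) (Nat.land (Nat.shiftRight e 46) 16383)))) (Nat.mul (Nat.pow 2 (Nat.land
  (Nat.shiftRight e 60) 15)) (Nat.shiftRight (Nat.lor (Nat.add (Nat.land (Nat.shiftRight e 32)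
  16383) (Nat.land (Nat.land (Nat.shiftRight e 32) 16383) (Nat.land (Nat.shiftRight e 46) 16383)))
  (Nat.sub (Nat.land (Nat.shiftRight e 32) 16383) (Nat.land (Nat.land (Nat.shiftRight e 32) 16383)
  (Nat.land (Nat.shiftRight e 46) 16383)))) (Nat.land (Nat.shiftRight e 60) 15)))))) (Nat.ble
  (Nat.land (Nat.shiftRight (g (Nat.land (Nat.shiftRight e 138) 1048575)) 60) 15) (Nat.land
  (Nat.shiftRight e 60) 15))) (Bool.rec (motive := fun _ => Bool) false (Bool.rec (motive := fun _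
  => Bool) false (Nat.beq (Nat.shiftRight (Bool.rec (motive := fun _ => Nat) (Nat.add (Nat.land
  (Nat.shiftRight e 14) 16383) (Nat.pow 2 (Nat.land (Nat.shiftRight e 28) 15))) (Nat.sub (Nat.sub
  (Nat.pow 2 (Nat.succ (Nat.land (Nat.shiftRight e 28) 15))) 1) (Nat.add (Nat.land (Nat.shiftRight
  e 14) 16383) (Nat.pow 2 (Nat.land (Nat.shiftRight e 28) 15)))) (Nat.ble 2 (Nat.land
  (Nat.shiftRight e 158) 3))) (Nat.sub (Nat.succ (Nat.land (Nat.shiftRight e 28) 15)) (Nat.land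
  (Nat.shiftRight (g (Nat.land (Nat.shiftRight e 138) 1048575)) 28) 15))) (Nat.land
  (Nat.shiftRight (g (Nat.land (Nat.shiftRight e 138) 1048575)) 14) 16383)) (Nat.beq
  (Nat.shiftLeft (Nat.land (g (Nat.land (Nat.shiftRight e 138) 1048575)) 16383) (Nat.sub (Nat.succ
  (Nat.land (Nat.shiftRight e 28) 15)) (Nat.land (Nat.shiftRight (g (Nat.land (Nat.shiftRight e
  138) 1048575)) 28) 15))) (Nat.add (Nat.land e 16383) (Nat.mul (Nat.pow 2 (Nat.land
  (Nat.shiftRight e 28) 15)) (Nat.sub 1 (Nat.shiftRight (Nat.lor (Nat.add (Nat.land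
  (Nat.shiftRight e 32) 16383) (Nat.land (Nat.land (Nat.shiftRight e 32) 16383) (Nat.land
  (Nat.shiftRight e 46) 16383))) (Nat.sub (Nat.land (Nat.shiftRight e 32) 16383) (Nat.land
  (Nat.land (Nat.shiftRight e 32) 16383) (Nat.land (Nat.shiftRight e 46) 16383)))) (Nat.land
  (Nat.shiftRight e 60) 15))))))) (Nat.ble (Nat.land (Nat.shiftRight (g (Nat.land (Nat.shiftRight
  e 138) 1048575)) 28) 15) (Nat.succ (Nat.land (Nat.shiftRight e 28) 15))))) (Bool.rec (motive :=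
  fun _ => Bool) false (Bool.rec (motive := fun _ => Bool) false (Bool.rec (motive := fun _ =>
  Bool) false (Nat.beq (Nat.shiftRight (Bool.rec (motive := fun _ => Nat) (Nat.add (Nat.land
  (Nat.shiftRight e 14) 16383) (Nat.pow 2 (Nat.land (Nat.shiftRight e 28) 15))) (Nat.sub (Nat.sub
  (Nat.pow 2 (Nat.succ (Nat.land (Nat.shiftRight e 28) 15))) 1) (Nat.add (Nat.land (Nat.shiftRight
  e 14) 16383) (Nat.pow 2 (Nat.land (Nat.shiftRight e 28) 15)))) (Nat.ble 2 (Nat.land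
  (Nat.shiftRight e 158) 3))) (Nat.sub (Nat.succ (Nat.land (Nat.shiftRight e 28) 15)) (Nat.land
  (Nat.shiftRight (g (Nat.land (Nat.shiftRight e 138) 1048575)) 60) 15))) (Nat.land
  (Nat.shiftRight (g (Nat.land (Nat.shiftRight e 138) 1048575)) 46) 16383)) (Nat.beq
  (Nat.shiftLeft (Nat.land (Nat.shiftRight (g (Nat.land (Nat.shiftRight e 138) 1048575)) 32)
  16383) (Nat.sub (Nat.succ (Nat.land (Nat.shiftRight e 28) 15)) (Nat.land (Nat.shiftRight (g
  (Nat.land (Nat.shiftRight e 138) 1048575)) 60) 15))) (Nat.add (Nat.land e 16383) (Nat.mul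
  (Nat.pow 2 (Nat.land (Nat.shiftRight e 28) 15)) (Nat.sub 1 (Nat.shiftRight (Nat.lor (Nat.add
  (Nat.land (Nat.shiftRight e 32) 16383) (Nat.land (Nat.land (Nat.shiftRight e 32) 16383)
  (Nat.land (Nat.shiftRight e 46) 16383))) (Nat.sub (Nat.land (Nat.shiftRight e 32) 16383)
  (Nat.land (Nat.land (Nat.shiftRight e 32) 16383) (Nat.land (Nat.shiftRight e 46) 16383))))
  (Nat.land (Nat.shiftRight e 60) 15))))))) (Nat.ble (Nat.land (Nat.shiftRight (g (Nat.land
  (Nat.shiftRight e 138) 1048575)) 60) 15) (Nat.succ (Nat.land (Nat.shiftRight e 28) 15))))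
  (Bool.rec (motive := fun _ => Bool) false (Bool.rec (motive := fun _ => Bool) false (Nat.beq
  (Nat.shiftRight (Bool.rec (motive := fun _ => Nat) (Nat.land (Nat.shiftRight e 46) 16383)
  (Nat.sub (Nat.sub (Nat.pow 2 (Nat.land (Nat.shiftRight e 60) 15)) 1) (Nat.land (Nat.shiftRight e
  46) 16383)) (Nat.ble 2 (Nat.land (Nat.shiftRight e 158) 3))) (Nat.sub (Nat.land (Nat.shiftRight
  e 60) 15) (Nat.land (Nat.shiftRight (g (Nat.land (Nat.shiftRight e 138) 1048575)) 28) 15)))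
  (Nat.land (Nat.shiftRight (g (Nat.land (Nat.shiftRight e 138) 1048575)) 14) 16383)) (Nat.beq
  (Nat.shiftLeft (Nat.land (g (Nat.land (Nat.shiftRight e 138) 1048575)) 16383) (Nat.sub (Nat.land
  (Nat.shiftRight e 60) 15) (Nat.land (Nat.shiftRight (g (Nat.land (Nat.shiftRight e 138)
  1048575)) 28) 15))) (Nat.sub (Nat.lor (Nat.add (Nat.land (Nat.shiftRight e 32) 16383) (Nat.land
  (Nat.land (Nat.shiftRight e 32) 16383) (Nat.land (Nat.shiftRight e 46) 16383))) (Nat.sub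
  (Nat.land (Nat.shiftRight e 32) 16383) (Nat.land (Nat.land (Nat.shiftRight e 32) 16383)
  (Nat.land (Nat.shiftRight e 46) 16383)))) (Nat.mul (Nat.pow 2 (Nat.land (Nat.shiftRight e 60)
  15)) (Nat.shiftRight (Nat.lor (Nat.add (Nat.land (Nat.shiftRight e 32) 16383) (Nat.land
  (Nat.land (Nat.shiftRight e 32) 16383) (Nat.land (Nat.shiftRight e 46) 16383))) (Nat.sub
  (Nat.land (Nat.shiftRight e 32) 16383) (Nat.land (Nat.land (Nat.shiftRight e 32) 16383)
  (Nat.land (Nat.shiftRight e 46) 16383)))) (Nat.land (Nat.shiftRight e 60) 15)))))) (Nat.ble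
  (Nat.land (Nat.shiftRight (g (Nat.land (Nat.shiftRight e 138) 1048575)) 28) 15) (Nat.land
  (Nat.shiftRight e 60) 15)))) (Nat.beq (Nat.land (Nat.land (Nat.shiftRight e 158) 3) 1) 1))
  (Nat.beq (Nat.land (Nat.shiftRight (g (Nat.land (Nat.shiftRight e 138) 1048575)) 70) 1) 0)))
  (Bool.rec (motive := fun _ => Bool) false (Bool.rec (motive := fun _ => Bool) (Bool.rec (motive
  := fun _ => Bool) false (Bool.rec (motive := fun _ => Bool) false (Bool.rec (motive := fun _ =>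
  Bool) false (Nat.beq (Nat.shiftRight (Bool.rec (motive := fun _ => Nat) (Nat.land
  (Nat.shiftRight e 46) 16383) (Nat.sub (Nat.sub (Nat.pow 2 (Nat.land (Nat.shiftRight e 60) 15))
  1) (Nat.land (Nat.shiftRight e 46) 16383)) (Nat.ble 2 (Nat.land (Nat.shiftRight e 136) 3)))
  (Nat.sub (Nat.land (Nat.shiftRight e 60) 15) (Nat.land (Nat.shiftRight (g (Nat.land
  (Nat.shiftRight e 116) 1048575)) 60) 15))) (Nat.land (Nat.shiftRight (g (Nat.land
  (Nat.shiftRight e 116) 1048575)) 46) 16383)) (Nat.beq (Nat.shiftLeft (Nat.land (Nat.shiftRight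
  (g (Nat.land (Nat.shiftRight e 116) 1048575)) 32) 16383) (Nat.sub (Nat.land (Nat.shiftRight e
  60) 15) (Nat.land (Nat.shiftRight (g (Nat.land (Nat.shiftRight e 116) 1048575)) 60) 15)))
  (Nat.sub (Nat.lor (Nat.add (Nat.land (Nat.shiftRight e 32) 16383) (Nat.land (Nat.land
  (Nat.shiftRight e 32) 16383) (Nat.sub (Nat.sub (Nat.pow 2 (Nat.land (Nat.shiftRight e 60) 15))
  1) (Nat.land (Nat.shiftRight e 46) 16383)))) (Nat.sub (Nat.land (Nat.shiftRight e 32) 16383)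
  (Nat.land (Nat.land (Nat.shiftRight e 32) 16383) (Nat.sub (Nat.sub (Nat.pow 2 (Nat.land
  (Nat.shiftRight e 60) 15)) 1) (Nat.land (Nat.shiftRight e 46) 16383))))) (Nat.mul (Nat.pow 2
  (Nat.land (Nat.shiftRight e 60) 15)) (Nat.shiftRight (Nat.lor (Nat.add (Nat.land (Nat.shiftRight
  e 32) 16383) (Nat.land (Nat.land (Nat.shiftRight e 32) 16383) (Nat.sub (Nat.sub (Nat.pow 2
  (Nat.land (Nat.shiftRight e 60) 15)) 1) (Nat.land (Nat.shiftRight e 46) 16383)))) (Nat.sub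
  (Nat.land (Nat.shiftRight e 32) 16383) (Nat.land (Nat.land (Nat.shiftRight e 32) 16383) (Nat.sub
  (Nat.sub (Nat.pow 2 (Nat.land (Nat.shiftRight e 60) 15)) 1) (Nat.land (Nat.shiftRight e 46)
  16383))))) (Nat.land (Nat.shiftRight e 60) 15)))))) (Nat.ble (Nat.land (Nat.shiftRight (g
  (Nat.land (Nat.shiftRight e 116) 1048575)) 60) 15) (Nat.land (Nat.shiftRight e 60) 15)))
  (Bool.rec (motive := fun _ => Bool) false (Bool.rec (motive := fun _ => Bool) false (Nat.beq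
  (Nat.shiftRight (Bool.rec (motive := fun _ => Nat) (Nat.add (Nat.land (Nat.shiftRight e 14)
  16383) 0) (Nat.sub (Nat.sub (Nat.pow 2 (Nat.succ (Nat.land (Nat.shiftRight e 28) 15))) 1)
  (Nat.add (Nat.land (Nat.shiftRight e 14) 16383) 0)) (Nat.ble 2 (Nat.land (Nat.shiftRight e 136)
  3))) (Nat.sub (Nat.succ (Nat.land (Nat.shiftRight e 28) 15)) (Nat.land (Nat.shiftRight (g
  (Nat.land (Nat.shiftRight e 116) 1048575)) 28) 15))) (Nat.land (Nat.shiftRight (g (Nat.land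
  (Nat.shiftRight e 116) 1048575)) 14) 16383)) (Nat.beq (Nat.shiftLeft (Nat.land (g (Nat.land
  (Nat.shiftRight e 116) 1048575)) 16383) (Nat.sub (Nat.succ (Nat.land (Nat.shiftRight e 28) 15))
  (Nat.land (Nat.shiftRight (g (Nat.land (Nat.shiftRight e 116) 1048575)) 28) 15))) (Nat.add
  (Nat.land e 16383) (Nat.mul (Nat.pow 2 (Nat.land (Nat.shiftRight e 28) 15)) (Nat.sub 1
  (Nat.shiftRight (Nat.lor (Nat.add (Nat.land (Nat.shiftRight e 32) 16383) (Nat.land (Nat.land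
  (Nat.shiftRight e 32) 16383) (Nat.sub (Nat.sub (Nat.pow 2 (Nat.land (Nat.shiftRight e 60) 15))
  1) (Nat.land (Nat.shiftRight e 46) 16383)))) (Nat.sub (Nat.land (Nat.shiftRight e 32) 16383)
  (Nat.land (Nat.land (Nat.shiftRight e 32) 16383) (Nat.sub (Nat.sub (Nat.pow 2 (Nat.land
  (Nat.shiftRight e 60) 15)) 1) (Nat.land (Nat.shiftRight e 46) 16383))))) (Nat.land
  (Nat.shiftRight e 60) 15))))))) (Nat.ble (Nat.land (Nat.shiftRight (g (Nat.land (Nat.shiftRight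
  e 116) 1048575)) 28) 15) (Nat.succ (Nat.land (Nat.shiftRight e 28) 15))))) (Bool.rec (motive :=
  fun _ => Bool) false (Bool.rec (motive := fun _ => Bool) false (Bool.rec (motive := fun _ =>
  Bool) false (Nat.beq (Nat.shiftRight (Bool.rec (motive := fun _ => Nat) (Nat.add (Nat.land
  (Nat.shiftRight e 14) 16383) 0) (Nat.sub (Nat.sub (Nat.pow 2 (Nat.succ (Nat.land (Nat.shiftRight
  e 28) 15))) 1) (Nat.add (Nat.land (Nat.shiftRight e 14) 16383) 0)) (Nat.ble 2 (Nat.land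
  (Nat.shiftRight e 136) 3))) (Nat.sub (Nat.succ (Nat.land (Nat.shiftRight e 28) 15)) (Nat.land
  (Nat.shiftRight (g (Nat.land (Nat.shiftRight e 116) 1048575)) 60) 15))) (Nat.land
  (Nat.shiftRight (g (Nat.land (Nat.shiftRight e 116) 1048575)) 46) 16383)) (Nat.beq
  (Nat.shiftLeft (Nat.land (Nat.shiftRight (g (Nat.land (Nat.shiftRight e 116) 1048575)) 32)
  16383) (Nat.sub (Nat.succ (Nat.land (Nat.shiftRight e 28) 15)) (Nat.land (Nat.shiftRight (g
  (Nat.land (Nat.shiftRight e 116) 1048575)) 60) 15))) (Nat.add (Nat.land e 16383) (Nat.mul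
  (Nat.pow 2 (Nat.land (Nat.shiftRight e 28) 15)) (Nat.sub 1 (Nat.shiftRight (Nat.lor (Nat.add
  (Nat.land (Nat.shiftRight e 32) 16383) (Nat.land (Nat.land (Nat.shiftRight e 32) 16383) (Nat.sub
  (Nat.sub (Nat.pow 2 (Nat.land (Nat.shiftRight e 60) 15)) 1) (Nat.land (Nat.shiftRight e 46)
  16383)))) (Nat.sub (Nat.land (Nat.shiftRight e 32) 16383) (Nat.land (Nat.land (Nat.shiftRight e
  32) 16383) (Nat.sub (Nat.sub (Nat.pow 2 (Nat.land (Nat.shiftRight e 60) 15)) 1) (Nat.land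
  (Nat.shiftRight e 46) 16383))))) (Nat.land (Nat.shiftRight e 60) 15))))))) (Nat.ble (Nat.land
  (Nat.shiftRight (g (Nat.land (Nat.shiftRight e 116) 1048575)) 60) 15) (Nat.succ (Nat.land
  (Nat.shiftRight e 28) 15)))) (Bool.rec (motive := fun _ => Bool) false (Bool.rec (motive := fun
  _ => Bool) false (Nat.beq (Nat.shiftRight (Bool.rec (motive := fun _ => Nat) (Nat.land
  (Nat.shiftRight e 46) 16383) (Nat.sub (Nat.sub (Nat.pow 2 (Nat.land (Nat.shiftRight e 60) 15))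
  1) (Nat.land (Nat.shiftRight e 46) 16383)) (Nat.ble 2 (Nat.land (Nat.shiftRight e 136) 3)))
  (Nat.sub (Nat.land (Nat.shiftRight e 60) 15) (Nat.land (Nat.shiftRight (g (Nat.land
  (Nat.shiftRight e 116) 1048575)) 28) 15))) (Nat.land (Nat.shiftRight (g (Nat.land
  (Nat.shiftRight e 116) 1048575)) 14) 16383)) (Nat.beq (Nat.shiftLeft (Nat.land (g (Nat.land
  (Nat.shiftRight e 116) 1048575)) 16383) (Nat.sub (Nat.land (Nat.shiftRight e 60) 15) (Nat.land
  (Nat.shiftRight (g (Nat.land (Nat.shiftRight e 116) 1048575)) 28) 15))) (Nat.sub (Nat.lor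
  (Nat.add (Nat.land (Nat.shiftRight e 32) 16383) (Nat.land (Nat.land (Nat.shiftRight e 32) 16383)
  (Nat.sub (Nat.sub (Nat.pow 2 (Nat.land (Nat.shiftRight e 60) 15)) 1) (Nat.land (Nat.shiftRight e
  46) 16383)))) (Nat.sub (Nat.land (Nat.shiftRight e 32) 16383) (Nat.land (Nat.land
  (Nat.shiftRight e 32) 16383) (Nat.sub (Nat.sub (Nat.pow 2 (Nat.land (Nat.shiftRight e 60) 15))
  1) (Nat.land (Nat.shiftRight e 46) 16383))))) (Nat.mul (Nat.pow 2 (Nat.land (Nat.shiftRight e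
  60) 15)) (Nat.shiftRight (Nat.lor (Nat.add (Nat.land (Nat.shiftRight e 32) 16383) (Nat.land
  (Nat.land (Nat.shiftRight e 32) 16383) (Nat.sub (Nat.sub (Nat.pow 2 (Nat.land (Nat.shiftRight e
  60) 15)) 1) (Nat.land (Nat.shiftRight e 46) 16383)))) (Nat.sub (Nat.land (Nat.shiftRight e 32)
  16383) (Nat.land (Nat.land (Nat.shiftRight e 32) 16383) (Nat.sub (Nat.sub (Nat.pow 2 (Nat.land
  (Nat.shiftRight e 60) 15)) 1) (Nat.land (Nat.shiftRight e 46) 16383))))) (Nat.land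
  (Nat.shiftRight e 60) 15)))))) (Nat.ble (Nat.land (Nat.shiftRight (g (Nat.land (Nat.shiftRight e
  116) 1048575)) 28) 15) (Nat.land (Nat.shiftRight e 60) 15)))) (Nat.beq (Nat.land (Nat.land
  (Nat.shiftRight e 136) 3) 1) 1)) (Nat.beq (Nat.land (Nat.shiftRight (g (Nat.land (Nat.shiftRight
  e 116) 1048575)) 70) 1) 0)))

/-- `k0D`, written out -/
noncomputable def f0D (zn zd Ld G : Nat) (g : Nat → Nat) (e : Nat) : Bool :=
  (Bool.rec (motive := fun _ => Bool) false (Bool.rec (motive := fun _ => Bool) false (Nat.ble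
  (Nat.mul Ld (Nat.add (Nat.mul (Nat.add zd (Nat.mul (Nat.shiftRight (Nat.lor (Nat.add (Nat.land
  (Nat.shiftRight e 32) 16383) (Nat.land (Nat.land (Nat.shiftRight e 32) 16383) (Nat.sub (Nat.sub
  (Nat.pow 2 (Nat.land (Nat.shiftRight e 60) 15)) 1) (Nat.land (Nat.shiftRight e 46) 16383))))
  (Nat.sub (Nat.land (Nat.shiftRight e 32) 16383) (Nat.land (Nat.land (Nat.shiftRight e 32) 16383)
  (Nat.sub (Nat.sub (Nat.pow 2 (Nat.land (Nat.shiftRight e 60) 15)) 1) (Nat.land (Nat.shiftRight e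
  46) 16383))))) (Nat.land (Nat.shiftRight e 60) 15)) (Nat.sub zn zd))) (Nat.land (Nat.shiftRight
  (g (Nat.land (Nat.shiftRight e 116) 1048575)) 78) 274877906943)) (Nat.mul (Nat.add zd (Nat.mul
  (Nat.shiftRight (Nat.lor (Nat.add (Nat.land (Nat.shiftRight e 32) 16383) (Nat.land (Nat.land
  (Nat.shiftRight e 32) 16383) (Nat.land (Nat.shiftRight e 46) 16383))) (Nat.sub (Nat.land
  (Nat.shiftRight e 32) 16383) (Nat.land (Nat.land (Nat.shiftRight e 32) 16383) (Nat.land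
  (Nat.shiftRight e 46) 16383)))) (Nat.land (Nat.shiftRight e 60) 15)) (Nat.sub zn zd))) (Nat.land
  (Nat.shiftRight (g (Nat.land (Nat.shiftRight e 138) 1048575)) 78) 274877906943)))) (Nat.mul G
  (Nat.land (Nat.shiftRight e 78) 274877906943))) (Bool.rec (motive := fun _ => Bool) false
  (Bool.rec (motive := fun _ => Bool) false (Bool.rec (motive := fun _ => Bool) (Bool.rec (motive
  := fun _ => Bool) false (Bool.rec (motive := fun _ => Bool) (Bool.rec (motive := fun _ => Bool)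
  false (Bool.rec (motive := fun _ => Bool) false (Bool.rec (motive := fun _ => Bool) false
  (Bool.rec (motive := fun _ => Bool) false (Nat.beq (Nat.shiftRight (Bool.rec (motive := fun _ =>
  Nat) (Nat.land (Nat.shiftRight e 46) 16383) (Nat.sub (Nat.sub (Nat.pow 2 (Nat.land
  (Nat.shiftRight e 60) 15)) 1) (Nat.land (Nat.shiftRight e 46) 16383)) (Nat.ble 2 (Nat.land
  (Nat.shiftRight e 158) 3))) (Nat.sub (Nat.land (Nat.shiftRight e 60) 15) (Nat.land
  (Nat.shiftRight (g (Nat.land (Nat.shiftRight e 138) 1048575)) 60) 15))) (Nat.land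
  (Nat.shiftRight (g (Nat.land (Nat.shiftRight e 138) 1048575)) 46) 16383)) (Nat.beq
  (Nat.shiftLeft (Nat.land (Nat.shiftRight (g (Nat.land (Nat.shiftRight e 138) 1048575)) 32)
  16383) (Nat.sub (Nat.land (Nat.shiftRight e 60) 15) (Nat.land (Nat.shiftRight (g (Nat.land
  (Nat.shiftRight e 138) 1048575)) 60) 15))) (Nat.sub (Nat.lor (Nat.add (Nat.land (Nat.shiftRight
  e 32) 16383) (Nat.land (Nat.land (Nat.shiftRight e 32) 16383) (Nat.land (Nat.shiftRight e 46)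
  16383))) (Nat.sub (Nat.land (Nat.shiftRight e 32) 16383) (Nat.land (Nat.land (Nat.shiftRight e
  32) 16383) (Nat.land (Nat.shiftRight e 46) 16383)))) (Nat.mul (Nat.pow 2 (Nat.land
  (Nat.shiftRight e 60) 15)) (Nat.shiftRight (Nat.lor (Nat.add (Nat.land (Nat.shiftRight e 32)
  16383) (Nat.land (Nat.land (Nat.shiftRight e 32) 16383) (Nat.land (Nat.shiftRight e 46) 16383)))
  (Nat.sub (Nat.land (Nat.shiftRight e 32) 16383) (Nat.land (Nat.land (Nat.shiftRight e 32) 16383)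
  (Nat.land (Nat.shiftRight e 46) 16383)))) (Nat.land (Nat.shiftRight e 60) 15)))))) (Nat.beq
  (Nat.shiftLeft (Bool.rec (motive := fun _ => Nat) (Nat.land (Nat.shiftRight (g (Nat.land
  (Nat.shiftRight e 138) 1048575)) 32) 16383) (Bool.rec (motive := fun _ => Nat) (Nat.add
  (Nat.land (Nat.shiftRight (g (Nat.land (Nat.shiftRight e 138) 1048575)) 32) 16383) (Nat.pow 2
  (Nat.land (Nat.shiftRight (g (Nat.land (Nat.shiftRight e 138) 1048575)) 64) 15))) (Nat.sub
  (Nat.land (Nat.shiftRight (g (Nat.land (Nat.shiftRight e 138) 1048575)) 32) 16383) (Nat.pow 2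
  (Nat.land (Nat.shiftRight (g (Nat.land (Nat.shiftRight e 138) 1048575)) 64) 15))) (Nat.beq
  (Nat.land (Nat.shiftRight (g (Nat.land (Nat.shiftRight e 138) 1048575)) 68) 1) 0)) (Nat.beq
  (Nat.land (Nat.shiftRight (g (Nat.land (Nat.shiftRight e 138) 1048575)) 69) 1) (Nat.sub 1
  (Nat.land (Nat.shiftRight (g (Nat.land (Nat.shiftRight e 138) 1048575)) 68) 1)))) (Nat.sub
  (Nat.land (Nat.shiftRight e 60) 15) (Nat.land (Nat.shiftRight (g (Nat.land (Nat.shiftRight e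
  138) 1048575)) 60) 15))) (Nat.sub (Nat.lor (Nat.add (Bool.rec (motive := fun _ => Nat) (Nat.land
  (Nat.shiftRight e 32) 16383) (Bool.rec (motive := fun _ => Nat) (Nat.add (Nat.land
  (Nat.shiftRight e 32) 16383) (Nat.pow 2 (Nat.land (Nat.shiftRight e 64) 15))) (Nat.sub (Nat.land
  (Nat.shiftRight e 32) 16383) (Nat.pow 2 (Nat.land (Nat.shiftRight e 64) 15))) (Nat.beq (Nat.land
  (Nat.shiftRight e 68) 1) 0)) (Nat.beq (Nat.land (Nat.shiftRight e 69) 1) (Nat.sub 1 (Nat.land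
  (Nat.shiftRight e 68) 1)))) (Nat.land (Bool.rec (motive := fun _ => Nat) (Nat.land
  (Nat.shiftRight e 32) 16383) (Bool.rec (motive := fun _ => Nat) (Nat.add (Nat.land
  (Nat.shiftRight e 32) 16383) (Nat.pow 2 (Nat.land (Nat.shiftRight e 64) 15))) (Nat.sub (Nat.land
  (Nat.shiftRight e 32) 16383) (Nat.pow 2 (Nat.land (Nat.shiftRight e 64) 15))) (Nat.beq (Nat.land
  (Nat.shiftRight e 68) 1) 0)) (Nat.beq (Nat.land (Nat.shiftRight e 69) 1) (Nat.sub 1 (Nat.land
  (Nat.shiftRight e 68) 1)))) (Nat.land (Nat.shiftRight e 46) 16383))) (Nat.sub (Bool.rec (motive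
  := fun _ => Nat) (Nat.land (Nat.shiftRight e 32) 16383) (Bool.rec (motive := fun _ => Nat)
  (Nat.add (Nat.land (Nat.shiftRight e 32) 16383) (Nat.pow 2 (Nat.land (Nat.shiftRight e 64) 15)))
  (Nat.sub (Nat.land (Nat.shiftRight e 32) 16383) (Nat.pow 2 (Nat.land (Nat.shiftRight e 64) 15)))
  (Nat.beq (Nat.land (Nat.shiftRight e 68) 1) 0)) (Nat.beq (Nat.land (Nat.shiftRight e 69) 1)
  (Nat.sub 1 (Nat.land (Nat.shiftRight e 68) 1)))) (Nat.land (Bool.rec (motive := fun _ => Nat)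
  (Nat.land (Nat.shiftRight e 32) 16383) (Bool.rec (motive := fun _ => Nat) (Nat.add (Nat.land
  (Nat.shiftRight e 32) 16383) (Nat.pow 2 (Nat.land (Nat.shiftRight e 64) 15))) (Nat.sub (Nat.land
  (Nat.shiftRight e 32) 16383) (Nat.pow 2 (Nat.land (Nat.shiftRight e 64) 15))) (Nat.beq (Nat.land
  (Nat.shiftRight e 68) 1) 0)) (Nat.beq (Nat.land (Nat.shiftRight e 69) 1) (Nat.sub 1 (Nat.land
  (Nat.shiftRight e 68) 1)))) (Nat.land (Nat.shiftRight e 46) 16383)))) (Nat.mul (Nat.pow 2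
  (Nat.land (Nat.shiftRight e 60) 15)) (Nat.shiftRight (Nat.lor (Nat.add (Bool.rec (motive := fun
  _ => Nat) (Nat.land (Nat.shiftRight e 32) 16383) (Bool.rec (motive := fun _ => Nat) (Nat.add
  (Nat.land (Nat.shiftRight e 32) 16383) (Nat.pow 2 (Nat.land (Nat.shiftRight e 64) 15))) (Nat.sub
  (Nat.land (Nat.shiftRight e 32) 16383) (Nat.pow 2 (Nat.land (Nat.shiftRight e 64) 15))) (Nat.beq
  (Nat.land (Nat.shiftRight e 68) 1) 0)) (Nat.beq (Nat.land (Nat.shiftRight e 69) 1) (Nat.sub 1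
  (Nat.land (Nat.shiftRight e 68) 1)))) (Nat.land (Bool.rec (motive := fun _ => Nat) (Nat.land
  (Nat.shiftRight e 32) 16383) (Bool.rec (motive := fun _ => Nat) (Nat.add (Nat.land
  (Nat.shiftRight e 32) 16383) (Nat.pow 2 (Nat.land (Nat.shiftRight e 64) 15))) (Nat.sub (Nat.land
  (Nat.shiftRight e 32) 16383) (Nat.pow 2 (Nat.land (Nat.shiftRight e 64) 15))) (Nat.beq (Nat.land
  (Nat.shiftRight e 68) 1) 0)) (Nat.beq (Nat.land (Nat.shiftRight e 69) 1) (Nat.sub 1 (Nat.land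
  (Nat.shiftRight e 68) 1)))) (Nat.land (Nat.shiftRight e 46) 16383))) (Nat.sub (Bool.rec (motive
  := fun _ => Nat) (Nat.land (Nat.shiftRight e 32) 16383) (Bool.rec (motive := fun _ => Nat)
  (Nat.add (Nat.land (Nat.shiftRight e 32) 16383) (Nat.pow 2 (Nat.land (Nat.shiftRight e 64) 15)))
  (Nat.sub (Nat.land (Nat.shiftRight e 32) 16383) (Nat.pow 2 (Nat.land (Nat.shiftRight e 64) 15)))
  (Nat.beq (Nat.land (Nat.shiftRight e 68) 1) 0)) (Nat.beq (Nat.land (Nat.shiftRight e 69) 1)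
  (Nat.sub 1 (Nat.land (Nat.shiftRight e 68) 1)))) (Nat.land (Bool.rec (motive := fun _ => Nat)
  (Nat.land (Nat.shiftRight e 32) 16383) (Bool.rec (motive := fun _ => Nat) (Nat.add (Nat.land
  (Nat.shiftRight e 32) 16383) (Nat.pow 2 (Nat.land (Nat.shiftRight e 64) 15))) (Nat.sub (Nat.land
  (Nat.shiftRight e 32) 16383) (Nat.pow 2 (Nat.land (Nat.shiftRight e 64) 15))) (Nat.beq (Nat.land
  (Nat.shiftRight e 68) 1) 0)) (Nat.beq (Nat.land (Nat.shiftRight e 69) 1) (Nat.sub 1 (Nat.land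
  (Nat.shiftRight e 68) 1)))) (Nat.land (Nat.shiftRight e 46) 16383)))) (Nat.land (Nat.shiftRight
  e 60) 15)))))) (Nat.ble (Nat.land (Nat.shiftRight (g (Nat.land (Nat.shiftRight e 138) 1048575))
  60) 15) (Nat.land (Nat.shiftRight e 60) 15))) (Bool.rec (motive := fun _ => Bool) false
  (Bool.rec (motive := fun _ => Bool) false (Bool.rec (motive := fun _ => Bool) false (Nat.beq
  (Nat.shiftRight (Bool.rec (motive := fun _ => Nat) (Nat.add (Nat.land (Nat.shiftRight e 14)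
  16383) (Nat.pow 2 (Nat.land (Nat.shiftRight e 28) 15))) (Nat.sub (Nat.sub (Nat.pow 2 (Nat.succ
  (Nat.land (Nat.shiftRight e 28) 15))) 1) (Nat.add (Nat.land (Nat.shiftRight e 14) 16383)
  (Nat.pow 2 (Nat.land (Nat.shiftRight e 28) 15)))) (Nat.ble 2 (Nat.land (Nat.shiftRight e 158)
  3))) (Nat.sub (Nat.succ (Nat.land (Nat.shiftRight e 28) 15)) (Nat.land (Nat.shiftRight (g
  (Nat.land (Nat.shiftRight e 138) 1048575)) 28) 15))) (Nat.land (Nat.shiftRight (g (Nat.land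
  (Nat.shiftRight e 138) 1048575)) 14) 16383)) (Nat.beq (Nat.shiftRight (Nat.add (Nat.land e
  16383) (Nat.mul (Nat.pow 2 (Nat.land (Nat.shiftRight e 28) 15)) (Nat.sub 1 (Nat.shiftRight
  (Nat.lor (Nat.add (Nat.land (Nat.shiftRight e 32) 16383) (Nat.land (Nat.land (Nat.shiftRight e
  32) 16383) (Nat.land (Nat.shiftRight e 46) 16383))) (Nat.sub (Nat.land (Nat.shiftRight e 32)
  16383) (Nat.land (Nat.land (Nat.shiftRight e 32) 16383) (Nat.land (Nat.shiftRight e 46)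
  16383)))) (Nat.land (Nat.shiftRight e 60) 15))))) (Nat.sub (Nat.succ (Nat.land (Nat.shiftRight e
  28) 15)) (Nat.land (Nat.shiftRight (g (Nat.land (Nat.shiftRight e 138) 1048575)) 28) 15)))
  (Nat.land (g (Nat.land (Nat.shiftRight e 138) 1048575)) 16383))) (Nat.beq (Nat.shiftRight
  (Nat.add (Bool.rec (motive := fun _ => Nat) (Nat.land e 16383) (Bool.rec (motive := fun _ =>
  Nat) (Nat.add (Nat.land e 16383) (Nat.pow 2 (Nat.land (Nat.shiftRight e 64) 15))) (Nat.sub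
  (Nat.land e 16383) (Nat.pow 2 (Nat.land (Nat.shiftRight e 64) 15))) (Nat.beq (Nat.land
  (Nat.shiftRight e 68) 1) 0)) (Nat.beq (Nat.land (Nat.shiftRight e 69) 1) (Nat.land
  (Nat.shiftRight e 68) 1))) (Nat.mul (Nat.pow 2 (Nat.land (Nat.shiftRight e 28) 15)) (Nat.sub 1
  (Nat.shiftRight (Nat.lor (Nat.add (Bool.rec (motive := fun _ => Nat) (Nat.land (Nat.shiftRight e
  32) 16383) (Bool.rec (motive := fun _ => Nat) (Nat.add (Nat.land (Nat.shiftRight e 32) 16383)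
  (Nat.pow 2 (Nat.land (Nat.shiftRight e 64) 15))) (Nat.sub (Nat.land (Nat.shiftRight e 32) 16383)
  (Nat.pow 2 (Nat.land (Nat.shiftRight e 64) 15))) (Nat.beq (Nat.land (Nat.shiftRight e 68) 1) 0))
  (Nat.beq (Nat.land (Nat.shiftRight e 69) 1) (Nat.sub 1 (Nat.land (Nat.shiftRight e 68) 1))))
  (Nat.land (Bool.rec (motive := fun _ => Nat) (Nat.land (Nat.shiftRight e 32) 16383) (Bool.rec
  (motive := fun _ => Nat) (Nat.add (Nat.land (Nat.shiftRight e 32) 16383) (Nat.pow 2 (Nat.land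
  (Nat.shiftRight e 64) 15))) (Nat.sub (Nat.land (Nat.shiftRight e 32) 16383) (Nat.pow 2 (Nat.land
  (Nat.shiftRight e 64) 15))) (Nat.beq (Nat.land (Nat.shiftRight e 68) 1) 0)) (Nat.beq (Nat.land
  (Nat.shiftRight e 69) 1) (Nat.sub 1 (Nat.land (Nat.shiftRight e 68) 1)))) (Nat.land
  (Nat.shiftRight e 46) 16383))) (Nat.sub (Bool.rec (motive := fun _ => Nat) (Nat.land
  (Nat.shiftRight e 32) 16383) (Bool.rec (motive := fun _ => Nat) (Nat.add (Nat.land
  (Nat.shiftRight e 32) 16383) (Nat.pow 2 (Nat.land (Nat.shiftRight e 64) 15))) (Nat.sub (Nat.land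
  (Nat.shiftRight e 32) 16383) (Nat.pow 2 (Nat.land (Nat.shiftRight e 64) 15))) (Nat.beq (Nat.land
  (Nat.shiftRight e 68) 1) 0)) (Nat.beq (Nat.land (Nat.shiftRight e 69) 1) (Nat.sub 1 (Nat.land
  (Nat.shiftRight e 68) 1)))) (Nat.land (Bool.rec (motive := fun _ => Nat) (Nat.land
  (Nat.shiftRight e 32) 16383) (Bool.rec (motive := fun _ => Nat) (Nat.add (Nat.land
  (Nat.shiftRight e 32) 16383) (Nat.pow 2 (Nat.land (Nat.shiftRight e 64) 15))) (Nat.sub (Nat.land
  (Nat.shiftRight e 32) 16383) (Nat.pow 2 (Nat.land (Nat.shiftRight e 64) 15))) (Nat.beq (Nat.land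
  (Nat.shiftRight e 68) 1) 0)) (Nat.beq (Nat.land (Nat.shiftRight e 69) 1) (Nat.sub 1 (Nat.land
  (Nat.shiftRight e 68) 1)))) (Nat.land (Nat.shiftRight e 46) 16383)))) (Nat.land (Nat.shiftRight
  e 60) 15))))) (Nat.sub (Nat.succ (Nat.land (Nat.shiftRight e 28) 15)) (Nat.land (Nat.shiftRight
  (g (Nat.land (Nat.shiftRight e 138) 1048575)) 28) 15))) (Bool.rec (motive := fun _ => Nat)
  (Nat.land (g (Nat.land (Nat.shiftRight e 138) 1048575)) 16383) (Bool.rec (motive := fun _ =>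
  Nat) (Nat.add (Nat.land (g (Nat.land (Nat.shiftRight e 138) 1048575)) 16383) (Nat.pow 2
  (Nat.land (Nat.shiftRight (g (Nat.land (Nat.shiftRight e 138) 1048575)) 64) 15))) (Nat.sub
  (Nat.land (g (Nat.land (Nat.shiftRight e 138) 1048575)) 16383) (Nat.pow 2 (Nat.land
  (Nat.shiftRight (g (Nat.land (Nat.shiftRight e 138) 1048575)) 64) 15))) (Nat.beq (Nat.land
  (Nat.shiftRight (g (Nat.land (Nat.shiftRight e 138) 1048575)) 68) 1) 0)) (Nat.beq (Nat.land
  (Nat.shiftRight (g (Nat.land (Nat.shiftRight e 138) 1048575)) 69) 1) (Nat.land (Nat.shiftRight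
  (g (Nat.land (Nat.shiftRight e 138) 1048575)) 68) 1))))) (Nat.ble (Nat.land (Nat.shiftRight (g
  (Nat.land (Nat.shiftRight e 138) 1048575)) 28) 15) (Nat.succ (Nat.land (Nat.shiftRight e 28)
  15))))) (Bool.rec (motive := fun _ => Bool) false (Bool.rec (motive := fun _ => Bool) false
  (Bool.rec (motive := fun _ => Bool) false (Bool.rec (motive := fun _ => Bool) false (Nat.beq
  (Nat.shiftRight (Bool.rec (motive := fun _ => Nat) (Nat.land (Nat.shiftRight e 46) 16383)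
  (Nat.sub (Nat.sub (Nat.pow 2 (Nat.land (Nat.shiftRight e 60) 15)) 1) (Nat.land (Nat.shiftRight e
  46) 16383)) (Nat.ble 2 (Nat.land (Nat.shiftRight e 158) 3))) (Nat.sub (Nat.land (Nat.shiftRight
  e 60) 15) (Nat.land (Nat.shiftRight (g (Nat.land (Nat.shiftRight e 138) 1048575)) 60) 15)))
  (Nat.land (Nat.shiftRight (g (Nat.land (Nat.shiftRight e 138) 1048575)) 46) 16383)) (Nat.beq
  (Nat.shiftRight (Nat.sub (Nat.lor (Nat.add (Nat.land (Nat.shiftRight e 32) 16383) (Nat.land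
  (Nat.land (Nat.shiftRight e 32) 16383) (Nat.land (Nat.shiftRight e 46) 16383))) (Nat.sub
  (Nat.land (Nat.shiftRight e 32) 16383) (Nat.land (Nat.land (Nat.shiftRight e 32) 16383)
  (Nat.land (Nat.shiftRight e 46) 16383)))) (Nat.mul (Nat.pow 2 (Nat.land (Nat.shiftRight e 60)
  15)) (Nat.shiftRight (Nat.lor (Nat.add (Nat.land (Nat.shiftRight e 32) 16383) (Nat.land
  (Nat.land (Nat.shiftRight e 32) 16383) (Nat.land (Nat.shiftRight e 46) 16383))) (Nat.sub
  (Nat.land (Nat.shiftRight e 32) 16383) (Nat.land (Nat.land (Nat.shiftRight e 32) 16383)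
  (Nat.land (Nat.shiftRight e 46) 16383)))) (Nat.land (Nat.shiftRight e 60) 15)))) (Nat.sub
  (Nat.land (Nat.shiftRight e 60) 15) (Nat.land (Nat.shiftRight (g (Nat.land (Nat.shiftRight e
  138) 1048575)) 60) 15))) (Nat.land (Nat.shiftRight (g (Nat.land (Nat.shiftRight e 138) 1048575))
  32) 16383))) (Nat.beq (Nat.shiftRight (Nat.sub (Nat.lor (Nat.add (Bool.rec (motive := fun _ =>
  Nat) (Nat.land (Nat.shiftRight e 32) 16383) (Bool.rec (motive := fun _ => Nat) (Nat.add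
  (Nat.land (Nat.shiftRight e 32) 16383) (Nat.pow 2 (Nat.land (Nat.shiftRight e 64) 15))) (Nat.sub
  (Nat.land (Nat.shiftRight e 32) 16383) (Nat.pow 2 (Nat.land (Nat.shiftRight e 64) 15))) (Nat.beq
  (Nat.land (Nat.shiftRight e 68) 1) 0)) (Nat.beq (Nat.land (Nat.shiftRight e 69) 1) (Nat.sub 1
  (Nat.land (Nat.shiftRight e 68) 1)))) (Nat.land (Bool.rec (motive := fun _ => Nat) (Nat.land
  (Nat.shiftRight e 32) 16383) (Bool.rec (motive := fun _ => Nat) (Nat.add (Nat.land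
  (Nat.shiftRight e 32) 16383) (Nat.pow 2 (Nat.land (Nat.shiftRight e 64) 15))) (Nat.sub (Nat.land
  (Nat.shiftRight e 32) 16383) (Nat.pow 2 (Nat.land (Nat.shiftRight e 64) 15))) (Nat.beq (Nat.land
  (Nat.shiftRight e 68) 1) 0)) (Nat.beq (Nat.land (Nat.shiftRight e 69) 1) (Nat.sub 1 (Nat.land
  (Nat.shiftRight e 68) 1)))) (Nat.land (Nat.shiftRight e 46) 16383))) (Nat.sub (Bool.rec (motive
  := fun _ => Nat) (Nat.land (Nat.shiftRight e 32) 16383) (Bool.rec (motive := fun _ => Nat)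
  (Nat.add (Nat.land (Nat.shiftRight e 32) 16383) (Nat.pow 2 (Nat.land (Nat.shiftRight e 64) 15)))
  (Nat.sub (Nat.land (Nat.shiftRight e 32) 16383) (Nat.pow 2 (Nat.land (Nat.shiftRight e 64) 15)))
  (Nat.beq (Nat.land (Nat.shiftRight e 68) 1) 0)) (Nat.beq (Nat.land (Nat.shiftRight e 69) 1)
  (Nat.sub 1 (Nat.land (Nat.shiftRight e 68) 1)))) (Nat.land (Bool.rec (motive := fun _ => Nat)
  (Nat.land (Nat.shiftRight e 32) 16383) (Bool.rec (motive := fun _ => Nat) (Nat.add (Nat.land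
  (Nat.shiftRight e 32) 16383) (Nat.pow 2 (Nat.land (Nat.shiftRight e 64) 15))) (Nat.sub (Nat.land
  (Nat.shiftRight e 32) 16383) (Nat.pow 2 (Nat.land (Nat.shiftRight e 64) 15))) (Nat.beq (Nat.land
  (Nat.shiftRight e 68) 1) 0)) (Nat.beq (Nat.land (Nat.shiftRight e 69) 1) (Nat.sub 1 (Nat.land
  (Nat.shiftRight e 68) 1)))) (Nat.land (Nat.shiftRight e 46) 16383)))) (Nat.mul (Nat.pow 2
  (Nat.land (Nat.shiftRight e 60) 15)) (Nat.shiftRight (Nat.lor (Nat.add (Bool.rec (motive := fun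
  _ => Nat) (Nat.land (Nat.shiftRight e 32) 16383) (Bool.rec (motive := fun _ => Nat) (Nat.add
  (Nat.land (Nat.shiftRight e 32) 16383) (Nat.pow 2 (Nat.land (Nat.shiftRight e 64) 15))) (Nat.sub
  (Nat.land (Nat.shiftRight e 32) 16383) (Nat.pow 2 (Nat.land (Nat.shiftRight e 64) 15))) (Nat.beq
  (Nat.land (Nat.shiftRight e 68) 1) 0)) (Nat.beq (Nat.land (Nat.shiftRight e 69) 1) (Nat.sub 1
  (Nat.land (Nat.shiftRight e 68) 1)))) (Nat.land (Bool.rec (motive := fun _ => Nat) (Nat.land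
  (Nat.shiftRight e 32) 16383) (Bool.rec (motive := fun _ => Nat) (Nat.add (Nat.land
  (Nat.shiftRight e 32) 16383) (Nat.pow 2 (Nat.land (Nat.shiftRight e 64) 15))) (Nat.sub (Nat.land
  (Nat.shiftRight e 32) 16383) (Nat.pow 2 (Nat.land (Nat.shiftRight e 64) 15))) (Nat.beq (Nat.land
  (Nat.shiftRight e 68) 1) 0)) (Nat.beq (Nat.land (Nat.shiftRight e 69) 1) (Nat.sub 1 (Nat.land
  (Nat.shiftRight e 68) 1)))) (Nat.land (Nat.shiftRight e 46) 16383))) (Nat.sub (Bool.rec (motive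
  := fun _ => Nat) (Nat.land (Nat.shiftRight e 32) 16383) (Bool.rec (motive := fun _ => Nat)
  (Nat.add (Nat.land (Nat.shiftRight e 32) 16383) (Nat.pow 2 (Nat.land (Nat.shiftRight e 64) 15)))
  (Nat.sub (Nat.land (Nat.shiftRight e 32) 16383) (Nat.pow 2 (Nat.land (Nat.shiftRight e 64) 15)))
  (Nat.beq (Nat.land (Nat.shiftRight e 68) 1) 0)) (Nat.beq (Nat.land (Nat.shiftRight e 69) 1)
  (Nat.sub 1 (Nat.land (Nat.shiftRight e 68) 1)))) (Nat.land (Bool.rec (motive := fun _ => Nat)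
  (Nat.land (Nat.shiftRight e 32) 16383) (Bool.rec (motive := fun _ => Nat) (Nat.add (Nat.land
  (Nat.shiftRight e 32) 16383) (Nat.pow 2 (Nat.land (Nat.shiftRight e 64) 15))) (Nat.sub (Nat.land
  (Nat.shiftRight e 32) 16383) (Nat.pow 2 (Nat.land (Nat.shiftRight e 64) 15))) (Nat.beq (Nat.land
  (Nat.shiftRight e 68) 1) 0)) (Nat.beq (Nat.land (Nat.shiftRight e 69) 1) (Nat.sub 1 (Nat.land
  (Nat.shiftRight e 68) 1)))) (Nat.land (Nat.shiftRight e 46) 16383)))) (Nat.land (Nat.shiftRight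
  e 60) 15)))) (Nat.sub (Nat.land (Nat.shiftRight e 60) 15) (Nat.land (Nat.shiftRight (g (Nat.land
  (Nat.shiftRight e 138) 1048575)) 60) 15))) (Bool.rec (motive := fun _ => Nat) (Nat.land
  (Nat.shiftRight (g (Nat.land (Nat.shiftRight e 138) 1048575)) 32) 16383) (Bool.rec (motive :=
  fun _ => Nat) (Nat.add (Nat.land (Nat.shiftRight (g (Nat.land (Nat.shiftRight e 138) 1048575))
  32) 16383) (Nat.pow 2 (Nat.land (Nat.shiftRight (g (Nat.land (Nat.shiftRight e 138) 1048575))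
  64) 15))) (Nat.sub (Nat.land (Nat.shiftRight (g (Nat.land (Nat.shiftRight e 138) 1048575)) 32)
  16383) (Nat.pow 2 (Nat.land (Nat.shiftRight (g (Nat.land (Nat.shiftRight e 138) 1048575)) 64)
  15))) (Nat.beq (Nat.land (Nat.shiftRight (g (Nat.land (Nat.shiftRight e 138) 1048575)) 68) 1)
  0)) (Nat.beq (Nat.land (Nat.shiftRight (g (Nat.land (Nat.shiftRight e 138) 1048575)) 69) 1)
  (Nat.sub 1 (Nat.land (Nat.shiftRight (g (Nat.land (Nat.shiftRight e 138) 1048575)) 68) 1))))))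
  (Nat.ble (Nat.land (Nat.shiftRight (g (Nat.land (Nat.shiftRight e 138) 1048575)) 60) 15)
  (Nat.land (Nat.shiftRight e 60) 15))) (Bool.rec (motive := fun _ => Bool) false (Bool.rec
  (motive := fun _ => Bool) false (Bool.rec (motive := fun _ => Bool) false (Nat.beq
  (Nat.shiftRight (Bool.rec (motive := fun _ => Nat) (Nat.add (Nat.land (Nat.shiftRight e 14)
  16383) (Nat.pow 2 (Nat.land (Nat.shiftRight e 28) 15))) (Nat.sub (Nat.sub (Nat.pow 2 (Nat.succ
  (Nat.land (Nat.shiftRight e 28) 15))) 1) (Nat.add (Nat.land (Nat.shiftRight e 14) 16383)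
  (Nat.pow 2 (Nat.land (Nat.shiftRight e 28) 15)))) (Nat.ble 2 (Nat.land (Nat.shiftRight e 158)
  3))) (Nat.sub (Nat.succ (Nat.land (Nat.shiftRight e 28) 15)) (Nat.land (Nat.shiftRight (g
  (Nat.land (Nat.shiftRight e 138) 1048575)) 28) 15))) (Nat.land (Nat.shiftRight (g (Nat.land
  (Nat.shiftRight e 138) 1048575)) 14) 16383)) (Nat.beq (Nat.shiftLeft (Nat.land (g (Nat.land
  (Nat.shiftRight e 138) 1048575)) 16383) (Nat.sub (Nat.succ (Nat.land (Nat.shiftRight e 28) 15))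
  (Nat.land (Nat.shiftRight (g (Nat.land (Nat.shiftRight e 138) 1048575)) 28) 15))) (Nat.add
  (Nat.land e 16383) (Nat.mul (Nat.pow 2 (Nat.land (Nat.shiftRight e 28) 15)) (Nat.sub 1
  (Nat.shiftRight (Nat.lor (Nat.add (Nat.land (Nat.shiftRight e 32) 16383) (Nat.land (Nat.land
  (Nat.shiftRight e 32) 16383) (Nat.land (Nat.shiftRight e 46) 16383))) (Nat.sub (Nat.land
  (Nat.shiftRight e 32) 16383) (Nat.land (Nat.land (Nat.shiftRight e 32) 16383) (Nat.land
  (Nat.shiftRight e 46) 16383)))) (Nat.land (Nat.shiftRight e 60) 15))))))) (Nat.beq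
  (Nat.shiftLeft (Bool.rec (motive := fun _ => Nat) (Nat.land (g (Nat.land (Nat.shiftRight e 138)
  1048575)) 16383) (Bool.rec (motive := fun _ => Nat) (Nat.add (Nat.land (g (Nat.land
  (Nat.shiftRight e 138) 1048575)) 16383) (Nat.pow 2 (Nat.land (Nat.shiftRight (g (Nat.land
  (Nat.shiftRight e 138) 1048575)) 64) 15))) (Nat.sub (Nat.land (g (Nat.land (Nat.shiftRight e
  138) 1048575)) 16383) (Nat.pow 2 (Nat.land (Nat.shiftRight (g (Nat.land (Nat.shiftRight e 138)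
  1048575)) 64) 15))) (Nat.beq (Nat.land (Nat.shiftRight (g (Nat.land (Nat.shiftRight e 138)
  1048575)) 68) 1) 0)) (Nat.beq (Nat.land (Nat.shiftRight (g (Nat.land (Nat.shiftRight e 138)
  1048575)) 69) 1) (Nat.land (Nat.shiftRight (g (Nat.land (Nat.shiftRight e 138) 1048575)) 68)
  1))) (Nat.sub (Nat.succ (Nat.land (Nat.shiftRight e 28) 15)) (Nat.land (Nat.shiftRight (g
  (Nat.land (Nat.shiftRight e 138) 1048575)) 28) 15))) (Nat.add (Bool.rec (motive := fun _ => Nat)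
  (Nat.land e 16383) (Bool.rec (motive := fun _ => Nat) (Nat.add (Nat.land e 16383) (Nat.pow 2
  (Nat.land (Nat.shiftRight e 64) 15))) (Nat.sub (Nat.land e 16383) (Nat.pow 2 (Nat.land
  (Nat.shiftRight e 64) 15))) (Nat.beq (Nat.land (Nat.shiftRight e 68) 1) 0)) (Nat.beq (Nat.land
  (Nat.shiftRight e 69) 1) (Nat.land (Nat.shiftRight e 68) 1))) (Nat.mul (Nat.pow 2 (Nat.land
  (Nat.shiftRight e 28) 15)) (Nat.sub 1 (Nat.shiftRight (Nat.lor (Nat.add (Bool.rec (motive := fun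
  _ => Nat) (Nat.land (Nat.shiftRight e 32) 16383) (Bool.rec (motive := fun _ => Nat) (Nat.add
  (Nat.land (Nat.shiftRight e 32) 16383) (Nat.pow 2 (Nat.land (Nat.shiftRight e 64) 15))) (Nat.sub
  (Nat.land (Nat.shiftRight e 32) 16383) (Nat.pow 2 (Nat.land (Nat.shiftRight e 64) 15))) (Nat.beq
  (Nat.land (Nat.shiftRight e 68) 1) 0)) (Nat.beq (Nat.land (Nat.shiftRight e 69) 1) (Nat.sub 1
  (Nat.land (Nat.shiftRight e 68) 1)))) (Nat.land (Bool.rec (motive := fun _ => Nat) (Nat.land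
  (Nat.shiftRight e 32) 16383) (Bool.rec (motive := fun _ => Nat) (Nat.add (Nat.land
  (Nat.shiftRight e 32) 16383) (Nat.pow 2 (Nat.land (Nat.shiftRight e 64) 15))) (Nat.sub (Nat.land
  (Nat.shiftRight e 32) 16383) (Nat.pow 2 (Nat.land (Nat.shiftRight e 64) 15))) (Nat.beq (Nat.land
  (Nat.shiftRight e 68) 1) 0)) (Nat.beq (Nat.land (Nat.shiftRight e 69) 1) (Nat.sub 1 (Nat.land
  (Nat.shiftRight e 68) 1)))) (Nat.land (Nat.shiftRight e 46) 16383))) (Nat.sub (Bool.rec (motive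
  := fun _ => Nat) (Nat.land (Nat.shiftRight e 32) 16383) (Bool.rec (motive := fun _ => Nat)
  (Nat.add (Nat.land (Nat.shiftRight e 32) 16383) (Nat.pow 2 (Nat.land (Nat.shiftRight e 64) 15)))
  (Nat.sub (Nat.land (Nat.shiftRight e 32) 16383) (Nat.pow 2 (Nat.land (Nat.shiftRight e 64) 15)))
  (Nat.beq (Nat.land (Nat.shiftRight e 68) 1) 0)) (Nat.beq (Nat.land (Nat.shiftRight e 69) 1)
  (Nat.sub 1 (Nat.land (Nat.shiftRight e 68) 1)))) (Nat.land (Bool.rec (motive := fun _ => Nat)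
  (Nat.land (Nat.shiftRight e 32) 16383) (Bool.rec (motive := fun _ => Nat) (Nat.add (Nat.land
  (Nat.shiftRight e 32) 16383) (Nat.pow 2 (Nat.land (Nat.shiftRight e 64) 15))) (Nat.sub (Nat.land
  (Nat.shiftRight e 32) 16383) (Nat.pow 2 (Nat.land (Nat.shiftRight e 64) 15))) (Nat.beq (Nat.land
  (Nat.shiftRight e 68) 1) 0)) (Nat.beq (Nat.land (Nat.shiftRight e 69) 1) (Nat.sub 1 (Nat.land
  (Nat.shiftRight e 68) 1)))) (Nat.land (Nat.shiftRight e 46) 16383)))) (Nat.land (Nat.shiftRight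
  e 60) 15))))))) (Nat.ble (Nat.land (Nat.shiftRight (g (Nat.land (Nat.shiftRight e 138) 1048575))
  28) 15) (Nat.succ (Nat.land (Nat.shiftRight e 28) 15))))) (Nat.beq (Nat.land (Nat.shiftRight e
  69) 1) 0)) (Nat.beq (Nat.land (Nat.shiftRight (g (Nat.land (Nat.shiftRight e 138) 1048575)) 69)
  1) (Nat.land (Nat.shiftRight e 69) 1))) (Bool.rec (motive := fun _ => Bool) false (Bool.rec
  (motive := fun _ => Bool) (Bool.rec (motive := fun _ => Bool) false (Bool.rec (motive := fun _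
  => Bool) false (Bool.rec (motive := fun _ => Bool) false (Bool.rec (motive := fun _ => Bool)
  false (Nat.beq (Nat.shiftRight (Bool.rec (motive := fun _ => Nat) (Nat.add (Nat.land
  (Nat.shiftRight e 14) 16383) (Nat.pow 2 (Nat.land (Nat.shiftRight e 28) 15))) (Nat.sub (Nat.sub
  (Nat.pow 2 (Nat.succ (Nat.land (Nat.shiftRight e 28) 15))) 1) (Nat.add (Nat.land (Nat.shiftRight
  e 14) 16383) (Nat.pow 2 (Nat.land (Nat.shiftRight e 28) 15)))) (Nat.ble 2 (Nat.land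
  (Nat.shiftRight e 158) 3))) (Nat.sub (Nat.succ (Nat.land (Nat.shiftRight e 28) 15)) (Nat.land
  (Nat.shiftRight (g (Nat.land (Nat.shiftRight e 138) 1048575)) 60) 15))) (Nat.land
  (Nat.shiftRight (g (Nat.land (Nat.shiftRight e 138) 1048575)) 46) 16383)) (Nat.beq
  (Nat.shiftLeft (Nat.land (Nat.shiftRight (g (Nat.land (Nat.shiftRight e 138) 1048575)) 32)
  16383) (Nat.sub (Nat.succ (Nat.land (Nat.shiftRight e 28) 15)) (Nat.land (Nat.shiftRight (g
  (Nat.land (Nat.shiftRight e 138) 1048575)) 60) 15))) (Nat.add (Nat.land e 16383) (Nat.mul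
  (Nat.pow 2 (Nat.land (Nat.shiftRight e 28) 15)) (Nat.sub 1 (Nat.shiftRight (Nat.lor (Nat.add
  (Nat.land (Nat.shiftRight e 32) 16383) (Nat.land (Nat.land (Nat.shiftRight e 32) 16383)
  (Nat.land (Nat.shiftRight e 46) 16383))) (Nat.sub (Nat.land (Nat.shiftRight e 32) 16383)
  (Nat.land (Nat.land (Nat.shiftRight e 32) 16383) (Nat.land (Nat.shiftRight e 46) 16383))))
  (Nat.land (Nat.shiftRight e 60) 15))))))) (Nat.beq (Nat.shiftLeft (Bool.rec (motive := fun _ =>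
  Nat) (Nat.land (Nat.shiftRight (g (Nat.land (Nat.shiftRight e 138) 1048575)) 32) 16383)
  (Bool.rec (motive := fun _ => Nat) (Nat.add (Nat.land (Nat.shiftRight (g (Nat.land
  (Nat.shiftRight e 138) 1048575)) 32) 16383) (Nat.pow 2 (Nat.land (Nat.shiftRight (g (Nat.land
  (Nat.shiftRight e 138) 1048575)) 64) 15))) (Nat.sub (Nat.land (Nat.shiftRight (g (Nat.land
  (Nat.shiftRight e 138) 1048575)) 32) 16383) (Nat.pow 2 (Nat.land (Nat.shiftRight (g (Nat.land
  (Nat.shiftRight e 138) 1048575)) 64) 15))) (Nat.beq (Nat.land (Nat.shiftRight (g (Nat.land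
  (Nat.shiftRight e 138) 1048575)) 68) 1) 0)) (Nat.beq (Nat.land (Nat.shiftRight (g (Nat.land
  (Nat.shiftRight e 138) 1048575)) 69) 1) (Nat.sub 1 (Nat.land (Nat.shiftRight (g (Nat.land
  (Nat.shiftRight e 138) 1048575)) 68) 1)))) (Nat.sub (Nat.succ (Nat.land (Nat.shiftRight e 28)
  15)) (Nat.land (Nat.shiftRight (g (Nat.land (Nat.shiftRight e 138) 1048575)) 60) 15))) (Nat.add
  (Bool.rec (motive := fun _ => Nat) (Nat.land e 16383) (Bool.rec (motive := fun _ => Nat)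
  (Nat.add (Nat.land e 16383) (Nat.pow 2 (Nat.land (Nat.shiftRight e 64) 15))) (Nat.sub (Nat.land
  e 16383) (Nat.pow 2 (Nat.land (Nat.shiftRight e 64) 15))) (Nat.beq (Nat.land (Nat.shiftRight e
  68) 1) 0)) (Nat.beq (Nat.land (Nat.shiftRight e 69) 1) (Nat.land (Nat.shiftRight e 68) 1)))
  (Nat.mul (Nat.pow 2 (Nat.land (Nat.shiftRight e 28) 15)) (Nat.sub 1 (Nat.shiftRight (Nat.lor
  (Nat.add (Bool.rec (motive := fun _ => Nat) (Nat.land (Nat.shiftRight e 32) 16383) (Bool.rec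
  (motive := fun _ => Nat) (Nat.add (Nat.land (Nat.shiftRight e 32) 16383) (Nat.pow 2 (Nat.land
  (Nat.shiftRight e 64) 15))) (Nat.sub (Nat.land (Nat.shiftRight e 32) 16383) (Nat.pow 2 (Nat.land
  (Nat.shiftRight e 64) 15))) (Nat.beq (Nat.land (Nat.shiftRight e 68) 1) 0)) (Nat.beq (Nat.land
  (Nat.shiftRight e 69) 1) (Nat.sub 1 (Nat.land (Nat.shiftRight e 68) 1)))) (Nat.land (Bool.rec
  (motive := fun _ => Nat) (Nat.land (Nat.shiftRight e 32) 16383) (Bool.rec (motive := fun _ =>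
  Nat) (Nat.add (Nat.land (Nat.shiftRight e 32) 16383) (Nat.pow 2 (Nat.land (Nat.shiftRight e 64)
  15))) (Nat.sub (Nat.land (Nat.shiftRight e 32) 16383) (Nat.pow 2 (Nat.land (Nat.shiftRight e 64)
  15))) (Nat.beq (Nat.land (Nat.shiftRight e 68) 1) 0)) (Nat.beq (Nat.land (Nat.shiftRight e 69)
  1) (Nat.sub 1 (Nat.land (Nat.shiftRight e 68) 1)))) (Nat.land (Nat.shiftRight e 46) 16383)))
  (Nat.sub (Bool.rec (motive := fun _ => Nat) (Nat.land (Nat.shiftRight e 32) 16383) (Bool.rec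
  (motive := fun _ => Nat) (Nat.add (Nat.land (Nat.shiftRight e 32) 16383) (Nat.pow 2 (Nat.land
  (Nat.shiftRight e 64) 15))) (Nat.sub (Nat.land (Nat.shiftRight e 32) 16383) (Nat.pow 2 (Nat.land
  (Nat.shiftRight e 64) 15))) (Nat.beq (Nat.land (Nat.shiftRight e 68) 1) 0)) (Nat.beq (Nat.land
  (Nat.shiftRight e 69) 1) (Nat.sub 1 (Nat.land (Nat.shiftRight e 68) 1)))) (Nat.land (Bool.rec
  (motive := fun _ => Nat) (Nat.land (Nat.shiftRight e 32) 16383) (Bool.rec (motive := fun _ =>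
  Nat) (Nat.add (Nat.land (Nat.shiftRight e 32) 16383) (Nat.pow 2 (Nat.land (Nat.shiftRight e 64)
  15))) (Nat.sub (Nat.land (Nat.shiftRight e 32) 16383) (Nat.pow 2 (Nat.land (Nat.shiftRight e 64)
  15))) (Nat.beq (Nat.land (Nat.shiftRight e 68) 1) 0)) (Nat.beq (Nat.land (Nat.shiftRight e 69)
  1) (Nat.sub 1 (Nat.land (Nat.shiftRight e 68) 1)))) (Nat.land (Nat.shiftRight e 46) 16383))))
  (Nat.land (Nat.shiftRight e 60) 15))))))) (Nat.ble (Nat.land (Nat.shiftRight (g (Nat.land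
  (Nat.shiftRight e 138) 1048575)) 60) 15) (Nat.succ (Nat.land (Nat.shiftRight e 28) 15))))
  (Bool.rec (motive := fun _ => Bool) false (Bool.rec (motive := fun _ => Bool) false (Bool.rec
  (motive := fun _ => Bool) false (Nat.beq (Nat.shiftRight (Bool.rec (motive := fun _ => Nat)
  (Nat.land (Nat.shiftRight e 46) 16383) (Nat.sub (Nat.sub (Nat.pow 2 (Nat.land (Nat.shiftRight e
  60) 15)) 1) (Nat.land (Nat.shiftRight e 46) 16383)) (Nat.ble 2 (Nat.land (Nat.shiftRight e 158)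
  3))) (Nat.sub (Nat.land (Nat.shiftRight e 60) 15) (Nat.land (Nat.shiftRight (g (Nat.land
  (Nat.shiftRight e 138) 1048575)) 28) 15))) (Nat.land (Nat.shiftRight (g (Nat.land
  (Nat.shiftRight e 138) 1048575)) 14) 16383)) (Nat.beq (Nat.shiftRight (Nat.sub (Nat.lor (Nat.add
  (Nat.land (Nat.shiftRight e 32) 16383) (Nat.land (Nat.land (Nat.shiftRight e 32) 16383)
  (Nat.land (Nat.shiftRight e 46) 16383))) (Nat.sub (Nat.land (Nat.shiftRight e 32) 16383)
  (Nat.land (Nat.land (Nat.shiftRight e 32) 16383) (Nat.land (Nat.shiftRight e 46) 16383))))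
  (Nat.mul (Nat.pow 2 (Nat.land (Nat.shiftRight e 60) 15)) (Nat.shiftRight (Nat.lor (Nat.add
  (Nat.land (Nat.shiftRight e 32) 16383) (Nat.land (Nat.land (Nat.shiftRight e 32) 16383)
  (Nat.land (Nat.shiftRight e 46) 16383))) (Nat.sub (Nat.land (Nat.shiftRight e 32) 16383)
  (Nat.land (Nat.land (Nat.shiftRight e 32) 16383) (Nat.land (Nat.shiftRight e 46) 16383))))
  (Nat.land (Nat.shiftRight e 60) 15)))) (Nat.sub (Nat.land (Nat.shiftRight e 60) 15) (Nat.land
  (Nat.shiftRight (g (Nat.land (Nat.shiftRight e 138) 1048575)) 28) 15))) (Nat.land (g (Nat.land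
  (Nat.shiftRight e 138) 1048575)) 16383))) (Nat.beq (Nat.shiftRight (Nat.sub (Nat.lor (Nat.add
  (Bool.rec (motive := fun _ => Nat) (Nat.land (Nat.shiftRight e 32) 16383) (Bool.rec (motive :=
  fun _ => Nat) (Nat.add (Nat.land (Nat.shiftRight e 32) 16383) (Nat.pow 2 (Nat.land
  (Nat.shiftRight e 64) 15))) (Nat.sub (Nat.land (Nat.shiftRight e 32) 16383) (Nat.pow 2 (Nat.land
  (Nat.shiftRight e 64) 15))) (Nat.beq (Nat.land (Nat.shiftRight e 68) 1) 0)) (Nat.beq (Nat.land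
  (Nat.shiftRight e 69) 1) (Nat.sub 1 (Nat.land (Nat.shiftRight e 68) 1)))) (Nat.land (Bool.rec
  (motive := fun _ => Nat) (Nat.land (Nat.shiftRight e 32) 16383) (Bool.rec (motive := fun _ =>
  Nat) (Nat.add (Nat.land (Nat.shiftRight e 32) 16383) (Nat.pow 2 (Nat.land (Nat.shiftRight e 64)
  15))) (Nat.sub (Nat.land (Nat.shiftRight e 32) 16383) (Nat.pow 2 (Nat.land (Nat.shiftRight e 64)
  15))) (Nat.beq (Nat.land (Nat.shiftRight e 68) 1) 0)) (Nat.beq (Nat.land (Nat.shiftRight e 69)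
  1) (Nat.sub 1 (Nat.land (Nat.shiftRight e 68) 1)))) (Nat.land (Nat.shiftRight e 46) 16383)))
  (Nat.sub (Bool.rec (motive := fun _ => Nat) (Nat.land (Nat.shiftRight e 32) 16383) (Bool.rec
  (motive := fun _ => Nat) (Nat.add (Nat.land (Nat.shiftRight e 32) 16383) (Nat.pow 2 (Nat.land
  (Nat.shiftRight e 64) 15))) (Nat.sub (Nat.land (Nat.shiftRight e 32) 16383) (Nat.pow 2 (Nat.land
  (Nat.shiftRight e 64) 15))) (Nat.beq (Nat.land (Nat.shiftRight e 68) 1) 0)) (Nat.beq (Nat.land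
  (Nat.shiftRight e 69) 1) (Nat.sub 1 (Nat.land (Nat.shiftRight e 68) 1)))) (Nat.land (Bool.rec
  (motive := fun _ => Nat) (Nat.land (Nat.shiftRight e 32) 16383) (Bool.rec (motive := fun _ =>
  Nat) (Nat.add (Nat.land (Nat.shiftRight e 32) 16383) (Nat.pow 2 (Nat.land (Nat.shiftRight e 64)
  15))) (Nat.sub (Nat.land (Nat.shiftRight e 32) 16383) (Nat.pow 2 (Nat.land (Nat.shiftRight e 64)
  15))) (Nat.beq (Nat.land (Nat.shiftRight e 68) 1) 0)) (Nat.beq (Nat.land (Nat.shiftRight e 69)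
  1) (Nat.sub 1 (Nat.land (Nat.shiftRight e 68) 1)))) (Nat.land (Nat.shiftRight e 46) 16383))))
  (Nat.mul (Nat.pow 2 (Nat.land (Nat.shiftRight e 60) 15)) (Nat.shiftRight (Nat.lor (Nat.add
  (Bool.rec (motive := fun _ => Nat) (Nat.land (Nat.shiftRight e 32) 16383) (Bool.rec (motive :=
  fun _ => Nat) (Nat.add (Nat.land (Nat.shiftRight e 32) 16383) (Nat.pow 2 (Nat.land
  (Nat.shiftRight e 64) 15))) (Nat.sub (Nat.land (Nat.shiftRight e 32) 16383) (Nat.pow 2 (Nat.land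
  (Nat.shiftRight e 64) 15))) (Nat.beq (Nat.land (Nat.shiftRight e 68) 1) 0)) (Nat.beq (Nat.land
  (Nat.shiftRight e 69) 1) (Nat.sub 1 (Nat.land (Nat.shiftRight e 68) 1)))) (Nat.land (Bool.rec
  (motive := fun _ => Nat) (Nat.land (Nat.shiftRight e 32) 16383) (Bool.rec (motive := fun _ =>
  Nat) (Nat.add (Nat.land (Nat.shiftRight e 32) 16383) (Nat.pow 2 (Nat.land (Nat.shiftRight e 64)
  15))) (Nat.sub (Nat.land (Nat.shiftRight e 32) 16383) (Nat.pow 2 (Nat.land (Nat.shiftRight e 64)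
  15))) (Nat.beq (Nat.land (Nat.shiftRight e 68) 1) 0)) (Nat.beq (Nat.land (Nat.shiftRight e 69)
  1) (Nat.sub 1 (Nat.land (Nat.shiftRight e 68) 1)))) (Nat.land (Nat.shiftRight e 46) 16383)))
  (Nat.sub (Bool.rec (motive := fun _ => Nat) (Nat.land (Nat.shiftRight e 32) 16383) (Bool.rec
  (motive := fun _ => Nat) (Nat.add (Nat.land (Nat.shiftRight e 32) 16383) (Nat.pow 2 (Nat.land
  (Nat.shiftRight e 64) 15))) (Nat.sub (Nat.land (Nat.shiftRight e 32) 16383) (Nat.pow 2 (Nat.land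
  (Nat.shiftRight e 64) 15))) (Nat.beq (Nat.land (Nat.shiftRight e 68) 1) 0)) (Nat.beq (Nat.land
  (Nat.shiftRight e 69) 1) (Nat.sub 1 (Nat.land (Nat.shiftRight e 68) 1)))) (Nat.land (Bool.rec
  (motive := fun _ => Nat) (Nat.land (Nat.shiftRight e 32) 16383) (Bool.rec (motive := fun _ =>
  Nat) (Nat.add (Nat.land (Nat.shiftRight e 32) 16383) (Nat.pow 2 (Nat.land (Nat.shiftRight e 64)
  15))) (Nat.sub (Nat.land (Nat.shiftRight e 32) 16383) (Nat.pow 2 (Nat.land (Nat.shiftRight e 64)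
  15))) (Nat.beq (Nat.land (Nat.shiftRight e 68) 1) 0)) (Nat.beq (Nat.land (Nat.shiftRight e 69)
  1) (Nat.sub 1 (Nat.land (Nat.shiftRight e 68) 1)))) (Nat.land (Nat.shiftRight e 46) 16383))))
  (Nat.land (Nat.shiftRight e 60) 15)))) (Nat.sub (Nat.land (Nat.shiftRight e 60) 15) (Nat.land
  (Nat.shiftRight (g (Nat.land (Nat.shiftRight e 138) 1048575)) 28) 15))) (Bool.rec (motive := fun
  _ => Nat) (Nat.land (g (Nat.land (Nat.shiftRight e 138) 1048575)) 16383) (Bool.rec (motive :=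
  fun _ => Nat) (Nat.add (Nat.land (g (Nat.land (Nat.shiftRight e 138) 1048575)) 16383) (Nat.pow 2
  (Nat.land (Nat.shiftRight (g (Nat.land (Nat.shiftRight e 138) 1048575)) 64) 15))) (Nat.sub
  (Nat.land (g (Nat.land (Nat.shiftRight e 138) 1048575)) 16383) (Nat.pow 2 (Nat.land
  (Nat.shiftRight (g (Nat.land (Nat.shiftRight e 138) 1048575)) 64) 15))) (Nat.beq (Nat.land
  (Nat.shiftRight (g (Nat.land (Nat.shiftRight e 138) 1048575)) 68) 1) 0)) (Nat.beq (Nat.land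
  (Nat.shiftRight (g (Nat.land (Nat.shiftRight e 138) 1048575)) 69) 1) (Nat.land (Nat.shiftRight
  (g (Nat.land (Nat.shiftRight e 138) 1048575)) 68) 1))))) (Nat.ble (Nat.land (Nat.shiftRight (g
  (Nat.land (Nat.shiftRight e 138) 1048575)) 28) 15) (Nat.land (Nat.shiftRight e 60) 15))))
  (Bool.rec (motive := fun _ => Bool) false (Bool.rec (motive := fun _ => Bool) false (Bool.rec
  (motive := fun _ => Bool) false (Bool.rec (motive := fun _ => Bool) false (Nat.beq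
  (Nat.shiftRight (Bool.rec (motive := fun _ => Nat) (Nat.add (Nat.land (Nat.shiftRight e 14)
  16383) (Nat.pow 2 (Nat.land (Nat.shiftRight e 28) 15))) (Nat.sub (Nat.sub (Nat.pow 2 (Nat.succ
  (Nat.land (Nat.shiftRight e 28) 15))) 1) (Nat.add (Nat.land (Nat.shiftRight e 14) 16383)
  (Nat.pow 2 (Nat.land (Nat.shiftRight e 28) 15)))) (Nat.ble 2 (Nat.land (Nat.shiftRight e 158)
  3))) (Nat.sub (Nat.succ (Nat.land (Nat.shiftRight e 28) 15)) (Nat.land (Nat.shiftRight (g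
  (Nat.land (Nat.shiftRight e 138) 1048575)) 60) 15))) (Nat.land (Nat.shiftRight (g (Nat.land
  (Nat.shiftRight e 138) 1048575)) 46) 16383)) (Nat.beq (Nat.shiftRight (Nat.add (Nat.land e
  16383) (Nat.mul (Nat.pow 2 (Nat.land (Nat.shiftRight e 28) 15)) (Nat.sub 1 (Nat.shiftRight
  (Nat.lor (Nat.add (Nat.land (Nat.shiftRight e 32) 16383) (Nat.land (Nat.land (Nat.shiftRight e
  32) 16383) (Nat.land (Nat.shiftRight e 46) 16383))) (Nat.sub (Nat.land (Nat.shiftRight e 32)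
  16383) (Nat.land (Nat.land (Nat.shiftRight e 32) 16383) (Nat.land (Nat.shiftRight e 46)
  16383)))) (Nat.land (Nat.shiftRight e 60) 15))))) (Nat.sub (Nat.succ (Nat.land (Nat.shiftRight e
  28) 15)) (Nat.land (Nat.shiftRight (g (Nat.land (Nat.shiftRight e 138) 1048575)) 60) 15)))
  (Nat.land (Nat.shiftRight (g (Nat.land (Nat.shiftRight e 138) 1048575)) 32) 16383))) (Nat.beq
  (Nat.shiftRight (Nat.add (Bool.rec (motive := fun _ => Nat) (Nat.land e 16383) (Bool.rec (motive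
  := fun _ => Nat) (Nat.add (Nat.land e 16383) (Nat.pow 2 (Nat.land (Nat.shiftRight e 64) 15)))
  (Nat.sub (Nat.land e 16383) (Nat.pow 2 (Nat.land (Nat.shiftRight e 64) 15))) (Nat.beq (Nat.land
  (Nat.shiftRight e 68) 1) 0)) (Nat.beq (Nat.land (Nat.shiftRight e 69) 1) (Nat.land
  (Nat.shiftRight e 68) 1))) (Nat.mul (Nat.pow 2 (Nat.land (Nat.shiftRight e 28) 15)) (Nat.sub 1
  (Nat.shiftRight (Nat.lor (Nat.add (Bool.rec (motive := fun _ => Nat) (Nat.land (Nat.shiftRight e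
  32) 16383) (Bool.rec (motive := fun _ => Nat) (Nat.add (Nat.land (Nat.shiftRight e 32) 16383)
  (Nat.pow 2 (Nat.land (Nat.shiftRight e 64) 15))) (Nat.sub (Nat.land (Nat.shiftRight e 32) 16383)
  (Nat.pow 2 (Nat.land (Nat.shiftRight e 64) 15))) (Nat.beq (Nat.land (Nat.shiftRight e 68) 1) 0))
  (Nat.beq (Nat.land (Nat.shiftRight e 69) 1) (Nat.sub 1 (Nat.land (Nat.shiftRight e 68) 1))))
  (Nat.land (Bool.rec (motive := fun _ => Nat) (Nat.land (Nat.shiftRight e 32) 16383) (Bool.rec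
  (motive := fun _ => Nat) (Nat.add (Nat.land (Nat.shiftRight e 32) 16383) (Nat.pow 2 (Nat.land
  (Nat.shiftRight e 64) 15))) (Nat.sub (Nat.land (Nat.shiftRight e 32) 16383) (Nat.pow 2 (Nat.land
  (Nat.shiftRight e 64) 15))) (Nat.beq (Nat.land (Nat.shiftRight e 68) 1) 0)) (Nat.beq (Nat.land
  (Nat.shiftRight e 69) 1) (Nat.sub 1 (Nat.land (Nat.shiftRight e 68) 1)))) (Nat.land
  (Nat.shiftRight e 46) 16383))) (Nat.sub (Bool.rec (motive := fun _ => Nat) (Nat.land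
  (Nat.shiftRight e 32) 16383) (Bool.rec (motive := fun _ => Nat) (Nat.add (Nat.land
  (Nat.shiftRight e 32) 16383) (Nat.pow 2 (Nat.land (Nat.shiftRight e 64) 15))) (Nat.sub (Nat.land
  (Nat.shiftRight e 32) 16383) (Nat.pow 2 (Nat.land (Nat.shiftRight e 64) 15))) (Nat.beq (Nat.land
  (Nat.shiftRight e 68) 1) 0)) (Nat.beq (Nat.land (Nat.shiftRight e 69) 1) (Nat.sub 1 (Nat.land
  (Nat.shiftRight e 68) 1)))) (Nat.land (Bool.rec (motive := fun _ => Nat) (Nat.land
  (Nat.shiftRight e 32) 16383) (Bool.rec (motive := fun _ => Nat) (Nat.add (Nat.land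
  (Nat.shiftRight e 32) 16383) (Nat.pow 2 (Nat.land (Nat.shiftRight e 64) 15))) (Nat.sub (Nat.land
  (Nat.shiftRight e 32) 16383) (Nat.pow 2 (Nat.land (Nat.shiftRight e 64) 15))) (Nat.beq (Nat.land
  (Nat.shiftRight e 68) 1) 0)) (Nat.beq (Nat.land (Nat.shiftRight e 69) 1) (Nat.sub 1 (Nat.land
  (Nat.shiftRight e 68) 1)))) (Nat.land (Nat.shiftRight e 46) 16383)))) (Nat.land (Nat.shiftRight
  e 60) 15))))) (Nat.sub (Nat.succ (Nat.land (Nat.shiftRight e 28) 15)) (Nat.land (Nat.shiftRight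
  (g (Nat.land (Nat.shiftRight e 138) 1048575)) 60) 15))) (Bool.rec (motive := fun _ => Nat)
  (Nat.land (Nat.shiftRight (g (Nat.land (Nat.shiftRight e 138) 1048575)) 32) 16383) (Bool.rec
  (motive := fun _ => Nat) (Nat.add (Nat.land (Nat.shiftRight (g (Nat.land (Nat.shiftRight e 138)
  1048575)) 32) 16383) (Nat.pow 2 (Nat.land (Nat.shiftRight (g (Nat.land (Nat.shiftRight e 138)
  1048575)) 64) 15))) (Nat.sub (Nat.land (Nat.shiftRight (g (Nat.land (Nat.shiftRight e 138)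
  1048575)) 32) 16383) (Nat.pow 2 (Nat.land (Nat.shiftRight (g (Nat.land (Nat.shiftRight e 138)
  1048575)) 64) 15))) (Nat.beq (Nat.land (Nat.shiftRight (g (Nat.land (Nat.shiftRight e 138)
  1048575)) 68) 1) 0)) (Nat.beq (Nat.land (Nat.shiftRight (g (Nat.land (Nat.shiftRight e 138)
  1048575)) 69) 1) (Nat.sub 1 (Nat.land (Nat.shiftRight (g (Nat.land (Nat.shiftRight e 138)
  1048575)) 68) 1)))))) (Nat.ble (Nat.land (Nat.shiftRight (g (Nat.land (Nat.shiftRight e 138)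
  1048575)) 60) 15) (Nat.succ (Nat.land (Nat.shiftRight e 28) 15)))) (Bool.rec (motive := fun _ =>
  Bool) false (Bool.rec (motive := fun _ => Bool) false (Bool.rec (motive := fun _ => Bool) false
  (Nat.beq (Nat.shiftRight (Bool.rec (motive := fun _ => Nat) (Nat.land (Nat.shiftRight e 46)
  16383) (Nat.sub (Nat.sub (Nat.pow 2 (Nat.land (Nat.shiftRight e 60) 15)) 1) (Nat.land
  (Nat.shiftRight e 46) 16383)) (Nat.ble 2 (Nat.land (Nat.shiftRight e 158) 3))) (Nat.sub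
  (Nat.land (Nat.shiftRight e 60) 15) (Nat.land (Nat.shiftRight (g (Nat.land (Nat.shiftRight e
  138) 1048575)) 28) 15))) (Nat.land (Nat.shiftRight (g (Nat.land (Nat.shiftRight e 138) 1048575))
  14) 16383)) (Nat.beq (Nat.shiftLeft (Nat.land (g (Nat.land (Nat.shiftRight e 138) 1048575))
  16383) (Nat.sub (Nat.land (Nat.shiftRight e 60) 15) (Nat.land (Nat.shiftRight (g (Nat.land
  (Nat.shiftRight e 138) 1048575)) 28) 15))) (Nat.sub (Nat.lor (Nat.add (Nat.land (Nat.shiftRight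
  e 32) 16383) (Nat.land (Nat.land (Nat.shiftRight e 32) 16383) (Nat.land (Nat.shiftRight e 46)
  16383))) (Nat.sub (Nat.land (Nat.shiftRight e 32) 16383) (Nat.land (Nat.land (Nat.shiftRight e
  32) 16383) (Nat.land (Nat.shiftRight e 46) 16383)))) (Nat.mul (Nat.pow 2 (Nat.land
  (Nat.shiftRight e 60) 15)) (Nat.shiftRight (Nat.lor (Nat.add (Nat.land (Nat.shiftRight e 32)
  16383) (Nat.land (Nat.land (Nat.shiftRight e 32) 16383) (Nat.land (Nat.shiftRight e 46) 16383)))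
  (Nat.sub (Nat.land (Nat.shiftRight e 32) 16383) (Nat.land (Nat.land (Nat.shiftRight e 32) 16383)
  (Nat.land (Nat.shiftRight e 46) 16383)))) (Nat.land (Nat.shiftRight e 60) 15)))))) (Nat.beq
  (Nat.shiftLeft (Bool.rec (motive := fun _ => Nat) (Nat.land (g (Nat.land (Nat.shiftRight e 138)
  1048575)) 16383) (Bool.rec (motive := fun _ => Nat) (Nat.add (Nat.land (g (Nat.land
  (Nat.shiftRight e 138) 1048575)) 16383) (Nat.pow 2 (Nat.land (Nat.shiftRight (g (Nat.land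
  (Nat.shiftRight e 138) 1048575)) 64) 15))) (Nat.sub (Nat.land (g (Nat.land (Nat.shiftRight e
  138) 1048575)) 16383) (Nat.pow 2 (Nat.land (Nat.shiftRight (g (Nat.land (Nat.shiftRight e 138)
  1048575)) 64) 15))) (Nat.beq (Nat.land (Nat.shiftRight (g (Nat.land (Nat.shiftRight e 138)
  1048575)) 68) 1) 0)) (Nat.beq (Nat.land (Nat.shiftRight (g (Nat.land (Nat.shiftRight e 138)
  1048575)) 69) 1) (Nat.land (Nat.shiftRight (g (Nat.land (Nat.shiftRight e 138) 1048575)) 68)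
  1))) (Nat.sub (Nat.land (Nat.shiftRight e 60) 15) (Nat.land (Nat.shiftRight (g (Nat.land
  (Nat.shiftRight e 138) 1048575)) 28) 15))) (Nat.sub (Nat.lor (Nat.add (Bool.rec (motive := fun _
  => Nat) (Nat.land (Nat.shiftRight e 32) 16383) (Bool.rec (motive := fun _ => Nat) (Nat.add
  (Nat.land (Nat.shiftRight e 32) 16383) (Nat.pow 2 (Nat.land (Nat.shiftRight e 64) 15))) (Nat.sub
  (Nat.land (Nat.shiftRight e 32) 16383) (Nat.pow 2 (Nat.land (Nat.shiftRight e 64) 15))) (Nat.beq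
  (Nat.land (Nat.shiftRight e 68) 1) 0)) (Nat.beq (Nat.land (Nat.shiftRight e 69) 1) (Nat.sub 1
  (Nat.land (Nat.shiftRight e 68) 1)))) (Nat.land (Bool.rec (motive := fun _ => Nat) (Nat.land
  (Nat.shiftRight e 32) 16383) (Bool.rec (motive := fun _ => Nat) (Nat.add (Nat.land
  (Nat.shiftRight e 32) 16383) (Nat.pow 2 (Nat.land (Nat.shiftRight e 64) 15))) (Nat.sub (Nat.land
  (Nat.shiftRight e 32) 16383) (Nat.pow 2 (Nat.land (Nat.shiftRight e 64) 15))) (Nat.beq (Nat.land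
  (Nat.shiftRight e 68) 1) 0)) (Nat.beq (Nat.land (Nat.shiftRight e 69) 1) (Nat.sub 1 (Nat.land
  (Nat.shiftRight e 68) 1)))) (Nat.land (Nat.shiftRight e 46) 16383))) (Nat.sub (Bool.rec (motive
  := fun _ => Nat) (Nat.land (Nat.shiftRight e 32) 16383) (Bool.rec (motive := fun _ => Nat)
  (Nat.add (Nat.land (Nat.shiftRight e 32) 16383) (Nat.pow 2 (Nat.land (Nat.shiftRight e 64) 15)))
  (Nat.sub (Nat.land (Nat.shiftRight e 32) 16383) (Nat.pow 2 (Nat.land (Nat.shiftRight e 64) 15)))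
  (Nat.beq (Nat.land (Nat.shiftRight e 68) 1) 0)) (Nat.beq (Nat.land (Nat.shiftRight e 69) 1)
  (Nat.sub 1 (Nat.land (Nat.shiftRight e 68) 1)))) (Nat.land (Bool.rec (motive := fun _ => Nat)
  (Nat.land (Nat.shiftRight e 32) 16383) (Bool.rec (motive := fun _ => Nat) (Nat.add (Nat.land
  (Nat.shiftRight e 32) 16383) (Nat.pow 2 (Nat.land (Nat.shiftRight e 64) 15))) (Nat.sub (Nat.land
  (Nat.shiftRight e 32) 16383) (Nat.pow 2 (Nat.land (Nat.shiftRight e 64) 15))) (Nat.beq (Nat.land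
  (Nat.shiftRight e 68) 1) 0)) (Nat.beq (Nat.land (Nat.shiftRight e 69) 1) (Nat.sub 1 (Nat.land
  (Nat.shiftRight e 68) 1)))) (Nat.land (Nat.shiftRight e 46) 16383)))) (Nat.mul (Nat.pow 2
  (Nat.land (Nat.shiftRight e 60) 15)) (Nat.shiftRight (Nat.lor (Nat.add (Bool.rec (motive := fun
  _ => Nat) (Nat.land (Nat.shiftRight e 32) 16383) (Bool.rec (motive := fun _ => Nat) (Nat.add
  (Nat.land (Nat.shiftRight e 32) 16383) (Nat.pow 2 (Nat.land (Nat.shiftRight e 64) 15))) (Nat.sub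
  (Nat.land (Nat.shiftRight e 32) 16383) (Nat.pow 2 (Nat.land (Nat.shiftRight e 64) 15))) (Nat.beq
  (Nat.land (Nat.shiftRight e 68) 1) 0)) (Nat.beq (Nat.land (Nat.shiftRight e 69) 1) (Nat.sub 1
  (Nat.land (Nat.shiftRight e 68) 1)))) (Nat.land (Bool.rec (motive := fun _ => Nat) (Nat.land
  (Nat.shiftRight e 32) 16383) (Bool.rec (motive := fun _ => Nat) (Nat.add (Nat.land
  (Nat.shiftRight e 32) 16383) (Nat.pow 2 (Nat.land (Nat.shiftRight e 64) 15))) (Nat.sub (Nat.land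
  (Nat.shiftRight e 32) 16383) (Nat.pow 2 (Nat.land (Nat.shiftRight e 64) 15))) (Nat.beq (Nat.land
  (Nat.shiftRight e 68) 1) 0)) (Nat.beq (Nat.land (Nat.shiftRight e 69) 1) (Nat.sub 1 (Nat.land
  (Nat.shiftRight e 68) 1)))) (Nat.land (Nat.shiftRight e 46) 16383))) (Nat.sub (Bool.rec (motive
  := fun _ => Nat) (Nat.land (Nat.shiftRight e 32) 16383) (Bool.rec (motive := fun _ => Nat)
  (Nat.add (Nat.land (Nat.shiftRight e 32) 16383) (Nat.pow 2 (Nat.land (Nat.shiftRight e 64) 15)))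
  (Nat.sub (Nat.land (Nat.shiftRight e 32) 16383) (Nat.pow 2 (Nat.land (Nat.shiftRight e 64) 15)))
  (Nat.beq (Nat.land (Nat.shiftRight e 68) 1) 0)) (Nat.beq (Nat.land (Nat.shiftRight e 69) 1)
  (Nat.sub 1 (Nat.land (Nat.shiftRight e 68) 1)))) (Nat.land (Bool.rec (motive := fun _ => Nat)
  (Nat.land (Nat.shiftRight e 32) 16383) (Bool.rec (motive := fun _ => Nat) (Nat.add (Nat.land
  (Nat.shiftRight e 32) 16383) (Nat.pow 2 (Nat.land (Nat.shiftRight e 64) 15))) (Nat.sub (Nat.land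
  (Nat.shiftRight e 32) 16383) (Nat.pow 2 (Nat.land (Nat.shiftRight e 64) 15))) (Nat.beq (Nat.land
  (Nat.shiftRight e 68) 1) 0)) (Nat.beq (Nat.land (Nat.shiftRight e 69) 1) (Nat.sub 1 (Nat.land
  (Nat.shiftRight e 68) 1)))) (Nat.land (Nat.shiftRight e 46) 16383)))) (Nat.land (Nat.shiftRight
  e 60) 15)))))) (Nat.ble (Nat.land (Nat.shiftRight (g (Nat.land (Nat.shiftRight e 138) 1048575))
  28) 15) (Nat.land (Nat.shiftRight e 60) 15)))) (Nat.beq (Nat.sub 1 (Nat.land (Nat.shiftRight e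
  69) 1)) 0)) (Nat.beq (Nat.land (Nat.shiftRight (g (Nat.land (Nat.shiftRight e 138) 1048575)) 69)
  1) (Nat.sub 1 (Nat.land (Nat.shiftRight e 69) 1)))) (Nat.beq (Nat.land (Nat.land (Nat.shiftRight
  e 158) 3) 1) 1)) (Nat.beq (Nat.land (Nat.shiftRight (g (Nat.land (Nat.shiftRight e 138)
  1048575)) 68) 1) (Nat.sub (Nat.add (Nat.land (Nat.shiftRight e 68) 1) (Nat.shiftRight (Nat.lor
  (Nat.add (Nat.land (Nat.shiftRight e 32) 16383) (Nat.land (Nat.land (Nat.shiftRight e 32) 16383)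
  (Nat.land (Nat.shiftRight e 46) 16383))) (Nat.sub (Nat.land (Nat.shiftRight e 32) 16383)
  (Nat.land (Nat.land (Nat.shiftRight e 32) 16383) (Nat.land (Nat.shiftRight e 46) 16383))))
  (Nat.land (Nat.shiftRight e 60) 15))) (Nat.shiftRight (Nat.lor (Nat.add (Bool.rec (motive := fun
  _ => Nat) (Nat.land (Nat.shiftRight e 32) 16383) (Bool.rec (motive := fun _ => Nat) (Nat.add
  (Nat.land (Nat.shiftRight e 32) 16383) (Nat.pow 2 (Nat.land (Nat.shiftRight e 64) 15))) (Nat.sub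
  (Nat.land (Nat.shiftRight e 32) 16383) (Nat.pow 2 (Nat.land (Nat.shiftRight e 64) 15))) (Nat.beq
  (Nat.land (Nat.shiftRight e 68) 1) 0)) (Nat.beq (Nat.land (Nat.shiftRight e 69) 1) (Nat.sub 1
  (Nat.land (Nat.shiftRight e 68) 1)))) (Nat.land (Bool.rec (motive := fun _ => Nat) (Nat.land
  (Nat.shiftRight e 32) 16383) (Bool.rec (motive := fun _ => Nat) (Nat.add (Nat.land
  (Nat.shiftRight e 32) 16383) (Nat.pow 2 (Nat.land (Nat.shiftRight e 64) 15))) (Nat.sub (Nat.land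
  (Nat.shiftRight e 32) 16383) (Nat.pow 2 (Nat.land (Nat.shiftRight e 64) 15))) (Nat.beq (Nat.land
  (Nat.shiftRight e 68) 1) 0)) (Nat.beq (Nat.land (Nat.shiftRight e 69) 1) (Nat.sub 1 (Nat.land
  (Nat.shiftRight e 68) 1)))) (Nat.land (Nat.shiftRight e 46) 16383))) (Nat.sub (Bool.rec (motive
  := fun _ => Nat) (Nat.land (Nat.shiftRight e 32) 16383) (Bool.rec (motive := fun _ => Nat)
  (Nat.add (Nat.land (Nat.shiftRight e 32) 16383) (Nat.pow 2 (Nat.land (Nat.shiftRight e 64) 15)))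
  (Nat.sub (Nat.land (Nat.shiftRight e 32) 16383) (Nat.pow 2 (Nat.land (Nat.shiftRight e 64) 15)))
  (Nat.beq (Nat.land (Nat.shiftRight e 68) 1) 0)) (Nat.beq (Nat.land (Nat.shiftRight e 69) 1)
  (Nat.sub 1 (Nat.land (Nat.shiftRight e 68) 1)))) (Nat.land (Bool.rec (motive := fun _ => Nat)
  (Nat.land (Nat.shiftRight e 32) 16383) (Bool.rec (motive := fun _ => Nat) (Nat.add (Nat.land
  (Nat.shiftRight e 32) 16383) (Nat.pow 2 (Nat.land (Nat.shiftRight e 64) 15))) (Nat.sub (Nat.land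
  (Nat.shiftRight e 32) 16383) (Nat.pow 2 (Nat.land (Nat.shiftRight e 64) 15))) (Nat.beq (Nat.land
  (Nat.shiftRight e 68) 1) 0)) (Nat.beq (Nat.land (Nat.shiftRight e 69) 1) (Nat.sub 1 (Nat.land
  (Nat.shiftRight e 68) 1)))) (Nat.land (Nat.shiftRight e 46) 16383)))) (Nat.land (Nat.shiftRight
  e 60) 15))))) (Nat.beq (Nat.land (Nat.shiftRight (g (Nat.land (Nat.shiftRight e 138) 1048575))
  70) 1) 1))) (Bool.rec (motive := fun _ => Bool) false (Bool.rec (motive := fun _ => Bool) false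
  (Bool.rec (motive := fun _ => Bool) (Bool.rec (motive := fun _ => Bool) false (Bool.rec (motive
  := fun _ => Bool) (Bool.rec (motive := fun _ => Bool) false (Bool.rec (motive := fun _ => Bool)
  false (Bool.rec (motive := fun _ => Bool) false (Bool.rec (motive := fun _ => Bool) false
  (Nat.beq (Nat.shiftRight (Bool.rec (motive := fun _ => Nat) (Nat.land (Nat.shiftRight e 46)
  16383) (Nat.sub (Nat.sub (Nat.pow 2 (Nat.land (Nat.shiftRight e 60) 15)) 1) (Nat.land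
  (Nat.shiftRight e 46) 16383)) (Nat.ble 2 (Nat.land (Nat.shiftRight e 136) 3))) (Nat.sub
  (Nat.land (Nat.shiftRight e 60) 15) (Nat.land (Nat.shiftRight (g (Nat.land (Nat.shiftRight e
  116) 1048575)) 60) 15))) (Nat.land (Nat.shiftRight (g (Nat.land (Nat.shiftRight e 116) 1048575))
  46) 16383)) (Nat.beq (Nat.shiftLeft (Nat.land (Nat.shiftRight (g (Nat.land (Nat.shiftRight e
  116) 1048575)) 32) 16383) (Nat.sub (Nat.land (Nat.shiftRight e 60) 15) (Nat.land (Nat.shiftRight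
  (g (Nat.land (Nat.shiftRight e 116) 1048575)) 60) 15))) (Nat.sub (Nat.lor (Nat.add (Nat.land
  (Nat.shiftRight e 32) 16383) (Nat.land (Nat.land (Nat.shiftRight e 32) 16383) (Nat.sub (Nat.sub
  (Nat.pow 2 (Nat.land (Nat.shiftRight e 60) 15)) 1) (Nat.land (Nat.shiftRight e 46) 16383))))
  (Nat.sub (Nat.land (Nat.shiftRight e 32) 16383) (Nat.land (Nat.land (Nat.shiftRight e 32) 16383)
  (Nat.sub (Nat.sub (Nat.pow 2 (Nat.land (Nat.shiftRight e 60) 15)) 1) (Nat.land (Nat.shiftRight e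
  46) 16383))))) (Nat.mul (Nat.pow 2 (Nat.land (Nat.shiftRight e 60) 15)) (Nat.shiftRight (Nat.lor
  (Nat.add (Nat.land (Nat.shiftRight e 32) 16383) (Nat.land (Nat.land (Nat.shiftRight e 32) 16383)
  (Nat.sub (Nat.sub (Nat.pow 2 (Nat.land (Nat.shiftRight e 60) 15)) 1) (Nat.land (Nat.shiftRight e
  46) 16383)))) (Nat.sub (Nat.land (Nat.shiftRight e 32) 16383) (Nat.land (Nat.land
  (Nat.shiftRight e 32) 16383) (Nat.sub (Nat.sub (Nat.pow 2 (Nat.land (Nat.shiftRight e 60) 15))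
  1) (Nat.land (Nat.shiftRight e 46) 16383))))) (Nat.land (Nat.shiftRight e 60) 15)))))) (Nat.beq
  (Nat.shiftLeft (Bool.rec (motive := fun _ => Nat) (Nat.land (Nat.shiftRight (g (Nat.land
  (Nat.shiftRight e 116) 1048575)) 32) 16383) (Bool.rec (motive := fun _ => Nat) (Nat.add
  (Nat.land (Nat.shiftRight (g (Nat.land (Nat.shiftRight e 116) 1048575)) 32) 16383) (Nat.pow 2
  (Nat.land (Nat.shiftRight (g (Nat.land (Nat.shiftRight e 116) 1048575)) 64) 15))) (Nat.sub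
  (Nat.land (Nat.shiftRight (g (Nat.land (Nat.shiftRight e 116) 1048575)) 32) 16383) (Nat.pow 2
  (Nat.land (Nat.shiftRight (g (Nat.land (Nat.shiftRight e 116) 1048575)) 64) 15))) (Nat.beq
  (Nat.land (Nat.shiftRight (g (Nat.land (Nat.shiftRight e 116) 1048575)) 68) 1) 0)) (Nat.beq
  (Nat.land (Nat.shiftRight (g (Nat.land (Nat.shiftRight e 116) 1048575)) 69) 1) (Nat.sub 1
  (Nat.land (Nat.shiftRight (g (Nat.land (Nat.shiftRight e 116) 1048575)) 68) 1)))) (Nat.sub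
  (Nat.land (Nat.shiftRight e 60) 15) (Nat.land (Nat.shiftRight (g (Nat.land (Nat.shiftRight e
  116) 1048575)) 60) 15))) (Nat.sub (Nat.lor (Nat.add (Bool.rec (motive := fun _ => Nat) (Nat.land
  (Nat.shiftRight e 32) 16383) (Bool.rec (motive := fun _ => Nat) (Nat.add (Nat.land
  (Nat.shiftRight e 32) 16383) (Nat.pow 2 (Nat.land (Nat.shiftRight e 64) 15))) (Nat.sub (Nat.land
  (Nat.shiftRight e 32) 16383) (Nat.pow 2 (Nat.land (Nat.shiftRight e 64) 15))) (Nat.beq (Nat.land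
  (Nat.shiftRight e 68) 1) 0)) (Nat.beq (Nat.land (Nat.shiftRight e 69) 1) (Nat.sub 1 (Nat.land
  (Nat.shiftRight e 68) 1)))) (Nat.land (Bool.rec (motive := fun _ => Nat) (Nat.land
  (Nat.shiftRight e 32) 16383) (Bool.rec (motive := fun _ => Nat) (Nat.add (Nat.land
  (Nat.shiftRight e 32) 16383) (Nat.pow 2 (Nat.land (Nat.shiftRight e 64) 15))) (Nat.sub (Nat.land
  (Nat.shiftRight e 32) 16383) (Nat.pow 2 (Nat.land (Nat.shiftRight e 64) 15))) (Nat.beq (Nat.land
  (Nat.shiftRight e 68) 1) 0)) (Nat.beq (Nat.land (Nat.shiftRight e 69) 1) (Nat.sub 1 (Nat.land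
  (Nat.shiftRight e 68) 1)))) (Nat.sub (Nat.sub (Nat.pow 2 (Nat.land (Nat.shiftRight e 60) 15)) 1)
  (Nat.land (Nat.shiftRight e 46) 16383)))) (Nat.sub (Bool.rec (motive := fun _ => Nat) (Nat.land
  (Nat.shiftRight e 32) 16383) (Bool.rec (motive := fun _ => Nat) (Nat.add (Nat.land
  (Nat.shiftRight e 32) 16383) (Nat.pow 2 (Nat.land (Nat.shiftRight e 64) 15))) (Nat.sub (Nat.land
  (Nat.shiftRight e 32) 16383) (Nat.pow 2 (Nat.land (Nat.shiftRight e 64) 15))) (Nat.beq (Nat.land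
  (Nat.shiftRight e 68) 1) 0)) (Nat.beq (Nat.land (Nat.shiftRight e 69) 1) (Nat.sub 1 (Nat.land
  (Nat.shiftRight e 68) 1)))) (Nat.land (Bool.rec (motive := fun _ => Nat) (Nat.land
  (Nat.shiftRight e 32) 16383) (Bool.rec (motive := fun _ => Nat) (Nat.add (Nat.land
  (Nat.shiftRight e 32) 16383) (Nat.pow 2 (Nat.land (Nat.shiftRight e 64) 15))) (Nat.sub (Nat.land
  (Nat.shiftRight e 32) 16383) (Nat.pow 2 (Nat.land (Nat.shiftRight e 64) 15))) (Nat.beq (Nat.land
  (Nat.shiftRight e 68) 1) 0)) (Nat.beq (Nat.land (Nat.shiftRight e 69) 1) (Nat.sub 1 (Nat.land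
  (Nat.shiftRight e 68) 1)))) (Nat.sub (Nat.sub (Nat.pow 2 (Nat.land (Nat.shiftRight e 60) 15)) 1)
  (Nat.land (Nat.shiftRight e 46) 16383))))) (Nat.mul (Nat.pow 2 (Nat.land (Nat.shiftRight e 60)
  15)) (Nat.shiftRight (Nat.lor (Nat.add (Bool.rec (motive := fun _ => Nat) (Nat.land
  (Nat.shiftRight e 32) 16383) (Bool.rec (motive := fun _ => Nat) (Nat.add (Nat.land
  (Nat.shiftRight e 32) 16383) (Nat.pow 2 (Nat.land (Nat.shiftRight e 64) 15))) (Nat.sub (Nat.land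
  (Nat.shiftRight e 32) 16383) (Nat.pow 2 (Nat.land (Nat.shiftRight e 64) 15))) (Nat.beq (Nat.land
  (Nat.shiftRight e 68) 1) 0)) (Nat.beq (Nat.land (Nat.shiftRight e 69) 1) (Nat.sub 1 (Nat.land
  (Nat.shiftRight e 68) 1)))) (Nat.land (Bool.rec (motive := fun _ => Nat) (Nat.land
  (Nat.shiftRight e 32) 16383) (Bool.rec (motive := fun _ => Nat) (Nat.add (Nat.land
  (Nat.shiftRight e 32) 16383) (Nat.pow 2 (Nat.land (Nat.shiftRight e 64) 15))) (Nat.sub (Nat.land
  (Nat.shiftRight e 32) 16383) (Nat.pow 2 (Nat.land (Nat.shiftRight e 64) 15))) (Nat.beq (Nat.land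
  (Nat.shiftRight e 68) 1) 0)) (Nat.beq (Nat.land (Nat.shiftRight e 69) 1) (Nat.sub 1 (Nat.land
  (Nat.shiftRight e 68) 1)))) (Nat.sub (Nat.sub (Nat.pow 2 (Nat.land (Nat.shiftRight e 60) 15)) 1)
  (Nat.land (Nat.shiftRight e 46) 16383)))) (Nat.sub (Bool.rec (motive := fun _ => Nat) (Nat.land
  (Nat.shiftRight e 32) 16383) (Bool.rec (motive := fun _ => Nat) (Nat.add (Nat.land
  (Nat.shiftRight e 32) 16383) (Nat.pow 2 (Nat.land (Nat.shiftRight e 64) 15))) (Nat.sub (Nat.land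
  (Nat.shiftRight e 32) 16383) (Nat.pow 2 (Nat.land (Nat.shiftRight e 64) 15))) (Nat.beq (Nat.land
  (Nat.shiftRight e 68) 1) 0)) (Nat.beq (Nat.land (Nat.shiftRight e 69) 1) (Nat.sub 1 (Nat.land
  (Nat.shiftRight e 68) 1)))) (Nat.land (Bool.rec (motive := fun _ => Nat) (Nat.land
  (Nat.shiftRight e 32) 16383) (Bool.rec (motive := fun _ => Nat) (Nat.add (Nat.land
  (Nat.shiftRight e 32) 16383) (Nat.pow 2 (Nat.land (Nat.shiftRight e 64) 15))) (Nat.sub (Nat.land
  (Nat.shiftRight e 32) 16383) (Nat.pow 2 (Nat.land (Nat.shiftRight e 64) 15))) (Nat.beq (Nat.land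
  (Nat.shiftRight e 68) 1) 0)) (Nat.beq (Nat.land (Nat.shiftRight e 69) 1) (Nat.sub 1 (Nat.land
  (Nat.shiftRight e 68) 1)))) (Nat.sub (Nat.sub (Nat.pow 2 (Nat.land (Nat.shiftRight e 60) 15)) 1)
  (Nat.land (Nat.shiftRight e 46) 16383))))) (Nat.land (Nat.shiftRight e 60) 15)))))) (Nat.ble
  (Nat.land (Nat.shiftRight (g (Nat.land (Nat.shiftRight e 116) 1048575)) 60) 15) (Nat.land
  (Nat.shiftRight e 60) 15))) (Bool.rec (motive := fun _ => Bool) false (Bool.rec (motive := fun _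
  => Bool) false (Bool.rec (motive := fun _ => Bool) false (Nat.beq (Nat.shiftRight (Bool.rec
  (motive := fun _ => Nat) (Nat.add (Nat.land (Nat.shiftRight e 14) 16383) 0) (Nat.sub (Nat.sub
  (Nat.pow 2 (Nat.succ (Nat.land (Nat.shiftRight e 28) 15))) 1) (Nat.add (Nat.land (Nat.shiftRight
  e 14) 16383) 0)) (Nat.ble 2 (Nat.land (Nat.shiftRight e 136) 3))) (Nat.sub (Nat.succ (Nat.land
  (Nat.shiftRight e 28) 15)) (Nat.land (Nat.shiftRight (g (Nat.land (Nat.shiftRight e 116)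
  1048575)) 28) 15))) (Nat.land (Nat.shiftRight (g (Nat.land (Nat.shiftRight e 116) 1048575)) 14)
  16383)) (Nat.beq (Nat.shiftRight (Nat.add (Nat.land e 16383) (Nat.mul (Nat.pow 2 (Nat.land
  (Nat.shiftRight e 28) 15)) (Nat.sub 1 (Nat.shiftRight (Nat.lor (Nat.add (Nat.land
  (Nat.shiftRight e 32) 16383) (Nat.land (Nat.land (Nat.shiftRight e 32) 16383) (Nat.sub (Nat.sub
  (Nat.pow 2 (Nat.land (Nat.shiftRight e 60) 15)) 1) (Nat.land (Nat.shiftRight e 46) 16383))))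
  (Nat.sub (Nat.land (Nat.shiftRight e 32) 16383) (Nat.land (Nat.land (Nat.shiftRight e 32) 16383)
  (Nat.sub (Nat.sub (Nat.pow 2 (Nat.land (Nat.shiftRight e 60) 15)) 1) (Nat.land (Nat.shiftRight e
  46) 16383))))) (Nat.land (Nat.shiftRight e 60) 15))))) (Nat.sub (Nat.succ (Nat.land
  (Nat.shiftRight e 28) 15)) (Nat.land (Nat.shiftRight (g (Nat.land (Nat.shiftRight e 116)
  1048575)) 28) 15))) (Nat.land (g (Nat.land (Nat.shiftRight e 116) 1048575)) 16383))) (Nat.beq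
  (Nat.shiftRight (Nat.add (Bool.rec (motive := fun _ => Nat) (Nat.land e 16383) (Bool.rec (motive
  := fun _ => Nat) (Nat.add (Nat.land e 16383) (Nat.pow 2 (Nat.land (Nat.shiftRight e 64) 15)))
  (Nat.sub (Nat.land e 16383) (Nat.pow 2 (Nat.land (Nat.shiftRight e 64) 15))) (Nat.beq (Nat.land
  (Nat.shiftRight e 68) 1) 0)) (Nat.beq (Nat.land (Nat.shiftRight e 69) 1) (Nat.land
  (Nat.shiftRight e 68) 1))) (Nat.mul (Nat.pow 2 (Nat.land (Nat.shiftRight e 28) 15)) (Nat.sub 1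
  (Nat.shiftRight (Nat.lor (Nat.add (Bool.rec (motive := fun _ => Nat) (Nat.land (Nat.shiftRight e
  32) 16383) (Bool.rec (motive := fun _ => Nat) (Nat.add (Nat.land (Nat.shiftRight e 32) 16383)
  (Nat.pow 2 (Nat.land (Nat.shiftRight e 64) 15))) (Nat.sub (Nat.land (Nat.shiftRight e 32) 16383)
  (Nat.pow 2 (Nat.land (Nat.shiftRight e 64) 15))) (Nat.beq (Nat.land (Nat.shiftRight e 68) 1) 0))
  (Nat.beq (Nat.land (Nat.shiftRight e 69) 1) (Nat.sub 1 (Nat.land (Nat.shiftRight e 68) 1))))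
  (Nat.land (Bool.rec (motive := fun _ => Nat) (Nat.land (Nat.shiftRight e 32) 16383) (Bool.rec
  (motive := fun _ => Nat) (Nat.add (Nat.land (Nat.shiftRight e 32) 16383) (Nat.pow 2 (Nat.land
  (Nat.shiftRight e 64) 15))) (Nat.sub (Nat.land (Nat.shiftRight e 32) 16383) (Nat.pow 2 (Nat.land
  (Nat.shiftRight e 64) 15))) (Nat.beq (Nat.land (Nat.shiftRight e 68) 1) 0)) (Nat.beq (Nat.land
  (Nat.shiftRight e 69) 1) (Nat.sub 1 (Nat.land (Nat.shiftRight e 68) 1)))) (Nat.sub (Nat.sub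
  (Nat.pow 2 (Nat.land (Nat.shiftRight e 60) 15)) 1) (Nat.land (Nat.shiftRight e 46) 16383))))
  (Nat.sub (Bool.rec (motive := fun _ => Nat) (Nat.land (Nat.shiftRight e 32) 16383) (Bool.rec
  (motive := fun _ => Nat) (Nat.add (Nat.land (Nat.shiftRight e 32) 16383) (Nat.pow 2 (Nat.land
  (Nat.shiftRight e 64) 15))) (Nat.sub (Nat.land (Nat.shiftRight e 32) 16383) (Nat.pow 2 (Nat.land
  (Nat.shiftRight e 64) 15))) (Nat.beq (Nat.land (Nat.shiftRight e 68) 1) 0)) (Nat.beq (Nat.land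
  (Nat.shiftRight e 69) 1) (Nat.sub 1 (Nat.land (Nat.shiftRight e 68) 1)))) (Nat.land (Bool.rec
  (motive := fun _ => Nat) (Nat.land (Nat.shiftRight e 32) 16383) (Bool.rec (motive := fun _ =>
  Nat) (Nat.add (Nat.land (Nat.shiftRight e 32) 16383) (Nat.pow 2 (Nat.land (Nat.shiftRight e 64)
  15))) (Nat.sub (Nat.land (Nat.shiftRight e 32) 16383) (Nat.pow 2 (Nat.land (Nat.shiftRight e 64)
  15))) (Nat.beq (Nat.land (Nat.shiftRight e 68) 1) 0)) (Nat.beq (Nat.land (Nat.shiftRight e 69)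
  1) (Nat.sub 1 (Nat.land (Nat.shiftRight e 68) 1)))) (Nat.sub (Nat.sub (Nat.pow 2 (Nat.land
  (Nat.shiftRight e 60) 15)) 1) (Nat.land (Nat.shiftRight e 46) 16383))))) (Nat.land
  (Nat.shiftRight e 60) 15))))) (Nat.sub (Nat.succ (Nat.land (Nat.shiftRight e 28) 15)) (Nat.land
  (Nat.shiftRight (g (Nat.land (Nat.shiftRight e 116) 1048575)) 28) 15))) (Bool.rec (motive := fun
  _ => Nat) (Nat.land (g (Nat.land (Nat.shiftRight e 116) 1048575)) 16383) (Bool.rec (motive :=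
  fun _ => Nat) (Nat.add (Nat.land (g (Nat.land (Nat.shiftRight e 116) 1048575)) 16383) (Nat.pow 2
  (Nat.land (Nat.shiftRight (g (Nat.land (Nat.shiftRight e 116) 1048575)) 64) 15))) (Nat.sub
  (Nat.land (g (Nat.land (Nat.shiftRight e 116) 1048575)) 16383) (Nat.pow 2 (Nat.land
  (Nat.shiftRight (g (Nat.land (Nat.shiftRight e 116) 1048575)) 64) 15))) (Nat.beq (Nat.land
  (Nat.shiftRight (g (Nat.land (Nat.shiftRight e 116) 1048575)) 68) 1) 0)) (Nat.beq (Nat.land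
  (Nat.shiftRight (g (Nat.land (Nat.shiftRight e 116) 1048575)) 69) 1) (Nat.land (Nat.shiftRight
  (g (Nat.land (Nat.shiftRight e 116) 1048575)) 68) 1))))) (Nat.ble (Nat.land (Nat.shiftRight (g
  (Nat.land (Nat.shiftRight e 116) 1048575)) 28) 15) (Nat.succ (Nat.land (Nat.shiftRight e 28)
  15))))) (Bool.rec (motive := fun _ => Bool) false (Bool.rec (motive := fun _ => Bool) false
  (Bool.rec (motive := fun _ => Bool) false (Bool.rec (motive := fun _ => Bool) false (Nat.beq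
  (Nat.shiftRight (Bool.rec (motive := fun _ => Nat) (Nat.land (Nat.shiftRight e 46) 16383)
  (Nat.sub (Nat.sub (Nat.pow 2 (Nat.land (Nat.shiftRight e 60) 15)) 1) (Nat.land (Nat.shiftRight e
  46) 16383)) (Nat.ble 2 (Nat.land (Nat.shiftRight e 136) 3))) (Nat.sub (Nat.land (Nat.shiftRight
  e 60) 15) (Nat.land (Nat.shiftRight (g (Nat.land (Nat.shiftRight e 116) 1048575)) 60) 15)))
  (Nat.land (Nat.shiftRight (g (Nat.land (Nat.shiftRight e 116) 1048575)) 46) 16383)) (Nat.beq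
  (Nat.shiftRight (Nat.sub (Nat.lor (Nat.add (Nat.land (Nat.shiftRight e 32) 16383) (Nat.land
  (Nat.land (Nat.shiftRight e 32) 16383) (Nat.sub (Nat.sub (Nat.pow 2 (Nat.land (Nat.shiftRight e
  60) 15)) 1) (Nat.land (Nat.shiftRight e 46) 16383)))) (Nat.sub (Nat.land (Nat.shiftRight e 32)
  16383) (Nat.land (Nat.land (Nat.shiftRight e 32) 16383) (Nat.sub (Nat.sub (Nat.pow 2 (Nat.land
  (Nat.shiftRight e 60) 15)) 1) (Nat.land (Nat.shiftRight e 46) 16383))))) (Nat.mul (Nat.pow 2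
  (Nat.land (Nat.shiftRight e 60) 15)) (Nat.shiftRight (Nat.lor (Nat.add (Nat.land (Nat.shiftRight
  e 32) 16383) (Nat.land (Nat.land (Nat.shiftRight e 32) 16383) (Nat.sub (Nat.sub (Nat.pow 2
  (Nat.land (Nat.shiftRight e 60) 15)) 1) (Nat.land (Nat.shiftRight e 46) 16383)))) (Nat.sub
  (Nat.land (Nat.shiftRight e 32) 16383) (Nat.land (Nat.land (Nat.shiftRight e 32) 16383) (Nat.sub
  (Nat.sub (Nat.pow 2 (Nat.land (Nat.shiftRight e 60) 15)) 1) (Nat.land (Nat.shiftRight e 46)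
  16383))))) (Nat.land (Nat.shiftRight e 60) 15)))) (Nat.sub (Nat.land (Nat.shiftRight e 60) 15)
  (Nat.land (Nat.shiftRight (g (Nat.land (Nat.shiftRight e 116) 1048575)) 60) 15))) (Nat.land
  (Nat.shiftRight (g (Nat.land (Nat.shiftRight e 116) 1048575)) 32) 16383))) (Nat.beq
  (Nat.shiftRight (Nat.sub (Nat.lor (Nat.add (Bool.rec (motive := fun _ => Nat) (Nat.land
  (Nat.shiftRight e 32) 16383) (Bool.rec (motive := fun _ => Nat) (Nat.add (Nat.land
  (Nat.shiftRight e 32) 16383) (Nat.pow 2 (Nat.land (Nat.shiftRight e 64) 15))) (Nat.sub (Nat.land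
  (Nat.shiftRight e 32) 16383) (Nat.pow 2 (Nat.land (Nat.shiftRight e 64) 15))) (Nat.beq (Nat.land
  (Nat.shiftRight e 68) 1) 0)) (Nat.beq (Nat.land (Nat.shiftRight e 69) 1) (Nat.sub 1 (Nat.land
  (Nat.shiftRight e 68) 1)))) (Nat.land (Bool.rec (motive := fun _ => Nat) (Nat.land
  (Nat.shiftRight e 32) 16383) (Bool.rec (motive := fun _ => Nat) (Nat.add (Nat.land
  (Nat.shiftRight e 32) 16383) (Nat.pow 2 (Nat.land (Nat.shiftRight e 64) 15))) (Nat.sub (Nat.land
  (Nat.shiftRight e 32) 16383) (Nat.pow 2 (Nat.land (Nat.shiftRight e 64) 15))) (Nat.beq (Nat.land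
  (Nat.shiftRight e 68) 1) 0)) (Nat.beq (Nat.land (Nat.shiftRight e 69) 1) (Nat.sub 1 (Nat.land
  (Nat.shiftRight e 68) 1)))) (Nat.sub (Nat.sub (Nat.pow 2 (Nat.land (Nat.shiftRight e 60) 15)) 1)
  (Nat.land (Nat.shiftRight e 46) 16383)))) (Nat.sub (Bool.rec (motive := fun _ => Nat) (Nat.land
  (Nat.shiftRight e 32) 16383) (Bool.rec (motive := fun _ => Nat) (Nat.add (Nat.land
  (Nat.shiftRight e 32) 16383) (Nat.pow 2 (Nat.land (Nat.shiftRight e 64) 15))) (Nat.sub (Nat.land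
  (Nat.shiftRight e 32) 16383) (Nat.pow 2 (Nat.land (Nat.shiftRight e 64) 15))) (Nat.beq (Nat.land
  (Nat.shiftRight e 68) 1) 0)) (Nat.beq (Nat.land (Nat.shiftRight e 69) 1) (Nat.sub 1 (Nat.land
  (Nat.shiftRight e 68) 1)))) (Nat.land (Bool.rec (motive := fun _ => Nat) (Nat.land
  (Nat.shiftRight e 32) 16383) (Bool.rec (motive := fun _ => Nat) (Nat.add (Nat.land
  (Nat.shiftRight e 32) 16383) (Nat.pow 2 (Nat.land (Nat.shiftRight e 64) 15))) (Nat.sub (Nat.land
  (Nat.shiftRight e 32) 16383) (Nat.pow 2 (Nat.land (Nat.shiftRight e 64) 15))) (Nat.beq (Nat.land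
  (Nat.shiftRight e 68) 1) 0)) (Nat.beq (Nat.land (Nat.shiftRight e 69) 1) (Nat.sub 1 (Nat.land
  (Nat.shiftRight e 68) 1)))) (Nat.sub (Nat.sub (Nat.pow 2 (Nat.land (Nat.shiftRight e 60) 15)) 1)
  (Nat.land (Nat.shiftRight e 46) 16383))))) (Nat.mul (Nat.pow 2 (Nat.land (Nat.shiftRight e 60)
  15)) (Nat.shiftRight (Nat.lor (Nat.add (Bool.rec (motive := fun _ => Nat) (Nat.land
  (Nat.shiftRight e 32) 16383) (Bool.rec (motive := fun _ => Nat) (Nat.add (Nat.land
  (Nat.shiftRight e 32) 16383) (Nat.pow 2 (Nat.land (Nat.shiftRight e 64) 15))) (Nat.sub (Nat.land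
  (Nat.shiftRight e 32) 16383) (Nat.pow 2 (Nat.land (Nat.shiftRight e 64) 15))) (Nat.beq (Nat.land
  (Nat.shiftRight e 68) 1) 0)) (Nat.beq (Nat.land (Nat.shiftRight e 69) 1) (Nat.sub 1 (Nat.land
  (Nat.shiftRight e 68) 1)))) (Nat.land (Bool.rec (motive := fun _ => Nat) (Nat.land
  (Nat.shiftRight e 32) 16383) (Bool.rec (motive := fun _ => Nat) (Nat.add (Nat.land
  (Nat.shiftRight e 32) 16383) (Nat.pow 2 (Nat.land (Nat.shiftRight e 64) 15))) (Nat.sub (Nat.land
  (Nat.shiftRight e 32) 16383) (Nat.pow 2 (Nat.land (Nat.shiftRight e 64) 15))) (Nat.beq (Nat.land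
  (Nat.shiftRight e 68) 1) 0)) (Nat.beq (Nat.land (Nat.shiftRight e 69) 1) (Nat.sub 1 (Nat.land
  (Nat.shiftRight e 68) 1)))) (Nat.sub (Nat.sub (Nat.pow 2 (Nat.land (Nat.shiftRight e 60) 15)) 1)
  (Nat.land (Nat.shiftRight e 46) 16383)))) (Nat.sub (Bool.rec (motive := fun _ => Nat) (Nat.land
  (Nat.shiftRight e 32) 16383) (Bool.rec (motive := fun _ => Nat) (Nat.add (Nat.land
  (Nat.shiftRight e 32) 16383) (Nat.pow 2 (Nat.land (Nat.shiftRight e 64) 15))) (Nat.sub (Nat.land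
  (Nat.shiftRight e 32) 16383) (Nat.pow 2 (Nat.land (Nat.shiftRight e 64) 15))) (Nat.beq (Nat.land
  (Nat.shiftRight e 68) 1) 0)) (Nat.beq (Nat.land (Nat.shiftRight e 69) 1) (Nat.sub 1 (Nat.land
  (Nat.shiftRight e 68) 1)))) (Nat.land (Bool.rec (motive := fun _ => Nat) (Nat.land
  (Nat.shiftRight e 32) 16383) (Bool.rec (motive := fun _ => Nat) (Nat.add (Nat.land
  (Nat.shiftRight e 32) 16383) (Nat.pow 2 (Nat.land (Nat.shiftRight e 64) 15))) (Nat.sub (Nat.land
  (Nat.shiftRight e 32) 16383) (Nat.pow 2 (Nat.land (Nat.shiftRight e 64) 15))) (Nat.beq (Nat.land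
  (Nat.shiftRight e 68) 1) 0)) (Nat.beq (Nat.land (Nat.shiftRight e 69) 1) (Nat.sub 1 (Nat.land
  (Nat.shiftRight e 68) 1)))) (Nat.sub (Nat.sub (Nat.pow 2 (Nat.land (Nat.shiftRight e 60) 15)) 1)
  (Nat.land (Nat.shiftRight e 46) 16383))))) (Nat.land (Nat.shiftRight e 60) 15)))) (Nat.sub
  (Nat.land (Nat.shiftRight e 60) 15) (Nat.land (Nat.shiftRight (g (Nat.land (Nat.shiftRight e
  116) 1048575)) 60) 15))) (Bool.rec (motive := fun _ => Nat) (Nat.land (Nat.shiftRight (g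
  (Nat.land (Nat.shiftRight e 116) 1048575)) 32) 16383) (Bool.rec (motive := fun _ => Nat)
  (Nat.add (Nat.land (Nat.shiftRight (g (Nat.land (Nat.shiftRight e 116) 1048575)) 32) 16383)
  (Nat.pow 2 (Nat.land (Nat.shiftRight (g (Nat.land (Nat.shiftRight e 116) 1048575)) 64) 15)))
  (Nat.sub (Nat.land (Nat.shiftRight (g (Nat.land (Nat.shiftRight e 116) 1048575)) 32) 16383)
  (Nat.pow 2 (Nat.land (Nat.shiftRight (g (Nat.land (Nat.shiftRight e 116) 1048575)) 64) 15)))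
  (Nat.beq (Nat.land (Nat.shiftRight (g (Nat.land (Nat.shiftRight e 116) 1048575)) 68) 1) 0))
  (Nat.beq (Nat.land (Nat.shiftRight (g (Nat.land (Nat.shiftRight e 116) 1048575)) 69) 1) (Nat.sub
  1 (Nat.land (Nat.shiftRight (g (Nat.land (Nat.shiftRight e 116) 1048575)) 68) 1)))))) (Nat.ble
  (Nat.land (Nat.shiftRight (g (Nat.land (Nat.shiftRight e 116) 1048575)) 60) 15) (Nat.land
  (Nat.shiftRight e 60) 15))) (Bool.rec (motive := fun _ => Bool) false (Bool.rec (motive := fun _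
  => Bool) false (Bool.rec (motive := fun _ => Bool) false (Nat.beq (Nat.shiftRight (Bool.rec
  (motive := fun _ => Nat) (Nat.add (Nat.land (Nat.shiftRight e 14) 16383) 0) (Nat.sub (Nat.sub
  (Nat.pow 2 (Nat.succ (Nat.land (Nat.shiftRight e 28) 15))) 1) (Nat.add (Nat.land (Nat.shiftRight
  e 14) 16383) 0)) (Nat.ble 2 (Nat.land (Nat.shiftRight e 136) 3))) (Nat.sub (Nat.succ (Nat.land
  (Nat.shiftRight e 28) 15)) (Nat.land (Nat.shiftRight (g (Nat.land (Nat.shiftRight e 116)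
  1048575)) 28) 15))) (Nat.land (Nat.shiftRight (g (Nat.land (Nat.shiftRight e 116) 1048575)) 14)
  16383)) (Nat.beq (Nat.shiftLeft (Nat.land (g (Nat.land (Nat.shiftRight e 116) 1048575)) 16383)
  (Nat.sub (Nat.succ (Nat.land (Nat.shiftRight e 28) 15)) (Nat.land (Nat.shiftRight (g (Nat.land
  (Nat.shiftRight e 116) 1048575)) 28) 15))) (Nat.add (Nat.land e 16383) (Nat.mul (Nat.pow 2
  (Nat.land (Nat.shiftRight e 28) 15)) (Nat.sub 1 (Nat.shiftRight (Nat.lor (Nat.add (Nat.land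
  (Nat.shiftRight e 32) 16383) (Nat.land (Nat.land (Nat.shiftRight e 32) 16383) (Nat.sub (Nat.sub
  (Nat.pow 2 (Nat.land (Nat.shiftRight e 60) 15)) 1) (Nat.land (Nat.shiftRight e 46) 16383))))
  (Nat.sub (Nat.land (Nat.shiftRight e 32) 16383) (Nat.land (Nat.land (Nat.shiftRight e 32) 16383)
  (Nat.sub (Nat.sub (Nat.pow 2 (Nat.land (Nat.shiftRight e 60) 15)) 1) (Nat.land (Nat.shiftRight e
  46) 16383))))) (Nat.land (Nat.shiftRight e 60) 15))))))) (Nat.beq (Nat.shiftLeft (Bool.rec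
  (motive := fun _ => Nat) (Nat.land (g (Nat.land (Nat.shiftRight e 116) 1048575)) 16383)
  (Bool.rec (motive := fun _ => Nat) (Nat.add (Nat.land (g (Nat.land (Nat.shiftRight e 116)
  1048575)) 16383) (Nat.pow 2 (Nat.land (Nat.shiftRight (g (Nat.land (Nat.shiftRight e 116)
  1048575)) 64) 15))) (Nat.sub (Nat.land (g (Nat.land (Nat.shiftRight e 116) 1048575)) 16383)
  (Nat.pow 2 (Nat.land (Nat.shiftRight (g (Nat.land (Nat.shiftRight e 116) 1048575)) 64) 15)))
  (Nat.beq (Nat.land (Nat.shiftRight (g (Nat.land (Nat.shiftRight e 116) 1048575)) 68) 1) 0))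
  (Nat.beq (Nat.land (Nat.shiftRight (g (Nat.land (Nat.shiftRight e 116) 1048575)) 69) 1)
  (Nat.land (Nat.shiftRight (g (Nat.land (Nat.shiftRight e 116) 1048575)) 68) 1))) (Nat.sub
  (Nat.succ (Nat.land (Nat.shiftRight e 28) 15)) (Nat.land (Nat.shiftRight (g (Nat.land
  (Nat.shiftRight e 116) 1048575)) 28) 15))) (Nat.add (Bool.rec (motive := fun _ => Nat) (Nat.land
  e 16383) (Bool.rec (motive := fun _ => Nat) (Nat.add (Nat.land e 16383) (Nat.pow 2 (Nat.land
  (Nat.shiftRight e 64) 15))) (Nat.sub (Nat.land e 16383) (Nat.pow 2 (Nat.land (Nat.shiftRight e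
  64) 15))) (Nat.beq (Nat.land (Nat.shiftRight e 68) 1) 0)) (Nat.beq (Nat.land (Nat.shiftRight e
  69) 1) (Nat.land (Nat.shiftRight e 68) 1))) (Nat.mul (Nat.pow 2 (Nat.land (Nat.shiftRight e 28)
  15)) (Nat.sub 1 (Nat.shiftRight (Nat.lor (Nat.add (Bool.rec (motive := fun _ => Nat) (Nat.land
  (Nat.shiftRight e 32) 16383) (Bool.rec (motive := fun _ => Nat) (Nat.add (Nat.land
  (Nat.shiftRight e 32) 16383) (Nat.pow 2 (Nat.land (Nat.shiftRight e 64) 15))) (Nat.sub (Nat.land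
  (Nat.shiftRight e 32) 16383) (Nat.pow 2 (Nat.land (Nat.shiftRight e 64) 15))) (Nat.beq (Nat.land
  (Nat.shiftRight e 68) 1) 0)) (Nat.beq (Nat.land (Nat.shiftRight e 69) 1) (Nat.sub 1 (Nat.land
  (Nat.shiftRight e 68) 1)))) (Nat.land (Bool.rec (motive := fun _ => Nat) (Nat.land
  (Nat.shiftRight e 32) 16383) (Bool.rec (motive := fun _ => Nat) (Nat.add (Nat.land
  (Nat.shiftRight e 32) 16383) (Nat.pow 2 (Nat.land (Nat.shiftRight e 64) 15))) (Nat.sub (Nat.land
  (Nat.shiftRight e 32) 16383) (Nat.pow 2 (Nat.land (Nat.shiftRight e 64) 15))) (Nat.beq (Nat.land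
  (Nat.shiftRight e 68) 1) 0)) (Nat.beq (Nat.land (Nat.shiftRight e 69) 1) (Nat.sub 1 (Nat.land
  (Nat.shiftRight e 68) 1)))) (Nat.sub (Nat.sub (Nat.pow 2 (Nat.land (Nat.shiftRight e 60) 15)) 1)
  (Nat.land (Nat.shiftRight e 46) 16383)))) (Nat.sub (Bool.rec (motive := fun _ => Nat) (Nat.land
  (Nat.shiftRight e 32) 16383) (Bool.rec (motive := fun _ => Nat) (Nat.add (Nat.land
  (Nat.shiftRight e 32) 16383) (Nat.pow 2 (Nat.land (Nat.shiftRight e 64) 15))) (Nat.sub (Nat.land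
  (Nat.shiftRight e 32) 16383) (Nat.pow 2 (Nat.land (Nat.shiftRight e 64) 15))) (Nat.beq (Nat.land
  (Nat.shiftRight e 68) 1) 0)) (Nat.beq (Nat.land (Nat.shiftRight e 69) 1) (Nat.sub 1 (Nat.land
  (Nat.shiftRight e 68) 1)))) (Nat.land (Bool.rec (motive := fun _ => Nat) (Nat.land
  (Nat.shiftRight e 32) 16383) (Bool.rec (motive := fun _ => Nat) (Nat.add (Nat.land
  (Nat.shiftRight e 32) 16383) (Nat.pow 2 (Nat.land (Nat.shiftRight e 64) 15))) (Nat.sub (Nat.land
  (Nat.shiftRight e 32) 16383) (Nat.pow 2 (Nat.land (Nat.shiftRight e 64) 15))) (Nat.beq (Nat.land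
  (Nat.shiftRight e 68) 1) 0)) (Nat.beq (Nat.land (Nat.shiftRight e 69) 1) (Nat.sub 1 (Nat.land
  (Nat.shiftRight e 68) 1)))) (Nat.sub (Nat.sub (Nat.pow 2 (Nat.land (Nat.shiftRight e 60) 15)) 1)
  (Nat.land (Nat.shiftRight e 46) 16383))))) (Nat.land (Nat.shiftRight e 60) 15))))))) (Nat.ble
  (Nat.land (Nat.shiftRight (g (Nat.land (Nat.shiftRight e 116) 1048575)) 28) 15) (Nat.succ
  (Nat.land (Nat.shiftRight e 28) 15))))) (Nat.beq (Nat.land (Nat.shiftRight e 69) 1) 0)) (Nat.beq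
  (Nat.land (Nat.shiftRight (g (Nat.land (Nat.shiftRight e 116) 1048575)) 69) 1) (Nat.land
  (Nat.shiftRight e 69) 1))) (Bool.rec (motive := fun _ => Bool) false (Bool.rec (motive := fun _
  => Bool) (Bool.rec (motive := fun _ => Bool) false (Bool.rec (motive := fun _ => Bool) false
  (Bool.rec (motive := fun _ => Bool) false (Bool.rec (motive := fun _ => Bool) false (Nat.beq
  (Nat.shiftRight (Bool.rec (motive := fun _ => Nat) (Nat.add (Nat.land (Nat.shiftRight e 14)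
  16383) 0) (Nat.sub (Nat.sub (Nat.pow 2 (Nat.succ (Nat.land (Nat.shiftRight e 28) 15))) 1)
  (Nat.add (Nat.land (Nat.shiftRight e 14) 16383) 0)) (Nat.ble 2 (Nat.land (Nat.shiftRight e 136)
  3))) (Nat.sub (Nat.succ (Nat.land (Nat.shiftRight e 28) 15)) (Nat.land (Nat.shiftRight (g
  (Nat.land (Nat.shiftRight e 116) 1048575)) 60) 15))) (Nat.land (Nat.shiftRight (g (Nat.land
  (Nat.shiftRight e 116) 1048575)) 46) 16383)) (Nat.beq (Nat.shiftLeft (Nat.land (Nat.shiftRight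
  (g (Nat.land (Nat.shiftRight e 116) 1048575)) 32) 16383) (Nat.sub (Nat.succ (Nat.land
  (Nat.shiftRight e 28) 15)) (Nat.land (Nat.shiftRight (g (Nat.land (Nat.shiftRight e 116)
  1048575)) 60) 15))) (Nat.add (Nat.land e 16383) (Nat.mul (Nat.pow 2 (Nat.land (Nat.shiftRight e
  28) 15)) (Nat.sub 1 (Nat.shiftRight (Nat.lor (Nat.add (Nat.land (Nat.shiftRight e 32) 16383)
  (Nat.land (Nat.land (Nat.shiftRight e 32) 16383) (Nat.sub (Nat.sub (Nat.pow 2 (Nat.land
  (Nat.shiftRight e 60) 15)) 1) (Nat.land (Nat.shiftRight e 46) 16383)))) (Nat.sub (Nat.land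
  (Nat.shiftRight e 32) 16383) (Nat.land (Nat.land (Nat.shiftRight e 32) 16383) (Nat.sub (Nat.sub
  (Nat.pow 2 (Nat.land (Nat.shiftRight e 60) 15)) 1) (Nat.land (Nat.shiftRight e 46) 16383)))))
  (Nat.land (Nat.shiftRight e 60) 15))))))) (Nat.beq (Nat.shiftLeft (Bool.rec (motive := fun _ =>
  Nat) (Nat.land (Nat.shiftRight (g (Nat.land (Nat.shiftRight e 116) 1048575)) 32) 16383)
  (Bool.rec (motive := fun _ => Nat) (Nat.add (Nat.land (Nat.shiftRight (g (Nat.land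
  (Nat.shiftRight e 116) 1048575)) 32) 16383) (Nat.pow 2 (Nat.land (Nat.shiftRight (g (Nat.land
  (Nat.shiftRight e 116) 1048575)) 64) 15))) (Nat.sub (Nat.land (Nat.shiftRight (g (Nat.land
  (Nat.shiftRight e 116) 1048575)) 32) 16383) (Nat.pow 2 (Nat.land (Nat.shiftRight (g (Nat.land
  (Nat.shiftRight e 116) 1048575)) 64) 15))) (Nat.beq (Nat.land (Nat.shiftRight (g (Nat.land
  (Nat.shiftRight e 116) 1048575)) 68) 1) 0)) (Nat.beq (Nat.land (Nat.shiftRight (g (Nat.land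
  (Nat.shiftRight e 116) 1048575)) 69) 1) (Nat.sub 1 (Nat.land (Nat.shiftRight (g (Nat.land
  (Nat.shiftRight e 116) 1048575)) 68) 1)))) (Nat.sub (Nat.succ (Nat.land (Nat.shiftRight e 28)
  15)) (Nat.land (Nat.shiftRight (g (Nat.land (Nat.shiftRight e 116) 1048575)) 60) 15))) (Nat.add
  (Bool.rec (motive := fun _ => Nat) (Nat.land e 16383) (Bool.rec (motive := fun _ => Nat)
  (Nat.add (Nat.land e 16383) (Nat.pow 2 (Nat.land (Nat.shiftRight e 64) 15))) (Nat.sub (Nat.land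
  e 16383) (Nat.pow 2 (Nat.land (Nat.shiftRight e 64) 15))) (Nat.beq (Nat.land (Nat.shiftRight e
  68) 1) 0)) (Nat.beq (Nat.land (Nat.shiftRight e 69) 1) (Nat.land (Nat.shiftRight e 68) 1)))
  (Nat.mul (Nat.pow 2 (Nat.land (Nat.shiftRight e 28) 15)) (Nat.sub 1 (Nat.shiftRight (Nat.lor
  (Nat.add (Bool.rec (motive := fun _ => Nat) (Nat.land (Nat.shiftRight e 32) 16383) (Bool.rec
  (motive := fun _ => Nat) (Nat.add (Nat.land (Nat.shiftRight e 32) 16383) (Nat.pow 2 (Nat.land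
  (Nat.shiftRight e 64) 15))) (Nat.sub (Nat.land (Nat.shiftRight e 32) 16383) (Nat.pow 2 (Nat.land
  (Nat.shiftRight e 64) 15))) (Nat.beq (Nat.land (Nat.shiftRight e 68) 1) 0)) (Nat.beq (Nat.land
  (Nat.shiftRight e 69) 1) (Nat.sub 1 (Nat.land (Nat.shiftRight e 68) 1)))) (Nat.land (Bool.rec
  (motive := fun _ => Nat) (Nat.land (Nat.shiftRight e 32) 16383) (Bool.rec (motive := fun _ =>
  Nat) (Nat.add (Nat.land (Nat.shiftRight e 32) 16383) (Nat.pow 2 (Nat.land (Nat.shiftRight e 64)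
  15))) (Nat.sub (Nat.land (Nat.shiftRight e 32) 16383) (Nat.pow 2 (Nat.land (Nat.shiftRight e 64)
  15))) (Nat.beq (Nat.land (Nat.shiftRight e 68) 1) 0)) (Nat.beq (Nat.land (Nat.shiftRight e 69)
  1) (Nat.sub 1 (Nat.land (Nat.shiftRight e 68) 1)))) (Nat.sub (Nat.sub (Nat.pow 2 (Nat.land
  (Nat.shiftRight e 60) 15)) 1) (Nat.land (Nat.shiftRight e 46) 16383)))) (Nat.sub (Bool.rec
  (motive := fun _ => Nat) (Nat.land (Nat.shiftRight e 32) 16383) (Bool.rec (motive := fun _ =>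
  Nat) (Nat.add (Nat.land (Nat.shiftRight e 32) 16383) (Nat.pow 2 (Nat.land (Nat.shiftRight e 64)
  15))) (Nat.sub (Nat.land (Nat.shiftRight e 32) 16383) (Nat.pow 2 (Nat.land (Nat.shiftRight e 64)
  15))) (Nat.beq (Nat.land (Nat.shiftRight e 68) 1) 0)) (Nat.beq (Nat.land (Nat.shiftRight e 69)
  1) (Nat.sub 1 (Nat.land (Nat.shiftRight e 68) 1)))) (Nat.land (Bool.rec (motive := fun _ => Nat)
  (Nat.land (Nat.shiftRight e 32) 16383) (Bool.rec (motive := fun _ => Nat) (Nat.add (Nat.land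
  (Nat.shiftRight e 32) 16383) (Nat.pow 2 (Nat.land (Nat.shiftRight e 64) 15))) (Nat.sub (Nat.land
  (Nat.shiftRight e 32) 16383) (Nat.pow 2 (Nat.land (Nat.shiftRight e 64) 15))) (Nat.beq (Nat.land
  (Nat.shiftRight e 68) 1) 0)) (Nat.beq (Nat.land (Nat.shiftRight e 69) 1) (Nat.sub 1 (Nat.land
  (Nat.shiftRight e 68) 1)))) (Nat.sub (Nat.sub (Nat.pow 2 (Nat.land (Nat.shiftRight e 60) 15)) 1)
  (Nat.land (Nat.shiftRight e 46) 16383))))) (Nat.land (Nat.shiftRight e 60) 15))))))) (Nat.ble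
  (Nat.land (Nat.shiftRight (g (Nat.land (Nat.shiftRight e 116) 1048575)) 60) 15) (Nat.succ
  (Nat.land (Nat.shiftRight e 28) 15)))) (Bool.rec (motive := fun _ => Bool) false (Bool.rec
  (motive := fun _ => Bool) false (Bool.rec (motive := fun _ => Bool) false (Nat.beq
  (Nat.shiftRight (Bool.rec (motive := fun _ => Nat) (Nat.land (Nat.shiftRight e 46) 16383)
  (Nat.sub (Nat.sub (Nat.pow 2 (Nat.land (Nat.shiftRight e 60) 15)) 1) (Nat.land (Nat.shiftRight e
  46) 16383)) (Nat.ble 2 (Nat.land (Nat.shiftRight e 136) 3))) (Nat.sub (Nat.land (Nat.shiftRight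
  e 60) 15) (Nat.land (Nat.shiftRight (g (Nat.land (Nat.shiftRight e 116) 1048575)) 28) 15)))
  (Nat.land (Nat.shiftRight (g (Nat.land (Nat.shiftRight e 116) 1048575)) 14) 16383)) (Nat.beq
  (Nat.shiftRight (Nat.sub (Nat.lor (Nat.add (Nat.land (Nat.shiftRight e 32) 16383) (Nat.land
  (Nat.land (Nat.shiftRight e 32) 16383) (Nat.sub (Nat.sub (Nat.pow 2 (Nat.land (Nat.shiftRight e
  60) 15)) 1) (Nat.land (Nat.shiftRight e 46) 16383)))) (Nat.sub (Nat.land (Nat.shiftRight e 32)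
  16383) (Nat.land (Nat.land (Nat.shiftRight e 32) 16383) (Nat.sub (Nat.sub (Nat.pow 2 (Nat.land
  (Nat.shiftRight e 60) 15)) 1) (Nat.land (Nat.shiftRight e 46) 16383))))) (Nat.mul (Nat.pow 2
  (Nat.land (Nat.shiftRight e 60) 15)) (Nat.shiftRight (Nat.lor (Nat.add (Nat.land (Nat.shiftRight
  e 32) 16383) (Nat.land (Nat.land (Nat.shiftRight e 32) 16383) (Nat.sub (Nat.sub (Nat.pow 2
  (Nat.land (Nat.shiftRight e 60) 15)) 1) (Nat.land (Nat.shiftRight e 46) 16383)))) (Nat.sub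
  (Nat.land (Nat.shiftRight e 32) 16383) (Nat.land (Nat.land (Nat.shiftRight e 32) 16383) (Nat.sub
  (Nat.sub (Nat.pow 2 (Nat.land (Nat.shiftRight e 60) 15)) 1) (Nat.land (Nat.shiftRight e 46)
  16383))))) (Nat.land (Nat.shiftRight e 60) 15)))) (Nat.sub (Nat.land (Nat.shiftRight e 60) 15)
  (Nat.land (Nat.shiftRight (g (Nat.land (Nat.shiftRight e 116) 1048575)) 28) 15))) (Nat.land (g
  (Nat.land (Nat.shiftRight e 116) 1048575)) 16383))) (Nat.beq (Nat.shiftRight (Nat.sub (Nat.lor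
  (Nat.add (Bool.rec (motive := fun _ => Nat) (Nat.land (Nat.shiftRight e 32) 16383) (Bool.rec
  (motive := fun _ => Nat) (Nat.add (Nat.land (Nat.shiftRight e 32) 16383) (Nat.pow 2 (Nat.land
  (Nat.shiftRight e 64) 15))) (Nat.sub (Nat.land (Nat.shiftRight e 32) 16383) (Nat.pow 2 (Nat.land
  (Nat.shiftRight e 64) 15))) (Nat.beq (Nat.land (Nat.shiftRight e 68) 1) 0)) (Nat.beq (Nat.land
  (Nat.shiftRight e 69) 1) (Nat.sub 1 (Nat.land (Nat.shiftRight e 68) 1)))) (Nat.land (Bool.rec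
  (motive := fun _ => Nat) (Nat.land (Nat.shiftRight e 32) 16383) (Bool.rec (motive := fun _ =>
  Nat) (Nat.add (Nat.land (Nat.shiftRight e 32) 16383) (Nat.pow 2 (Nat.land (Nat.shiftRight e 64)
  15))) (Nat.sub (Nat.land (Nat.shiftRight e 32) 16383) (Nat.pow 2 (Nat.land (Nat.shiftRight e 64)
  15))) (Nat.beq (Nat.land (Nat.shiftRight e 68) 1) 0)) (Nat.beq (Nat.land (Nat.shiftRight e 69)
  1) (Nat.sub 1 (Nat.land (Nat.shiftRight e 68) 1)))) (Nat.sub (Nat.sub (Nat.pow 2 (Nat.land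
  (Nat.shiftRight e 60) 15)) 1) (Nat.land (Nat.shiftRight e 46) 16383)))) (Nat.sub (Bool.rec
  (motive := fun _ => Nat) (Nat.land (Nat.shiftRight e 32) 16383) (Bool.rec (motive := fun _ =>
  Nat) (Nat.add (Nat.land (Nat.shiftRight e 32) 16383) (Nat.pow 2 (Nat.land (Nat.shiftRight e 64)
  15))) (Nat.sub (Nat.land (Nat.shiftRight e 32) 16383) (Nat.pow 2 (Nat.land (Nat.shiftRight e 64)
  15))) (Nat.beq (Nat.land (Nat.shiftRight e 68) 1) 0)) (Nat.beq (Nat.land (Nat.shiftRight e 69)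
  1) (Nat.sub 1 (Nat.land (Nat.shiftRight e 68) 1)))) (Nat.land (Bool.rec (motive := fun _ => Nat)
  (Nat.land (Nat.shiftRight e 32) 16383) (Bool.rec (motive := fun _ => Nat) (Nat.add (Nat.land
  (Nat.shiftRight e 32) 16383) (Nat.pow 2 (Nat.land (Nat.shiftRight e 64) 15))) (Nat.sub (Nat.land
  (Nat.shiftRight e 32) 16383) (Nat.pow 2 (Nat.land (Nat.shiftRight e 64) 15))) (Nat.beq (Nat.land
  (Nat.shiftRight e 68) 1) 0)) (Nat.beq (Nat.land (Nat.shiftRight e 69) 1) (Nat.sub 1 (Nat.land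
  (Nat.shiftRight e 68) 1)))) (Nat.sub (Nat.sub (Nat.pow 2 (Nat.land (Nat.shiftRight e 60) 15)) 1)
  (Nat.land (Nat.shiftRight e 46) 16383))))) (Nat.mul (Nat.pow 2 (Nat.land (Nat.shiftRight e 60)
  15)) (Nat.shiftRight (Nat.lor (Nat.add (Bool.rec (motive := fun _ => Nat) (Nat.land
  (Nat.shiftRight e 32) 16383) (Bool.rec (motive := fun _ => Nat) (Nat.add (Nat.land
  (Nat.shiftRight e 32) 16383) (Nat.pow 2 (Nat.land (Nat.shiftRight e 64) 15))) (Nat.sub (Nat.land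
  (Nat.shiftRight e 32) 16383) (Nat.pow 2 (Nat.land (Nat.shiftRight e 64) 15))) (Nat.beq (Nat.land
  (Nat.shiftRight e 68) 1) 0)) (Nat.beq (Nat.land (Nat.shiftRight e 69) 1) (Nat.sub 1 (Nat.land
  (Nat.shiftRight e 68) 1)))) (Nat.land (Bool.rec (motive := fun _ => Nat) (Nat.land
  (Nat.shiftRight e 32) 16383) (Bool.rec (motive := fun _ => Nat) (Nat.add (Nat.land
  (Nat.shiftRight e 32) 16383) (Nat.pow 2 (Nat.land (Nat.shiftRight e 64) 15))) (Nat.sub (Nat.land
  (Nat.shiftRight e 32) 16383) (Nat.pow 2 (Nat.land (Nat.shiftRight e 64) 15))) (Nat.beq (Nat.land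
  (Nat.shiftRight e 68) 1) 0)) (Nat.beq (Nat.land (Nat.shiftRight e 69) 1) (Nat.sub 1 (Nat.land
  (Nat.shiftRight e 68) 1)))) (Nat.sub (Nat.sub (Nat.pow 2 (Nat.land (Nat.shiftRight e 60) 15)) 1)
  (Nat.land (Nat.shiftRight e 46) 16383)))) (Nat.sub (Bool.rec (motive := fun _ => Nat) (Nat.land
  (Nat.shiftRight e 32) 16383) (Bool.rec (motive := fun _ => Nat) (Nat.add (Nat.land
  (Nat.shiftRight e 32) 16383) (Nat.pow 2 (Nat.land (Nat.shiftRight e 64) 15))) (Nat.sub (Nat.land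
  (Nat.shiftRight e 32) 16383) (Nat.pow 2 (Nat.land (Nat.shiftRight e 64) 15))) (Nat.beq (Nat.land
  (Nat.shiftRight e 68) 1) 0)) (Nat.beq (Nat.land (Nat.shiftRight e 69) 1) (Nat.sub 1 (Nat.land
  (Nat.shiftRight e 68) 1)))) (Nat.land (Bool.rec (motive := fun _ => Nat) (Nat.land
  (Nat.shiftRight e 32) 16383) (Bool.rec (motive := fun _ => Nat) (Nat.add (Nat.land
  (Nat.shiftRight e 32) 16383) (Nat.pow 2 (Nat.land (Nat.shiftRight e 64) 15))) (Nat.sub (Nat.land
  (Nat.shiftRight e 32) 16383) (Nat.pow 2 (Nat.land (Nat.shiftRight e 64) 15))) (Nat.beq (Nat.land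
  (Nat.shiftRight e 68) 1) 0)) (Nat.beq (Nat.land (Nat.shiftRight e 69) 1) (Nat.sub 1 (Nat.land
  (Nat.shiftRight e 68) 1)))) (Nat.sub (Nat.sub (Nat.pow 2 (Nat.land (Nat.shiftRight e 60) 15)) 1)
  (Nat.land (Nat.shiftRight e 46) 16383))))) (Nat.land (Nat.shiftRight e 60) 15)))) (Nat.sub
  (Nat.land (Nat.shiftRight e 60) 15) (Nat.land (Nat.shiftRight (g (Nat.land (Nat.shiftRight e
  116) 1048575)) 28) 15))) (Bool.rec (motive := fun _ => Nat) (Nat.land (g (Nat.land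
  (Nat.shiftRight e 116) 1048575)) 16383) (Bool.rec (motive := fun _ => Nat) (Nat.add (Nat.land (g
  (Nat.land (Nat.shiftRight e 116) 1048575)) 16383) (Nat.pow 2 (Nat.land (Nat.shiftRight (g
  (Nat.land (Nat.shiftRight e 116) 1048575)) 64) 15))) (Nat.sub (Nat.land (g (Nat.land
  (Nat.shiftRight e 116) 1048575)) 16383) (Nat.pow 2 (Nat.land (Nat.shiftRight (g (Nat.land
  (Nat.shiftRight e 116) 1048575)) 64) 15))) (Nat.beq (Nat.land (Nat.shiftRight (g (Nat.land
  (Nat.shiftRight e 116) 1048575)) 68) 1) 0)) (Nat.beq (Nat.land (Nat.shiftRight (g (Nat.land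
  (Nat.shiftRight e 116) 1048575)) 69) 1) (Nat.land (Nat.shiftRight (g (Nat.land (Nat.shiftRight e
  116) 1048575)) 68) 1))))) (Nat.ble (Nat.land (Nat.shiftRight (g (Nat.land (Nat.shiftRight e 116)
  1048575)) 28) 15) (Nat.land (Nat.shiftRight e 60) 15)))) (Bool.rec (motive := fun _ => Bool)
  false (Bool.rec (motive := fun _ => Bool) false (Bool.rec (motive := fun _ => Bool) false
  (Bool.rec (motive := fun _ => Bool) false (Nat.beq (Nat.shiftRight (Bool.rec (motive := fun _ =>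
  Nat) (Nat.add (Nat.land (Nat.shiftRight e 14) 16383) 0) (Nat.sub (Nat.sub (Nat.pow 2 (Nat.succ
  (Nat.land (Nat.shiftRight e 28) 15))) 1) (Nat.add (Nat.land (Nat.shiftRight e 14) 16383) 0))
  (Nat.ble 2 (Nat.land (Nat.shiftRight e 136) 3))) (Nat.sub (Nat.succ (Nat.land (Nat.shiftRight e
  28) 15)) (Nat.land (Nat.shiftRight (g (Nat.land (Nat.shiftRight e 116) 1048575)) 60) 15)))
  (Nat.land (Nat.shiftRight (g (Nat.land (Nat.shiftRight e 116) 1048575)) 46) 16383)) (Nat.beq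
  (Nat.shiftRight (Nat.add (Nat.land e 16383) (Nat.mul (Nat.pow 2 (Nat.land (Nat.shiftRight e 28)
  15)) (Nat.sub 1 (Nat.shiftRight (Nat.lor (Nat.add (Nat.land (Nat.shiftRight e 32) 16383)
  (Nat.land (Nat.land (Nat.shiftRight e 32) 16383) (Nat.sub (Nat.sub (Nat.pow 2 (Nat.land
  (Nat.shiftRight e 60) 15)) 1) (Nat.land (Nat.shiftRight e 46) 16383)))) (Nat.sub (Nat.land
  (Nat.shiftRight e 32) 16383) (Nat.land (Nat.land (Nat.shiftRight e 32) 16383) (Nat.sub (Nat.sub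
  (Nat.pow 2 (Nat.land (Nat.shiftRight e 60) 15)) 1) (Nat.land (Nat.shiftRight e 46) 16383)))))
  (Nat.land (Nat.shiftRight e 60) 15))))) (Nat.sub (Nat.succ (Nat.land (Nat.shiftRight e 28) 15))
  (Nat.land (Nat.shiftRight (g (Nat.land (Nat.shiftRight e 116) 1048575)) 60) 15))) (Nat.land
  (Nat.shiftRight (g (Nat.land (Nat.shiftRight e 116) 1048575)) 32) 16383))) (Nat.beq
  (Nat.shiftRight (Nat.add (Bool.rec (motive := fun _ => Nat) (Nat.land e 16383) (Bool.rec (motive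
  := fun _ => Nat) (Nat.add (Nat.land e 16383) (Nat.pow 2 (Nat.land (Nat.shiftRight e 64) 15)))
  (Nat.sub (Nat.land e 16383) (Nat.pow 2 (Nat.land (Nat.shiftRight e 64) 15))) (Nat.beq (Nat.land
  (Nat.shiftRight e 68) 1) 0)) (Nat.beq (Nat.land (Nat.shiftRight e 69) 1) (Nat.land
  (Nat.shiftRight e 68) 1))) (Nat.mul (Nat.pow 2 (Nat.land (Nat.shiftRight e 28) 15)) (Nat.sub 1
  (Nat.shiftRight (Nat.lor (Nat.add (Bool.rec (motive := fun _ => Nat) (Nat.land (Nat.shiftRight e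
  32) 16383) (Bool.rec (motive := fun _ => Nat) (Nat.add (Nat.land (Nat.shiftRight e 32) 16383)
  (Nat.pow 2 (Nat.land (Nat.shiftRight e 64) 15))) (Nat.sub (Nat.land (Nat.shiftRight e 32) 16383)
  (Nat.pow 2 (Nat.land (Nat.shiftRight e 64) 15))) (Nat.beq (Nat.land (Nat.shiftRight e 68) 1) 0))
  (Nat.beq (Nat.land (Nat.shiftRight e 69) 1) (Nat.sub 1 (Nat.land (Nat.shiftRight e 68) 1))))
  (Nat.land (Bool.rec (motive := fun _ => Nat) (Nat.land (Nat.shiftRight e 32) 16383) (Bool.rec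
  (motive := fun _ => Nat) (Nat.add (Nat.land (Nat.shiftRight e 32) 16383) (Nat.pow 2 (Nat.land
  (Nat.shiftRight e 64) 15))) (Nat.sub (Nat.land (Nat.shiftRight e 32) 16383) (Nat.pow 2 (Nat.land
  (Nat.shiftRight e 64) 15))) (Nat.beq (Nat.land (Nat.shiftRight e 68) 1) 0)) (Nat.beq (Nat.land
  (Nat.shiftRight e 69) 1) (Nat.sub 1 (Nat.land (Nat.shiftRight e 68) 1)))) (Nat.sub (Nat.sub
  (Nat.pow 2 (Nat.land (Nat.shiftRight e 60) 15)) 1) (Nat.land (Nat.shiftRight e 46) 16383))))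
  (Nat.sub (Bool.rec (motive := fun _ => Nat) (Nat.land (Nat.shiftRight e 32) 16383) (Bool.rec
  (motive := fun _ => Nat) (Nat.add (Nat.land (Nat.shiftRight e 32) 16383) (Nat.pow 2 (Nat.land
  (Nat.shiftRight e 64) 15))) (Nat.sub (Nat.land (Nat.shiftRight e 32) 16383) (Nat.pow 2 (Nat.land
  (Nat.shiftRight e 64) 15))) (Nat.beq (Nat.land (Nat.shiftRight e 68) 1) 0)) (Nat.beq (Nat.land
  (Nat.shiftRight e 69) 1) (Nat.sub 1 (Nat.land (Nat.shiftRight e 68) 1)))) (Nat.land (Bool.rec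
  (motive := fun _ => Nat) (Nat.land (Nat.shiftRight e 32) 16383) (Bool.rec (motive := fun _ =>
  Nat) (Nat.add (Nat.land (Nat.shiftRight e 32) 16383) (Nat.pow 2 (Nat.land (Nat.shiftRight e 64)
  15))) (Nat.sub (Nat.land (Nat.shiftRight e 32) 16383) (Nat.pow 2 (Nat.land (Nat.shiftRight e 64)
  15))) (Nat.beq (Nat.land (Nat.shiftRight e 68) 1) 0)) (Nat.beq (Nat.land (Nat.shiftRight e 69)
  1) (Nat.sub 1 (Nat.land (Nat.shiftRight e 68) 1)))) (Nat.sub (Nat.sub (Nat.pow 2 (Nat.land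
  (Nat.shiftRight e 60) 15)) 1) (Nat.land (Nat.shiftRight e 46) 16383))))) (Nat.land
  (Nat.shiftRight e 60) 15))))) (Nat.sub (Nat.succ (Nat.land (Nat.shiftRight e 28) 15)) (Nat.land
  (Nat.shiftRight (g (Nat.land (Nat.shiftRight e 116) 1048575)) 60) 15))) (Bool.rec (motive := fun
  _ => Nat) (Nat.land (Nat.shiftRight (g (Nat.land (Nat.shiftRight e 116) 1048575)) 32) 16383)
  (Bool.rec (motive := fun _ => Nat) (Nat.add (Nat.land (Nat.shiftRight (g (Nat.land
  (Nat.shiftRight e 116) 1048575)) 32) 16383) (Nat.pow 2 (Nat.land (Nat.shiftRight (g (Nat.land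
  (Nat.shiftRight e 116) 1048575)) 64) 15))) (Nat.sub (Nat.land (Nat.shiftRight (g (Nat.land
  (Nat.shiftRight e 116) 1048575)) 32) 16383) (Nat.pow 2 (Nat.land (Nat.shiftRight (g (Nat.land
  (Nat.shiftRight e 116) 1048575)) 64) 15))) (Nat.beq (Nat.land (Nat.shiftRight (g (Nat.land
  (Nat.shiftRight e 116) 1048575)) 68) 1) 0)) (Nat.beq (Nat.land (Nat.shiftRight (g (Nat.land
  (Nat.shiftRight e 116) 1048575)) 69) 1) (Nat.sub 1 (Nat.land (Nat.shiftRight (g (Nat.land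
  (Nat.shiftRight e 116) 1048575)) 68) 1)))))) (Nat.ble (Nat.land (Nat.shiftRight (g (Nat.land
  (Nat.shiftRight e 116) 1048575)) 60) 15) (Nat.succ (Nat.land (Nat.shiftRight e 28) 15))))
  (Bool.rec (motive := fun _ => Bool) false (Bool.rec (motive := fun _ => Bool) false (Bool.rec
  (motive := fun _ => Bool) false (Nat.beq (Nat.shiftRight (Bool.rec (motive := fun _ => Nat)
  (Nat.land (Nat.shiftRight e 46) 16383) (Nat.sub (Nat.sub (Nat.pow 2 (Nat.land (Nat.shiftRight e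
  60) 15)) 1) (Nat.land (Nat.shiftRight e 46) 16383)) (Nat.ble 2 (Nat.land (Nat.shiftRight e 136)
  3))) (Nat.sub (Nat.land (Nat.shiftRight e 60) 15) (Nat.land (Nat.shiftRight (g (Nat.land
  (Nat.shiftRight e 116) 1048575)) 28) 15))) (Nat.land (Nat.shiftRight (g (Nat.land
  (Nat.shiftRight e 116) 1048575)) 14) 16383)) (Nat.beq (Nat.shiftLeft (Nat.land (g (Nat.land
  (Nat.shiftRight e 116) 1048575)) 16383) (Nat.sub (Nat.land (Nat.shiftRight e 60) 15) (Nat.land
  (Nat.shiftRight (g (Nat.land (Nat.shiftRight e 116) 1048575)) 28) 15))) (Nat.sub (Nat.lor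
  (Nat.add (Nat.land (Nat.shiftRight e 32) 16383) (Nat.land (Nat.land (Nat.shiftRight e 32) 16383)
  (Nat.sub (Nat.sub (Nat.pow 2 (Nat.land (Nat.shiftRight e 60) 15)) 1) (Nat.land (Nat.shiftRight e
  46) 16383)))) (Nat.sub (Nat.land (Nat.shiftRight e 32) 16383) (Nat.land (Nat.land
  (Nat.shiftRight e 32) 16383) (Nat.sub (Nat.sub (Nat.pow 2 (Nat.land (Nat.shiftRight e 60) 15))
  1) (Nat.land (Nat.shiftRight e 46) 16383))))) (Nat.mul (Nat.pow 2 (Nat.land (Nat.shiftRight e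
  60) 15)) (Nat.shiftRight (Nat.lor (Nat.add (Nat.land (Nat.shiftRight e 32) 16383) (Nat.land
  (Nat.land (Nat.shiftRight e 32) 16383) (Nat.sub (Nat.sub (Nat.pow 2 (Nat.land (Nat.shiftRight e
  60) 15)) 1) (Nat.land (Nat.shiftRight e 46) 16383)))) (Nat.sub (Nat.land (Nat.shiftRight e 32)
  16383) (Nat.land (Nat.land (Nat.shiftRight e 32) 16383) (Nat.sub (Nat.sub (Nat.pow 2 (Nat.land
  (Nat.shiftRight e 60) 15)) 1) (Nat.land (Nat.shiftRight e 46) 16383))))) (Nat.land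
  (Nat.shiftRight e 60) 15)))))) (Nat.beq (Nat.shiftLeft (Bool.rec (motive := fun _ => Nat)
  (Nat.land (g (Nat.land (Nat.shiftRight e 116) 1048575)) 16383) (Bool.rec (motive := fun _ =>
  Nat) (Nat.add (Nat.land (g (Nat.land (Nat.shiftRight e 116) 1048575)) 16383) (Nat.pow 2
  (Nat.land (Nat.shiftRight (g (Nat.land (Nat.shiftRight e 116) 1048575)) 64) 15))) (Nat.sub
  (Nat.land (g (Nat.land (Nat.shiftRight e 116) 1048575)) 16383) (Nat.pow 2 (Nat.land
  (Nat.shiftRight (g (Nat.land (Nat.shiftRight e 116) 1048575)) 64) 15))) (Nat.beq (Nat.land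
  (Nat.shiftRight (g (Nat.land (Nat.shiftRight e 116) 1048575)) 68) 1) 0)) (Nat.beq (Nat.land
  (Nat.shiftRight (g (Nat.land (Nat.shiftRight e 116) 1048575)) 69) 1) (Nat.land (Nat.shiftRight
  (g (Nat.land (Nat.shiftRight e 116) 1048575)) 68) 1))) (Nat.sub (Nat.land (Nat.shiftRight e 60)
  15) (Nat.land (Nat.shiftRight (g (Nat.land (Nat.shiftRight e 116) 1048575)) 28) 15))) (Nat.sub
  (Nat.lor (Nat.add (Bool.rec (motive := fun _ => Nat) (Nat.land (Nat.shiftRight e 32) 16383)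
  (Bool.rec (motive := fun _ => Nat) (Nat.add (Nat.land (Nat.shiftRight e 32) 16383) (Nat.pow 2
  (Nat.land (Nat.shiftRight e 64) 15))) (Nat.sub (Nat.land (Nat.shiftRight e 32) 16383) (Nat.pow 2
  (Nat.land (Nat.shiftRight e 64) 15))) (Nat.beq (Nat.land (Nat.shiftRight e 68) 1) 0)) (Nat.beq
  (Nat.land (Nat.shiftRight e 69) 1) (Nat.sub 1 (Nat.land (Nat.shiftRight e 68) 1)))) (Nat.land
  (Bool.rec (motive := fun _ => Nat) (Nat.land (Nat.shiftRight e 32) 16383) (Bool.rec (motive :=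
  fun _ => Nat) (Nat.add (Nat.land (Nat.shiftRight e 32) 16383) (Nat.pow 2 (Nat.land
  (Nat.shiftRight e 64) 15))) (Nat.sub (Nat.land (Nat.shiftRight e 32) 16383) (Nat.pow 2 (Nat.land
  (Nat.shiftRight e 64) 15))) (Nat.beq (Nat.land (Nat.shiftRight e 68) 1) 0)) (Nat.beq (Nat.land
  (Nat.shiftRight e 69) 1) (Nat.sub 1 (Nat.land (Nat.shiftRight e 68) 1)))) (Nat.sub (Nat.sub
  (Nat.pow 2 (Nat.land (Nat.shiftRight e 60) 15)) 1) (Nat.land (Nat.shiftRight e 46) 16383))))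
  (Nat.sub (Bool.rec (motive := fun _ => Nat) (Nat.land (Nat.shiftRight e 32) 16383) (Bool.rec
  (motive := fun _ => Nat) (Nat.add (Nat.land (Nat.shiftRight e 32) 16383) (Nat.pow 2 (Nat.land
  (Nat.shiftRight e 64) 15))) (Nat.sub (Nat.land (Nat.shiftRight e 32) 16383) (Nat.pow 2 (Nat.land
  (Nat.shiftRight e 64) 15))) (Nat.beq (Nat.land (Nat.shiftRight e 68) 1) 0)) (Nat.beq (Nat.land
  (Nat.shiftRight e 69) 1) (Nat.sub 1 (Nat.land (Nat.shiftRight e 68) 1)))) (Nat.land (Bool.rec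
  (motive := fun _ => Nat) (Nat.land (Nat.shiftRight e 32) 16383) (Bool.rec (motive := fun _ =>
  Nat) (Nat.add (Nat.land (Nat.shiftRight e 32) 16383) (Nat.pow 2 (Nat.land (Nat.shiftRight e 64)
  15))) (Nat.sub (Nat.land (Nat.shiftRight e 32) 16383) (Nat.pow 2 (Nat.land (Nat.shiftRight e 64)
  15))) (Nat.beq (Nat.land (Nat.shiftRight e 68) 1) 0)) (Nat.beq (Nat.land (Nat.shiftRight e 69)
  1) (Nat.sub 1 (Nat.land (Nat.shiftRight e 68) 1)))) (Nat.sub (Nat.sub (Nat.pow 2 (Nat.land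
  (Nat.shiftRight e 60) 15)) 1) (Nat.land (Nat.shiftRight e 46) 16383))))) (Nat.mul (Nat.pow 2
  (Nat.land (Nat.shiftRight e 60) 15)) (Nat.shiftRight (Nat.lor (Nat.add (Bool.rec (motive := fun
  _ => Nat) (Nat.land (Nat.shiftRight e 32) 16383) (Bool.rec (motive := fun _ => Nat) (Nat.add
  (Nat.land (Nat.shiftRight e 32) 16383) (Nat.pow 2 (Nat.land (Nat.shiftRight e 64) 15))) (Nat.sub
  (Nat.land (Nat.shiftRight e 32) 16383) (Nat.pow 2 (Nat.land (Nat.shiftRight e 64) 15))) (Nat.beq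
  (Nat.land (Nat.shiftRight e 68) 1) 0)) (Nat.beq (Nat.land (Nat.shiftRight e 69) 1) (Nat.sub 1
  (Nat.land (Nat.shiftRight e 68) 1)))) (Nat.land (Bool.rec (motive := fun _ => Nat) (Nat.land
  (Nat.shiftRight e 32) 16383) (Bool.rec (motive := fun _ => Nat) (Nat.add (Nat.land
  (Nat.shiftRight e 32) 16383) (Nat.pow 2 (Nat.land (Nat.shiftRight e 64) 15))) (Nat.sub (Nat.land
  (Nat.shiftRight e 32) 16383) (Nat.pow 2 (Nat.land (Nat.shiftRight e 64) 15))) (Nat.beq (Nat.land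
  (Nat.shiftRight e 68) 1) 0)) (Nat.beq (Nat.land (Nat.shiftRight e 69) 1) (Nat.sub 1 (Nat.land
  (Nat.shiftRight e 68) 1)))) (Nat.sub (Nat.sub (Nat.pow 2 (Nat.land (Nat.shiftRight e 60) 15)) 1)
  (Nat.land (Nat.shiftRight e 46) 16383)))) (Nat.sub (Bool.rec (motive := fun _ => Nat) (Nat.land
  (Nat.shiftRight e 32) 16383) (Bool.rec (motive := fun _ => Nat) (Nat.add (Nat.land
  (Nat.shiftRight e 32) 16383) (Nat.pow 2 (Nat.land (Nat.shiftRight e 64) 15))) (Nat.sub (Nat.land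
  (Nat.shiftRight e 32) 16383) (Nat.pow 2 (Nat.land (Nat.shiftRight e 64) 15))) (Nat.beq (Nat.land
  (Nat.shiftRight e 68) 1) 0)) (Nat.beq (Nat.land (Nat.shiftRight e 69) 1) (Nat.sub 1 (Nat.land
  (Nat.shiftRight e 68) 1)))) (Nat.land (Bool.rec (motive := fun _ => Nat) (Nat.land
  (Nat.shiftRight e 32) 16383) (Bool.rec (motive := fun _ => Nat) (Nat.add (Nat.land
  (Nat.shiftRight e 32) 16383) (Nat.pow 2 (Nat.land (Nat.shiftRight e 64) 15))) (Nat.sub (Nat.land
  (Nat.shiftRight e 32) 16383) (Nat.pow 2 (Nat.land (Nat.shiftRight e 64) 15))) (Nat.beq (Nat.land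
  (Nat.shiftRight e 68) 1) 0)) (Nat.beq (Nat.land (Nat.shiftRight e 69) 1) (Nat.sub 1 (Nat.land
  (Nat.shiftRight e 68) 1)))) (Nat.sub (Nat.sub (Nat.pow 2 (Nat.land (Nat.shiftRight e 60) 15)) 1)
  (Nat.land (Nat.shiftRight e 46) 16383))))) (Nat.land (Nat.shiftRight e 60) 15)))))) (Nat.ble
  (Nat.land (Nat.shiftRight (g (Nat.land (Nat.shiftRight e 116) 1048575)) 28) 15) (Nat.land
  (Nat.shiftRight e 60) 15)))) (Nat.beq (Nat.sub 1 (Nat.land (Nat.shiftRight e 69) 1)) 0))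
  (Nat.beq (Nat.land (Nat.shiftRight (g (Nat.land (Nat.shiftRight e 116) 1048575)) 69) 1) (Nat.sub
  1 (Nat.land (Nat.shiftRight e 69) 1)))) (Nat.beq (Nat.land (Nat.land (Nat.shiftRight e 136) 3)
  1) 1)) (Nat.beq (Nat.land (Nat.shiftRight (g (Nat.land (Nat.shiftRight e 116) 1048575)) 68) 1)
  (Nat.sub (Nat.add (Nat.land (Nat.shiftRight e 68) 1) (Nat.shiftRight (Nat.lor (Nat.add (Nat.land
  (Nat.shiftRight e 32) 16383) (Nat.land (Nat.land (Nat.shiftRight e 32) 16383) (Nat.sub (Nat.sub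
  (Nat.pow 2 (Nat.land (Nat.shiftRight e 60) 15)) 1) (Nat.land (Nat.shiftRight e 46) 16383))))
  (Nat.sub (Nat.land (Nat.shiftRight e 32) 16383) (Nat.land (Nat.land (Nat.shiftRight e 32) 16383)
  (Nat.sub (Nat.sub (Nat.pow 2 (Nat.land (Nat.shiftRight e 60) 15)) 1) (Nat.land (Nat.shiftRight e
  46) 16383))))) (Nat.land (Nat.shiftRight e 60) 15))) (Nat.shiftRight (Nat.lor (Nat.add (Bool.rec
  (motive := fun _ => Nat) (Nat.land (Nat.shiftRight e 32) 16383) (Bool.rec (motive := fun _ =>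
  Nat) (Nat.add (Nat.land (Nat.shiftRight e 32) 16383) (Nat.pow 2 (Nat.land (Nat.shiftRight e 64)
  15))) (Nat.sub (Nat.land (Nat.shiftRight e 32) 16383) (Nat.pow 2 (Nat.land (Nat.shiftRight e 64)
  15))) (Nat.beq (Nat.land (Nat.shiftRight e 68) 1) 0)) (Nat.beq (Nat.land (Nat.shiftRight e 69)
  1) (Nat.sub 1 (Nat.land (Nat.shiftRight e 68) 1)))) (Nat.land (Bool.rec (motive := fun _ => Nat)
  (Nat.land (Nat.shiftRight e 32) 16383) (Bool.rec (motive := fun _ => Nat) (Nat.add (Nat.land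
  (Nat.shiftRight e 32) 16383) (Nat.pow 2 (Nat.land (Nat.shiftRight e 64) 15))) (Nat.sub (Nat.land
  (Nat.shiftRight e 32) 16383) (Nat.pow 2 (Nat.land (Nat.shiftRight e 64) 15))) (Nat.beq (Nat.land
  (Nat.shiftRight e 68) 1) 0)) (Nat.beq (Nat.land (Nat.shiftRight e 69) 1) (Nat.sub 1 (Nat.land
  (Nat.shiftRight e 68) 1)))) (Nat.sub (Nat.sub (Nat.pow 2 (Nat.land (Nat.shiftRight e 60) 15)) 1)
  (Nat.land (Nat.shiftRight e 46) 16383)))) (Nat.sub (Bool.rec (motive := fun _ => Nat) (Nat.land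
  (Nat.shiftRight e 32) 16383) (Bool.rec (motive := fun _ => Nat) (Nat.add (Nat.land
  (Nat.shiftRight e 32) 16383) (Nat.pow 2 (Nat.land (Nat.shiftRight e 64) 15))) (Nat.sub (Nat.land
  (Nat.shiftRight e 32) 16383) (Nat.pow 2 (Nat.land (Nat.shiftRight e 64) 15))) (Nat.beq (Nat.land
  (Nat.shiftRight e 68) 1) 0)) (Nat.beq (Nat.land (Nat.shiftRight e 69) 1) (Nat.sub 1 (Nat.land
  (Nat.shiftRight e 68) 1)))) (Nat.land (Bool.rec (motive := fun _ => Nat) (Nat.land
  (Nat.shiftRight e 32) 16383) (Bool.rec (motive := fun _ => Nat) (Nat.add (Nat.land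
  (Nat.shiftRight e 32) 16383) (Nat.pow 2 (Nat.land (Nat.shiftRight e 64) 15))) (Nat.sub (Nat.land
  (Nat.shiftRight e 32) 16383) (Nat.pow 2 (Nat.land (Nat.shiftRight e 64) 15))) (Nat.beq (Nat.land
  (Nat.shiftRight e 68) 1) 0)) (Nat.beq (Nat.land (Nat.shiftRight e 69) 1) (Nat.sub 1 (Nat.land
  (Nat.shiftRight e 68) 1)))) (Nat.sub (Nat.sub (Nat.pow 2 (Nat.land (Nat.shiftRight e 60) 15)) 1)
  (Nat.land (Nat.shiftRight e 46) 16383))))) (Nat.land (Nat.shiftRight e 60) 15))))) (Nat.beq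
  (Nat.land (Nat.shiftRight (g (Nat.land (Nat.shiftRight e 116) 1048575)) 70) 1) 1)))

/-- `k1P`, written out -/
noncomputable def f1P (g : Nat → Nat) (e : Nat) : Bool :=
  (Bool.rec (motive := fun _ => Bool) false (Bool.rec (motive := fun _ => Bool) false (Bool.rec
  (motive := fun _ => Bool) false (Bool.rec (motive := fun _ => Bool) false (Bool.rec (motive :=
  fun _ => Bool) false (Bool.rec (motive := fun _ => Bool) false (Bool.rec (motive := fun _ =>
  Bool) false (Bool.rec (motive := fun _ => Bool) false (Bool.rec (motive := fun _ => Bool)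
  (Bool.rec (motive := fun _ => Bool) false (Bool.rec (motive := fun _ => Bool) (Bool.rec (motive
  := fun _ => Bool) false (Bool.rec (motive := fun _ => Bool) false (Bool.rec (motive := fun _ =>
  Bool) false (Bool.rec (motive := fun _ => Bool) false (Nat.beq (Nat.shiftRight (Bool.rec (motive
  := fun _ => Nat) (Nat.land (Nat.shiftRight e 46) 16383) (Nat.sub (Nat.sub (Nat.pow 2 (Nat.land
  (Nat.shiftRight e 60) 15)) 1) (Nat.land (Nat.shiftRight e 46) 16383)) (Nat.ble 2 (Nat.land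
  (Nat.shiftRight e 158) 3))) (Nat.sub (Nat.land (Nat.shiftRight e 60) 15) (Nat.land
  (Nat.shiftRight (g (Nat.land (Nat.shiftRight e 138) 1048575)) 60) 15))) (Nat.land
  (Nat.shiftRight (g (Nat.land (Nat.shiftRight e 138) 1048575)) 46) 16383)) (Nat.beq
  (Nat.shiftLeft (Nat.land (Nat.shiftRight (g (Nat.land (Nat.shiftRight e 138) 1048575)) 32)
  16383) (Nat.sub (Nat.land (Nat.shiftRight e 60) 15) (Nat.land (Nat.shiftRight (g (Nat.land
  (Nat.shiftRight e 138) 1048575)) 60) 15))) (Nat.land (Nat.shiftRight e 32) 16383))) (Nat.beq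
  (Nat.shiftLeft (Bool.rec (motive := fun _ => Nat) (Nat.land (Nat.shiftRight (g (Nat.land
  (Nat.shiftRight e 138) 1048575)) 32) 16383) (Bool.rec (motive := fun _ => Nat) (Nat.add
  (Nat.land (Nat.shiftRight (g (Nat.land (Nat.shiftRight e 138) 1048575)) 32) 16383) (Nat.pow 2
  (Nat.land (Nat.shiftRight (g (Nat.land (Nat.shiftRight e 138) 1048575)) 64) 15))) (Nat.sub
  (Nat.land (Nat.shiftRight (g (Nat.land (Nat.shiftRight e 138) 1048575)) 32) 16383) (Nat.pow 2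
  (Nat.land (Nat.shiftRight (g (Nat.land (Nat.shiftRight e 138) 1048575)) 64) 15))) (Nat.beq
  (Nat.land (Nat.shiftRight (g (Nat.land (Nat.shiftRight e 138) 1048575)) 68) 1) 0)) (Nat.beq
  (Nat.land (Nat.shiftRight (g (Nat.land (Nat.shiftRight e 138) 1048575)) 69) 1) (Nat.sub 1
  (Nat.land (Nat.shiftRight (g (Nat.land (Nat.shiftRight e 138) 1048575)) 68) 1)))) (Nat.sub
  (Nat.land (Nat.shiftRight e 60) 15) (Nat.land (Nat.shiftRight (g (Nat.land (Nat.shiftRight e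
  138) 1048575)) 60) 15))) (Nat.land (Nat.shiftRight e 32) 16383))) (Nat.ble (Nat.land
  (Nat.shiftRight (g (Nat.land (Nat.shiftRight e 138) 1048575)) 60) 15) (Nat.land (Nat.shiftRight
  e 60) 15))) (Bool.rec (motive := fun _ => Bool) false (Bool.rec (motive := fun _ => Bool) false
  (Bool.rec (motive := fun _ => Bool) false (Nat.beq (Nat.shiftRight (Bool.rec (motive := fun _ =>
  Nat) (Nat.land (Nat.shiftRight e 14) 16383) (Nat.sub (Nat.sub (Nat.pow 2 (Nat.land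
  (Nat.shiftRight e 28) 15)) 1) (Nat.land (Nat.shiftRight e 14) 16383)) (Nat.ble 2 (Nat.land
  (Nat.shiftRight e 158) 3))) (Nat.sub (Nat.land (Nat.shiftRight e 28) 15) (Nat.land
  (Nat.shiftRight (g (Nat.land (Nat.shiftRight e 138) 1048575)) 28) 15))) (Nat.land
  (Nat.shiftRight (g (Nat.land (Nat.shiftRight e 138) 1048575)) 14) 16383)) (Nat.beq
  (Nat.shiftRight (Nat.land e 16383) (Nat.sub (Nat.land (Nat.shiftRight e 28) 15) (Nat.land
  (Nat.shiftRight (g (Nat.land (Nat.shiftRight e 138) 1048575)) 28) 15))) (Nat.land (g (Nat.land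
  (Nat.shiftRight e 138) 1048575)) 16383))) (Nat.beq (Nat.shiftRight (Nat.sub (Nat.land e 16383)
  1) (Nat.sub (Nat.land (Nat.shiftRight e 28) 15) (Nat.land (Nat.shiftRight (g (Nat.land
  (Nat.shiftRight e 138) 1048575)) 28) 15))) (Bool.rec (motive := fun _ => Nat) (Nat.land (g
  (Nat.land (Nat.shiftRight e 138) 1048575)) 16383) (Bool.rec (motive := fun _ => Nat) (Nat.add
  (Nat.land (g (Nat.land (Nat.shiftRight e 138) 1048575)) 16383) (Nat.pow 2 (Nat.land
  (Nat.shiftRight (g (Nat.land (Nat.shiftRight e 138) 1048575)) 64) 15))) (Nat.sub (Nat.land (g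
  (Nat.land (Nat.shiftRight e 138) 1048575)) 16383) (Nat.pow 2 (Nat.land (Nat.shiftRight (g
  (Nat.land (Nat.shiftRight e 138) 1048575)) 64) 15))) (Nat.beq (Nat.land (Nat.shiftRight (g
  (Nat.land (Nat.shiftRight e 138) 1048575)) 68) 1) 0)) (Nat.beq (Nat.land (Nat.shiftRight (g
  (Nat.land (Nat.shiftRight e 138) 1048575)) 69) 1) (Nat.land (Nat.shiftRight (g (Nat.land
  (Nat.shiftRight e 138) 1048575)) 68) 1))))) (Nat.ble (Nat.land (Nat.shiftRight (g (Nat.land
  (Nat.shiftRight e 138) 1048575)) 28) 15) (Nat.land (Nat.shiftRight e 28) 15)))) (Bool.rec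
  (motive := fun _ => Bool) false (Bool.rec (motive := fun _ => Bool) false (Bool.rec (motive :=
  fun _ => Bool) false (Bool.rec (motive := fun _ => Bool) false (Nat.beq (Nat.shiftRight
  (Bool.rec (motive := fun _ => Nat) (Nat.land (Nat.shiftRight e 46) 16383) (Nat.sub (Nat.sub
  (Nat.pow 2 (Nat.land (Nat.shiftRight e 60) 15)) 1) (Nat.land (Nat.shiftRight e 46) 16383))
  (Nat.ble 2 (Nat.land (Nat.shiftRight e 158) 3))) (Nat.sub (Nat.land (Nat.shiftRight e 60) 15)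
  (Nat.land (Nat.shiftRight (g (Nat.land (Nat.shiftRight e 138) 1048575)) 60) 15))) (Nat.land
  (Nat.shiftRight (g (Nat.land (Nat.shiftRight e 138) 1048575)) 46) 16383)) (Nat.beq
  (Nat.shiftRight (Nat.land (Nat.shiftRight e 32) 16383) (Nat.sub (Nat.land (Nat.shiftRight e 60)
  15) (Nat.land (Nat.shiftRight (g (Nat.land (Nat.shiftRight e 138) 1048575)) 60) 15))) (Nat.land
  (Nat.shiftRight (g (Nat.land (Nat.shiftRight e 138) 1048575)) 32) 16383))) (Nat.beq
  (Nat.shiftRight (Nat.land (Nat.shiftRight e 32) 16383) (Nat.sub (Nat.land (Nat.shiftRight e 60)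
  15) (Nat.land (Nat.shiftRight (g (Nat.land (Nat.shiftRight e 138) 1048575)) 60) 15))) (Bool.rec
  (motive := fun _ => Nat) (Nat.land (Nat.shiftRight (g (Nat.land (Nat.shiftRight e 138) 1048575))
  32) 16383) (Bool.rec (motive := fun _ => Nat) (Nat.add (Nat.land (Nat.shiftRight (g (Nat.land
  (Nat.shiftRight e 138) 1048575)) 32) 16383) (Nat.pow 2 (Nat.land (Nat.shiftRight (g (Nat.land
  (Nat.shiftRight e 138) 1048575)) 64) 15))) (Nat.sub (Nat.land (Nat.shiftRight (g (Nat.land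
  (Nat.shiftRight e 138) 1048575)) 32) 16383) (Nat.pow 2 (Nat.land (Nat.shiftRight (g (Nat.land
  (Nat.shiftRight e 138) 1048575)) 64) 15))) (Nat.beq (Nat.land (Nat.shiftRight (g (Nat.land
  (Nat.shiftRight e 138) 1048575)) 68) 1) 0)) (Nat.beq (Nat.land (Nat.shiftRight (g (Nat.land
  (Nat.shiftRight e 138) 1048575)) 69) 1) (Nat.sub 1 (Nat.land (Nat.shiftRight (g (Nat.land
  (Nat.shiftRight e 138) 1048575)) 68) 1)))))) (Nat.ble (Nat.land (Nat.shiftRight (g (Nat.land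
  (Nat.shiftRight e 138) 1048575)) 60) 15) (Nat.land (Nat.shiftRight e 60) 15))) (Bool.rec (motive
  := fun _ => Bool) false (Bool.rec (motive := fun _ => Bool) false (Bool.rec (motive := fun _ =>
  Bool) false (Nat.beq (Nat.shiftRight (Bool.rec (motive := fun _ => Nat) (Nat.land
  (Nat.shiftRight e 14) 16383) (Nat.sub (Nat.sub (Nat.pow 2 (Nat.land (Nat.shiftRight e 28) 15))
  1) (Nat.land (Nat.shiftRight e 14) 16383)) (Nat.ble 2 (Nat.land (Nat.shiftRight e 158) 3)))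
  (Nat.sub (Nat.land (Nat.shiftRight e 28) 15) (Nat.land (Nat.shiftRight (g (Nat.land
  (Nat.shiftRight e 138) 1048575)) 28) 15))) (Nat.land (Nat.shiftRight (g (Nat.land
  (Nat.shiftRight e 138) 1048575)) 14) 16383)) (Nat.beq (Nat.shiftLeft (Nat.land (g (Nat.land
  (Nat.shiftRight e 138) 1048575)) 16383) (Nat.sub (Nat.land (Nat.shiftRight e 28) 15) (Nat.land
  (Nat.shiftRight (g (Nat.land (Nat.shiftRight e 138) 1048575)) 28) 15))) (Nat.land e 16383)))
  (Nat.beq (Nat.shiftLeft (Bool.rec (motive := fun _ => Nat) (Nat.land (g (Nat.land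
  (Nat.shiftRight e 138) 1048575)) 16383) (Bool.rec (motive := fun _ => Nat) (Nat.add (Nat.land (g
  (Nat.land (Nat.shiftRight e 138) 1048575)) 16383) (Nat.pow 2 (Nat.land (Nat.shiftRight (g
  (Nat.land (Nat.shiftRight e 138) 1048575)) 64) 15))) (Nat.sub (Nat.land (g (Nat.land
  (Nat.shiftRight e 138) 1048575)) 16383) (Nat.pow 2 (Nat.land (Nat.shiftRight (g (Nat.land
  (Nat.shiftRight e 138) 1048575)) 64) 15))) (Nat.beq (Nat.land (Nat.shiftRight (g (Nat.land
  (Nat.shiftRight e 138) 1048575)) 68) 1) 0)) (Nat.beq (Nat.land (Nat.shiftRight (g (Nat.land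
  (Nat.shiftRight e 138) 1048575)) 69) 1) (Nat.land (Nat.shiftRight (g (Nat.land (Nat.shiftRight e
  138) 1048575)) 68) 1))) (Nat.sub (Nat.land (Nat.shiftRight e 28) 15) (Nat.land (Nat.shiftRight
  (g (Nat.land (Nat.shiftRight e 138) 1048575)) 28) 15))) (Nat.sub (Nat.land e 16383) 1)))
  (Nat.ble (Nat.land (Nat.shiftRight (g (Nat.land (Nat.shiftRight e 138) 1048575)) 28) 15)
  (Nat.land (Nat.shiftRight e 28) 15)))) (Nat.beq 0 0)) (Nat.beq (Nat.land (Nat.shiftRight (g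
  (Nat.land (Nat.shiftRight e 138) 1048575)) 69) 1) 0)) (Bool.rec (motive := fun _ => Bool) false
  (Bool.rec (motive := fun _ => Bool) (Bool.rec (motive := fun _ => Bool) false (Bool.rec (motive
  := fun _ => Bool) false (Bool.rec (motive := fun _ => Bool) false (Bool.rec (motive := fun _ =>
  Bool) false (Nat.beq (Nat.shiftRight (Bool.rec (motive := fun _ => Nat) (Nat.land
  (Nat.shiftRight e 14) 16383) (Nat.sub (Nat.sub (Nat.pow 2 (Nat.land (Nat.shiftRight e 28) 15))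
  1) (Nat.land (Nat.shiftRight e 14) 16383)) (Nat.ble 2 (Nat.land (Nat.shiftRight e 158) 3)))
  (Nat.sub (Nat.land (Nat.shiftRight e 28) 15) (Nat.land (Nat.shiftRight (g (Nat.land
  (Nat.shiftRight e 138) 1048575)) 60) 15))) (Nat.land (Nat.shiftRight (g (Nat.land
  (Nat.shiftRight e 138) 1048575)) 46) 16383)) (Nat.beq (Nat.shiftLeft (Nat.land (Nat.shiftRight
  (g (Nat.land (Nat.shiftRight e 138) 1048575)) 32) 16383) (Nat.sub (Nat.land (Nat.shiftRight e
  28) 15) (Nat.land (Nat.shiftRight (g (Nat.land (Nat.shiftRight e 138) 1048575)) 60) 15)))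
  (Nat.land e 16383))) (Nat.beq (Nat.shiftLeft (Bool.rec (motive := fun _ => Nat) (Nat.land
  (Nat.shiftRight (g (Nat.land (Nat.shiftRight e 138) 1048575)) 32) 16383) (Bool.rec (motive :=
  fun _ => Nat) (Nat.add (Nat.land (Nat.shiftRight (g (Nat.land (Nat.shiftRight e 138) 1048575))
  32) 16383) (Nat.pow 2 (Nat.land (Nat.shiftRight (g (Nat.land (Nat.shiftRight e 138) 1048575))
  64) 15))) (Nat.sub (Nat.land (Nat.shiftRight (g (Nat.land (Nat.shiftRight e 138) 1048575)) 32)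
  16383) (Nat.pow 2 (Nat.land (Nat.shiftRight (g (Nat.land (Nat.shiftRight e 138) 1048575)) 64)
  15))) (Nat.beq (Nat.land (Nat.shiftRight (g (Nat.land (Nat.shiftRight e 138) 1048575)) 68) 1)
  0)) (Nat.beq (Nat.land (Nat.shiftRight (g (Nat.land (Nat.shiftRight e 138) 1048575)) 69) 1)
  (Nat.sub 1 (Nat.land (Nat.shiftRight (g (Nat.land (Nat.shiftRight e 138) 1048575)) 68) 1))))
  (Nat.sub (Nat.land (Nat.shiftRight e 28) 15) (Nat.land (Nat.shiftRight (g (Nat.land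
  (Nat.shiftRight e 138) 1048575)) 60) 15))) (Nat.sub (Nat.land e 16383) 1))) (Nat.ble (Nat.land
  (Nat.shiftRight (g (Nat.land (Nat.shiftRight e 138) 1048575)) 60) 15) (Nat.land (Nat.shiftRight
  e 28) 15))) (Bool.rec (motive := fun _ => Bool) false (Bool.rec (motive := fun _ => Bool) false
  (Bool.rec (motive := fun _ => Bool) false (Nat.beq (Nat.shiftRight (Bool.rec (motive := fun _ =>
  Nat) (Nat.land (Nat.shiftRight e 46) 16383) (Nat.sub (Nat.sub (Nat.pow 2 (Nat.land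
  (Nat.shiftRight e 60) 15)) 1) (Nat.land (Nat.shiftRight e 46) 16383)) (Nat.ble 2 (Nat.land
  (Nat.shiftRight e 158) 3))) (Nat.sub (Nat.land (Nat.shiftRight e 60) 15) (Nat.land
  (Nat.shiftRight (g (Nat.land (Nat.shiftRight e 138) 1048575)) 28) 15))) (Nat.land
  (Nat.shiftRight (g (Nat.land (Nat.shiftRight e 138) 1048575)) 14) 16383)) (Nat.beq
  (Nat.shiftRight (Nat.land (Nat.shiftRight e 32) 16383) (Nat.sub (Nat.land (Nat.shiftRight e 60)
  15) (Nat.land (Nat.shiftRight (g (Nat.land (Nat.shiftRight e 138) 1048575)) 28) 15))) (Nat.land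
  (g (Nat.land (Nat.shiftRight e 138) 1048575)) 16383))) (Nat.beq (Nat.shiftRight (Nat.land
  (Nat.shiftRight e 32) 16383) (Nat.sub (Nat.land (Nat.shiftRight e 60) 15) (Nat.land
  (Nat.shiftRight (g (Nat.land (Nat.shiftRight e 138) 1048575)) 28) 15))) (Bool.rec (motive := fun
  _ => Nat) (Nat.land (g (Nat.land (Nat.shiftRight e 138) 1048575)) 16383) (Bool.rec (motive :=
  fun _ => Nat) (Nat.add (Nat.land (g (Nat.land (Nat.shiftRight e 138) 1048575)) 16383) (Nat.pow 2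
  (Nat.land (Nat.shiftRight (g (Nat.land (Nat.shiftRight e 138) 1048575)) 64) 15))) (Nat.sub
  (Nat.land (g (Nat.land (Nat.shiftRight e 138) 1048575)) 16383) (Nat.pow 2 (Nat.land
  (Nat.shiftRight (g (Nat.land (Nat.shiftRight e 138) 1048575)) 64) 15))) (Nat.beq (Nat.land
  (Nat.shiftRight (g (Nat.land (Nat.shiftRight e 138) 1048575)) 68) 1) 0)) (Nat.beq (Nat.land
  (Nat.shiftRight (g (Nat.land (Nat.shiftRight e 138) 1048575)) 69) 1) (Nat.land (Nat.shiftRight
  (g (Nat.land (Nat.shiftRight e 138) 1048575)) 68) 1))))) (Nat.ble (Nat.land (Nat.shiftRight (g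
  (Nat.land (Nat.shiftRight e 138) 1048575)) 28) 15) (Nat.land (Nat.shiftRight e 60) 15))))
  (Bool.rec (motive := fun _ => Bool) false (Bool.rec (motive := fun _ => Bool) false (Bool.rec
  (motive := fun _ => Bool) false (Bool.rec (motive := fun _ => Bool) false (Nat.beq
  (Nat.shiftRight (Bool.rec (motive := fun _ => Nat) (Nat.land (Nat.shiftRight e 14) 16383)
  (Nat.sub (Nat.sub (Nat.pow 2 (Nat.land (Nat.shiftRight e 28) 15)) 1) (Nat.land (Nat.shiftRight e
  14) 16383)) (Nat.ble 2 (Nat.land (Nat.shiftRight e 158) 3))) (Nat.sub (Nat.land (Nat.shiftRight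
  e 28) 15) (Nat.land (Nat.shiftRight (g (Nat.land (Nat.shiftRight e 138) 1048575)) 60) 15)))
  (Nat.land (Nat.shiftRight (g (Nat.land (Nat.shiftRight e 138) 1048575)) 46) 16383)) (Nat.beq
  (Nat.shiftRight (Nat.land e 16383) (Nat.sub (Nat.land (Nat.shiftRight e 28) 15) (Nat.land
  (Nat.shiftRight (g (Nat.land (Nat.shiftRight e 138) 1048575)) 60) 15))) (Nat.land
  (Nat.shiftRight (g (Nat.land (Nat.shiftRight e 138) 1048575)) 32) 16383))) (Nat.beq
  (Nat.shiftRight (Nat.sub (Nat.land e 16383) 1) (Nat.sub (Nat.land (Nat.shiftRight e 28) 15)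
  (Nat.land (Nat.shiftRight (g (Nat.land (Nat.shiftRight e 138) 1048575)) 60) 15))) (Bool.rec
  (motive := fun _ => Nat) (Nat.land (Nat.shiftRight (g (Nat.land (Nat.shiftRight e 138) 1048575))
  32) 16383) (Bool.rec (motive := fun _ => Nat) (Nat.add (Nat.land (Nat.shiftRight (g (Nat.land
  (Nat.shiftRight e 138) 1048575)) 32) 16383) (Nat.pow 2 (Nat.land (Nat.shiftRight (g (Nat.land
  (Nat.shiftRight e 138) 1048575)) 64) 15))) (Nat.sub (Nat.land (Nat.shiftRight (g (Nat.land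
  (Nat.shiftRight e 138) 1048575)) 32) 16383) (Nat.pow 2 (Nat.land (Nat.shiftRight (g (Nat.land
  (Nat.shiftRight e 138) 1048575)) 64) 15))) (Nat.beq (Nat.land (Nat.shiftRight (g (Nat.land
  (Nat.shiftRight e 138) 1048575)) 68) 1) 0)) (Nat.beq (Nat.land (Nat.shiftRight (g (Nat.land
  (Nat.shiftRight e 138) 1048575)) 69) 1) (Nat.sub 1 (Nat.land (Nat.shiftRight (g (Nat.land
  (Nat.shiftRight e 138) 1048575)) 68) 1)))))) (Nat.ble (Nat.land (Nat.shiftRight (g (Nat.land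
  (Nat.shiftRight e 138) 1048575)) 60) 15) (Nat.land (Nat.shiftRight e 28) 15))) (Bool.rec (motive
  := fun _ => Bool) false (Bool.rec (motive := fun _ => Bool) false (Bool.rec (motive := fun _ =>
  Bool) false (Nat.beq (Nat.shiftRight (Bool.rec (motive := fun _ => Nat) (Nat.land
  (Nat.shiftRight e 46) 16383) (Nat.sub (Nat.sub (Nat.pow 2 (Nat.land (Nat.shiftRight e 60) 15))
  1) (Nat.land (Nat.shiftRight e 46) 16383)) (Nat.ble 2 (Nat.land (Nat.shiftRight e 158) 3)))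
  (Nat.sub (Nat.land (Nat.shiftRight e 60) 15) (Nat.land (Nat.shiftRight (g (Nat.land
  (Nat.shiftRight e 138) 1048575)) 28) 15))) (Nat.land (Nat.shiftRight (g (Nat.land
  (Nat.shiftRight e 138) 1048575)) 14) 16383)) (Nat.beq (Nat.shiftLeft (Nat.land (g (Nat.land
  (Nat.shiftRight e 138) 1048575)) 16383) (Nat.sub (Nat.land (Nat.shiftRight e 60) 15) (Nat.land
  (Nat.shiftRight (g (Nat.land (Nat.shiftRight e 138) 1048575)) 28) 15))) (Nat.land
  (Nat.shiftRight e 32) 16383))) (Nat.beq (Nat.shiftLeft (Bool.rec (motive := fun _ => Nat)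
  (Nat.land (g (Nat.land (Nat.shiftRight e 138) 1048575)) 16383) (Bool.rec (motive := fun _ =>
  Nat) (Nat.add (Nat.land (g (Nat.land (Nat.shiftRight e 138) 1048575)) 16383) (Nat.pow 2
  (Nat.land (Nat.shiftRight (g (Nat.land (Nat.shiftRight e 138) 1048575)) 64) 15))) (Nat.sub
  (Nat.land (g (Nat.land (Nat.shiftRight e 138) 1048575)) 16383) (Nat.pow 2 (Nat.land
  (Nat.shiftRight (g (Nat.land (Nat.shiftRight e 138) 1048575)) 64) 15))) (Nat.beq (Nat.land
  (Nat.shiftRight (g (Nat.land (Nat.shiftRight e 138) 1048575)) 68) 1) 0)) (Nat.beq (Nat.land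
  (Nat.shiftRight (g (Nat.land (Nat.shiftRight e 138) 1048575)) 69) 1) (Nat.land (Nat.shiftRight
  (g (Nat.land (Nat.shiftRight e 138) 1048575)) 68) 1))) (Nat.sub (Nat.land (Nat.shiftRight e 60)
  15) (Nat.land (Nat.shiftRight (g (Nat.land (Nat.shiftRight e 138) 1048575)) 28) 15))) (Nat.land
  (Nat.shiftRight e 32) 16383))) (Nat.ble (Nat.land (Nat.shiftRight (g (Nat.land (Nat.shiftRight e
  138) 1048575)) 28) 15) (Nat.land (Nat.shiftRight e 60) 15)))) (Nat.beq (Nat.sub 1 0) 0))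
  (Nat.beq (Nat.land (Nat.shiftRight (g (Nat.land (Nat.shiftRight e 138) 1048575)) 69) 1) (Nat.sub
  1 0))) (Nat.beq (Nat.land (Nat.land (Nat.shiftRight e 158) 3) 1) 1)) (Nat.beq (Nat.land
  (Nat.shiftRight (g (Nat.land (Nat.shiftRight e 138) 1048575)) 68) 1) 0)) (Nat.beq (Nat.land
  (Nat.shiftRight (g (Nat.land (Nat.shiftRight e 138) 1048575)) 70) 1) 1)) (Bool.rec (motive :=
  fun _ => Bool) false (Bool.rec (motive := fun _ => Bool) (Bool.rec (motive := fun _ => Bool)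
  false (Bool.rec (motive := fun _ => Bool) false (Bool.rec (motive := fun _ => Bool) false
  (Nat.beq (Nat.shiftRight (Bool.rec (motive := fun _ => Nat) (Nat.land (Nat.shiftRight e 46)
  16383) (Nat.sub (Nat.sub (Nat.pow 2 (Nat.land (Nat.shiftRight e 60) 15)) 1) (Nat.land
  (Nat.shiftRight e 46) 16383)) (Nat.ble 2 (Nat.land (Nat.shiftRight e 136) 3))) (Nat.sub
  (Nat.land (Nat.shiftRight e 60) 15) (Nat.land (Nat.shiftRight (g (Nat.land (Nat.shiftRight e
  116) 1048575)) 60) 15))) (Nat.land (Nat.shiftRight (g (Nat.land (Nat.shiftRight e 116) 1048575))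
  46) 16383)) (Nat.beq (Nat.shiftLeft (Nat.land (Nat.shiftRight (g (Nat.land (Nat.shiftRight e
  116) 1048575)) 32) 16383) (Nat.sub (Nat.land (Nat.shiftRight e 60) 15) (Nat.land (Nat.shiftRight
  (g (Nat.land (Nat.shiftRight e 116) 1048575)) 60) 15))) (Nat.land (Nat.shiftRight e 32) 16383)))
  (Nat.ble (Nat.land (Nat.shiftRight (g (Nat.land (Nat.shiftRight e 116) 1048575)) 60) 15)
  (Nat.land (Nat.shiftRight e 60) 15))) (Bool.rec (motive := fun _ => Bool) false (Bool.rec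
  (motive := fun _ => Bool) false (Nat.beq (Nat.shiftRight (Bool.rec (motive := fun _ => Nat)
  (Nat.shiftRight (Nat.land (Nat.shiftRight e 14) 16383) 1) (Nat.sub (Nat.sub (Nat.pow 2 (Nat.sub
  (Nat.land (Nat.shiftRight e 28) 15) 1)) 1) (Nat.shiftRight (Nat.land (Nat.shiftRight e 14)
  16383) 1)) (Nat.ble 2 (Nat.land (Nat.shiftRight e 136) 3))) (Nat.sub (Nat.sub (Nat.land
  (Nat.shiftRight e 28) 15) 1) (Nat.land (Nat.shiftRight (g (Nat.land (Nat.shiftRight e 116)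
  1048575)) 28) 15))) (Nat.land (Nat.shiftRight (g (Nat.land (Nat.shiftRight e 116) 1048575)) 14)
  16383)) (Nat.beq (Nat.shiftLeft (Nat.land (g (Nat.land (Nat.shiftRight e 116) 1048575)) 16383)
  (Nat.sub (Nat.sub (Nat.land (Nat.shiftRight e 28) 15) 1) (Nat.land (Nat.shiftRight (g (Nat.land
  (Nat.shiftRight e 116) 1048575)) 28) 15))) (Nat.shiftRight (Nat.land e 16383) 1))) (Nat.ble
  (Nat.land (Nat.shiftRight (g (Nat.land (Nat.shiftRight e 116) 1048575)) 28) 15) (Nat.sub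
  (Nat.land (Nat.shiftRight e 28) 15) 1)))) (Bool.rec (motive := fun _ => Bool) false (Bool.rec
  (motive := fun _ => Bool) false (Bool.rec (motive := fun _ => Bool) false (Nat.beq
  (Nat.shiftRight (Bool.rec (motive := fun _ => Nat) (Nat.shiftRight (Nat.land (Nat.shiftRight e
  14) 16383) 1) (Nat.sub (Nat.sub (Nat.pow 2 (Nat.sub (Nat.land (Nat.shiftRight e 28) 15) 1)) 1)
  (Nat.shiftRight (Nat.land (Nat.shiftRight e 14) 16383) 1)) (Nat.ble 2 (Nat.land (Nat.shiftRight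
  e 136) 3))) (Nat.sub (Nat.sub (Nat.land (Nat.shiftRight e 28) 15) 1) (Nat.land (Nat.shiftRight
  (g (Nat.land (Nat.shiftRight e 116) 1048575)) 60) 15))) (Nat.land (Nat.shiftRight (g (Nat.land
  (Nat.shiftRight e 116) 1048575)) 46) 16383)) (Nat.beq (Nat.shiftLeft (Nat.land (Nat.shiftRight
  (g (Nat.land (Nat.shiftRight e 116) 1048575)) 32) 16383) (Nat.sub (Nat.sub (Nat.land
  (Nat.shiftRight e 28) 15) 1) (Nat.land (Nat.shiftRight (g (Nat.land (Nat.shiftRight e 116)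
  1048575)) 60) 15))) (Nat.shiftRight (Nat.land e 16383) 1))) (Nat.ble (Nat.land (Nat.shiftRight
  (g (Nat.land (Nat.shiftRight e 116) 1048575)) 60) 15) (Nat.sub (Nat.land (Nat.shiftRight e 28)
  15) 1))) (Bool.rec (motive := fun _ => Bool) false (Bool.rec (motive := fun _ => Bool) false
  (Nat.beq (Nat.shiftRight (Bool.rec (motive := fun _ => Nat) (Nat.land (Nat.shiftRight e 46)
  16383) (Nat.sub (Nat.sub (Nat.pow 2 (Nat.land (Nat.shiftRight e 60) 15)) 1) (Nat.land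
  (Nat.shiftRight e 46) 16383)) (Nat.ble 2 (Nat.land (Nat.shiftRight e 136) 3))) (Nat.sub
  (Nat.land (Nat.shiftRight e 60) 15) (Nat.land (Nat.shiftRight (g (Nat.land (Nat.shiftRight e
  116) 1048575)) 28) 15))) (Nat.land (Nat.shiftRight (g (Nat.land (Nat.shiftRight e 116) 1048575))
  14) 16383)) (Nat.beq (Nat.shiftLeft (Nat.land (g (Nat.land (Nat.shiftRight e 116) 1048575))
  16383) (Nat.sub (Nat.land (Nat.shiftRight e 60) 15) (Nat.land (Nat.shiftRight (g (Nat.land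
  (Nat.shiftRight e 116) 1048575)) 28) 15))) (Nat.land (Nat.shiftRight e 32) 16383))) (Nat.ble
  (Nat.land (Nat.shiftRight (g (Nat.land (Nat.shiftRight e 116) 1048575)) 28) 15) (Nat.land
  (Nat.shiftRight e 60) 15)))) (Nat.beq (Nat.land (Nat.land (Nat.shiftRight e 136) 3) 1) 1))
  (Nat.beq (Nat.land (Nat.shiftRight (g (Nat.land (Nat.shiftRight e 116) 1048575)) 70) 1) 0)))
  (Nat.beq (Nat.land (Nat.land e 16383) 1) 1)) (Nat.ble 1 (Nat.land (Nat.shiftRight e 28) 15)))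
  (Nat.ble (Nat.succ (Nat.land (Nat.shiftRight (g (Nat.land (Nat.shiftRight e 116) 1048575)) 73)
  31)) (Nat.land (Nat.shiftRight e 73) 31))) (Nat.ble (Nat.succ (Nat.land (Nat.shiftRight (g
  (Nat.land (Nat.shiftRight e 138) 1048575)) 73) 31)) (Nat.land (Nat.shiftRight e 73) 31)))
  (Nat.ble (Nat.add (Nat.land (Nat.shiftRight (g (Nat.land (Nat.shiftRight e 116) 1048575)) 78)
  274877906943) (Nat.land (Nat.shiftRight (g (Nat.land (Nat.shiftRight e 138) 1048575)) 78)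
  274877906943)) (Nat.land (Nat.shiftRight e 78) 274877906943)))

/-- `k1D`, written out -/
noncomputable def f1D (g : Nat → Nat) (e : Nat) : Bool :=
  (Bool.rec (motive := fun _ => Bool) false (Bool.rec (motive := fun _ => Bool) false (Bool.rec
  (motive := fun _ => Bool) false (Bool.rec (motive := fun _ => Bool) false (Bool.rec (motive :=
  fun _ => Bool) false (Bool.rec (motive := fun _ => Bool) false (Bool.rec (motive := fun _ =>
  Bool) false (Bool.rec (motive := fun _ => Bool) false (Bool.rec (motive := fun _ => Bool) false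
  (Bool.rec (motive := fun _ => Bool) false (Bool.rec (motive := fun _ => Bool) (Bool.rec (motive
  := fun _ => Bool) false (Bool.rec (motive := fun _ => Bool) (Bool.rec (motive := fun _ => Bool)
  false (Bool.rec (motive := fun _ => Bool) false (Bool.rec (motive := fun _ => Bool) false
  (Bool.rec (motive := fun _ => Bool) false (Nat.beq (Nat.shiftRight (Bool.rec (motive := fun _ =>
  Nat) (Nat.land (Nat.shiftRight e 46) 16383) (Nat.sub (Nat.sub (Nat.pow 2 (Nat.land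
  (Nat.shiftRight e 60) 15)) 1) (Nat.land (Nat.shiftRight e 46) 16383)) (Nat.ble 2 (Nat.land
  (Nat.shiftRight e 158) 3))) (Nat.sub (Nat.land (Nat.shiftRight e 60) 15) (Nat.land
  (Nat.shiftRight (g (Nat.land (Nat.shiftRight e 138) 1048575)) 60) 15))) (Nat.land
  (Nat.shiftRight (g (Nat.land (Nat.shiftRight e 138) 1048575)) 46) 16383)) (Nat.beq
  (Nat.shiftLeft (Nat.land (Nat.shiftRight (g (Nat.land (Nat.shiftRight e 138) 1048575)) 32)
  16383) (Nat.sub (Nat.land (Nat.shiftRight e 60) 15) (Nat.land (Nat.shiftRight (g (Nat.land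
  (Nat.shiftRight e 138) 1048575)) 60) 15))) (Nat.land (Nat.shiftRight e 32) 16383))) (Nat.beq
  (Nat.shiftLeft (Bool.rec (motive := fun _ => Nat) (Nat.land (Nat.shiftRight (g (Nat.land
  (Nat.shiftRight e 138) 1048575)) 32) 16383) (Bool.rec (motive := fun _ => Nat) (Nat.add
  (Nat.land (Nat.shiftRight (g (Nat.land (Nat.shiftRight e 138) 1048575)) 32) 16383) (Nat.pow 2
  (Nat.land (Nat.shiftRight (g (Nat.land (Nat.shiftRight e 138) 1048575)) 64) 15))) (Nat.sub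
  (Nat.land (Nat.shiftRight (g (Nat.land (Nat.shiftRight e 138) 1048575)) 32) 16383) (Nat.pow 2
  (Nat.land (Nat.shiftRight (g (Nat.land (Nat.shiftRight e 138) 1048575)) 64) 15))) (Nat.beq
  (Nat.land (Nat.shiftRight (g (Nat.land (Nat.shiftRight e 138) 1048575)) 68) 1) 0)) (Nat.beq
  (Nat.land (Nat.shiftRight (g (Nat.land (Nat.shiftRight e 138) 1048575)) 69) 1) (Nat.sub 1
  (Nat.land (Nat.shiftRight (g (Nat.land (Nat.shiftRight e 138) 1048575)) 68) 1)))) (Nat.sub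
  (Nat.land (Nat.shiftRight e 60) 15) (Nat.land (Nat.shiftRight (g (Nat.land (Nat.shiftRight e
  138) 1048575)) 60) 15))) (Nat.land (Nat.shiftRight e 32) 16383))) (Nat.ble (Nat.land
  (Nat.shiftRight (g (Nat.land (Nat.shiftRight e 138) 1048575)) 60) 15) (Nat.land (Nat.shiftRight
  e 60) 15))) (Bool.rec (motive := fun _ => Bool) false (Bool.rec (motive := fun _ => Bool) false
  (Bool.rec (motive := fun _ => Bool) false (Nat.beq (Nat.shiftRight (Bool.rec (motive := fun _ =>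
  Nat) (Nat.land (Nat.shiftRight e 14) 16383) (Nat.sub (Nat.sub (Nat.pow 2 (Nat.land
  (Nat.shiftRight e 28) 15)) 1) (Nat.land (Nat.shiftRight e 14) 16383)) (Nat.ble 2 (Nat.land
  (Nat.shiftRight e 158) 3))) (Nat.sub (Nat.land (Nat.shiftRight e 28) 15) (Nat.land
  (Nat.shiftRight (g (Nat.land (Nat.shiftRight e 138) 1048575)) 28) 15))) (Nat.land
  (Nat.shiftRight (g (Nat.land (Nat.shiftRight e 138) 1048575)) 14) 16383)) (Nat.beq
  (Nat.shiftRight (Nat.land e 16383) (Nat.sub (Nat.land (Nat.shiftRight e 28) 15) (Nat.land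
  (Nat.shiftRight (g (Nat.land (Nat.shiftRight e 138) 1048575)) 28) 15))) (Nat.land (g (Nat.land
  (Nat.shiftRight e 138) 1048575)) 16383))) (Nat.beq (Nat.shiftRight (Nat.sub (Nat.land e 16383)
  1) (Nat.sub (Nat.land (Nat.shiftRight e 28) 15) (Nat.land (Nat.shiftRight (g (Nat.land
  (Nat.shiftRight e 138) 1048575)) 28) 15))) (Bool.rec (motive := fun _ => Nat) (Nat.land (g
  (Nat.land (Nat.shiftRight e 138) 1048575)) 16383) (Bool.rec (motive := fun _ => Nat) (Nat.add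
  (Nat.land (g (Nat.land (Nat.shiftRight e 138) 1048575)) 16383) (Nat.pow 2 (Nat.land
  (Nat.shiftRight (g (Nat.land (Nat.shiftRight e 138) 1048575)) 64) 15))) (Nat.sub (Nat.land (g
  (Nat.land (Nat.shiftRight e 138) 1048575)) 16383) (Nat.pow 2 (Nat.land (Nat.shiftRight (g
  (Nat.land (Nat.shiftRight e 138) 1048575)) 64) 15))) (Nat.beq (Nat.land (Nat.shiftRight (g
  (Nat.land (Nat.shiftRight e 138) 1048575)) 68) 1) 0)) (Nat.beq (Nat.land (Nat.shiftRight (g
  (Nat.land (Nat.shiftRight e 138) 1048575)) 69) 1) (Nat.land (Nat.shiftRight (g (Nat.land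
  (Nat.shiftRight e 138) 1048575)) 68) 1))))) (Nat.ble (Nat.land (Nat.shiftRight (g (Nat.land
  (Nat.shiftRight e 138) 1048575)) 28) 15) (Nat.land (Nat.shiftRight e 28) 15)))) (Bool.rec
  (motive := fun _ => Bool) false (Bool.rec (motive := fun _ => Bool) false (Bool.rec (motive :=
  fun _ => Bool) false (Bool.rec (motive := fun _ => Bool) false (Nat.beq (Nat.shiftRight
  (Bool.rec (motive := fun _ => Nat) (Nat.land (Nat.shiftRight e 46) 16383) (Nat.sub (Nat.sub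
  (Nat.pow 2 (Nat.land (Nat.shiftRight e 60) 15)) 1) (Nat.land (Nat.shiftRight e 46) 16383))
  (Nat.ble 2 (Nat.land (Nat.shiftRight e 158) 3))) (Nat.sub (Nat.land (Nat.shiftRight e 60) 15)
  (Nat.land (Nat.shiftRight (g (Nat.land (Nat.shiftRight e 138) 1048575)) 60) 15))) (Nat.land
  (Nat.shiftRight (g (Nat.land (Nat.shiftRight e 138) 1048575)) 46) 16383)) (Nat.beq
  (Nat.shiftRight (Nat.land (Nat.shiftRight e 32) 16383) (Nat.sub (Nat.land (Nat.shiftRight e 60)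
  15) (Nat.land (Nat.shiftRight (g (Nat.land (Nat.shiftRight e 138) 1048575)) 60) 15))) (Nat.land
  (Nat.shiftRight (g (Nat.land (Nat.shiftRight e 138) 1048575)) 32) 16383))) (Nat.beq
  (Nat.shiftRight (Nat.land (Nat.shiftRight e 32) 16383) (Nat.sub (Nat.land (Nat.shiftRight e 60)
  15) (Nat.land (Nat.shiftRight (g (Nat.land (Nat.shiftRight e 138) 1048575)) 60) 15))) (Bool.rec
  (motive := fun _ => Nat) (Nat.land (Nat.shiftRight (g (Nat.land (Nat.shiftRight e 138) 1048575))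
  32) 16383) (Bool.rec (motive := fun _ => Nat) (Nat.add (Nat.land (Nat.shiftRight (g (Nat.land
  (Nat.shiftRight e 138) 1048575)) 32) 16383) (Nat.pow 2 (Nat.land (Nat.shiftRight (g (Nat.land
  (Nat.shiftRight e 138) 1048575)) 64) 15))) (Nat.sub (Nat.land (Nat.shiftRight (g (Nat.land
  (Nat.shiftRight e 138) 1048575)) 32) 16383) (Nat.pow 2 (Nat.land (Nat.shiftRight (g (Nat.land
  (Nat.shiftRight e 138) 1048575)) 64) 15))) (Nat.beq (Nat.land (Nat.shiftRight (g (Nat.land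
  (Nat.shiftRight e 138) 1048575)) 68) 1) 0)) (Nat.beq (Nat.land (Nat.shiftRight (g (Nat.land
  (Nat.shiftRight e 138) 1048575)) 69) 1) (Nat.sub 1 (Nat.land (Nat.shiftRight (g (Nat.land
  (Nat.shiftRight e 138) 1048575)) 68) 1)))))) (Nat.ble (Nat.land (Nat.shiftRight (g (Nat.land
  (Nat.shiftRight e 138) 1048575)) 60) 15) (Nat.land (Nat.shiftRight e 60) 15))) (Bool.rec (motive
  := fun _ => Bool) false (Bool.rec (motive := fun _ => Bool) false (Bool.rec (motive := fun _ =>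
  Bool) false (Nat.beq (Nat.shiftRight (Bool.rec (motive := fun _ => Nat) (Nat.land
  (Nat.shiftRight e 14) 16383) (Nat.sub (Nat.sub (Nat.pow 2 (Nat.land (Nat.shiftRight e 28) 15))
  1) (Nat.land (Nat.shiftRight e 14) 16383)) (Nat.ble 2 (Nat.land (Nat.shiftRight e 158) 3)))
  (Nat.sub (Nat.land (Nat.shiftRight e 28) 15) (Nat.land (Nat.shiftRight (g (Nat.land
  (Nat.shiftRight e 138) 1048575)) 28) 15))) (Nat.land (Nat.shiftRight (g (Nat.land
  (Nat.shiftRight e 138) 1048575)) 14) 16383)) (Nat.beq (Nat.shiftLeft (Nat.land (g (Nat.land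
  (Nat.shiftRight e 138) 1048575)) 16383) (Nat.sub (Nat.land (Nat.shiftRight e 28) 15) (Nat.land
  (Nat.shiftRight (g (Nat.land (Nat.shiftRight e 138) 1048575)) 28) 15))) (Nat.land e 16383)))
  (Nat.beq (Nat.shiftLeft (Bool.rec (motive := fun _ => Nat) (Nat.land (g (Nat.land
  (Nat.shiftRight e 138) 1048575)) 16383) (Bool.rec (motive := fun _ => Nat) (Nat.add (Nat.land (g
  (Nat.land (Nat.shiftRight e 138) 1048575)) 16383) (Nat.pow 2 (Nat.land (Nat.shiftRight (g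
  (Nat.land (Nat.shiftRight e 138) 1048575)) 64) 15))) (Nat.sub (Nat.land (g (Nat.land
  (Nat.shiftRight e 138) 1048575)) 16383) (Nat.pow 2 (Nat.land (Nat.shiftRight (g (Nat.land
  (Nat.shiftRight e 138) 1048575)) 64) 15))) (Nat.beq (Nat.land (Nat.shiftRight (g (Nat.land
  (Nat.shiftRight e 138) 1048575)) 68) 1) 0)) (Nat.beq (Nat.land (Nat.shiftRight (g (Nat.land
  (Nat.shiftRight e 138) 1048575)) 69) 1) (Nat.land (Nat.shiftRight (g (Nat.land (Nat.shiftRight e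
  138) 1048575)) 68) 1))) (Nat.sub (Nat.land (Nat.shiftRight e 28) 15) (Nat.land (Nat.shiftRight
  (g (Nat.land (Nat.shiftRight e 138) 1048575)) 28) 15))) (Nat.sub (Nat.land e 16383) 1)))
  (Nat.ble (Nat.land (Nat.shiftRight (g (Nat.land (Nat.shiftRight e 138) 1048575)) 28) 15)
  (Nat.land (Nat.shiftRight e 28) 15)))) (Nat.beq 0 0)) (Nat.beq (Nat.land (Nat.shiftRight (g
  (Nat.land (Nat.shiftRight e 138) 1048575)) 69) 1) 0)) (Bool.rec (motive := fun _ => Bool) false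
  (Bool.rec (motive := fun _ => Bool) (Bool.rec (motive := fun _ => Bool) false (Bool.rec (motive
  := fun _ => Bool) false (Bool.rec (motive := fun _ => Bool) false (Bool.rec (motive := fun _ =>
  Bool) false (Nat.beq (Nat.shiftRight (Bool.rec (motive := fun _ => Nat) (Nat.land
  (Nat.shiftRight e 14) 16383) (Nat.sub (Nat.sub (Nat.pow 2 (Nat.land (Nat.shiftRight e 28) 15))
  1) (Nat.land (Nat.shiftRight e 14) 16383)) (Nat.ble 2 (Nat.land (Nat.shiftRight e 158) 3)))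
  (Nat.sub (Nat.land (Nat.shiftRight e 28) 15) (Nat.land (Nat.shiftRight (g (Nat.land
  (Nat.shiftRight e 138) 1048575)) 60) 15))) (Nat.land (Nat.shiftRight (g (Nat.land
  (Nat.shiftRight e 138) 1048575)) 46) 16383)) (Nat.beq (Nat.shiftLeft (Nat.land (Nat.shiftRight
  (g (Nat.land (Nat.shiftRight e 138) 1048575)) 32) 16383) (Nat.sub (Nat.land (Nat.shiftRight e
  28) 15) (Nat.land (Nat.shiftRight (g (Nat.land (Nat.shiftRight e 138) 1048575)) 60) 15)))
  (Nat.land e 16383))) (Nat.beq (Nat.shiftLeft (Bool.rec (motive := fun _ => Nat) (Nat.land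
  (Nat.shiftRight (g (Nat.land (Nat.shiftRight e 138) 1048575)) 32) 16383) (Bool.rec (motive :=
  fun _ => Nat) (Nat.add (Nat.land (Nat.shiftRight (g (Nat.land (Nat.shiftRight e 138) 1048575))
  32) 16383) (Nat.pow 2 (Nat.land (Nat.shiftRight (g (Nat.land (Nat.shiftRight e 138) 1048575))
  64) 15))) (Nat.sub (Nat.land (Nat.shiftRight (g (Nat.land (Nat.shiftRight e 138) 1048575)) 32)
  16383) (Nat.pow 2 (Nat.land (Nat.shiftRight (g (Nat.land (Nat.shiftRight e 138) 1048575)) 64)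
  15))) (Nat.beq (Nat.land (Nat.shiftRight (g (Nat.land (Nat.shiftRight e 138) 1048575)) 68) 1)
  0)) (Nat.beq (Nat.land (Nat.shiftRight (g (Nat.land (Nat.shiftRight e 138) 1048575)) 69) 1)
  (Nat.sub 1 (Nat.land (Nat.shiftRight (g (Nat.land (Nat.shiftRight e 138) 1048575)) 68) 1))))
  (Nat.sub (Nat.land (Nat.shiftRight e 28) 15) (Nat.land (Nat.shiftRight (g (Nat.land
  (Nat.shiftRight e 138) 1048575)) 60) 15))) (Nat.sub (Nat.land e 16383) 1))) (Nat.ble (Nat.land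
  (Nat.shiftRight (g (Nat.land (Nat.shiftRight e 138) 1048575)) 60) 15) (Nat.land (Nat.shiftRight
  e 28) 15))) (Bool.rec (motive := fun _ => Bool) false (Bool.rec (motive := fun _ => Bool) false
  (Bool.rec (motive := fun _ => Bool) false (Nat.beq (Nat.shiftRight (Bool.rec (motive := fun _ =>
  Nat) (Nat.land (Nat.shiftRight e 46) 16383) (Nat.sub (Nat.sub (Nat.pow 2 (Nat.land
  (Nat.shiftRight e 60) 15)) 1) (Nat.land (Nat.shiftRight e 46) 16383)) (Nat.ble 2 (Nat.land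
  (Nat.shiftRight e 158) 3))) (Nat.sub (Nat.land (Nat.shiftRight e 60) 15) (Nat.land
  (Nat.shiftRight (g (Nat.land (Nat.shiftRight e 138) 1048575)) 28) 15))) (Nat.land
  (Nat.shiftRight (g (Nat.land (Nat.shiftRight e 138) 1048575)) 14) 16383)) (Nat.beq
  (Nat.shiftRight (Nat.land (Nat.shiftRight e 32) 16383) (Nat.sub (Nat.land (Nat.shiftRight e 60)
  15) (Nat.land (Nat.shiftRight (g (Nat.land (Nat.shiftRight e 138) 1048575)) 28) 15))) (Nat.land
  (g (Nat.land (Nat.shiftRight e 138) 1048575)) 16383))) (Nat.beq (Nat.shiftRight (Nat.land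
  (Nat.shiftRight e 32) 16383) (Nat.sub (Nat.land (Nat.shiftRight e 60) 15) (Nat.land
  (Nat.shiftRight (g (Nat.land (Nat.shiftRight e 138) 1048575)) 28) 15))) (Bool.rec (motive := fun
  _ => Nat) (Nat.land (g (Nat.land (Nat.shiftRight e 138) 1048575)) 16383) (Bool.rec (motive :=
  fun _ => Nat) (Nat.add (Nat.land (g (Nat.land (Nat.shiftRight e 138) 1048575)) 16383) (Nat.pow 2
  (Nat.land (Nat.shiftRight (g (Nat.land (Nat.shiftRight e 138) 1048575)) 64) 15))) (Nat.sub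
  (Nat.land (g (Nat.land (Nat.shiftRight e 138) 1048575)) 16383) (Nat.pow 2 (Nat.land
  (Nat.shiftRight (g (Nat.land (Nat.shiftRight e 138) 1048575)) 64) 15))) (Nat.beq (Nat.land
  (Nat.shiftRight (g (Nat.land (Nat.shiftRight e 138) 1048575)) 68) 1) 0)) (Nat.beq (Nat.land
  (Nat.shiftRight (g (Nat.land (Nat.shiftRight e 138) 1048575)) 69) 1) (Nat.land (Nat.shiftRight
  (g (Nat.land (Nat.shiftRight e 138) 1048575)) 68) 1))))) (Nat.ble (Nat.land (Nat.shiftRight (g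
  (Nat.land (Nat.shiftRight e 138) 1048575)) 28) 15) (Nat.land (Nat.shiftRight e 60) 15))))
  (Bool.rec (motive := fun _ => Bool) false (Bool.rec (motive := fun _ => Bool) false (Bool.rec
  (motive := fun _ => Bool) false (Bool.rec (motive := fun _ => Bool) false (Nat.beq
  (Nat.shiftRight (Bool.rec (motive := fun _ => Nat) (Nat.land (Nat.shiftRight e 14) 16383)
  (Nat.sub (Nat.sub (Nat.pow 2 (Nat.land (Nat.shiftRight e 28) 15)) 1) (Nat.land (Nat.shiftRight e
  14) 16383)) (Nat.ble 2 (Nat.land (Nat.shiftRight e 158) 3))) (Nat.sub (Nat.land (Nat.shiftRight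
  e 28) 15) (Nat.land (Nat.shiftRight (g (Nat.land (Nat.shiftRight e 138) 1048575)) 60) 15)))
  (Nat.land (Nat.shiftRight (g (Nat.land (Nat.shiftRight e 138) 1048575)) 46) 16383)) (Nat.beq
  (Nat.shiftRight (Nat.land e 16383) (Nat.sub (Nat.land (Nat.shiftRight e 28) 15) (Nat.land
  (Nat.shiftRight (g (Nat.land (Nat.shiftRight e 138) 1048575)) 60) 15))) (Nat.land
  (Nat.shiftRight (g (Nat.land (Nat.shiftRight e 138) 1048575)) 32) 16383))) (Nat.beq
  (Nat.shiftRight (Nat.sub (Nat.land e 16383) 1) (Nat.sub (Nat.land (Nat.shiftRight e 28) 15)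
  (Nat.land (Nat.shiftRight (g (Nat.land (Nat.shiftRight e 138) 1048575)) 60) 15))) (Bool.rec
  (motive := fun _ => Nat) (Nat.land (Nat.shiftRight (g (Nat.land (Nat.shiftRight e 138) 1048575))
  32) 16383) (Bool.rec (motive := fun _ => Nat) (Nat.add (Nat.land (Nat.shiftRight (g (Nat.land
  (Nat.shiftRight e 138) 1048575)) 32) 16383) (Nat.pow 2 (Nat.land (Nat.shiftRight (g (Nat.land
  (Nat.shiftRight e 138) 1048575)) 64) 15))) (Nat.sub (Nat.land (Nat.shiftRight (g (Nat.land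
  (Nat.shiftRight e 138) 1048575)) 32) 16383) (Nat.pow 2 (Nat.land (Nat.shiftRight (g (Nat.land
  (Nat.shiftRight e 138) 1048575)) 64) 15))) (Nat.beq (Nat.land (Nat.shiftRight (g (Nat.land
  (Nat.shiftRight e 138) 1048575)) 68) 1) 0)) (Nat.beq (Nat.land (Nat.shiftRight (g (Nat.land
  (Nat.shiftRight e 138) 1048575)) 69) 1) (Nat.sub 1 (Nat.land (Nat.shiftRight (g (Nat.land
  (Nat.shiftRight e 138) 1048575)) 68) 1)))))) (Nat.ble (Nat.land (Nat.shiftRight (g (Nat.land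
  (Nat.shiftRight e 138) 1048575)) 60) 15) (Nat.land (Nat.shiftRight e 28) 15))) (Bool.rec (motive
  := fun _ => Bool) false (Bool.rec (motive := fun _ => Bool) false (Bool.rec (motive := fun _ =>
  Bool) false (Nat.beq (Nat.shiftRight (Bool.rec (motive := fun _ => Nat) (Nat.land
  (Nat.shiftRight e 46) 16383) (Nat.sub (Nat.sub (Nat.pow 2 (Nat.land (Nat.shiftRight e 60) 15))
  1) (Nat.land (Nat.shiftRight e 46) 16383)) (Nat.ble 2 (Nat.land (Nat.shiftRight e 158) 3)))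
  (Nat.sub (Nat.land (Nat.shiftRight e 60) 15) (Nat.land (Nat.shiftRight (g (Nat.land
  (Nat.shiftRight e 138) 1048575)) 28) 15))) (Nat.land (Nat.shiftRight (g (Nat.land
  (Nat.shiftRight e 138) 1048575)) 14) 16383)) (Nat.beq (Nat.shiftLeft (Nat.land (g (Nat.land
  (Nat.shiftRight e 138) 1048575)) 16383) (Nat.sub (Nat.land (Nat.shiftRight e 60) 15) (Nat.land
  (Nat.shiftRight (g (Nat.land (Nat.shiftRight e 138) 1048575)) 28) 15))) (Nat.land
  (Nat.shiftRight e 32) 16383))) (Nat.beq (Nat.shiftLeft (Bool.rec (motive := fun _ => Nat)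
  (Nat.land (g (Nat.land (Nat.shiftRight e 138) 1048575)) 16383) (Bool.rec (motive := fun _ =>
  Nat) (Nat.add (Nat.land (g (Nat.land (Nat.shiftRight e 138) 1048575)) 16383) (Nat.pow 2
  (Nat.land (Nat.shiftRight (g (Nat.land (Nat.shiftRight e 138) 1048575)) 64) 15))) (Nat.sub
  (Nat.land (g (Nat.land (Nat.shiftRight e 138) 1048575)) 16383) (Nat.pow 2 (Nat.land
  (Nat.shiftRight (g (Nat.land (Nat.shiftRight e 138) 1048575)) 64) 15))) (Nat.beq (Nat.land
  (Nat.shiftRight (g (Nat.land (Nat.shiftRight e 138) 1048575)) 68) 1) 0)) (Nat.beq (Nat.land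
  (Nat.shiftRight (g (Nat.land (Nat.shiftRight e 138) 1048575)) 69) 1) (Nat.land (Nat.shiftRight
  (g (Nat.land (Nat.shiftRight e 138) 1048575)) 68) 1))) (Nat.sub (Nat.land (Nat.shiftRight e 60)
  15) (Nat.land (Nat.shiftRight (g (Nat.land (Nat.shiftRight e 138) 1048575)) 28) 15))) (Nat.land
  (Nat.shiftRight e 32) 16383))) (Nat.ble (Nat.land (Nat.shiftRight (g (Nat.land (Nat.shiftRight e
  138) 1048575)) 28) 15) (Nat.land (Nat.shiftRight e 60) 15)))) (Nat.beq (Nat.sub 1 0) 0))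
  (Nat.beq (Nat.land (Nat.shiftRight (g (Nat.land (Nat.shiftRight e 138) 1048575)) 69) 1) (Nat.sub
  1 0))) (Nat.beq (Nat.land (Nat.land (Nat.shiftRight e 158) 3) 1) 1)) (Nat.beq (Nat.land
  (Nat.shiftRight (g (Nat.land (Nat.shiftRight e 138) 1048575)) 68) 1) 0)) (Nat.beq (Nat.land
  (Nat.shiftRight (g (Nat.land (Nat.shiftRight e 138) 1048575)) 70) 1) 1)) (Bool.rec (motive :=
  fun _ => Bool) false (Bool.rec (motive := fun _ => Bool) false (Bool.rec (motive := fun _ =>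
  Bool) (Bool.rec (motive := fun _ => Bool) false (Bool.rec (motive := fun _ => Bool) (Bool.rec
  (motive := fun _ => Bool) false (Bool.rec (motive := fun _ => Bool) false (Bool.rec (motive :=
  fun _ => Bool) false (Bool.rec (motive := fun _ => Bool) false (Nat.beq (Nat.shiftRight
  (Bool.rec (motive := fun _ => Nat) (Nat.land (Nat.shiftRight e 46) 16383) (Nat.sub (Nat.sub
  (Nat.pow 2 (Nat.land (Nat.shiftRight e 60) 15)) 1) (Nat.land (Nat.shiftRight e 46) 16383))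
  (Nat.ble 2 (Nat.land (Nat.shiftRight e 136) 3))) (Nat.sub (Nat.land (Nat.shiftRight e 60) 15)
  (Nat.land (Nat.shiftRight (g (Nat.land (Nat.shiftRight e 116) 1048575)) 60) 15))) (Nat.land
  (Nat.shiftRight (g (Nat.land (Nat.shiftRight e 116) 1048575)) 46) 16383)) (Nat.beq
  (Nat.shiftLeft (Nat.land (Nat.shiftRight (g (Nat.land (Nat.shiftRight e 116) 1048575)) 32)
  16383) (Nat.sub (Nat.land (Nat.shiftRight e 60) 15) (Nat.land (Nat.shiftRight (g (Nat.land
  (Nat.shiftRight e 116) 1048575)) 60) 15))) (Nat.land (Nat.shiftRight e 32) 16383))) (Nat.beq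
  (Nat.shiftLeft (Bool.rec (motive := fun _ => Nat) (Nat.land (Nat.shiftRight (g (Nat.land
  (Nat.shiftRight e 116) 1048575)) 32) 16383) (Bool.rec (motive := fun _ => Nat) (Nat.add
  (Nat.land (Nat.shiftRight (g (Nat.land (Nat.shiftRight e 116) 1048575)) 32) 16383) (Nat.pow 2
  (Nat.land (Nat.shiftRight (g (Nat.land (Nat.shiftRight e 116) 1048575)) 64) 15))) (Nat.sub
  (Nat.land (Nat.shiftRight (g (Nat.land (Nat.shiftRight e 116) 1048575)) 32) 16383) (Nat.pow 2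
  (Nat.land (Nat.shiftRight (g (Nat.land (Nat.shiftRight e 116) 1048575)) 64) 15))) (Nat.beq
  (Nat.land (Nat.shiftRight (g (Nat.land (Nat.shiftRight e 116) 1048575)) 68) 1) 0)) (Nat.beq
  (Nat.land (Nat.shiftRight (g (Nat.land (Nat.shiftRight e 116) 1048575)) 69) 1) (Nat.sub 1
  (Nat.land (Nat.shiftRight (g (Nat.land (Nat.shiftRight e 116) 1048575)) 68) 1)))) (Nat.sub
  (Nat.land (Nat.shiftRight e 60) 15) (Nat.land (Nat.shiftRight (g (Nat.land (Nat.shiftRight e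
  116) 1048575)) 60) 15))) (Bool.rec (motive := fun _ => Nat) (Nat.land (Nat.shiftRight e 32)
  16383) (Bool.rec (motive := fun _ => Nat) (Nat.add (Nat.land (Nat.shiftRight e 32) 16383)
  (Nat.pow 2 (Nat.land (Nat.shiftRight e 64) 15))) (Nat.sub (Nat.land (Nat.shiftRight e 32) 16383)
  (Nat.pow 2 (Nat.land (Nat.shiftRight e 64) 15))) (Nat.beq (Nat.land (Nat.shiftRight e 68) 1) 0))
  (Nat.beq (Nat.land (Nat.shiftRight e 69) 1) (Nat.sub 1 (Nat.land (Nat.shiftRight e 68) 1))))))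
  (Nat.ble (Nat.land (Nat.shiftRight (g (Nat.land (Nat.shiftRight e 116) 1048575)) 60) 15)
  (Nat.land (Nat.shiftRight e 60) 15))) (Bool.rec (motive := fun _ => Bool) false (Bool.rec
  (motive := fun _ => Bool) false (Bool.rec (motive := fun _ => Bool) false (Nat.beq
  (Nat.shiftRight (Bool.rec (motive := fun _ => Nat) (Nat.shiftRight (Nat.land (Nat.shiftRight e
  14) 16383) 1) (Nat.sub (Nat.sub (Nat.pow 2 (Nat.sub (Nat.land (Nat.shiftRight e 28) 15) 1)) 1)
  (Nat.shiftRight (Nat.land (Nat.shiftRight e 14) 16383) 1)) (Nat.ble 2 (Nat.land (Nat.shiftRight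
  e 136) 3))) (Nat.sub (Nat.sub (Nat.land (Nat.shiftRight e 28) 15) 1) (Nat.land (Nat.shiftRight
  (g (Nat.land (Nat.shiftRight e 116) 1048575)) 28) 15))) (Nat.land (Nat.shiftRight (g (Nat.land
  (Nat.shiftRight e 116) 1048575)) 14) 16383)) (Nat.beq (Nat.shiftRight (Nat.shiftRight (Nat.land
  e 16383) 1) (Nat.sub (Nat.sub (Nat.land (Nat.shiftRight e 28) 15) 1) (Nat.land (Nat.shiftRight
  (g (Nat.land (Nat.shiftRight e 116) 1048575)) 28) 15))) (Nat.land (g (Nat.land (Nat.shiftRight e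
  116) 1048575)) 16383))) (Nat.beq (Nat.shiftRight (Nat.shiftRight (Bool.rec (motive := fun _ =>
  Nat) (Nat.land e 16383) (Bool.rec (motive := fun _ => Nat) (Nat.add (Nat.land e 16383) (Nat.pow
  2 (Nat.land (Nat.shiftRight e 64) 15))) (Nat.sub (Nat.land e 16383) (Nat.pow 2 (Nat.land
  (Nat.shiftRight e 64) 15))) (Nat.beq (Nat.land (Nat.shiftRight e 68) 1) 0)) (Nat.beq (Nat.land
  (Nat.shiftRight e 69) 1) (Nat.land (Nat.shiftRight e 68) 1))) 1) (Nat.sub (Nat.sub (Nat.land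
  (Nat.shiftRight e 28) 15) 1) (Nat.land (Nat.shiftRight (g (Nat.land (Nat.shiftRight e 116)
  1048575)) 28) 15))) (Bool.rec (motive := fun _ => Nat) (Nat.land (g (Nat.land (Nat.shiftRight e
  116) 1048575)) 16383) (Bool.rec (motive := fun _ => Nat) (Nat.add (Nat.land (g (Nat.land
  (Nat.shiftRight e 116) 1048575)) 16383) (Nat.pow 2 (Nat.land (Nat.shiftRight (g (Nat.land
  (Nat.shiftRight e 116) 1048575)) 64) 15))) (Nat.sub (Nat.land (g (Nat.land (Nat.shiftRight e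
  116) 1048575)) 16383) (Nat.pow 2 (Nat.land (Nat.shiftRight (g (Nat.land (Nat.shiftRight e 116)
  1048575)) 64) 15))) (Nat.beq (Nat.land (Nat.shiftRight (g (Nat.land (Nat.shiftRight e 116)
  1048575)) 68) 1) 0)) (Nat.beq (Nat.land (Nat.shiftRight (g (Nat.land (Nat.shiftRight e 116)
  1048575)) 69) 1) (Nat.land (Nat.shiftRight (g (Nat.land (Nat.shiftRight e 116) 1048575)) 68)
  1))))) (Nat.ble (Nat.land (Nat.shiftRight (g (Nat.land (Nat.shiftRight e 116) 1048575)) 28) 15)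
  (Nat.sub (Nat.land (Nat.shiftRight e 28) 15) 1)))) (Bool.rec (motive := fun _ => Bool) false
  (Bool.rec (motive := fun _ => Bool) false (Bool.rec (motive := fun _ => Bool) false (Bool.rec
  (motive := fun _ => Bool) false (Nat.beq (Nat.shiftRight (Bool.rec (motive := fun _ => Nat)
  (Nat.land (Nat.shiftRight e 46) 16383) (Nat.sub (Nat.sub (Nat.pow 2 (Nat.land (Nat.shiftRight e
  60) 15)) 1) (Nat.land (Nat.shiftRight e 46) 16383)) (Nat.ble 2 (Nat.land (Nat.shiftRight e 136)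
  3))) (Nat.sub (Nat.land (Nat.shiftRight e 60) 15) (Nat.land (Nat.shiftRight (g (Nat.land
  (Nat.shiftRight e 116) 1048575)) 60) 15))) (Nat.land (Nat.shiftRight (g (Nat.land
  (Nat.shiftRight e 116) 1048575)) 46) 16383)) (Nat.beq (Nat.shiftRight (Nat.land (Nat.shiftRight
  e 32) 16383) (Nat.sub (Nat.land (Nat.shiftRight e 60) 15) (Nat.land (Nat.shiftRight (g (Nat.land
  (Nat.shiftRight e 116) 1048575)) 60) 15))) (Nat.land (Nat.shiftRight (g (Nat.land
  (Nat.shiftRight e 116) 1048575)) 32) 16383))) (Nat.beq (Nat.shiftRight (Bool.rec (motive := fun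
  _ => Nat) (Nat.land (Nat.shiftRight e 32) 16383) (Bool.rec (motive := fun _ => Nat) (Nat.add
  (Nat.land (Nat.shiftRight e 32) 16383) (Nat.pow 2 (Nat.land (Nat.shiftRight e 64) 15))) (Nat.sub
  (Nat.land (Nat.shiftRight e 32) 16383) (Nat.pow 2 (Nat.land (Nat.shiftRight e 64) 15))) (Nat.beq
  (Nat.land (Nat.shiftRight e 68) 1) 0)) (Nat.beq (Nat.land (Nat.shiftRight e 69) 1) (Nat.sub 1
  (Nat.land (Nat.shiftRight e 68) 1)))) (Nat.sub (Nat.land (Nat.shiftRight e 60) 15) (Nat.land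
  (Nat.shiftRight (g (Nat.land (Nat.shiftRight e 116) 1048575)) 60) 15))) (Bool.rec (motive := fun
  _ => Nat) (Nat.land (Nat.shiftRight (g (Nat.land (Nat.shiftRight e 116) 1048575)) 32) 16383)
  (Bool.rec (motive := fun _ => Nat) (Nat.add (Nat.land (Nat.shiftRight (g (Nat.land
  (Nat.shiftRight e 116) 1048575)) 32) 16383) (Nat.pow 2 (Nat.land (Nat.shiftRight (g (Nat.land
  (Nat.shiftRight e 116) 1048575)) 64) 15))) (Nat.sub (Nat.land (Nat.shiftRight (g (Nat.land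
  (Nat.shiftRight e 116) 1048575)) 32) 16383) (Nat.pow 2 (Nat.land (Nat.shiftRight (g (Nat.land
  (Nat.shiftRight e 116) 1048575)) 64) 15))) (Nat.beq (Nat.land (Nat.shiftRight (g (Nat.land
  (Nat.shiftRight e 116) 1048575)) 68) 1) 0)) (Nat.beq (Nat.land (Nat.shiftRight (g (Nat.land
  (Nat.shiftRight e 116) 1048575)) 69) 1) (Nat.sub 1 (Nat.land (Nat.shiftRight (g (Nat.land
  (Nat.shiftRight e 116) 1048575)) 68) 1)))))) (Nat.ble (Nat.land (Nat.shiftRight (g (Nat.land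
  (Nat.shiftRight e 116) 1048575)) 60) 15) (Nat.land (Nat.shiftRight e 60) 15))) (Bool.rec (motive
  := fun _ => Bool) false (Bool.rec (motive := fun _ => Bool) false (Bool.rec (motive := fun _ =>
  Bool) false (Nat.beq (Nat.shiftRight (Bool.rec (motive := fun _ => Nat) (Nat.shiftRight
  (Nat.land (Nat.shiftRight e 14) 16383) 1) (Nat.sub (Nat.sub (Nat.pow 2 (Nat.sub (Nat.land
  (Nat.shiftRight e 28) 15) 1)) 1) (Nat.shiftRight (Nat.land (Nat.shiftRight e 14) 16383) 1))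
  (Nat.ble 2 (Nat.land (Nat.shiftRight e 136) 3))) (Nat.sub (Nat.sub (Nat.land (Nat.shiftRight e
  28) 15) 1) (Nat.land (Nat.shiftRight (g (Nat.land (Nat.shiftRight e 116) 1048575)) 28) 15)))
  (Nat.land (Nat.shiftRight (g (Nat.land (Nat.shiftRight e 116) 1048575)) 14) 16383)) (Nat.beq
  (Nat.shiftLeft (Nat.land (g (Nat.land (Nat.shiftRight e 116) 1048575)) 16383) (Nat.sub (Nat.sub
  (Nat.land (Nat.shiftRight e 28) 15) 1) (Nat.land (Nat.shiftRight (g (Nat.land (Nat.shiftRight e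
  116) 1048575)) 28) 15))) (Nat.shiftRight (Nat.land e 16383) 1))) (Nat.beq (Nat.shiftLeft
  (Bool.rec (motive := fun _ => Nat) (Nat.land (g (Nat.land (Nat.shiftRight e 116) 1048575))
  16383) (Bool.rec (motive := fun _ => Nat) (Nat.add (Nat.land (g (Nat.land (Nat.shiftRight e 116)
  1048575)) 16383) (Nat.pow 2 (Nat.land (Nat.shiftRight (g (Nat.land (Nat.shiftRight e 116)
  1048575)) 64) 15))) (Nat.sub (Nat.land (g (Nat.land (Nat.shiftRight e 116) 1048575)) 16383)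
  (Nat.pow 2 (Nat.land (Nat.shiftRight (g (Nat.land (Nat.shiftRight e 116) 1048575)) 64) 15)))
  (Nat.beq (Nat.land (Nat.shiftRight (g (Nat.land (Nat.shiftRight e 116) 1048575)) 68) 1) 0))
  (Nat.beq (Nat.land (Nat.shiftRight (g (Nat.land (Nat.shiftRight e 116) 1048575)) 69) 1)
  (Nat.land (Nat.shiftRight (g (Nat.land (Nat.shiftRight e 116) 1048575)) 68) 1))) (Nat.sub
  (Nat.sub (Nat.land (Nat.shiftRight e 28) 15) 1) (Nat.land (Nat.shiftRight (g (Nat.land
  (Nat.shiftRight e 116) 1048575)) 28) 15))) (Nat.shiftRight (Bool.rec (motive := fun _ => Nat)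
  (Nat.land e 16383) (Bool.rec (motive := fun _ => Nat) (Nat.add (Nat.land e 16383) (Nat.pow 2
  (Nat.land (Nat.shiftRight e 64) 15))) (Nat.sub (Nat.land e 16383) (Nat.pow 2 (Nat.land
  (Nat.shiftRight e 64) 15))) (Nat.beq (Nat.land (Nat.shiftRight e 68) 1) 0)) (Nat.beq (Nat.land
  (Nat.shiftRight e 69) 1) (Nat.land (Nat.shiftRight e 68) 1))) 1))) (Nat.ble (Nat.land
  (Nat.shiftRight (g (Nat.land (Nat.shiftRight e 116) 1048575)) 28) 15) (Nat.sub (Nat.land
  (Nat.shiftRight e 28) 15) 1)))) (Nat.beq 0 0)) (Nat.beq (Nat.land (Nat.shiftRight (g (Nat.land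
  (Nat.shiftRight e 116) 1048575)) 69) 1) 0)) (Bool.rec (motive := fun _ => Bool) false (Bool.rec
  (motive := fun _ => Bool) (Bool.rec (motive := fun _ => Bool) false (Bool.rec (motive := fun _
  => Bool) false (Bool.rec (motive := fun _ => Bool) false (Bool.rec (motive := fun _ => Bool)
  false (Nat.beq (Nat.shiftRight (Bool.rec (motive := fun _ => Nat) (Nat.shiftRight (Nat.land
  (Nat.shiftRight e 14) 16383) 1) (Nat.sub (Nat.sub (Nat.pow 2 (Nat.sub (Nat.land (Nat.shiftRight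
  e 28) 15) 1)) 1) (Nat.shiftRight (Nat.land (Nat.shiftRight e 14) 16383) 1)) (Nat.ble 2 (Nat.land
  (Nat.shiftRight e 136) 3))) (Nat.sub (Nat.sub (Nat.land (Nat.shiftRight e 28) 15) 1) (Nat.land
  (Nat.shiftRight (g (Nat.land (Nat.shiftRight e 116) 1048575)) 60) 15))) (Nat.land
  (Nat.shiftRight (g (Nat.land (Nat.shiftRight e 116) 1048575)) 46) 16383)) (Nat.beq
  (Nat.shiftLeft (Nat.land (Nat.shiftRight (g (Nat.land (Nat.shiftRight e 116) 1048575)) 32)
  16383) (Nat.sub (Nat.sub (Nat.land (Nat.shiftRight e 28) 15) 1) (Nat.land (Nat.shiftRight (g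
  (Nat.land (Nat.shiftRight e 116) 1048575)) 60) 15))) (Nat.shiftRight (Nat.land e 16383) 1)))
  (Nat.beq (Nat.shiftLeft (Bool.rec (motive := fun _ => Nat) (Nat.land (Nat.shiftRight (g
  (Nat.land (Nat.shiftRight e 116) 1048575)) 32) 16383) (Bool.rec (motive := fun _ => Nat)
  (Nat.add (Nat.land (Nat.shiftRight (g (Nat.land (Nat.shiftRight e 116) 1048575)) 32) 16383)
  (Nat.pow 2 (Nat.land (Nat.shiftRight (g (Nat.land (Nat.shiftRight e 116) 1048575)) 64) 15)))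
  (Nat.sub (Nat.land (Nat.shiftRight (g (Nat.land (Nat.shiftRight e 116) 1048575)) 32) 16383)
  (Nat.pow 2 (Nat.land (Nat.shiftRight (g (Nat.land (Nat.shiftRight e 116) 1048575)) 64) 15)))
  (Nat.beq (Nat.land (Nat.shiftRight (g (Nat.land (Nat.shiftRight e 116) 1048575)) 68) 1) 0))
  (Nat.beq (Nat.land (Nat.shiftRight (g (Nat.land (Nat.shiftRight e 116) 1048575)) 69) 1) (Nat.sub
  1 (Nat.land (Nat.shiftRight (g (Nat.land (Nat.shiftRight e 116) 1048575)) 68) 1)))) (Nat.sub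
  (Nat.sub (Nat.land (Nat.shiftRight e 28) 15) 1) (Nat.land (Nat.shiftRight (g (Nat.land
  (Nat.shiftRight e 116) 1048575)) 60) 15))) (Nat.shiftRight (Bool.rec (motive := fun _ => Nat)
  (Nat.land e 16383) (Bool.rec (motive := fun _ => Nat) (Nat.add (Nat.land e 16383) (Nat.pow 2
  (Nat.land (Nat.shiftRight e 64) 15))) (Nat.sub (Nat.land e 16383) (Nat.pow 2 (Nat.land
  (Nat.shiftRight e 64) 15))) (Nat.beq (Nat.land (Nat.shiftRight e 68) 1) 0)) (Nat.beq (Nat.land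
  (Nat.shiftRight e 69) 1) (Nat.land (Nat.shiftRight e 68) 1))) 1))) (Nat.ble (Nat.land
  (Nat.shiftRight (g (Nat.land (Nat.shiftRight e 116) 1048575)) 60) 15) (Nat.sub (Nat.land
  (Nat.shiftRight e 28) 15) 1))) (Bool.rec (motive := fun _ => Bool) false (Bool.rec (motive :=
  fun _ => Bool) false (Bool.rec (motive := fun _ => Bool) false (Nat.beq (Nat.shiftRight
  (Bool.rec (motive := fun _ => Nat) (Nat.land (Nat.shiftRight e 46) 16383) (Nat.sub (Nat.sub
  (Nat.pow 2 (Nat.land (Nat.shiftRight e 60) 15)) 1) (Nat.land (Nat.shiftRight e 46) 16383))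
  (Nat.ble 2 (Nat.land (Nat.shiftRight e 136) 3))) (Nat.sub (Nat.land (Nat.shiftRight e 60) 15)
  (Nat.land (Nat.shiftRight (g (Nat.land (Nat.shiftRight e 116) 1048575)) 28) 15))) (Nat.land
  (Nat.shiftRight (g (Nat.land (Nat.shiftRight e 116) 1048575)) 14) 16383)) (Nat.beq
  (Nat.shiftRight (Nat.land (Nat.shiftRight e 32) 16383) (Nat.sub (Nat.land (Nat.shiftRight e 60)
  15) (Nat.land (Nat.shiftRight (g (Nat.land (Nat.shiftRight e 116) 1048575)) 28) 15))) (Nat.land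
  (g (Nat.land (Nat.shiftRight e 116) 1048575)) 16383))) (Nat.beq (Nat.shiftRight (Bool.rec
  (motive := fun _ => Nat) (Nat.land (Nat.shiftRight e 32) 16383) (Bool.rec (motive := fun _ =>
  Nat) (Nat.add (Nat.land (Nat.shiftRight e 32) 16383) (Nat.pow 2 (Nat.land (Nat.shiftRight e 64)
  15))) (Nat.sub (Nat.land (Nat.shiftRight e 32) 16383) (Nat.pow 2 (Nat.land (Nat.shiftRight e 64)
  15))) (Nat.beq (Nat.land (Nat.shiftRight e 68) 1) 0)) (Nat.beq (Nat.land (Nat.shiftRight e 69)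
  1) (Nat.sub 1 (Nat.land (Nat.shiftRight e 68) 1)))) (Nat.sub (Nat.land (Nat.shiftRight e 60) 15)
  (Nat.land (Nat.shiftRight (g (Nat.land (Nat.shiftRight e 116) 1048575)) 28) 15))) (Bool.rec
  (motive := fun _ => Nat) (Nat.land (g (Nat.land (Nat.shiftRight e 116) 1048575)) 16383)
  (Bool.rec (motive := fun _ => Nat) (Nat.add (Nat.land (g (Nat.land (Nat.shiftRight e 116)
  1048575)) 16383) (Nat.pow 2 (Nat.land (Nat.shiftRight (g (Nat.land (Nat.shiftRight e 116)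
  1048575)) 64) 15))) (Nat.sub (Nat.land (g (Nat.land (Nat.shiftRight e 116) 1048575)) 16383)
  (Nat.pow 2 (Nat.land (Nat.shiftRight (g (Nat.land (Nat.shiftRight e 116) 1048575)) 64) 15)))
  (Nat.beq (Nat.land (Nat.shiftRight (g (Nat.land (Nat.shiftRight e 116) 1048575)) 68) 1) 0))
  (Nat.beq (Nat.land (Nat.shiftRight (g (Nat.land (Nat.shiftRight e 116) 1048575)) 69) 1)
  (Nat.land (Nat.shiftRight (g (Nat.land (Nat.shiftRight e 116) 1048575)) 68) 1))))) (Nat.ble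
  (Nat.land (Nat.shiftRight (g (Nat.land (Nat.shiftRight e 116) 1048575)) 28) 15) (Nat.land
  (Nat.shiftRight e 60) 15)))) (Bool.rec (motive := fun _ => Bool) false (Bool.rec (motive := fun
  _ => Bool) false (Bool.rec (motive := fun _ => Bool) false (Bool.rec (motive := fun _ => Bool)
  false (Nat.beq (Nat.shiftRight (Bool.rec (motive := fun _ => Nat) (Nat.shiftRight (Nat.land
  (Nat.shiftRight e 14) 16383) 1) (Nat.sub (Nat.sub (Nat.pow 2 (Nat.sub (Nat.land (Nat.shiftRight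
  e 28) 15) 1)) 1) (Nat.shiftRight (Nat.land (Nat.shiftRight e 14) 16383) 1)) (Nat.ble 2 (Nat.land
  (Nat.shiftRight e 136) 3))) (Nat.sub (Nat.sub (Nat.land (Nat.shiftRight e 28) 15) 1) (Nat.land
  (Nat.shiftRight (g (Nat.land (Nat.shiftRight e 116) 1048575)) 60) 15))) (Nat.land
  (Nat.shiftRight (g (Nat.land (Nat.shiftRight e 116) 1048575)) 46) 16383)) (Nat.beq
  (Nat.shiftRight (Nat.shiftRight (Nat.land e 16383) 1) (Nat.sub (Nat.sub (Nat.land
  (Nat.shiftRight e 28) 15) 1) (Nat.land (Nat.shiftRight (g (Nat.land (Nat.shiftRight e 116)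
  1048575)) 60) 15))) (Nat.land (Nat.shiftRight (g (Nat.land (Nat.shiftRight e 116) 1048575)) 32)
  16383))) (Nat.beq (Nat.shiftRight (Nat.shiftRight (Bool.rec (motive := fun _ => Nat) (Nat.land e
  16383) (Bool.rec (motive := fun _ => Nat) (Nat.add (Nat.land e 16383) (Nat.pow 2 (Nat.land
  (Nat.shiftRight e 64) 15))) (Nat.sub (Nat.land e 16383) (Nat.pow 2 (Nat.land (Nat.shiftRight e
  64) 15))) (Nat.beq (Nat.land (Nat.shiftRight e 68) 1) 0)) (Nat.beq (Nat.land (Nat.shiftRight e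
  69) 1) (Nat.land (Nat.shiftRight e 68) 1))) 1) (Nat.sub (Nat.sub (Nat.land (Nat.shiftRight e 28)
  15) 1) (Nat.land (Nat.shiftRight (g (Nat.land (Nat.shiftRight e 116) 1048575)) 60) 15)))
  (Bool.rec (motive := fun _ => Nat) (Nat.land (Nat.shiftRight (g (Nat.land (Nat.shiftRight e 116)
  1048575)) 32) 16383) (Bool.rec (motive := fun _ => Nat) (Nat.add (Nat.land (Nat.shiftRight (g
  (Nat.land (Nat.shiftRight e 116) 1048575)) 32) 16383) (Nat.pow 2 (Nat.land (Nat.shiftRight (g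
  (Nat.land (Nat.shiftRight e 116) 1048575)) 64) 15))) (Nat.sub (Nat.land (Nat.shiftRight (g
  (Nat.land (Nat.shiftRight e 116) 1048575)) 32) 16383) (Nat.pow 2 (Nat.land (Nat.shiftRight (g
  (Nat.land (Nat.shiftRight e 116) 1048575)) 64) 15))) (Nat.beq (Nat.land (Nat.shiftRight (g
  (Nat.land (Nat.shiftRight e 116) 1048575)) 68) 1) 0)) (Nat.beq (Nat.land (Nat.shiftRight (g
  (Nat.land (Nat.shiftRight e 116) 1048575)) 69) 1) (Nat.sub 1 (Nat.land (Nat.shiftRight (g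
  (Nat.land (Nat.shiftRight e 116) 1048575)) 68) 1)))))) (Nat.ble (Nat.land (Nat.shiftRight (g
  (Nat.land (Nat.shiftRight e 116) 1048575)) 60) 15) (Nat.sub (Nat.land (Nat.shiftRight e 28) 15)
  1))) (Bool.rec (motive := fun _ => Bool) false (Bool.rec (motive := fun _ => Bool) false
  (Bool.rec (motive := fun _ => Bool) false (Nat.beq (Nat.shiftRight (Bool.rec (motive := fun _ =>
  Nat) (Nat.land (Nat.shiftRight e 46) 16383) (Nat.sub (Nat.sub (Nat.pow 2 (Nat.land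
  (Nat.shiftRight e 60) 15)) 1) (Nat.land (Nat.shiftRight e 46) 16383)) (Nat.ble 2 (Nat.land
  (Nat.shiftRight e 136) 3))) (Nat.sub (Nat.land (Nat.shiftRight e 60) 15) (Nat.land
  (Nat.shiftRight (g (Nat.land (Nat.shiftRight e 116) 1048575)) 28) 15))) (Nat.land
  (Nat.shiftRight (g (Nat.land (Nat.shiftRight e 116) 1048575)) 14) 16383)) (Nat.beq
  (Nat.shiftLeft (Nat.land (g (Nat.land (Nat.shiftRight e 116) 1048575)) 16383) (Nat.sub (Nat.land
  (Nat.shiftRight e 60) 15) (Nat.land (Nat.shiftRight (g (Nat.land (Nat.shiftRight e 116)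
  1048575)) 28) 15))) (Nat.land (Nat.shiftRight e 32) 16383))) (Nat.beq (Nat.shiftLeft (Bool.rec
  (motive := fun _ => Nat) (Nat.land (g (Nat.land (Nat.shiftRight e 116) 1048575)) 16383)
  (Bool.rec (motive := fun _ => Nat) (Nat.add (Nat.land (g (Nat.land (Nat.shiftRight e 116)
  1048575)) 16383) (Nat.pow 2 (Nat.land (Nat.shiftRight (g (Nat.land (Nat.shiftRight e 116)
  1048575)) 64) 15))) (Nat.sub (Nat.land (g (Nat.land (Nat.shiftRight e 116) 1048575)) 16383)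
  (Nat.pow 2 (Nat.land (Nat.shiftRight (g (Nat.land (Nat.shiftRight e 116) 1048575)) 64) 15)))
  (Nat.beq (Nat.land (Nat.shiftRight (g (Nat.land (Nat.shiftRight e 116) 1048575)) 68) 1) 0))
  (Nat.beq (Nat.land (Nat.shiftRight (g (Nat.land (Nat.shiftRight e 116) 1048575)) 69) 1)
  (Nat.land (Nat.shiftRight (g (Nat.land (Nat.shiftRight e 116) 1048575)) 68) 1))) (Nat.sub
  (Nat.land (Nat.shiftRight e 60) 15) (Nat.land (Nat.shiftRight (g (Nat.land (Nat.shiftRight e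
  116) 1048575)) 28) 15))) (Bool.rec (motive := fun _ => Nat) (Nat.land (Nat.shiftRight e 32)
  16383) (Bool.rec (motive := fun _ => Nat) (Nat.add (Nat.land (Nat.shiftRight e 32) 16383)
  (Nat.pow 2 (Nat.land (Nat.shiftRight e 64) 15))) (Nat.sub (Nat.land (Nat.shiftRight e 32) 16383)
  (Nat.pow 2 (Nat.land (Nat.shiftRight e 64) 15))) (Nat.beq (Nat.land (Nat.shiftRight e 68) 1) 0))
  (Nat.beq (Nat.land (Nat.shiftRight e 69) 1) (Nat.sub 1 (Nat.land (Nat.shiftRight e 68) 1))))))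
  (Nat.ble (Nat.land (Nat.shiftRight (g (Nat.land (Nat.shiftRight e 116) 1048575)) 28) 15)
  (Nat.land (Nat.shiftRight e 60) 15)))) (Nat.beq (Nat.sub 1 0) 0)) (Nat.beq (Nat.land
  (Nat.shiftRight (g (Nat.land (Nat.shiftRight e 116) 1048575)) 69) 1) (Nat.sub 1 0))) (Nat.beq
  (Nat.land (Nat.land (Nat.shiftRight e 136) 3) 1) 1)) (Nat.beq (Nat.land (Nat.shiftRight (g
  (Nat.land (Nat.shiftRight e 116) 1048575)) 68) 1) (Nat.land (Nat.shiftRight e 68) 1))) (Nat.beq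
  (Nat.land (Nat.shiftRight (g (Nat.land (Nat.shiftRight e 116) 1048575)) 70) 1) 1))) (Nat.beq
  (Nat.land (Nat.land e 16383) 1) 1)) (Nat.beq (Nat.land (Bool.rec (motive := fun _ => Nat)
  (Nat.land e 16383) (Bool.rec (motive := fun _ => Nat) (Nat.add (Nat.land e 16383) (Nat.pow 2
  (Nat.land (Nat.shiftRight e 64) 15))) (Nat.sub (Nat.land e 16383) (Nat.pow 2 (Nat.land
  (Nat.shiftRight e 64) 15))) (Nat.beq (Nat.land (Nat.shiftRight e 68) 1) 0)) (Nat.beq (Nat.land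
  (Nat.shiftRight e 69) 1) (Nat.land (Nat.shiftRight e 68) 1))) 1) 1)) (Nat.beq (Nat.land
  (Nat.shiftRight e 69) 1) 0)) (Nat.ble 1 (Nat.land (Nat.shiftRight e 28) 15))) (Nat.ble (Nat.succ
  (Nat.land (Nat.shiftRight (g (Nat.land (Nat.shiftRight e 116) 1048575)) 73) 31)) (Nat.land
  (Nat.shiftRight e 73) 31))) (Nat.ble (Nat.succ (Nat.land (Nat.shiftRight (g (Nat.land
  (Nat.shiftRight e 138) 1048575)) 73) 31)) (Nat.land (Nat.shiftRight e 73) 31))) (Nat.ble
  (Nat.add (Nat.land (Nat.shiftRight (g (Nat.land (Nat.shiftRight e 116) 1048575)) 78)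
  274877906943) (Nat.land (Nat.shiftRight (g (Nat.land (Nat.shiftRight e 138) 1048575)) 78)
  274877906943)) (Nat.land (Nat.shiftRight e 78) 274877906943)))

/-- `k2D`, written out -/
noncomputable def f2D (zn zd : Nat) (g : Nat → Nat) (e : Nat) : Bool :=
  (Bool.rec (motive := fun _ => Bool) false (Bool.rec (motive := fun _ => Bool) false (Bool.rec
  (motive := fun _ => Bool) false (Bool.rec (motive := fun _ => Bool) false (Bool.rec (motive :=
  fun _ => Bool) (Bool.rec (motive := fun _ => Bool) false (Bool.rec (motive := fun _ => Bool)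
  false (Bool.rec (motive := fun _ => Bool) false (Nat.beq (Nat.shiftRight (Bool.rec (motive :=
  fun _ => Nat) (Nat.land (Nat.shiftRight e 46) 16383) (Nat.sub (Nat.sub (Nat.pow 2 (Nat.land
  (Nat.shiftRight e 60) 15)) 1) (Nat.land (Nat.shiftRight e 46) 16383)) (Nat.ble 2 (Nat.land
  (Nat.shiftRight e 136) 3))) (Nat.sub (Nat.land (Nat.shiftRight e 60) 15) (Nat.land
  (Nat.shiftRight (g (Nat.land (Nat.shiftRight e 116) 1048575)) 60) 15))) (Nat.land
  (Nat.shiftRight (g (Nat.land (Nat.shiftRight e 116) 1048575)) 46) 16383)) (Nat.beq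
  (Nat.shiftLeft (Nat.land (Nat.shiftRight (g (Nat.land (Nat.shiftRight e 116) 1048575)) 32)
  16383) (Nat.sub (Nat.land (Nat.shiftRight e 60) 15) (Nat.land (Nat.shiftRight (g (Nat.land
  (Nat.shiftRight e 116) 1048575)) 60) 15))) (Nat.land (Nat.shiftRight e 32) 16383))) (Nat.ble
  (Nat.land (Nat.shiftRight (g (Nat.land (Nat.shiftRight e 116) 1048575)) 60) 15) (Nat.land
  (Nat.shiftRight e 60) 15))) (Bool.rec (motive := fun _ => Bool) false (Bool.rec (motive := fun _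
  => Bool) false (Nat.beq (Nat.shiftRight (Bool.rec (motive := fun _ => Nat) (Nat.land
  (Nat.shiftRight e 14) 16383) (Nat.sub (Nat.sub (Nat.pow 2 (Nat.land (Nat.shiftRight e 28) 15))
  1) (Nat.land (Nat.shiftRight e 14) 16383)) (Nat.ble 2 (Nat.land (Nat.shiftRight e 136) 3)))
  (Nat.sub (Nat.land (Nat.shiftRight e 28) 15) (Nat.land (Nat.shiftRight (g (Nat.land
  (Nat.shiftRight e 116) 1048575)) 28) 15))) (Nat.land (Nat.shiftRight (g (Nat.land
  (Nat.shiftRight e 116) 1048575)) 14) 16383)) (Nat.beq (Nat.shiftLeft (Nat.land (g (Nat.land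
  (Nat.shiftRight e 116) 1048575)) 16383) (Nat.sub (Nat.land (Nat.shiftRight e 28) 15) (Nat.land
  (Nat.shiftRight (g (Nat.land (Nat.shiftRight e 116) 1048575)) 28) 15))) (Nat.land e 16383)))
  (Nat.ble (Nat.land (Nat.shiftRight (g (Nat.land (Nat.shiftRight e 116) 1048575)) 28) 15)
  (Nat.land (Nat.shiftRight e 28) 15)))) (Bool.rec (motive := fun _ => Bool) false (Bool.rec
  (motive := fun _ => Bool) false (Bool.rec (motive := fun _ => Bool) false (Nat.beq
  (Nat.shiftRight (Bool.rec (motive := fun _ => Nat) (Nat.land (Nat.shiftRight e 14) 16383)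
  (Nat.sub (Nat.sub (Nat.pow 2 (Nat.land (Nat.shiftRight e 28) 15)) 1) (Nat.land (Nat.shiftRight e
  14) 16383)) (Nat.ble 2 (Nat.land (Nat.shiftRight e 136) 3))) (Nat.sub (Nat.land (Nat.shiftRight
  e 28) 15) (Nat.land (Nat.shiftRight (g (Nat.land (Nat.shiftRight e 116) 1048575)) 60) 15)))
  (Nat.land (Nat.shiftRight (g (Nat.land (Nat.shiftRight e 116) 1048575)) 46) 16383)) (Nat.beq
  (Nat.shiftLeft (Nat.land (Nat.shiftRight (g (Nat.land (Nat.shiftRight e 116) 1048575)) 32)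
  16383) (Nat.sub (Nat.land (Nat.shiftRight e 28) 15) (Nat.land (Nat.shiftRight (g (Nat.land
  (Nat.shiftRight e 116) 1048575)) 60) 15))) (Nat.land e 16383))) (Nat.ble (Nat.land
  (Nat.shiftRight (g (Nat.land (Nat.shiftRight e 116) 1048575)) 60) 15) (Nat.land (Nat.shiftRight
  e 28) 15))) (Bool.rec (motive := fun _ => Bool) false (Bool.rec (motive := fun _ => Bool) false
  (Nat.beq (Nat.shiftRight (Bool.rec (motive := fun _ => Nat) (Nat.land (Nat.shiftRight e 46)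
  16383) (Nat.sub (Nat.sub (Nat.pow 2 (Nat.land (Nat.shiftRight e 60) 15)) 1) (Nat.land
  (Nat.shiftRight e 46) 16383)) (Nat.ble 2 (Nat.land (Nat.shiftRight e 136) 3))) (Nat.sub
  (Nat.land (Nat.shiftRight e 60) 15) (Nat.land (Nat.shiftRight (g (Nat.land (Nat.shiftRight e
  116) 1048575)) 28) 15))) (Nat.land (Nat.shiftRight (g (Nat.land (Nat.shiftRight e 116) 1048575))
  14) 16383)) (Nat.beq (Nat.shiftLeft (Nat.land (g (Nat.land (Nat.shiftRight e 116) 1048575))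
  16383) (Nat.sub (Nat.land (Nat.shiftRight e 60) 15) (Nat.land (Nat.shiftRight (g (Nat.land
  (Nat.shiftRight e 116) 1048575)) 28) 15))) (Nat.land (Nat.shiftRight e 32) 16383))) (Nat.ble
  (Nat.land (Nat.shiftRight (g (Nat.land (Nat.shiftRight e 116) 1048575)) 28) 15) (Nat.land
  (Nat.shiftRight e 60) 15)))) (Nat.beq (Nat.land (Nat.land (Nat.shiftRight e 136) 3) 1) 1))
  (Nat.beq (Nat.land (Nat.shiftRight (g (Nat.land (Nat.shiftRight e 116) 1048575)) 70) 1) 0))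
  (Nat.beq (Nat.land (Nat.shiftRight e 68) 1) 1)) (Nat.ble (Nat.succ (Nat.land (Nat.shiftRight (g
  (Nat.land (Nat.shiftRight e 116) 1048575)) 73) 31)) (Nat.land (Nat.shiftRight e 73) 31)))
  (Nat.ble (Nat.mul (Nat.sub zn zd) (Nat.land (Nat.shiftRight (g (Nat.land (Nat.shiftRight e 116)
  1048575)) 78) 274877906943)) (Nat.mul zn (Nat.land (Nat.shiftRight e 78) 274877906943))))

/-- `k3D`, written out -/
noncomputable def f3D (zn zd : Nat) (g : Nat → Nat) (e : Nat) : Bool :=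
  (Bool.rec (motive := fun _ => Bool) false (Bool.rec (motive := fun _ => Bool) false (Bool.rec
  (motive := fun _ => Bool) false (Bool.rec (motive := fun _ => Bool) false (Bool.rec (motive :=
  fun _ => Bool) false (Bool.rec (motive := fun _ => Bool) false (Bool.rec (motive := fun _ =>
  Bool) false (Bool.rec (motive := fun _ => Bool) false (Bool.rec (motive := fun _ => Bool) false
  (Bool.rec (motive := fun _ => Bool) false (Bool.rec (motive := fun _ => Bool) (Bool.rec (motive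
  := fun _ => Bool) false (Bool.rec (motive := fun _ => Bool) (Bool.rec (motive := fun _ => Bool)
  false (Bool.rec (motive := fun _ => Bool) false (Bool.rec (motive := fun _ => Bool) false
  (Bool.rec (motive := fun _ => Bool) false (Nat.beq (Nat.shiftRight (Bool.rec (motive := fun _ =>
  Nat) (Nat.land (Nat.shiftRight e 46) 16383) (Nat.sub (Nat.sub (Nat.pow 2 (Nat.land
  (Nat.shiftRight e 60) 15)) 1) (Nat.land (Nat.shiftRight e 46) 16383)) (Nat.ble 2 (Nat.land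
  (Nat.shiftRight e 136) 3))) (Nat.sub (Nat.land (Nat.shiftRight e 60) 15) (Nat.land
  (Nat.shiftRight (g (Nat.land (Nat.shiftRight e 116) 1048575)) 60) 15))) (Nat.land
  (Nat.shiftRight (g (Nat.land (Nat.shiftRight e 116) 1048575)) 46) 16383)) (Nat.beq
  (Nat.shiftLeft (Nat.land (Nat.shiftRight (g (Nat.land (Nat.shiftRight e 116) 1048575)) 32)
  16383) (Nat.sub (Nat.land (Nat.shiftRight e 60) 15) (Nat.land (Nat.shiftRight (g (Nat.land
  (Nat.shiftRight e 116) 1048575)) 60) 15))) (Nat.land (Nat.shiftRight e 32) 16383))) (Nat.beq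
  (Nat.shiftLeft (Bool.rec (motive := fun _ => Nat) (Nat.land (Nat.shiftRight (g (Nat.land
  (Nat.shiftRight e 116) 1048575)) 32) 16383) (Bool.rec (motive := fun _ => Nat) (Nat.add
  (Nat.land (Nat.shiftRight (g (Nat.land (Nat.shiftRight e 116) 1048575)) 32) 16383) (Nat.pow 2
  (Nat.land (Nat.shiftRight (g (Nat.land (Nat.shiftRight e 116) 1048575)) 64) 15))) (Nat.sub
  (Nat.land (Nat.shiftRight (g (Nat.land (Nat.shiftRight e 116) 1048575)) 32) 16383) (Nat.pow 2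
  (Nat.land (Nat.shiftRight (g (Nat.land (Nat.shiftRight e 116) 1048575)) 64) 15))) (Nat.beq
  (Nat.land (Nat.shiftRight (g (Nat.land (Nat.shiftRight e 116) 1048575)) 68) 1) 0)) (Nat.beq
  (Nat.land (Nat.shiftRight (g (Nat.land (Nat.shiftRight e 116) 1048575)) 69) 1) (Nat.sub 1
  (Nat.land (Nat.shiftRight (g (Nat.land (Nat.shiftRight e 116) 1048575)) 68) 1)))) (Nat.sub
  (Nat.land (Nat.shiftRight e 60) 15) (Nat.land (Nat.shiftRight (g (Nat.land (Nat.shiftRight e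
  116) 1048575)) 60) 15))) (Nat.land (Nat.shiftRight e 32) 16383))) (Nat.ble (Nat.land
  (Nat.shiftRight (g (Nat.land (Nat.shiftRight e 116) 1048575)) 60) 15) (Nat.land (Nat.shiftRight
  e 60) 15))) (Bool.rec (motive := fun _ => Bool) false (Bool.rec (motive := fun _ => Bool) false
  (Bool.rec (motive := fun _ => Bool) false (Nat.beq (Nat.shiftRight (Bool.rec (motive := fun _ =>
  Nat) (Nat.land (Nat.shiftRight e 14) 16383) (Nat.sub (Nat.sub (Nat.pow 2 (Nat.land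
  (Nat.shiftRight e 28) 15)) 1) (Nat.land (Nat.shiftRight e 14) 16383)) (Nat.ble 2 (Nat.land
  (Nat.shiftRight e 136) 3))) (Nat.sub (Nat.land (Nat.shiftRight e 28) 15) (Nat.land
  (Nat.shiftRight (g (Nat.land (Nat.shiftRight e 116) 1048575)) 28) 15))) (Nat.land
  (Nat.shiftRight (g (Nat.land (Nat.shiftRight e 116) 1048575)) 14) 16383)) (Nat.beq
  (Nat.shiftRight (Nat.add (Nat.land e 16383) (Nat.pow 2 (Nat.land (Nat.shiftRight e 138)
  1048575))) (Nat.sub (Nat.land (Nat.shiftRight e 28) 15) (Nat.land (Nat.shiftRight (g (Nat.land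
  (Nat.shiftRight e 116) 1048575)) 28) 15))) (Nat.land (g (Nat.land (Nat.shiftRight e 116)
  1048575)) 16383))) (Nat.beq (Nat.shiftRight (Nat.sub (Nat.add (Nat.land e 16383) (Nat.pow 2
  (Nat.land (Nat.shiftRight e 138) 1048575))) 1) (Nat.sub (Nat.land (Nat.shiftRight e 28) 15)
  (Nat.land (Nat.shiftRight (g (Nat.land (Nat.shiftRight e 116) 1048575)) 28) 15))) (Bool.rec
  (motive := fun _ => Nat) (Nat.land (g (Nat.land (Nat.shiftRight e 116) 1048575)) 16383)
  (Bool.rec (motive := fun _ => Nat) (Nat.add (Nat.land (g (Nat.land (Nat.shiftRight e 116)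
  1048575)) 16383) (Nat.pow 2 (Nat.land (Nat.shiftRight (g (Nat.land (Nat.shiftRight e 116)
  1048575)) 64) 15))) (Nat.sub (Nat.land (g (Nat.land (Nat.shiftRight e 116) 1048575)) 16383)
  (Nat.pow 2 (Nat.land (Nat.shiftRight (g (Nat.land (Nat.shiftRight e 116) 1048575)) 64) 15)))
  (Nat.beq (Nat.land (Nat.shiftRight (g (Nat.land (Nat.shiftRight e 116) 1048575)) 68) 1) 0))
  (Nat.beq (Nat.land (Nat.shiftRight (g (Nat.land (Nat.shiftRight e 116) 1048575)) 69) 1)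
  (Nat.land (Nat.shiftRight (g (Nat.land (Nat.shiftRight e 116) 1048575)) 68) 1))))) (Nat.ble
  (Nat.land (Nat.shiftRight (g (Nat.land (Nat.shiftRight e 116) 1048575)) 28) 15) (Nat.land
  (Nat.shiftRight e 28) 15)))) (Bool.rec (motive := fun _ => Bool) false (Bool.rec (motive := fun
  _ => Bool) false (Bool.rec (motive := fun _ => Bool) false (Bool.rec (motive := fun _ => Bool)
  false (Nat.beq (Nat.shiftRight (Bool.rec (motive := fun _ => Nat) (Nat.land (Nat.shiftRight e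
  46) 16383) (Nat.sub (Nat.sub (Nat.pow 2 (Nat.land (Nat.shiftRight e 60) 15)) 1) (Nat.land
  (Nat.shiftRight e 46) 16383)) (Nat.ble 2 (Nat.land (Nat.shiftRight e 136) 3))) (Nat.sub
  (Nat.land (Nat.shiftRight e 60) 15) (Nat.land (Nat.shiftRight (g (Nat.land (Nat.shiftRight e
  116) 1048575)) 60) 15))) (Nat.land (Nat.shiftRight (g (Nat.land (Nat.shiftRight e 116) 1048575))
  46) 16383)) (Nat.beq (Nat.shiftRight (Nat.land (Nat.shiftRight e 32) 16383) (Nat.sub (Nat.land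
  (Nat.shiftRight e 60) 15) (Nat.land (Nat.shiftRight (g (Nat.land (Nat.shiftRight e 116)
  1048575)) 60) 15))) (Nat.land (Nat.shiftRight (g (Nat.land (Nat.shiftRight e 116) 1048575)) 32)
  16383))) (Nat.beq (Nat.shiftRight (Nat.land (Nat.shiftRight e 32) 16383) (Nat.sub (Nat.land
  (Nat.shiftRight e 60) 15) (Nat.land (Nat.shiftRight (g (Nat.land (Nat.shiftRight e 116)
  1048575)) 60) 15))) (Bool.rec (motive := fun _ => Nat) (Nat.land (Nat.shiftRight (g (Nat.land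
  (Nat.shiftRight e 116) 1048575)) 32) 16383) (Bool.rec (motive := fun _ => Nat) (Nat.add
  (Nat.land (Nat.shiftRight (g (Nat.land (Nat.shiftRight e 116) 1048575)) 32) 16383) (Nat.pow 2
  (Nat.land (Nat.shiftRight (g (Nat.land (Nat.shiftRight e 116) 1048575)) 64) 15))) (Nat.sub
  (Nat.land (Nat.shiftRight (g (Nat.land (Nat.shiftRight e 116) 1048575)) 32) 16383) (Nat.pow 2
  (Nat.land (Nat.shiftRight (g (Nat.land (Nat.shiftRight e 116) 1048575)) 64) 15))) (Nat.beq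
  (Nat.land (Nat.shiftRight (g (Nat.land (Nat.shiftRight e 116) 1048575)) 68) 1) 0)) (Nat.beq
  (Nat.land (Nat.shiftRight (g (Nat.land (Nat.shiftRight e 116) 1048575)) 69) 1) (Nat.sub 1
  (Nat.land (Nat.shiftRight (g (Nat.land (Nat.shiftRight e 116) 1048575)) 68) 1)))))) (Nat.ble
  (Nat.land (Nat.shiftRight (g (Nat.land (Nat.shiftRight e 116) 1048575)) 60) 15) (Nat.land
  (Nat.shiftRight e 60) 15))) (Bool.rec (motive := fun _ => Bool) false (Bool.rec (motive := fun _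
  => Bool) false (Bool.rec (motive := fun _ => Bool) false (Nat.beq (Nat.shiftRight (Bool.rec
  (motive := fun _ => Nat) (Nat.land (Nat.shiftRight e 14) 16383) (Nat.sub (Nat.sub (Nat.pow 2
  (Nat.land (Nat.shiftRight e 28) 15)) 1) (Nat.land (Nat.shiftRight e 14) 16383)) (Nat.ble 2
  (Nat.land (Nat.shiftRight e 136) 3))) (Nat.sub (Nat.land (Nat.shiftRight e 28) 15) (Nat.land
  (Nat.shiftRight (g (Nat.land (Nat.shiftRight e 116) 1048575)) 28) 15))) (Nat.land
  (Nat.shiftRight (g (Nat.land (Nat.shiftRight e 116) 1048575)) 14) 16383)) (Nat.beq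
  (Nat.shiftLeft (Nat.land (g (Nat.land (Nat.shiftRight e 116) 1048575)) 16383) (Nat.sub (Nat.land
  (Nat.shiftRight e 28) 15) (Nat.land (Nat.shiftRight (g (Nat.land (Nat.shiftRight e 116)
  1048575)) 28) 15))) (Nat.add (Nat.land e 16383) (Nat.pow 2 (Nat.land (Nat.shiftRight e 138)
  1048575))))) (Nat.beq (Nat.shiftLeft (Bool.rec (motive := fun _ => Nat) (Nat.land (g (Nat.land
  (Nat.shiftRight e 116) 1048575)) 16383) (Bool.rec (motive := fun _ => Nat) (Nat.add (Nat.land (g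
  (Nat.land (Nat.shiftRight e 116) 1048575)) 16383) (Nat.pow 2 (Nat.land (Nat.shiftRight (g
  (Nat.land (Nat.shiftRight e 116) 1048575)) 64) 15))) (Nat.sub (Nat.land (g (Nat.land
  (Nat.shiftRight e 116) 1048575)) 16383) (Nat.pow 2 (Nat.land (Nat.shiftRight (g (Nat.land
  (Nat.shiftRight e 116) 1048575)) 64) 15))) (Nat.beq (Nat.land (Nat.shiftRight (g (Nat.land
  (Nat.shiftRight e 116) 1048575)) 68) 1) 0)) (Nat.beq (Nat.land (Nat.shiftRight (g (Nat.land
  (Nat.shiftRight e 116) 1048575)) 69) 1) (Nat.land (Nat.shiftRight (g (Nat.land (Nat.shiftRight e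
  116) 1048575)) 68) 1))) (Nat.sub (Nat.land (Nat.shiftRight e 28) 15) (Nat.land (Nat.shiftRight
  (g (Nat.land (Nat.shiftRight e 116) 1048575)) 28) 15))) (Nat.sub (Nat.add (Nat.land e 16383)
  (Nat.pow 2 (Nat.land (Nat.shiftRight e 138) 1048575))) 1))) (Nat.ble (Nat.land (Nat.shiftRight
  (g (Nat.land (Nat.shiftRight e 116) 1048575)) 28) 15) (Nat.land (Nat.shiftRight e 28) 15))))
  (Nat.beq 0 0)) (Nat.beq (Nat.land (Nat.shiftRight (g (Nat.land (Nat.shiftRight e 116) 1048575))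
  69) 1) 0)) (Bool.rec (motive := fun _ => Bool) false (Bool.rec (motive := fun _ => Bool)
  (Bool.rec (motive := fun _ => Bool) false (Bool.rec (motive := fun _ => Bool) false (Bool.rec
  (motive := fun _ => Bool) false (Bool.rec (motive := fun _ => Bool) false (Nat.beq
  (Nat.shiftRight (Bool.rec (motive := fun _ => Nat) (Nat.land (Nat.shiftRight e 14) 16383)
  (Nat.sub (Nat.sub (Nat.pow 2 (Nat.land (Nat.shiftRight e 28) 15)) 1) (Nat.land (Nat.shiftRight e
  14) 16383)) (Nat.ble 2 (Nat.land (Nat.shiftRight e 136) 3))) (Nat.sub (Nat.land (Nat.shiftRight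
  e 28) 15) (Nat.land (Nat.shiftRight (g (Nat.land (Nat.shiftRight e 116) 1048575)) 60) 15)))
  (Nat.land (Nat.shiftRight (g (Nat.land (Nat.shiftRight e 116) 1048575)) 46) 16383)) (Nat.beq
  (Nat.shiftLeft (Nat.land (Nat.shiftRight (g (Nat.land (Nat.shiftRight e 116) 1048575)) 32)
  16383) (Nat.sub (Nat.land (Nat.shiftRight e 28) 15) (Nat.land (Nat.shiftRight (g (Nat.land
  (Nat.shiftRight e 116) 1048575)) 60) 15))) (Nat.add (Nat.land e 16383) (Nat.pow 2 (Nat.land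
  (Nat.shiftRight e 138) 1048575))))) (Nat.beq (Nat.shiftLeft (Bool.rec (motive := fun _ => Nat)
  (Nat.land (Nat.shiftRight (g (Nat.land (Nat.shiftRight e 116) 1048575)) 32) 16383) (Bool.rec
  (motive := fun _ => Nat) (Nat.add (Nat.land (Nat.shiftRight (g (Nat.land (Nat.shiftRight e 116)
  1048575)) 32) 16383) (Nat.pow 2 (Nat.land (Nat.shiftRight (g (Nat.land (Nat.shiftRight e 116)
  1048575)) 64) 15))) (Nat.sub (Nat.land (Nat.shiftRight (g (Nat.land (Nat.shiftRight e 116)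
  1048575)) 32) 16383) (Nat.pow 2 (Nat.land (Nat.shiftRight (g (Nat.land (Nat.shiftRight e 116)
  1048575)) 64) 15))) (Nat.beq (Nat.land (Nat.shiftRight (g (Nat.land (Nat.shiftRight e 116)
  1048575)) 68) 1) 0)) (Nat.beq (Nat.land (Nat.shiftRight (g (Nat.land (Nat.shiftRight e 116)
  1048575)) 69) 1) (Nat.sub 1 (Nat.land (Nat.shiftRight (g (Nat.land (Nat.shiftRight e 116)
  1048575)) 68) 1)))) (Nat.sub (Nat.land (Nat.shiftRight e 28) 15) (Nat.land (Nat.shiftRight (g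
  (Nat.land (Nat.shiftRight e 116) 1048575)) 60) 15))) (Nat.sub (Nat.add (Nat.land e 16383)
  (Nat.pow 2 (Nat.land (Nat.shiftRight e 138) 1048575))) 1))) (Nat.ble (Nat.land (Nat.shiftRight
  (g (Nat.land (Nat.shiftRight e 116) 1048575)) 60) 15) (Nat.land (Nat.shiftRight e 28) 15)))
  (Bool.rec (motive := fun _ => Bool) false (Bool.rec (motive := fun _ => Bool) false (Bool.rec
  (motive := fun _ => Bool) false (Nat.beq (Nat.shiftRight (Bool.rec (motive := fun _ => Nat)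
  (Nat.land (Nat.shiftRight e 46) 16383) (Nat.sub (Nat.sub (Nat.pow 2 (Nat.land (Nat.shiftRight e
  60) 15)) 1) (Nat.land (Nat.shiftRight e 46) 16383)) (Nat.ble 2 (Nat.land (Nat.shiftRight e 136)
  3))) (Nat.sub (Nat.land (Nat.shiftRight e 60) 15) (Nat.land (Nat.shiftRight (g (Nat.land
  (Nat.shiftRight e 116) 1048575)) 28) 15))) (Nat.land (Nat.shiftRight (g (Nat.land
  (Nat.shiftRight e 116) 1048575)) 14) 16383)) (Nat.beq (Nat.shiftRight (Nat.land (Nat.shiftRight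
  e 32) 16383) (Nat.sub (Nat.land (Nat.shiftRight e 60) 15) (Nat.land (Nat.shiftRight (g (Nat.land
  (Nat.shiftRight e 116) 1048575)) 28) 15))) (Nat.land (g (Nat.land (Nat.shiftRight e 116)
  1048575)) 16383))) (Nat.beq (Nat.shiftRight (Nat.land (Nat.shiftRight e 32) 16383) (Nat.sub
  (Nat.land (Nat.shiftRight e 60) 15) (Nat.land (Nat.shiftRight (g (Nat.land (Nat.shiftRight e
  116) 1048575)) 28) 15))) (Bool.rec (motive := fun _ => Nat) (Nat.land (g (Nat.land
  (Nat.shiftRight e 116) 1048575)) 16383) (Bool.rec (motive := fun _ => Nat) (Nat.add (Nat.land (g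
  (Nat.land (Nat.shiftRight e 116) 1048575)) 16383) (Nat.pow 2 (Nat.land (Nat.shiftRight (g
  (Nat.land (Nat.shiftRight e 116) 1048575)) 64) 15))) (Nat.sub (Nat.land (g (Nat.land
  (Nat.shiftRight e 116) 1048575)) 16383) (Nat.pow 2 (Nat.land (Nat.shiftRight (g (Nat.land
  (Nat.shiftRight e 116) 1048575)) 64) 15))) (Nat.beq (Nat.land (Nat.shiftRight (g (Nat.land
  (Nat.shiftRight e 116) 1048575)) 68) 1) 0)) (Nat.beq (Nat.land (Nat.shiftRight (g (Nat.land
  (Nat.shiftRight e 116) 1048575)) 69) 1) (Nat.land (Nat.shiftRight (g (Nat.land (Nat.shiftRight e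
  116) 1048575)) 68) 1))))) (Nat.ble (Nat.land (Nat.shiftRight (g (Nat.land (Nat.shiftRight e 116)
  1048575)) 28) 15) (Nat.land (Nat.shiftRight e 60) 15)))) (Bool.rec (motive := fun _ => Bool)
  false (Bool.rec (motive := fun _ => Bool) false (Bool.rec (motive := fun _ => Bool) false
  (Bool.rec (motive := fun _ => Bool) false (Nat.beq (Nat.shiftRight (Bool.rec (motive := fun _ =>
  Nat) (Nat.land (Nat.shiftRight e 14) 16383) (Nat.sub (Nat.sub (Nat.pow 2 (Nat.land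
  (Nat.shiftRight e 28) 15)) 1) (Nat.land (Nat.shiftRight e 14) 16383)) (Nat.ble 2 (Nat.land
  (Nat.shiftRight e 136) 3))) (Nat.sub (Nat.land (Nat.shiftRight e 28) 15) (Nat.land
  (Nat.shiftRight (g (Nat.land (Nat.shiftRight e 116) 1048575)) 60) 15))) (Nat.land
  (Nat.shiftRight (g (Nat.land (Nat.shiftRight e 116) 1048575)) 46) 16383)) (Nat.beq
  (Nat.shiftRight (Nat.add (Nat.land e 16383) (Nat.pow 2 (Nat.land (Nat.shiftRight e 138)
  1048575))) (Nat.sub (Nat.land (Nat.shiftRight e 28) 15) (Nat.land (Nat.shiftRight (g (Nat.land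
  (Nat.shiftRight e 116) 1048575)) 60) 15))) (Nat.land (Nat.shiftRight (g (Nat.land
  (Nat.shiftRight e 116) 1048575)) 32) 16383))) (Nat.beq (Nat.shiftRight (Nat.sub (Nat.add
  (Nat.land e 16383) (Nat.pow 2 (Nat.land (Nat.shiftRight e 138) 1048575))) 1) (Nat.sub (Nat.land
  (Nat.shiftRight e 28) 15) (Nat.land (Nat.shiftRight (g (Nat.land (Nat.shiftRight e 116)
  1048575)) 60) 15))) (Bool.rec (motive := fun _ => Nat) (Nat.land (Nat.shiftRight (g (Nat.land
  (Nat.shiftRight e 116) 1048575)) 32) 16383) (Bool.rec (motive := fun _ => Nat) (Nat.add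
  (Nat.land (Nat.shiftRight (g (Nat.land (Nat.shiftRight e 116) 1048575)) 32) 16383) (Nat.pow 2
  (Nat.land (Nat.shiftRight (g (Nat.land (Nat.shiftRight e 116) 1048575)) 64) 15))) (Nat.sub
  (Nat.land (Nat.shiftRight (g (Nat.land (Nat.shiftRight e 116) 1048575)) 32) 16383) (Nat.pow 2
  (Nat.land (Nat.shiftRight (g (Nat.land (Nat.shiftRight e 116) 1048575)) 64) 15))) (Nat.beq
  (Nat.land (Nat.shiftRight (g (Nat.land (Nat.shiftRight e 116) 1048575)) 68) 1) 0)) (Nat.beq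
  (Nat.land (Nat.shiftRight (g (Nat.land (Nat.shiftRight e 116) 1048575)) 69) 1) (Nat.sub 1
  (Nat.land (Nat.shiftRight (g (Nat.land (Nat.shiftRight e 116) 1048575)) 68) 1)))))) (Nat.ble
  (Nat.land (Nat.shiftRight (g (Nat.land (Nat.shiftRight e 116) 1048575)) 60) 15) (Nat.land
  (Nat.shiftRight e 28) 15))) (Bool.rec (motive := fun _ => Bool) false (Bool.rec (motive := fun _
  => Bool) false (Bool.rec (motive := fun _ => Bool) false (Nat.beq (Nat.shiftRight (Bool.rec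
  (motive := fun _ => Nat) (Nat.land (Nat.shiftRight e 46) 16383) (Nat.sub (Nat.sub (Nat.pow 2
  (Nat.land (Nat.shiftRight e 60) 15)) 1) (Nat.land (Nat.shiftRight e 46) 16383)) (Nat.ble 2
  (Nat.land (Nat.shiftRight e 136) 3))) (Nat.sub (Nat.land (Nat.shiftRight e 60) 15) (Nat.land
  (Nat.shiftRight (g (Nat.land (Nat.shiftRight e 116) 1048575)) 28) 15))) (Nat.land
  (Nat.shiftRight (g (Nat.land (Nat.shiftRight e 116) 1048575)) 14) 16383)) (Nat.beq
  (Nat.shiftLeft (Nat.land (g (Nat.land (Nat.shiftRight e 116) 1048575)) 16383) (Nat.sub (Nat.land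
  (Nat.shiftRight e 60) 15) (Nat.land (Nat.shiftRight (g (Nat.land (Nat.shiftRight e 116)
  1048575)) 28) 15))) (Nat.land (Nat.shiftRight e 32) 16383))) (Nat.beq (Nat.shiftLeft (Bool.rec
  (motive := fun _ => Nat) (Nat.land (g (Nat.land (Nat.shiftRight e 116) 1048575)) 16383)
  (Bool.rec (motive := fun _ => Nat) (Nat.add (Nat.land (g (Nat.land (Nat.shiftRight e 116)
  1048575)) 16383) (Nat.pow 2 (Nat.land (Nat.shiftRight (g (Nat.land (Nat.shiftRight e 116)
  1048575)) 64) 15))) (Nat.sub (Nat.land (g (Nat.land (Nat.shiftRight e 116) 1048575)) 16383)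
  (Nat.pow 2 (Nat.land (Nat.shiftRight (g (Nat.land (Nat.shiftRight e 116) 1048575)) 64) 15)))
  (Nat.beq (Nat.land (Nat.shiftRight (g (Nat.land (Nat.shiftRight e 116) 1048575)) 68) 1) 0))
  (Nat.beq (Nat.land (Nat.shiftRight (g (Nat.land (Nat.shiftRight e 116) 1048575)) 69) 1)
  (Nat.land (Nat.shiftRight (g (Nat.land (Nat.shiftRight e 116) 1048575)) 68) 1))) (Nat.sub
  (Nat.land (Nat.shiftRight e 60) 15) (Nat.land (Nat.shiftRight (g (Nat.land (Nat.shiftRight e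
  116) 1048575)) 28) 15))) (Nat.land (Nat.shiftRight e 32) 16383))) (Nat.ble (Nat.land
  (Nat.shiftRight (g (Nat.land (Nat.shiftRight e 116) 1048575)) 28) 15) (Nat.land (Nat.shiftRight
  e 60) 15)))) (Nat.beq (Nat.sub 1 0) 0)) (Nat.beq (Nat.land (Nat.shiftRight (g (Nat.land
  (Nat.shiftRight e 116) 1048575)) 69) 1) (Nat.sub 1 0))) (Nat.beq (Nat.land (Nat.land
  (Nat.shiftRight e 136) 3) 1) 1)) (Nat.beq (Nat.land (Nat.shiftRight (g (Nat.land (Nat.shiftRight
  e 116) 1048575)) 68) 1) 0)) (Nat.beq (Nat.land (Nat.shiftRight (g (Nat.land (Nat.shiftRight e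
  116) 1048575)) 70) 1) 1)) (Nat.beq (Nat.land (Nat.land e 16383) 1) 1)) (Nat.beq (Nat.land
  (Nat.land e 16383) (Nat.pow 2 (Nat.land (Nat.shiftRight e 138) 1048575))) 0)) (Nat.ble (Nat.succ
  (Nat.land (Nat.shiftRight e 138) 1048575)) (Nat.land (Nat.shiftRight e 28) 15))) (Nat.beq
  (Nat.land (Nat.shiftRight e 69) 1) 0)) (Nat.beq (Nat.land (Nat.shiftRight e 68) 1) 0)) (Nat.beq
  (Nat.pow 2 (Nat.land (Nat.shiftRight e 64) 15)) 1)) (Nat.ble (Nat.succ (Nat.land (Nat.shiftRight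
  (g (Nat.land (Nat.shiftRight e 116) 1048575)) 73) 31)) (Nat.land (Nat.shiftRight e 73) 31)))
  (Nat.ble (Nat.mul zd (Nat.land (Nat.shiftRight (g (Nat.land (Nat.shiftRight e 116) 1048575)) 78)
  274877906943)) (Nat.mul zn (Nat.land (Nat.shiftRight e 78) 274877906943))))

/-- `chkU`, written out -/
noncomputable def chkV (zn zd Ld G : Nat) (g : Nat → Nat) (e : Nat) : Bool :=
  (Bool.rec (motive := fun _ => Bool) false (Bool.rec (motive := fun _ => Bool) (Bool.rec (motive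
  := fun _ => Bool) (Bool.rec (motive := fun _ => Bool) (Bool.rec (motive := fun _ => Bool) (f3D
  zn zd g e) (f2D zn zd g e) (Nat.beq (Nat.land (Nat.shiftRight e 71) 3) 2)) (f1D g e) (Nat.beq
  (Nat.land (Nat.shiftRight e 71) 3) 1)) (f0D zn zd Ld G g e) (Nat.beq (Nat.land (Nat.shiftRight e
  71) 3) 0)) (Bool.rec (motive := fun _ => Bool) (Bool.rec (motive := fun _ => Bool) false (f1P g
  e) (Nat.beq (Nat.land (Nat.shiftRight e 71) 3) 1)) (f0P zn zd Ld G g e) (Nat.beq (Nat.land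
  (Nat.shiftRight e 71) 3) 0)) (Nat.beq (Nat.land (Nat.shiftRight e 70) 1) 0)) (Nat.ble 1
  (Nat.land (Nat.shiftRight e 78) 274877906943)))

theorem chkV_eq (zn zd Ld G : Nat) (g : Nat → Nat) (e : Nat) :
    chkV zn zd Ld G g e = chkU zn zd Ld G g e := rfl

end Pool.Agent.ad013a
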