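import Pool.Agent.H.MP_ad013a_pr.h63.Loop
import Pool.Agent.H.MP_ad013a_pr.h63u.UK

/-!
# From the checks of blocks to the check of all entries, upper bound
-/

namespace Pool.Agent.ad013a

/-- all entries of the number `n` pass the check -/
def PrU (chk : Nat → Bool) (n : Nat) : Prop := ∀ j : Nat, chk (uent n (Nat.land j 1023)) = true

theorem leaf_allU {chk : Nat → Bool} {n : Nat}
    (h0 : lp7 (fun s => chk (uent n s)) 0 = true) (h1 : lp7 (fun s => chk (uent n s)) 128 = true)
    (h2 : lp7 (fun s => chk (uent n s)) 256 = true) (h3 : lp7 (fun s => chk (uent n s)) 384 = true)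
    (h4 : lp7 (fun s => chk (uent n s)) 512 = true) (h5 : lp7 (fun s => chk (uent n s)) 640 = true)
    (h6 : lp7 (fun s => chk (uent n s)) 768 = true)
    (h7 : lp7 (fun s => chk (uent n s)) 896 = true) : PrU chk n := by
  intro j
  have hj : Nat.land j 1023 ≤ 1023 := Nat.and_le_right
  generalize Nat.land j 1023 = i at hj
  have key : ∀ k, lp7 (fun s => chk (uent n s)) k = true → k ≤ i → i < k + 128 →
      chk (uent n i) = true := by
    intro k hk h1 h2
    have := lp7_all _ _ hk (i - k) (by omega)
    rwa [show k + (i - k) = i by omega] at this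
  rcases Nat.lt_or_ge i 128 with a | a
  · exact key _ h0 (by omega) (by omega)
  rcases Nat.lt_or_ge i 256 with b | b
  · exact key _ h1 (by omega) (by omega)
  rcases Nat.lt_or_ge i 384 with b | b
  · exact key _ h2 (by omega) (by omega)
  rcases Nat.lt_or_ge i 512 with b | b
  · exact key _ h3 (by omega) (by omega)
  rcases Nat.lt_or_ge i 640 with b | b
  · exact key _ h4 (by omega) (by omega)
  rcases Nat.lt_or_ge i 768 with b | b
  · exact key _ h5 (by omega) (by omega)
  rcases Nat.lt_or_ge i 896 with b | b
  · exact key _ h6 (by omega) (by omega)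
  · exact key _ h7 (by omega) (by omega)

end Pool.Agent.ad013a
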