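import Pool.Agent.H.MP_ad013a_pr.h63u.Val
import Pool.Agent.H.MP_ad013a_pr.h63.Lower

/-!
# The upper bound theorem
-/

namespace Pool.Agent.ad013a

open Finset Filter Topology

/-- a state or a pair of states -/
inductive US
  | psi (x y : List Site)
  | dif (R e : Bool) (x y x' y' : List Site)

namespace US

/-- the pair is a pair of states which differ at one site -/
def good : US → Prop
  | psi _ _ => True
  | dif R e x y x' y' => Dp R e x y x' y'

/-- value -/
noncomputable def val (z : ℝ) : US → List Bool → List Bool → ℝ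
  | psi x y, X, Y => z ^ FF x y X Y
  | dif _ e x y x' y', X, Y => vD z e x y x' y' X Y

/-- length of the first side -/
def len : US → ℕ
  | psi x _ => x.length
  | dif _ _ x _ _ _ => x.length

/-- exchange of the words -/
def swap : US → US
  | psi x y => psi y x
  | dif R e x y x' y' => dif (!R) e y x y' x'

/-- complement of the letters -/
def cpl : US → US
  | psi x y => psi (flp x) (flp y)
  | dif R e x y x' y' => dif R e (flp x) (flp y) (flp x') (flp y')

/-- side that the new letter passes -/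
def sec : US → List Site
  | psi _ y => y
  | dif _ _ _ y _ _ => y

/-- `s'` arises from `s` by reading the letter `a` in the first word -/
def Stp (a : Bool) : US → US → Prop
  | psi x y, s' => s' = psi (nx a x y) (ny a y)
  | dif R e x y x' y', s' => ∃ e' : Bool,
      s' = dif R e' (nx a x y) (ny a y) (nx a x' y') (ny a y') ∧
      (e'.toNat : ℤ) = e.toNat + (pass a y).2.toNat - (pass a y').2.toNat

theorem swap_val (z : ℝ) (s : US) (X Y : List Bool) : (swap s).val z Y X = s.val z X Y := by
  cases s <;> simp [swap, val, vD, FF_comm]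

theorem cpl_val (z : ℝ) (s : US) (X Y : List Bool) :
    (cpl s).val z (X.map not) (Y.map not) = s.val z X Y := by
  cases s <;> simp only [cpl, val, vD, FF_flp]

theorem swap_good {s : US} (h : s.good) : (swap s).good := by
  cases s with
  | psi => trivial
  | dif => exact Dp_swap h

theorem cpl_good {s : US} (h : s.good) : (cpl s).good := by
  cases s with
  | psi => trivial
  | dif => exact Dp_flp h

theorem Stp_good {a : Bool} {s s' : US} (h : s.good) (hs : Stp a s s') : s'.good := by
  cases s with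
  | psi => rw [show s' = _ from hs]; trivial
  | dif R e x y x' y' =>
    obtain ⟨e', rfl, he⟩ := hs
    obtain ⟨e'', h2, he'⟩ := Dp_step h a
    have : e' = e'' := by
      rw [← he'] at he
      cases e' <;> cases e'' <;> simp at he ⊢
    subst this
    exact h2

theorem Stp_val {z : ℝ} (hz : z ≠ 0) {a : Bool} {s s' : US} (hs : Stp a s s') (X Y : List Bool) :
    s.val z (a :: X) Y = z ^ (pass a s.sec).2.toNat * s'.val z X Y := by
  cases s with
  | psi x y =>
    rw [show s' = _ from hs]
    simp only [val, sec]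
    rw [FF_step, zpow_add₀ hz, zpow_natCast]
  | dif R e x y x' y' =>
    obtain ⟨e', rfl, he⟩ := hs
    have h1 : z ^ FF x y (a :: X) Y =
        z ^ (pass a y).2.toNat * z ^ FF (nx a x y) (ny a y) X Y := by
      rw [FF_step, zpow_add₀ hz, zpow_natCast]
    have h2 : z ^ (FF x' y' (a :: X) Y - (e.toNat : ℤ)) =
        z ^ (pass a y).2.toNat * z ^ (FF (nx a x' y') (ny a y') X Y - (e'.toNat : ℤ)) := by
      rw [← zpow_natCast, ← zpow_add₀ hz, FF_step]
      congr 1
      omega
    simp only [val, sec, vD]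
    rw [h1, h2]
    ring

/-- expectation of the value -/
noncomputable def M (z : ℝ) (s : US) (a b : ℕ) : ℝ :=
  E1 (1 / 2) a (fun X => E1 (1 / 2) b (fun Y => s.val z X Y))

theorem M_swap (z : ℝ) (s : US) (a b : ℕ) : (swap s).M z b a = s.M z a b := by
  unfold M
  rw [E1_comm]
  simp only [swap_val]

theorem M_cpl (z : ℝ) (s : US) (a b : ℕ) : (cpl s).M z a b = s.M z a b := by
  unfold M
  rw [← E1_half_not a]
  refine E1_congr _ _ (fun X _ => ?_)
  rw [← E1_half_not b]
  refine E1_congr _ _ (fun Y _ => ?_)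
  exact cpl_val z s X Y

theorem half0 : (0 : ℝ) ≤ 1 / 2 := by norm_num
theorem half1 : (1 / 2 : ℝ) ≤ 1 := by norm_num

theorem M_mono {z : ℝ} {s t : US} (h : ∀ X Y, s.val z X Y ≤ t.val z X Y) (a b : ℕ) :
    s.M z a b ≤ t.M z a b :=
  E1_mono half0 half1 _ (fun X _ => E1_mono half0 half1 _ (fun Y _ => h X Y))

theorem M_le_two {z c1 c2 : ℝ} {s s1 s2 : US}
    (h : ∀ X Y, s.val z X Y ≤ c1 * s1.val z X Y + c2 * s2.val z X Y) (a b : ℕ) :
    s.M z a b ≤ c1 * s1.M z a b + c2 * s2.M z a b := by
  have e : c1 * s1.M z a b + c2 * s2.M z a b = E1 (1 / 2) a (fun X => E1 (1 / 2) b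
      (fun Y => c1 * s1.val z X Y + c2 * s2.val z X Y)) := by
    unfold M
    rw [← E1_lin]
    refine E1_congr _ _ (fun X _ => ?_)
    rw [← E1_lin]
  rw [e]
  exact E1_mono half0 half1 _ (fun X _ => E1_mono half0 half1 _ (fun Y _ => h X Y))

/-- bound for the expectations of the value, `n` letters remaining -/
def Bd (z : ℝ) (s : US) (n : ℕ) (c : ℝ) : Prop := ∀ a b : ℕ, a + b = n → s.M z a b ≤ c

theorem Bd_swap {z : ℝ} {s : US} {n : ℕ} {c : ℝ} (h : Bd z (swap s) n c) : Bd z s n c := by
  intro a b hab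
  rw [← M_swap]
  exact h b a (by omega)

theorem Bd_cpl {z : ℝ} {s : US} {n : ℕ} {c : ℝ} (h : Bd z (cpl s) n c) : Bd z s n c := by
  intro a b hab
  rw [← M_cpl]
  exact h a b hab

theorem Bd_mono {z : ℝ} {s t : US} (hst : ∀ X Y, s.val z X Y ≤ t.val z X Y) {n : ℕ} {c : ℝ}
    (h : Bd z t n c) : Bd z s n c :=
  fun a b hab => (M_mono hst a b).trans (h a b hab)

theorem M_succ {z : ℝ} (hz : z ≠ 0) {s s0 s1 : US} (h0 : Stp false s s0) (h1 : Stp true s s1)
    (a b : ℕ) : s.M z (a + 1) b =
      1 / 2 * (z ^ (pass false s.sec).2.toNat * s0.M z a b) +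
      1 / 2 * (z ^ (pass true s.sec).2.toNat * s1.M z a b) := by
  have key : ∀ (x : Bool) (s' : US), Stp x s s' →
      E1 (1 / 2) a (fun X => E1 (1 / 2) b (fun Y => s.val z (x :: X) Y)) =
      z ^ (pass x s.sec).2.toNat * s'.M z a b := by
    intro x s' hs
    unfold M
    have := E1_lin (1 / 2) a (z ^ (pass x s.sec).2.toNat) 0
      (fun X => E1 (1 / 2) b (fun Y => s'.val z X Y)) (fun _ => 0)
    simp only [zero_mul, add_zero] at this
    rw [← this]
    refine E1_congr _ _ (fun X _ => ?_)
    have := E1_lin (1 / 2) b (z ^ (pass x s.sec).2.toNat) 0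
      (fun Y => s'.val z X Y) (fun _ => 0)
    simp only [zero_mul, add_zero] at this
    rw [← this]
    exact E1_congr _ _ (fun Y _ => Stp_val hz hs X Y)
  rw [M, E1, key false s0 h0, key true s1 h1]
  ring

theorem val_le {z : ℝ} (hz : 1 ≤ z) (s : US) (Y : List Bool) : s.val z [] Y ≤ z ^ s.len := by
  have hz0 : 0 < z := by linarith
  have key : ∀ x y : List Site, z ^ FF x y [] Y ≤ z ^ x.length := by
    intro x y
    rw [← zpow_natCast]
    exact zpow_le_zpow_right₀ hz (FF_nil x y Y)
  cases s with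
  | psi x y => exact key x y
  | dif R e x y x' y' =>
    have := key x y
    have h2 : 0 ≤ z ^ (FF x' y' [] Y - (e.toNat : ℤ)) := by positivity
    simp only [val, vD, len]
    linarith

/-- a bound of the value of `s` through an entry of the table whose index satisfies `P` -/
def Pt (z : ℝ) (T : ℕ → US → ℝ → Prop) (P : ℕ → Prop) (s : US) (W : ℝ) : Prop :=
  ∃ j t, P j ∧ T j t W ∧ t.good ∧ ∀ n c, Bd z t n c → Bd z s n c

/-- what the table has to satisfy -/
def Cert (z Λ w0 : ℝ) (T : ℕ → US → ℝ → Prop) : Prop :=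
  ∀ i s W, T i s W → s.good → w0 ≤ W ∧ s.len ≤ 15 ∧
    ((∃ s0 s1 W0 W1, Stp false s s0 ∧ Stp true s s1 ∧ Pt z T (fun _ => True) s0 W0 ∧
        Pt z T (fun _ => True) s1 W1 ∧
        1 / 2 * (z ^ (pass false s.sec).2.toNat * W0) +
          1 / 2 * (z ^ (pass true s.sec).2.toNat * W1) ≤ Λ * W) ∨
     (∃ c1 c2 s1 s2 W1 W2, 0 ≤ c1 ∧ 0 ≤ c2 ∧
        (∀ X Y, s.val z X Y ≤ c1 * s1.val z X Y + c2 * s2.val z X Y) ∧
        Pt z T (fun j => j < i) s1 W1 ∧ Pt z T (fun j => j < i) s2 W2 ∧
        c1 * W1 + c2 * W2 ≤ W))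

theorem main {z Λ w0 : ℝ} (hz : 1 ≤ z) (hΛ : 1 ≤ Λ) (hw : 0 < w0) {T : ℕ → US → ℝ → Prop}
    (hC : Cert z Λ w0 T) (n : ℕ) :
    ∀ i s W, T i s W → s.good → Bd z s n (z ^ 15 / w0 * W * Λ ^ n) := by
  have hz0 : 0 < z := by linarith
  have hK : 0 ≤ z ^ 15 / w0 := by positivity
  induction n with
  | zero =>
    intro i
    induction i using Nat.strong_induction_on with
    | _ i ih =>
      intro s W hT hg
      obtain ⟨hW, hl, h | h⟩ := hC i s W hT hg
      · intro a b hab
        obtain rfl : a = 0 := by omega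
        have h1 : s.M z 0 b ≤ E1 (1 / 2) b (fun _ => z ^ 15) := by
          simp only [M, E1]
          refine E1_mono half0 half1 _ (fun Y _ => ?_)
          exact (val_le hz s Y).trans (pow_le_pow_right₀ hz hl)
        rw [E1_const] at h1
        refine h1.trans ?_
        rw [pow_zero, mul_one, div_mul_eq_mul_div, le_div_iff₀ hw]
        exact mul_le_mul_of_nonneg_left hW (by positivity)
      · obtain ⟨c1, c2, s1, s2, W1, W2, hc1, hc2, hv, ⟨j1, t1, hj1, hT1, hg1, hb1⟩,
          ⟨j2, t2, hj2, hT2, hg2, hb2⟩, hle⟩ := h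
        intro a b hab
        have k1 := hb1 _ _ (ih j1 hj1 t1 W1 hT1 hg1) a b hab
        have k2 := hb2 _ _ (ih j2 hj2 t2 W2 hT2 hg2) a b hab
        have k := M_le_two hv a b
        have l1 := mul_le_mul_of_nonneg_left k1 hc1
        have l2 := mul_le_mul_of_nonneg_left k2 hc2
        have l3 := mul_le_mul_of_nonneg_left hle hK
        rw [pow_zero, mul_one] at *
        nlinarith
  | succ n ihn =>
    intro i
    induction i using Nat.strong_induction_on with
    | _ i ih =>
      intro s W hT hg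
      obtain ⟨hW, hl, h | h⟩ := hC i s W hT hg
      · intro a b hab
        rcases Nat.eq_zero_or_pos a with h0 | h0
        · subst h0
          have h1 : s.M z 0 b ≤ E1 (1 / 2) b (fun _ => z ^ 15) := by
            simp only [M, E1]
            refine E1_mono half0 half1 _ (fun Y _ => ?_)
            exact (val_le hz s Y).trans (pow_le_pow_right₀ hz hl)
          rw [E1_const] at h1
          refine h1.trans ?_
          have h2 : z ^ 15 ≤ z ^ 15 / w0 * W := by
            rw [div_mul_eq_mul_div, le_div_iff₀ hw]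
            exact mul_le_mul_of_nonneg_left hW (by positivity)
          refine h2.trans ?_
          exact le_mul_of_one_le_right (le_trans (by positivity) h2) (one_le_pow₀ hΛ)
        · obtain ⟨a, rfl⟩ : ∃ a', a = a' + 1 := ⟨a - 1, by omega⟩
          obtain ⟨s0, s1, W0, W1, hs0, hs1, ⟨j0, t0, -, hT0, hg0, hb0⟩,
            ⟨j1, t1, -, hT1, hg1, hb1⟩, hle⟩ := h
          have k0 := hb0 _ _ (ihn j0 t0 W0 hT0 hg0) a b (by omega)
          have k1 := hb1 _ _ (ihn j1 t1 W1 hT1 hg1) a b (by omega)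
          rw [M_succ hz0.ne' hs0 hs1]
          have q0 : 0 ≤ z ^ (pass false s.sec).2.toNat := by positivity
          have q1 : 0 ≤ z ^ (pass true s.sec).2.toNat := by positivity
          have l0 := mul_le_mul_of_nonneg_left k0 q0
          have l1 := mul_le_mul_of_nonneg_left k1 q1
          have hK' : 0 ≤ z ^ 15 / w0 * Λ ^ n := by positivity
          have l3 := mul_le_mul_of_nonneg_left hle hK'
          have e : z ^ 15 / w0 * W * Λ ^ (n + 1) = z ^ 15 / w0 * Λ ^ n * (Λ * W) := by ring
          rw [e]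
          refine le_trans ?_ l3
          linarith
      · obtain ⟨c1, c2, s1, s2, W1, W2, hc1, hc2, hv, ⟨j1, t1, hj1, hT1, hg1, hb1⟩,
          ⟨j2, t2, hj2, hT2, hg2, hb2⟩, hle⟩ := h
        intro a b hab
        have k1 := hb1 _ _ (ih j1 hj1 t1 W1 hT1 hg1) a b hab
        have k2 := hb2 _ _ (ih j2 hj2 t2 W2 hT2 hg2) a b hab
        have k := M_le_two hv a b
        have l1 := mul_le_mul_of_nonneg_left k1 hc1
        have l2 := mul_le_mul_of_nonneg_left k2 hc2
        have hK' : 0 ≤ z ^ 15 / w0 * Λ ^ (n + 1) := by positivity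
        have l3 := mul_le_mul_of_nonneg_left hle hK'
        nlinarith

end US

/-- convexity -/
theorem E1_exp {θ : ℝ} (n : ℕ) (f : List Bool → ℝ) :
    Real.exp (θ * E1 (1 / 2) n f) ≤ E1 (1 / 2) n (fun w => Real.exp (θ * f w)) := by
  induction n generalizing f with
  | zero => exact le_rfl
  | succ n ih =>
    simp only [E1]
    have h0 := ih (fun w => f (false :: w))
    have h1 := ih (fun w => f (true :: w))
    set u := E1 (1 / 2) n (fun w => f (false :: w))
    set v := E1 (1 / 2) n (fun w => f (true :: w))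
    have h2 := convexOn_exp.2 (Set.mem_univ (θ * u)) (Set.mem_univ (θ * v))
      (show (0 : ℝ) ≤ 1 / 2 by norm_num) (show (0 : ℝ) ≤ 1 / 2 by norm_num) (by norm_num)
    simp only [smul_eq_mul] at h2
    have e : θ * ((1 - 1 / 2) * u + 1 / 2 * v) = 1 / 2 * (θ * u) + 1 / 2 * (θ * v) := by ring
    rw [e]
    refine h2.trans ?_
    linarith

theorem EL_exp {θ : ℝ} (n : ℕ) : Real.exp (θ * EL (1 / 2) n) ≤
    E1 (1 / 2) n (fun x => E1 (1 / 2) n (fun y => Real.exp (θ * (LCS x y : ℝ)))) := by
  rw [EL_eq]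
  refine (E1_exp n _).trans ?_
  exact E1_mono US.half0 US.half1 _ (fun x _ => E1_exp n _)

theorem upper_lim {z Λ w0 W0 C : ℝ} (hz : 1 < z) (hΛ : 1 ≤ Λ) (hw : 0 < w0)
    {T : ℕ → US → ℝ → Prop} (hC : US.Cert z Λ w0 T) {i0 : ℕ} (h0 : T i0 (US.psi [] []) W0)
    (hl : Tendsto (fun n : ℕ => EL (1 / 2) n / n) atTop (𝓝 C)) :
    C ≤ 2 * Real.log Λ / Real.log z := by
  have hz0 : 0 < z := by linarith
  have hlz : 0 < Real.log z := Real.log_pos hz
  have hΛ0 : 0 < Λ := by linarith
  obtain ⟨hW, -, -⟩ := hC i0 _ _ h0 trivial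
  have hW0 : 0 < W0 := lt_of_lt_of_le hw hW
  have hK : 0 < z ^ 15 / w0 * W0 := by positivity
  have key : ∀ n : ℕ, Real.log z * EL (1 / 2) n ≤
      Real.log (z ^ 15 / w0 * W0) + 2 * n * Real.log Λ := by
    intro n
    have h1 := US.main hz.le hΛ hw hC (n + n) i0 _ _ h0 trivial n n rfl
    have h2 := EL_exp (θ := Real.log z) n
    have h3 : E1 (1 / 2) n (fun x => E1 (1 / 2) n
        (fun y => Real.exp (Real.log z * (LCS x y : ℝ)))) = US.M z (US.psi [] []) n n := by
      unfold US.M
      refine E1_congr _ _ (fun x _ => E1_congr _ _ (fun y _ => ?_))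
      simp only [US.val]
      have e : FF [] [] x y = (LCS x y : ℤ) := by
        simp [FF, FX, LCS_comm y x]
      rw [e, zpow_natCast, mul_comm, Real.exp_nat_mul, Real.exp_log hz0]
    rw [h3] at h2
    have h4 := h2.trans h1
    have h5 := Real.log_le_log (Real.exp_pos _) h4
    rw [Real.log_exp, Real.log_mul hK.ne' (by positivity), Real.log_pow] at h5
    refine h5.trans (le_of_eq ?_)
    push_cast
    ring
  have t1 : Tendsto (fun n : ℕ => 2 * Real.log Λ / Real.log z +
      (Real.log (z ^ 15 / w0 * W0) / Real.log z) / n) atTop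
      (𝓝 (2 * Real.log Λ / Real.log z + 0)) :=
    tendsto_const_nhds.add (tendsto_const_nhds.div_atTop tendsto_natCast_atTop_atTop)
  rw [add_zero] at t1
  refine le_of_tendsto_of_tendsto hl t1 ?_
  filter_upwards [eventually_gt_atTop 0] with n hn
  have h' : (0 : ℝ) < n := by exact_mod_cast hn
  rw [div_le_iff₀ h']
  have := key n
  have e : (2 * Real.log Λ / Real.log z + Real.log (z ^ 15 / w0 * W0) / Real.log z / n) * n =
      (Real.log (z ^ 15 / w0 * W0) + 2 * n * Real.log Λ) / Real.log z := by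
    field_simp
    ring
  rw [e, le_div_iff₀ hlz]
  linarith

end Pool.Agent.ad013a
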