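import Pool.Agent.H.MP_ad013a_pr.h63.Sound
import Pool.Agent.H.MP_ad013a_pr.h63u.Upper
import Pool.Agent.H.MP_ad013a_pr.h63u.UK

/-!
# Soundness of the checker for the upper bound
-/

namespace Pool.Agent.ad013a

theorem rb_and {a b : Bool} : rb false b a = true ↔ a = true ∧ b = true := by
  cases a <;> simp [rb]

theorem rb_or {x y c : Bool} :
    rb x y c = true ↔ (c = false ∧ x = true) ∨ (c = true ∧ y = true) := by
  cases c <;> simp [rb]

theorem eh_app (f g : List Site) : eh (f ++ g) = eh f + 2 ^ f.length * eh g := by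
  induction f with
  | nil => simp [eh]
  | cons x f ih =>
    rw [List.cons_append, eh, eh, ih, Nat.bit_val, Nat.bit_val, List.length_cons, pow_succ]
    ring

theorem eh_zero {f : List Site} (h : eh f = 0) : ∀ s ∈ f, s.1 = true := by
  induction f with
  | nil => simp
  | cons x f ih =>
    rw [eh, Nat.bit_val] at h
    intro s hs
    rcases List.mem_cons.1 hs with rfl | hs
    · cases hx : s.1
      · rw [hx] at h; simp at h
      · rfl
    · exact ih (by omega) s hs

theorem eh_take (x : List Site) {n : ℕ} (hn : n ≤ x.length) :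
    eh (x.take n).reverse = eh x.reverse >>> (x.length - n) := by
  rw [← eh_drop, List.drop_reverse]
  congr 3
  omega

theorem el_take (x : List Site) {n : ℕ} (hn : n ≤ x.length) :
    el (x.take n).reverse = el x.reverse >>> (x.length - n) := by
  rw [← el_drop, List.drop_reverse]
  congr 3
  omega

theorem far_zero {x : List Site} {n h : ℕ} (hn : n ≤ x.length)
    (H : h <<< (x.length - n) = eh x.reverse) :
    h = eh (x.take n).reverse ∧ ∀ s ∈ x.drop n, s.1 = true := by
  have h1 : h = eh (x.take n).reverse := by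
    rw [eh_take x hn, ← H, Nat.shiftLeft_shiftRight]
  refine ⟨h1, ?_⟩
  have e : x.reverse = (x.drop n).reverse ++ (x.take n).reverse := by
    rw [← List.reverse_append, List.take_append_drop]
  have e2 := eh_app (x.drop n).reverse (x.take n).reverse
  rw [← e, ← H, List.length_reverse, List.length_drop, ← h1, Nat.shiftLeft_eq] at e2
  have e3 : eh (x.drop n).reverse = 0 := by
    have := mul_comm h (2 ^ (x.length - n))
    omega
  intro s hs
  exact eh_zero e3 s (by simpa using hs)

theorem cmpT_sound {x : List Site} {h' l' n' : ℕ}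
    (H : cmpT (eh x.reverse) (el x.reverse) x.length h' l' n' = true) :
    n' ≤ x.length ∧ h' = eh (x.take n').reverse ∧ l' = el (x.take n').reverse ∧
      ∀ s ∈ x.drop n', s.1 = true := by
  unfold cmpT at H
  rw [rb_and] at H
  obtain ⟨H1, H⟩ := H
  rw [Nat.ble_eq] at H1
  obtain ⟨H2, H3⟩ := rb_and.1 H
  rw [Nat.beq_eq] at H2 H3
  obtain ⟨h1, h2⟩ := far_zero H1 H2
  exact ⟨H1, h1, by rw [el_take x H1]; exact H3.symm, h2⟩

theorem cmpR_sound {x x' : List Site} (hx : x'.length = x.length) {h' k' l' n' : ℕ}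
    (H : cmpR (eh x.reverse) (eh x'.reverse) (el x.reverse) x.length h' k' l' n' = true) :
    n' ≤ x.length ∧ h' = eh (x.take n').reverse ∧ k' = eh (x'.take n').reverse ∧
      l' = el (x.take n').reverse ∧
      (∀ s ∈ x.drop n', s.1 = true) ∧ ∀ s ∈ x'.drop n', s.1 = true := by
  unfold cmpR at H
  rw [rb_and] at H
  obtain ⟨H1, H⟩ := H
  rw [Nat.ble_eq] at H1
  obtain ⟨H2, H⟩ := rb_and.1 H
  obtain ⟨H3, H4⟩ := rb_and.1 H
  rw [Nat.beq_eq] at H2 H3 H4
  obtain ⟨h1, h2⟩ := far_zero H1 H3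
  have H1' : n' ≤ x'.length := by rw [hx]; exact H1
  have H2' : k' <<< (x'.length - n') = eh x'.reverse := by rw [hx]; exact H2
  obtain ⟨h3, h4⟩ := far_zero H1' H2'
  exact ⟨H1, h1, h3, by rw [el_take x H1]; exact H4.symm, h2, h4⟩

theorem cmpF_sound {x x' : List Site} (hx : x'.length = x.length) {h' k' l' n' : ℕ}
    (H : cmpF (eh x.reverse) (eh x'.reverse) (el x.reverse) x.length h' k' l' n' = true) :
    n' ≤ x.length ∧ h' = eh (x.take n').reverse ∧ k' = eh (x'.take n').reverse ∧
      l' = el (x.take n').reverse := by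
  unfold cmpF at H
  rw [rb_and] at H
  obtain ⟨H1, H⟩ := H
  rw [Nat.ble_eq] at H1
  obtain ⟨H2, H⟩ := rb_and.1 H
  obtain ⟨H3, H4⟩ := rb_and.1 H
  rw [Nat.beq_eq] at H2 H3 H4
  have H1' : n' ≤ x'.length := by rw [hx]; exact H1
  refine ⟨H1, ?_, ?_, ?_⟩
  · rw [eh_take x H1]; exact H3.symm
  · rw [eh_take x' H1', hx]; exact H2.symm
  · rw [el_take x H1]; exact H4.symm

theorem Rel1.ex_hole {s s' : List Site} (h : Rel1 s s') : ∃ r ∈ s, r.1 = false := by
  induction h with
  | here c t => exact ⟨(false, c), by simp, rfl⟩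
  | there r _ ih =>
    obtain ⟨q, hq, hq'⟩ := ih
    exact ⟨q, by simp [hq], hq'⟩

theorem Rel1.split {t t' u u' : List Site} (hl : t.length = t'.length)
    (h : Rel1 (t ++ u) (t' ++ u')) : (Rel1 t t' ∧ u = u') ∨ (t = t' ∧ Rel1 u u') := by
  induction t generalizing t' with
  | nil =>
    obtain rfl : t' = [] := by simpa using hl.symm
    right
    exact ⟨rfl, h⟩
  | cons r t ih =>
    cases t' with
    | nil => simp at hl
    | cons r' t' =>
      rw [List.cons_append, List.cons_append] at h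
      generalize hA : t ++ u = A at h
      generalize hB : t' ++ u' = B at h
      cases h with
      | here c A =>
        obtain ⟨h1, h2⟩ := List.append_inj (hA.trans hB.symm) (by simpa using hl)
        subst h1 h2
        left
        exact ⟨Rel1.here c t, rfl⟩
      | there r h =>
        subst hA hB
        rcases ih (by simpa using hl) h with ⟨h1, h2⟩ | ⟨h1, h2⟩
        · exact Or.inl ⟨Rel1.there r h1, h2⟩
        · exact Or.inr ⟨by rw [h1], h2⟩

theorem Rel1.el_eq {s s' : List Site} (h : Rel1 s s') : el s'.reverse = el s.reverse := by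
  induction h with
  | here c t => rw [List.reverse_cons, List.reverse_cons, el_append, el_append]
  | there r h ih =>
    rw [List.reverse_cons, List.reverse_cons, el_append, el_append, ih, List.length_reverse,
      List.length_reverse, h.length_eq]

theorem Rel1.take {x x' : List Site} (h : Rel1 x x') (n : ℕ) :
    (Rel1 (x.take n) (x'.take n) ∧ x.drop n = x'.drop n) ∨
      (x.take n = x'.take n ∧ Rel1 (x.drop n) (x'.drop n)) := by
  refine Rel1.split ?_ ?_
  · rw [List.length_take, List.length_take, h.length_eq]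
  · rwa [List.take_append_drop, List.take_append_drop]

theorem Dp_length {R e : Bool} {x y x' y' : List Site} (h : Dp R e x y x' y') :
    x'.length = x.length ∧ y'.length = y.length := by
  cases R <;> cases e
  · obtain ⟨h1, rfl⟩ := h
    exact ⟨h1.length_eq, rfl⟩
  · obtain ⟨rfl, h2⟩ := h
    exact ⟨rfl, h2.length_eq.symm⟩
  · obtain ⟨rfl, h2⟩ := h
    exact ⟨rfl, h2.length_eq⟩
  · obtain ⟨h1, rfl⟩ := h
    exact ⟨h1.length_eq.symm, rfl⟩

theorem Dp_el {R e : Bool} {x y x' y' : List Site} (h : Dp R e x y x' y') :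
    el x'.reverse = el x.reverse ∧ el y'.reverse = el y.reverse := by
  cases R <;> cases e
  · obtain ⟨h1, rfl⟩ := h
    exact ⟨h1.el_eq, rfl⟩
  · obtain ⟨rfl, h2⟩ := h
    exact ⟨rfl, h2.el_eq.symm⟩
  · obtain ⟨rfl, h2⟩ := h
    exact ⟨rfl, h2.el_eq⟩
  · obtain ⟨h1, rfl⟩ := h
    exact ⟨h1.el_eq.symm, rfl⟩

/-- dropping the same sites in a pair, region side first -/
theorem drop_core {z : ℝ} (hz : 1 ≤ z) {e : Bool} {x y x' y' : List Site}
    (h : Dp false e x y x' y') {h1 k1 l1 n1 h2 k2 l2 n2 : ℕ}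
    (H1 : cmpR (eh x.reverse) (eh x'.reverse) (el x.reverse) x.length h1 k1 l1 n1 = true)
    (H2 : cmpF (eh y.reverse) (eh y'.reverse) (el y.reverse) y.length h2 k2 l2 n2 = true)
    (he : e = true → k2 ≠ h2) :
    ∃ tx ty tx' ty', Dp false e tx ty tx' ty' ∧
      (h1 = eh tx.reverse ∧ l1 = el tx.reverse ∧ n1 = tx.length) ∧
      (h2 = eh ty.reverse ∧ l2 = el ty.reverse ∧ n2 = ty.length) ∧
      k1 = eh tx'.reverse ∧ k2 = eh ty'.reverse ∧
      ∀ X Y, vD z e x y x' y' X Y ≤ vD z e tx ty tx' ty' X Y := by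
  obtain ⟨lx, ly⟩ := Dp_length h
  obtain ⟨a1, a2, a3, a4, a5, a6⟩ := cmpR_sound lx H1
  obtain ⟨b1, b2, b3, b4⟩ := cmpF_sound ly H2
  have hD : Dp false e (x.take n1) (y.take n2) (x'.take n1) (y'.take n2) ∧
      y'.drop n2 = y.drop n2 := by
    cases e
    · obtain ⟨c1, rfl⟩ := h
      rcases c1.take n1 with ⟨c2, -⟩ | ⟨-, c2⟩
      · exact ⟨⟨c2, rfl⟩, rfl⟩
      · obtain ⟨r, hr, hr'⟩ := c2.ex_hole
        have := a5 r hr
        rw [hr'] at this
        cases this
    · obtain ⟨rfl, c1⟩ := h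
      rcases c1.take n2 with ⟨c2, c3⟩ | ⟨c2, -⟩
      · exact ⟨⟨rfl, c2⟩, c3⟩
      · exact absurd (by rw [b2, b3, c2]) (he rfl)
  refine ⟨x.take n1, y.take n2, x'.take n1, y'.take n2, hD.1, ⟨a2, a4, ?_⟩, ⟨b2, b4, ?_⟩,
    a3, b3, ?_⟩
  · rw [List.length_take]; omega
  · rw [List.length_take]; omega
  · intro X Y
    have e1 : vD z e x y x' y' X Y = vD z e (x.take n1) y (x'.take n1) y' X Y := by
      have f1 := FF_trim_left (x.take n1) (x.drop n1) y a5 X Y
      have f2 := FF_trim_left (x'.take n1) (x'.drop n1) y' a6 X Y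
      rw [List.take_append_drop] at f1 f2
      rw [vD, vD, f1, f2]
    have e2 := vD_drop_right hz hD.1 (y.drop n2) X Y
    rw [e1]
    have e3 : y'.take n2 ++ y.drop n2 = y' := by rw [← hD.2, List.take_append_drop]
    rwa [List.take_append_drop, e3] at e2

/-- the entry `t` describes `s` -/
def EncU (t : ℕ) : US → Prop
  | US.psi x y => uD t = 0 ∧ Enc t x y
  | US.dif R e x y x' y' => uD t = 1 ∧ uR t = R.toNat ∧ ue t = e.toNat ∧ Enc t x y ∧
      uA t = eh x'.reverse ∧ uB t = eh y'.reverse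

theorem up_pos (t : ℕ) : 0 < up t := Nat.two_pow_pos _

theorem ptD0_sound {z : ℝ} (hz : 1 ≤ z) {R e : Bool} {x y x' y' : List Site}
    (h : Dp R e x y x' y') {t : ℕ} (hR : uR t = R.toNat) (he : ue t = e.toNat)
    (H : ptD0 R.toNat (eh x.reverse) (eh x'.reverse) (el x.reverse) x.length
      (eh y.reverse) (eh y'.reverse) (el y.reverse) y.length t = true) :
    ∃ tx ty tx' ty', Dp R e tx ty tx' ty' ∧ Enc t tx ty ∧
      uA t = eh tx'.reverse ∧ uB t = eh ty'.reverse ∧
      ∀ X Y, vD z e x y x' y' X Y ≤ vD z e tx ty tx' ty' X Y := by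
  have hp := up_pos t
  cases R
  · unfold ptD0 at H
    have H' := H
    simp only [Bool.toNat_false] at H'
    rw [rb_or] at H'
    rcases H' with ⟨H', -⟩ | ⟨-, H'⟩
    · simp at H'
    rw [rb_and] at H'
    obtain ⟨H1, H2⟩ := H'
    have hne : e = true → uB t ≠ fhy t := by
      rintro rfl
      unfold uB mk2
      rw [hR, he]
      change (fhy t) + up t ≠ fhy t
      omega
    obtain ⟨tx, ty, tx', ty', k1, k2, k3, k4, k5, k6⟩ := drop_core hz h H1 H2 hne
    exact ⟨tx, ty, tx', ty', k1, ⟨k2, k3⟩, k4, k5, k6⟩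
  · unfold ptD0 at H
    have H' := H
    simp only [Bool.toNat_true] at H'
    rw [rb_or] at H'
    rcases H' with ⟨-, H'⟩ | ⟨H', -⟩
    swap
    · simp at H'
    rw [rb_and] at H'
    obtain ⟨H2, H1⟩ := H'
    have hne : e = true → uA t ≠ fhx t := by
      rintro rfl
      unfold uA mk2
      rw [hR, he]
      change (fhx t) + up t ≠ fhx t
      omega
    obtain ⟨ty, tx, ty', tx', k1, k2, k3, k4, k5, k6⟩ := drop_core hz (Dp_swap h) H1 H2 hne
    refine ⟨tx, ty, tx', ty', Dp_swap k1, ⟨k3, k2⟩, k5, k4, ?_⟩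
    intro X Y
    have := k6 Y X
    simpa only [vD, FF_comm y x, FF_comm y' x', FF_comm ty tx, FF_comm ty' tx'] using this

theorem cpn_eq (c : Bool) (x : List Site) :
    cpn c (el x.reverse) x.length = el (cf c x).reverse := by
  rw [← cf_reverse, el_cf, List.length_reverse]
  rfl

theorem eh_cf' (c : Bool) (x : List Site) : eh x.reverse = eh (cf c x).reverse := by
  rw [← cf_reverse, eh_cf]

theorem Dp_cf {R e : Bool} {x y x' y' : List Site} (c : Bool) (h : Dp R e x y x' y') :
    Dp R e (cf c x) (cf c y) (cf c x') (cf c y') := by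
  cases c
  · exact h
  · exact Dp_flp h

theorem Bd_cf {z : ℝ} {s : US} {n : ℕ} {c : ℝ} (b : Bool)
    (h : US.Bd z (bif b then s.cpl else s) n c) : US.Bd z s n c := by
  cases b
  · exact h
  · exact US.Bd_cpl h

theorem psi_cf (c : Bool) (x y : List Site) :
    (bif c then (US.psi x y).cpl else US.psi x y) = US.psi (cf c x) (cf c y) := by
  cases c <;> rfl

theorem dif_cf (c R e : Bool) (x y x' y' : List Site) :
    (bif c then (US.dif R e x y x' y').cpl else US.dif R e x y x' y') =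
      US.dif R e (cf c x) (cf c y) (cf c x') (cf c y') := by
  cases c <;> rfl

theorem psi_take {z : ℝ} {x y : List Site} {n m : ℕ} (hx : ∀ s ∈ x.drop n, s.1 = true)
    (hy : ∀ s ∈ y.drop m, s.1 = true) (X Y : List Bool) :
    (US.psi x y).val z X Y = (US.psi (x.take n) (y.take m)).val z X Y := by
  have f1 := FF_trim_left (x.take n) (x.drop n) y hx X Y
  have f2 := FF_trim_right (x.take n) (y.take m) (y.drop m) hy X Y
  rw [List.take_append_drop] at f1 f2
  simp only [US.val]
  rw [f1, f2]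

theorem Nat_ble_eq {a b : ℕ} : Nat.ble a b = true ↔ a ≤ b := by rw [Nat.ble_eq]

theorem Nat_beq_eq {a b : ℕ} : Nat.beq a b = true ↔ a = b := by rw [Nat.beq_eq]

theorem ptP_sound (z : ℝ) {x y : List Site} {f t : ℕ}
    (H : ptP f (eh x.reverse) (el x.reverse) x.length
      (eh y.reverse) (el y.reverse) y.length t = true) :
    ∃ s' : US, EncU t s' ∧ s'.good ∧ ∀ n c, US.Bd z s' n c → US.Bd z (US.psi x y) n c := by
  unfold ptP at H
  simp only at H
  generalize Nat.ble 2 f = c at H
  rw [cpn_eq, cpn_eq, eh_cf' c x, eh_cf' c y, ← cf_length c x, ← cf_length c y] at H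
  rw [rb_and] at H
  obtain ⟨H0, H⟩ := H
  rw [Nat_beq_eq] at H0
  rcases rb_or.1 H with ⟨-, H⟩ | ⟨-, H⟩
  · obtain ⟨H1, H2⟩ := rb_and.1 H
    obtain ⟨a1, a2, a3, a4⟩ := cmpT_sound H1
    obtain ⟨b1, b2, b3, b4⟩ := cmpT_sound H2
    refine ⟨US.psi ((cf c x).take (fnx t)) ((cf c y).take (fny t)), ⟨H0, ⟨a2, a3, ?_⟩,
      ⟨b2, b3, ?_⟩⟩, trivial, ?_⟩
    · rw [List.length_take]; omega
    · rw [List.length_take]; omega
    · intro n k hk
      apply Bd_cf c
      rw [psi_cf]
      exact US.Bd_mono (fun X Y => le_of_eq (psi_take a4 b4 X Y)) hk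
  · obtain ⟨H1, H2⟩ := rb_and.1 H
    obtain ⟨a1, a2, a3, a4⟩ := cmpT_sound H1
    obtain ⟨b1, b2, b3, b4⟩ := cmpT_sound H2
    refine ⟨US.psi ((cf c y).take (fnx t)) ((cf c x).take (fny t)), ⟨H0, ⟨a2, a3, ?_⟩,
      ⟨b2, b3, ?_⟩⟩, trivial, ?_⟩
    · rw [List.length_take]; omega
    · rw [List.length_take]; omega
    · intro n k hk
      apply Bd_cf c
      rw [psi_cf]
      apply US.Bd_swap
      exact US.Bd_mono (fun X Y => le_of_eq (psi_take a4 b4 X Y)) hk

theorem ptD_sound {z : ℝ} (hz : 1 ≤ z) {R e : Bool} {x y x' y' : List Site}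
    (h : Dp R e x y x' y') {f t : ℕ}
    (H : ptD f R.toNat e.toNat (eh x.reverse) (eh x'.reverse) (el x.reverse) x.length
      (eh y.reverse) (eh y'.reverse) (el y.reverse) y.length t = true) :
    ∃ s' : US, EncU t s' ∧ s'.good ∧
      ∀ n c, US.Bd z s' n c → US.Bd z (US.dif R e x y x' y') n c := by
  unfold ptD at H
  simp only at H
  generalize Nat.ble 2 f = c at H
  rw [cpn_eq, cpn_eq, eh_cf' c x, eh_cf' c y, eh_cf' c x', eh_cf' c y', ← cf_length c x,
    ← cf_length c y] at H
  obtain ⟨H0, H⟩ := rb_and.1 H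
  obtain ⟨He, H⟩ := rb_and.1 H
  rw [Nat_beq_eq] at H0 He
  have hc := Dp_cf c h
  rcases rb_or.1 H with ⟨-, H⟩ | ⟨-, H⟩
  · obtain ⟨HR, H⟩ := rb_and.1 H
    rw [Nat_beq_eq] at HR
    obtain ⟨tx, ty, tx', ty', k1, k2, k3, k4, k5⟩ := ptD0_sound hz hc HR He H
    refine ⟨US.dif R e tx ty tx' ty', ⟨H0, HR, He, k2, k3, k4⟩, k1, ?_⟩
    intro n k hk
    apply Bd_cf c
    rw [dif_cf]
    refine US.Bd_mono ?_ hk
    exact k5
  · obtain ⟨HR, H⟩ := rb_and.1 H
    rw [Nat_beq_eq] at HR
    have e1 : Nat.sub 1 R.toNat = (!R).toNat := by cases R <;> rfl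
    rw [e1] at HR H
    obtain ⟨tx, ty, tx', ty', k1, k2, k3, k4, k5⟩ := ptD0_sound hz (Dp_swap hc) HR He H
    refine ⟨US.dif (!R) e tx ty tx' ty', ⟨H0, HR, He, k2, k3, k4⟩, k1, ?_⟩
    intro n k hk
    apply Bd_cf c
    rw [dif_cf]
    apply US.Bd_swap
    refine US.Bd_mono ?_ hk
    exact k5

/-! ### reading a letter -/

theorem el_ny (a : Bool) (y : List Site) : el (ny a y).reverse = el y.reverse := by
  have key : ∀ (f : List Site) (v : Bool), el (passF a v f).1 = el f := by
    intro f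
    induction f with
    | nil => intro v; rfl
    | cons z f ih =>
      intro v
      rw [passF, el, el, ih]
      congr 1
      unfold stp
      split <;> split <;> rfl
  rw [ny, pass_eq, List.reverse_reverse, key]

theorem eh_ny (a : Bool) (y : List Site) {w r : ℕ}
    (hw : w = car (eh y.reverse) (em a y.reverse)) (hr : r = (pass a y).2.toNat) :
    Nat.sub w (Nat.mul (Nat.pow 2 y.length) r) = eh (ny a y).reverse := by
  change w - 2 ^ y.length * r = _
  rw [hw, hr, car_eq, Nat.add_sub_cancel]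

theorem eh_nx (a : Bool) (x y : List Site) {r : ℕ} (hr : r = (pass a y).2.toNat) :
    Nat.add (eh x.reverse) (Nat.mul (Nat.pow 2 x.length) (Nat.sub 1 r)) =
      eh (nx a x y).reverse := by
  rw [nx, List.reverse_cons, eh_append, List.length_reverse, hr]
  change _ + _ * (1 - _) = _
  cases (pass a y).2 <;> simp

theorem el_nx (a : Bool) (x y : List Site) {b : ℕ} (hb : b = 2 ^ x.length * a.toNat) :
    Nat.add (el x.reverse) b = el (nx a x y).reverse := by
  rw [nx, List.reverse_cons, el_append, List.length_reverse, hb]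
  rfl

theorem rdP_sound (z : ℝ) {a : Bool} {x y : List Site} {f b w r t : ℕ}
    (hb : b = 2 ^ x.length * a.toNat)
    (hw : w = car (eh y.reverse) (em a y.reverse)) (hr : r = (pass a y).2.toNat)
    (H : rdP f b (eh x.reverse) (el x.reverse) x.length (el y.reverse) y.length w r t = true) :
    ∃ s' : US, EncU t s' ∧ s'.good ∧
      ∀ n c, US.Bd z s' n c → US.Bd z (US.psi (nx a x y) (ny a y)) n c := by
  unfold rdP at H
  rw [eh_nx a x y hr, el_nx a x y hb, eh_ny a y hw hr, ← el_ny a y,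
    show Nat.succ x.length = (nx a x y).length from rfl, ← ny_length a y] at H
  exact ptP_sound z H

theorem rdD_sound {z : ℝ} (hz : 1 ≤ z) {a R e e' : Bool} {x y x' y' : List Site}
    {f b w w' r r' t : ℕ} (h : Dp R e' (nx a x y) (ny a y) (nx a x' y') (ny a y'))
    (he : (e'.toNat : ℤ) = e.toNat + (pass a y).2.toNat - (pass a y').2.toNat)
    (hx : x'.length = x.length) (hy : y'.length = y.length)
    (hb : b = 2 ^ x.length * a.toNat)
    (hw : w = car (eh y.reverse) (em a y.reverse)) (hr : r = (pass a y).2.toNat)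
    (hw' : w' = car (eh y'.reverse) (em a y'.reverse)) (hr' : r' = (pass a y').2.toNat)
    (H : rdD f R.toNat e.toNat b (eh x.reverse) (eh x'.reverse) (el x.reverse) x.length
      (el y.reverse) y.length w w' r r' t = true) :
    ∃ s' : US, EncU t s' ∧ s'.good ∧ ∀ n c, US.Bd z s' n c →
      US.Bd z (US.dif R e' (nx a x y) (ny a y) (nx a x' y') (ny a y')) n c := by
  unfold rdD at H
  have e1 : Nat.sub (Nat.add e.toNat r) r' = e'.toNat := by
    change e.toNat + r - r' = _
    rw [hr, hr']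
    omega
  have e2 := eh_nx a x' y' hr'
  rw [hx] at e2
  have e3 := eh_ny a y' hw' hr'
  rw [hy] at e3
  rw [e1, eh_nx a x y hr, el_nx a x y hb, eh_ny a y hw hr, e2, e3, ← el_ny a y,
    show Nat.succ x.length = (nx a x y).length from rfl, ← ny_length a y] at H
  exact ptD_sound hz h H

end Pool.Agent.ad013a
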