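import Pool.Agent.H.MP_ad013a_pr.h63u.Pair

/-!
# Exponential values and the inequalities between them
-/

namespace Pool.Agent.ad013a

open Finset Filter Topology

/-- value of a pair of states -/
noncomputable def vD (z : ℝ) (e : Bool) (x y x' y' : List Site) (X Y : List Bool) : ℝ :=
  z ^ FF x y X Y - z ^ (FF x' y' X Y - (e.toNat : ℤ))

theorem FF_trim_left (x u y : List Site) (hu : ∀ s ∈ u, s.1 = true) (X Y : List Bool) :
    FF (x ++ u) y X Y = FF x y X Y := by
  rw [FF, FX_trim _ _ hu, FF]

theorem FF_trim_right (x y u : List Site) (hu : ∀ s ∈ u, s.1 = true) (X Y : List Bool) :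
    FF x (y ++ u) X Y = FF x y X Y := by
  rw [FF, FX_trim _ _ hu, FF]

theorem phi1 {z : ℝ} (hz : 1 ≤ z) {a a' : ℤ} (h : a' ≤ a) (N : ℤ) :
    z ^ max a N - z ^ max a' N ≤ z ^ a - z ^ a' := by
  rcases le_total N a' with h1 | h1
  · rw [max_eq_left (h1.trans h), max_eq_left h1]
  · rw [max_eq_right h1]
    have e1 := zpow_le_zpow_right₀ hz h1
    rcases le_total N a with h2 | h2
    · rw [max_eq_left h2]; linarith
    · rw [max_eq_right h2]
      have := zpow_le_zpow_right₀ hz h
      linarith

theorem phi2 {z : ℝ} (hz : 1 ≤ z) {M N : ℤ} (h : M ≤ N) (T : ℤ) :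
    z ^ max N T - z ^ N ≤ z ^ max M T - z ^ M := by
  have e1 := zpow_le_zpow_right₀ hz h
  rcases le_total T N with h1 | h1
  · rw [max_eq_left h1]
    have := zpow_le_zpow_right₀ hz (le_max_left M T)
    linarith
  · rw [max_eq_right h1, max_eq_right (h.trans h1)]
    linarith

/-- the second state of a pair is at most the first -/
theorem Dp_le {R e : Bool} {x y x' y' : List Site} (h : Dp R e x y x' y') (X Y : List Bool) :
    FF x' y' X Y - (e.toNat : ℤ) ≤ FF x y X Y := by
  unfold FF
  cases R <;> cases e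
  · obtain ⟨h1, rfl⟩ := h
    have := h1.FX_le X Y
    simp only [Bool.toNat_false, Nat.cast_zero]
    omega
  · obtain ⟨rfl, h2⟩ := h
    have := h2.FX_le Y X
    simp only [Bool.toNat_true, Nat.cast_one]
    omega
  · obtain ⟨rfl, h2⟩ := h
    have := h2.FX_le Y X
    simp only [Bool.toNat_false, Nat.cast_zero]
    omega
  · obtain ⟨h1, rfl⟩ := h
    have := h1.FX_le X Y
    simp only [Bool.toNat_true, Nat.cast_one]
    omega

/-- dropping points outside the region -/
theorem vD_drop_right {z : ℝ} (hz : 1 ≤ z) {e : Bool} {x y x' y' : List Site}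
    (h : Dp false e x y x' y') (u : List Site) (X Y : List Bool) :
    vD z e x (y ++ u) x' (y' ++ u) X Y ≤ vD z e x y x' y' X Y := by
  have hle := Dp_le h X Y
  have hN : (FX u (ahead y' Y) X - cnt y') - (e.toNat : ℤ) = FX u (ahead y Y) X - cnt y := by
    cases e
    · obtain ⟨-, rfl⟩ := h
      simp
    · obtain ⟨-, h2⟩ := h
      rw [h2.ahead_eq, h2.cnt_eq]
      simp only [Bool.toNat_true, Nat.cast_one]
      ring
  have e1 : FF x (y ++ u) X Y = max (FF x y X Y) (FX u (ahead y Y) X - cnt y) := by
    unfold FF; rw [FX_append]; omega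
  have e2 : FF x' (y' ++ u) X Y - (e.toNat : ℤ) =
      max (FF x' y' X Y - (e.toNat : ℤ)) (FX u (ahead y Y) X - cnt y) := by
    rw [← hN]
    unfold FF; rw [FX_append]; omega
  rw [vD, e1, e2, vD]
  exact phi1 hz hle _

/-- a state is split at a far hole of the first side -/
theorem psi_split (z : ℝ) (t : List Site) (c : Bool) (y : List Site) (X Y : List Bool) :
    z ^ FF (t ++ [(false, c)]) y X Y = z ^ FF t y X Y +
      vD z false (t ++ [(false, c)]) y (t ++ [(true, c)]) y X Y := by
  rw [vD, FF_trim_left t [(true, c)] y (by simp)]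
  simp

/-- a pair is split at a far hole of the first side -/
theorem dif_split {z : ℝ} (hz : 1 ≤ z) (e : Bool) (t t' : List Site) (c : Bool)
    (y y' : List Site) (X Y : List Bool) :
    vD z e (t ++ [(false, c)]) y (t' ++ [(false, c)]) y' X Y ≤ vD z e t y t' y' X Y +
      vD z false (t ++ [(false, c)]) y (t ++ [(true, c)]) y X Y := by
  have h1 : FF t' y' X Y ≤ FF (t' ++ [(false, c)]) y' X Y := by
    have := FX_take_le t' [(false, c)] X Y
    unfold FF
    omega
  have h2 : z ^ (FF t' y' X Y - (e.toNat : ℤ)) ≤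
      z ^ (FF (t' ++ [(false, c)]) y' X Y - (e.toNat : ℤ)) :=
    zpow_le_zpow_right₀ hz (by omega)
  have h3 := psi_split z t c y X Y
  simp only [vD] at h3 ⊢
  linarith

/-- a pair whose region holds the corner -/
theorem dif_psi {z : ℝ} (hz : 1 ≤ z) {R : Bool} {x y x' y' : List Site}
    (h : Dp R true x y x' y') (X Y : List Bool) :
    vD z true x y x' y' X Y ≤ (1 - 1 / z) * z ^ FF x y X Y := by
  have hz0 : z ≠ 0 := by positivity
  have h1 : FF x y X Y ≤ FF x' y' X Y := by
    unfold FF
    cases R
    · obtain ⟨rfl, h2⟩ := h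
      have := h2.FX_le Y X
      omega
    · obtain ⟨h1, rfl⟩ := h
      have := h1.FX_le X Y
      omega
  have h2 : z ^ (FF x y X Y - 1) ≤ z ^ (FF x' y' X Y - 1) := zpow_le_zpow_right₀ hz (by omega)
  have h3 : z ^ (FF x y X Y - 1) = 1 / z * z ^ FF x y X Y := by
    rw [zpow_sub_one₀ hz0]; ring
  rw [vD]
  simp only [Bool.toNat_true, Nat.cast_one]
  rw [h3] at h2
  linarith

/-- turning a particle into a hole in a pair whose region is the far point -/
theorem dif_flat {z : ℝ} (hz : 1 ≤ z) {t t' : List Site} (h : Rel1 t' t) (c : Bool)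
    (y : List Site) (X Y : List Bool) :
    vD z false (t ++ [(false, c)]) y (t ++ [(true, c)]) y X Y ≤
      1 / z * vD z false (t' ++ [(false, c)]) y (t' ++ [(true, c)]) y X Y := by
  have hz0 : z ≠ 0 := by positivity
  set T := FX [(false, c)] (ahead t X) Y - cnt t with hT
  have e1 : FF (t ++ [(false, c)]) y X Y = max (FF t y X Y) T := by
    rw [hT]; unfold FF; rw [FX_append]; omega
  have e2 : FF (t' ++ [(false, c)]) y X Y = max (FF t' y X Y) (T + 1) := by
    rw [hT, h.ahead_eq, h.cnt_eq]; unfold FF; rw [FX_append]; omega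
  have h1 : FF t' y X Y - 1 ≤ FF t y X Y := by
    have := h.FX_le X Y
    unfold FF; omega
  have k := phi2 hz h1 T
  simp only [vD, Bool.toNat_false, Nat.cast_zero, sub_zero]
  rw [FF_trim_left t [(true, c)] y (by simp), FF_trim_left t' [(true, c)] y (by simp), e1, e2]
  refine k.trans (le_of_eq ?_)
  have e3 : max (FF t' y X Y - 1) T = max (FF t' y X Y) (T + 1) - 1 := by omega
  rw [e3, zpow_sub_one₀ hz0, zpow_sub_one₀ hz0]
  ring

theorem FX_flp (s : List Site) (A Y : List Bool) :
    FX (flp s) (A.map not) (Y.map not) = FX s A Y := by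
  induction s generalizing A with
  | nil => simp [flp, FX, LCS_map]
  | cons r s ih =>
    have h : flp (r :: s) = (r.1, !r.2) :: flp s := rfl
    have := ih (r.2 :: A)
    rw [List.map_cons] at this
    rw [h, FX, FX, LCS_map, this]

theorem FF_flp (x y : List Site) (X Y : List Bool) :
    FF (flp x) (flp y) (X.map not) (Y.map not) = FF x y X Y := by
  rw [FF, FX_flp, FX_flp, FF]

theorem FX_le_length (s : List Site) (A Y : List Bool) :
    FX s A Y ≤ (s.length : ℤ) + A.length := by
  induction s generalizing A with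
  | nil =>
    have := LCS_le_length A Y
    simp only [FX, List.length_nil, Nat.cast_zero, zero_add]
    exact_mod_cast this
  | cons r s ih =>
    have h1 := ih (r.2 :: A)
    have h2 : (LCS A Y : ℤ) ≤ A.length := by exact_mod_cast LCS_le_length A Y
    rw [FX, List.length_cons]
    rw [List.length_cons] at h1
    push_cast at h1 ⊢
    omega

theorem FX_nil_right (s : List Site) (A : List Bool) : FX s A [] ≤ 0 := by
  have h : ∀ A : List Bool, (LCS A [] : ℤ) = 0 := by
    intro A
    have := LCS_le_length ([] : List Bool) A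
    rw [LCS_comm] at this
    simpa using this
  induction s generalizing A with
  | nil => rw [FX, h]
  | cons r s ih =>
    have := ih (r.2 :: A)
    rw [FX, h]
    omega

theorem FF_nil (x y : List Site) (Y : List Bool) : FF x y [] Y ≤ (x.length : ℤ) := by
  have h1 := FX_le_length x [] Y
  have h2 := FX_nil_right y Y
  rw [List.length_nil] at h1
  unfold FF
  omega

end Pool.Agent.ad013a
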